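import Mathlib

/-!
# Bootstrap percolation: basic definitions
-/

set_option linter.unusedSectionVars false
set_option linter.unusedVariables false

namespace Pool.Agent.Helper19.Perco

open Set

variable {V W : Type*}

/-- number of neighbours of `v` in `S` -/
noncomputable def cnt (G : SimpleGraph V) (S : Set V) (v : V) : ℕ := (G.neighborSet v ∩ S).ncard

/-- closed sets for threshold `r` -/
def Closed (G : SimpleGraph V) (r : ℕ) (S : Set V) : Prop := ∀ v, r ≤ cnt G S v → v ∈ S

/-- one step -/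
def nxt (G : SimpleGraph V) (r : ℕ) (S : Set V) : Set V := S ∪ {v | r ≤ cnt G S v}

/-- the process -/
def proc (G : SimpleGraph V) (r : ℕ) (A : Set V) : ℕ → Set V
  | 0 => A
  | t + 1 => nxt G r (proc G r A t)

/-- percolation: the closure is everything -/
def Perc (G : SimpleGraph V) (r : ℕ) (A : Set V) : Prop :=
  ∀ S, A ⊆ S → Closed G r S → ∀ v, v ∈ S

lemma mem_nxt (G : SimpleGraph V) (r : ℕ) (S : Set V) (v : V) :
    v ∈ nxt G r S ↔ v ∈ S ∨ r ≤ cnt G S v := Iff.rfl

section finite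
variable [Finite V]

lemma cnt_mono (G : SimpleGraph V) {S S' : Set V} (h : S ⊆ S') (v : V) : cnt G S v ≤ cnt G S' v :=
  Set.ncard_le_ncard (Set.inter_subset_inter_right _ h) (Set.toFinite _)

lemma cnt_mono_pt (G : SimpleGraph V) {S S' : Set V} (v : V) (h : ∀ u, G.Adj v u → u ∈ S → u ∈ S') :
    cnt G S v ≤ cnt G S' v := by
  apply Set.ncard_le_ncard _ (Set.toFinite _)
  rintro u ⟨h1, h2⟩
  exact ⟨h1, h u h1 h2⟩

lemma cnt_le_one (G : SimpleGraph V) (S : Set V) (v : V)
    (h : ∀ u ∈ S, ∀ w ∈ S, G.Adj v u → G.Adj v w → u = w) : cnt G S v ≤ 1 := by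
  unfold cnt
  rw [Set.ncard_le_one (Set.toFinite _)]
  rintro u ⟨h1, h2⟩ w ⟨h3, h4⟩
  exact h u h2 w h4 h1 h3

lemma cnt_eq_zero (G : SimpleGraph V) (S : Set V) (v : V)
    (h : ∀ u ∈ S, ¬ G.Adj v u) : cnt G S v = 0 := by
  unfold cnt
  rw [Set.ncard_eq_zero (Set.toFinite _)]
  ext u
  simp only [Set.mem_inter_iff, SimpleGraph.mem_neighborSet, Set.mem_empty_iff_false, iff_false,
    not_and]
  intro h1 h2
  exact h u h2 h1

lemma cnt_pos_of (G : SimpleGraph V) (S : Set V) (v u : V) (h1 : G.Adj v u) (h2 : u ∈ S) :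
    1 ≤ cnt G S v := by
  unfold cnt
  exact (Set.ncard_pos (Set.toFinite _)).2 ⟨u, h1, h2⟩

lemma cnt_le_two_of (G : SimpleGraph V) (S : Set V) (v a b : V)
    (h : ∀ u ∈ S, G.Adj v u → u = a ∨ u = b) : cnt G S v ≤ 2 := by
  unfold cnt
  refine le_trans (Set.ncard_le_ncard (t := {a, b}) ?_ (Set.toFinite _)) ?_
  · rintro u ⟨h1, h2⟩
    rcases h u h2 h1 with h | h
    · left; exact h
    · right; exact h
  · refine le_trans (Set.ncard_insert_le _ _) ?_
    rw [Set.ncard_singleton]

lemma two_le_cnt (G : SimpleGraph V) (S : Set V) (v a b : V) (hab : a ≠ b)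
    (h1 : G.Adj v a) (h2 : G.Adj v b) (h3 : a ∈ S) (h4 : b ∈ S) : 2 ≤ cnt G S v := by
  unfold cnt
  rw [← Set.ncard_pair hab]
  apply Set.ncard_le_ncard _ (Set.toFinite _)
  intro u hu
  rcases hu with rfl | hu
  · exact ⟨h1, h3⟩
  · rw [Set.mem_singleton_iff] at hu; subst hu; exact ⟨h2, h4⟩

lemma cnt_insert_le (G : SimpleGraph V) (S : Set V) (v a : V) :
    cnt G (insert a S) v ≤ cnt G S v + 1 := by
  unfold cnt
  refine le_trans (Set.ncard_le_ncard (t := insert a (G.neighborSet v ∩ S)) ?_ (Set.toFinite _)) ?_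
  · rintro u ⟨h1, h2⟩
    rcases h2 with rfl | h2
    · left; rfl
    · right; exact ⟨h1, h2⟩
  · exact Set.ncard_insert_le _ _

lemma proc_mono_time (G : SimpleGraph V) (r : ℕ) (A : Set V) {s t : ℕ} (h : s ≤ t) :
    proc G r A s ⊆ proc G r A t := by
  induction h with
  | refl => exact subset_rfl
  | step h ih => exact ih.trans (fun v hv => Or.inl hv)

lemma nxt_mono (G : SimpleGraph V) (r : ℕ) {S S' : Set V} (h : S ⊆ S') :
    nxt G r S ⊆ nxt G r S' := by
  rintro v (hv | hv)
  · exact Or.inl (h hv)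
  · exact Or.inr (le_trans hv (cnt_mono G h v))

lemma proc_mono (G : SimpleGraph V) (r : ℕ) {A B : Set V} (h : A ⊆ B) (t : ℕ) :
    proc G r A t ⊆ proc G r B t := by
  induction t with
  | zero => exact h
  | succ t ih => exact nxt_mono G r ih

lemma proc_add (G : SimpleGraph V) (r : ℕ) (A : Set V) (s t : ℕ) :
    proc G r A (s + t) = proc G r (proc G r A s) t := by
  induction t with
  | zero => rfl
  | succ t ih => rw [← Nat.add_assoc]; show nxt _ _ _ = nxt _ _ _; rw [ih]

/-- barrier principle -/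
lemma proc_subset_barrier (G : SimpleGraph V) (r : ℕ) (A : Set V) (T : ℕ) (S : ℕ → Set V)
    (h0 : A ⊆ S 0) (hS : ∀ t < T, ∀ v, v ∉ S (t + 1) → v ∉ S t ∧ cnt G (S t) v < r) :
    ∀ t ≤ T, proc G r A t ⊆ S t := by
  intro t
  induction t with
  | zero => intro _; exact h0
  | succ t ih =>
    intro ht v hv
    by_contra hv'
    obtain ⟨h1, h2⟩ := hS t (by omega) v hv'
    have h3 := ih (by omega)
    rcases hv with hv | hv
    · exact h1 (h3 hv)
    · have : cnt G (proc G r A t) v ≤ cnt G (S t) v := cnt_mono G h3 v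
      have h4 : r ≤ cnt G (proc G r A t) v := hv
      omega

lemma proc_subset_closed (G : SimpleGraph V) (r : ℕ) (A S : Set V) (h : A ⊆ S)
    (hS : Closed G r S) (t : ℕ) : proc G r A t ⊆ S := by
  induction t with
  | zero => exact h
  | succ t ih =>
    rintro v (hv | hv)
    · exact ih hv
    · exact hS v (le_trans hv (cnt_mono G ih v))

lemma exists_proc_closed (G : SimpleGraph V) (r : ℕ) (A : Set V) :
    ∃ t, Closed G r (proc G r A t) := by
  by_contra hcon
  push Not at hcon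
  have hlt : ∀ t, (proc G r A t).ncard < (proc G r A (t + 1)).ncard := by
    intro t
    apply Set.ncard_lt_ncard _ (Set.toFinite _)
    refine ⟨proc_mono_time G r A (Nat.le_succ t), fun hsub => hcon t ?_⟩
    intro v hv
    exact hsub (Or.inr hv)
  have hge : ∀ t, t ≤ (proc G r A t).ncard := by
    intro t
    induction t with
    | zero => exact Nat.zero_le _
    | succ t ih => have := hlt t; omega
  have h1 := hge ((Set.univ : Set V).ncard + 1)
  have h2 : (proc G r A ((Set.univ : Set V).ncard + 1)).ncard ≤ (Set.univ : Set V).ncard :=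
    Set.ncard_le_ncard (Set.subset_univ _) (Set.toFinite _)
  omega

lemma perc_iff (G : SimpleGraph V) (r : ℕ) (A : Set V) :
    Perc G r A ↔ ∃ t, proc G r A t = Set.univ := by
  constructor
  · intro h
    obtain ⟨t, ht⟩ := exists_proc_closed G r A
    exact ⟨t, Set.eq_univ_of_forall (h _ (proc_mono_time G r A (Nat.zero_le t)) ht)⟩
  · rintro ⟨t, ht⟩ S hAS hS v
    apply proc_subset_closed G r A S hAS hS t
    rw [ht]; exact Set.mem_univ v

end finite

/-- percolating sets which are slow -/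
def Slow (G : SimpleGraph V) (r T : ℕ) : Prop :=
  ∃ A, Perc G r A ∧ ∃ v, v ∉ proc G r A T

lemma Slow.mono {G : SimpleGraph V} [Finite V] {r T T' : ℕ} (h : Slow G r T) (hT : T' ≤ T) :
    Slow G r T' := by
  obtain ⟨A, h1, v, hv⟩ := h
  exact ⟨A, h1, v, fun h => hv (proc_mono_time G r A hT h)⟩

/-! ### products -/

lemma cnt_boxProd [Finite V] [Finite W] (G : SimpleGraph V) (H : SimpleGraph W)
    (S : Set (V × W)) (x : V) (z : W) :
    cnt (G □ H) S (x, z) = cnt G {x' | (x', z) ∈ S} x + cnt H {z' | (x, z') ∈ S} z := by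
  unfold cnt
  rw [SimpleGraph.neighborSet_boxProd]
  have h1 : (G.neighborSet x ∩ {x' | (x', z) ∈ S}).ncard =
      ((fun x' => (x', z)) '' (G.neighborSet x ∩ {x' | (x', z) ∈ S})).ncard := by
    rw [Set.ncard_image_of_injective _ (fun a b h => (Prod.mk.inj h).1)]
  have h2 : (H.neighborSet z ∩ {z' | (x, z') ∈ S}).ncard =
      ((fun z' => (x, z')) '' (H.neighborSet z ∩ {z' | (x, z') ∈ S})).ncard := by
    rw [Set.ncard_image_of_injective _ (fun a b h => (Prod.mk.inj h).2)]
  rw [h1, h2, ← Set.ncard_union_eq _ (Set.toFinite _) (Set.toFinite _)]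
  · congr 1
    ext ⟨a, b⟩
    simp only [Set.mem_inter_iff, Set.mem_union, Set.mem_prod, SimpleGraph.mem_neighborSet,
      Set.mem_singleton_iff, Set.mem_image, Set.mem_ofPred_eq, Prod.mk.injEq]
    constructor
    · rintro ⟨(⟨h3, rfl⟩ | ⟨rfl, h3⟩), h4⟩
      · left; exact ⟨a, ⟨h3, h4⟩, rfl, rfl⟩
      · right; exact ⟨b, ⟨h3, h4⟩, rfl, rfl⟩
    · rintro (⟨a', ⟨h3, h4⟩, rfl, rfl⟩ | ⟨b', ⟨h3, h4⟩, rfl, rfl⟩)
      · exact ⟨Or.inl ⟨h3, rfl⟩, h4⟩
      · exact ⟨Or.inr ⟨rfl, h3⟩, h4⟩
  · rw [Set.disjoint_left]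
    rintro ⟨a, b⟩ ⟨a', ⟨h3, h4⟩, h5⟩ ⟨b', ⟨h6, h7⟩, h8⟩
    simp only [Prod.mk.injEq] at h5 h8
    obtain ⟨rfl, rfl⟩ := h5
    obtain ⟨rfl, rfl⟩ := h8
    exact G.irrefl h3

open Classical in
lemma cnt_path (m : ℕ) (Q : ℕ → Prop) (z : Fin m) :
    cnt (SimpleGraph.pathGraph m) {z' | Q z'.val} z =
      (if 0 < z.val ∧ Q (z.val - 1) then 1 else 0) +
      (if z.val + 1 < m ∧ Q (z.val + 1) then 1 else 0) := by
  have hz := z.isLt
  have key : (SimpleGraph.pathGraph m).neighborSet z ∩ {z' | Q z'.val} =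
      {z' | z'.val + 1 = z.val ∧ Q z'.val} ∪ {z' | z'.val = z.val + 1 ∧ Q z'.val} := by
    ext z'
    simp only [Set.mem_inter_iff, SimpleGraph.mem_neighborSet, SimpleGraph.pathGraph_adj,
      Set.mem_ofPred_eq, Set.mem_union]
    constructor
    · rintro ⟨h | h, h2⟩
      · right; exact ⟨h.symm, h2⟩
      · left; exact ⟨h, h2⟩
    · rintro (⟨h, h2⟩ | ⟨h, h2⟩)
      · exact ⟨Or.inr h, h2⟩
      · exact ⟨Or.inl h.symm, h2⟩
  unfold cnt
  rw [key, Set.ncard_union_eq _ (Set.toFinite _) (Set.toFinite _)]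
  · congr 1
    · split_ifs with h
      · have : {z' : Fin m | z'.val + 1 = z.val ∧ Q z'.val} = {⟨z.val - 1, by omega⟩} := by
          ext z'
          simp only [Set.mem_ofPred_eq, Set.mem_singleton_iff]
          constructor
          · rintro ⟨h1, _⟩; apply Fin.ext; simp only; omega
          · rintro rfl; simp only; exact ⟨by omega, h.2⟩
        rw [this, Set.ncard_singleton]
      · have : {z' : Fin m | z'.val + 1 = z.val ∧ Q z'.val} = ∅ := by
          ext z'
          simp only [Set.mem_ofPred_eq, Set.mem_empty_iff_false, iff_false, not_and]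
          intro h1 h2
          apply h
          refine ⟨by omega, ?_⟩
          have : z.val - 1 = z'.val := by omega
          rw [this]; exact h2
        rw [this, Set.ncard_empty]
    · split_ifs with h
      · have : {z' : Fin m | z'.val = z.val + 1 ∧ Q z'.val} = {⟨z.val + 1, h.1⟩} := by
          ext z'
          simp only [Set.mem_ofPred_eq, Set.mem_singleton_iff]
          constructor
          · rintro ⟨h1, _⟩; apply Fin.ext; simp only; omega
          · rintro rfl; simp only; exact ⟨trivial, h.2⟩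
        rw [this, Set.ncard_singleton]
      · have : {z' : Fin m | z'.val = z.val + 1 ∧ Q z'.val} = ∅ := by
          ext z'
          simp only [Set.mem_ofPred_eq, Set.mem_empty_iff_false, iff_false, not_and]
          intro h1 h2
          apply h
          have := z'.isLt
          refine ⟨by omega, ?_⟩
          rw [← h1]; exact h2
        rw [this, Set.ncard_empty]
  · rw [Set.disjoint_left]
    rintro z' ⟨h1, _⟩ ⟨h2, _⟩
    omega

/-- layered sets -/
def lay (m : ℕ) (S : ℕ → Set V) : Set (V × Fin m) := {p | p.1 ∈ S p.2.val}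

lemma mem_lay {m : ℕ} {S : ℕ → Set V} {x : V} {z : Fin m} : (x, z) ∈ lay m S ↔ x ∈ S z.val :=
  Iff.rfl

open Classical in
lemma cnt_lay [Finite V] (G : SimpleGraph V) (m : ℕ) (S : ℕ → Set V) (x : V) (z : Fin m) :
    cnt (G □ SimpleGraph.pathGraph m) (lay m S) (x, z) = cnt G (S z.val) x +
      ((if 0 < z.val ∧ x ∈ S (z.val - 1) then 1 else 0) +
      (if z.val + 1 < m ∧ x ∈ S (z.val + 1) then 1 else 0)) := by
  rw [cnt_boxProd]
  congr 1
  exact cnt_path m (fun i => x ∈ S i) z

/-- the layers of a set -/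
def layers {m : ℕ} (S : Set (V × Fin m)) (z : ℕ) : Set V := {x | ∃ h : z < m, (x, ⟨z, h⟩) ∈ S}

lemma lay_layers {m : ℕ} (S : Set (V × Fin m)) : lay m (layers S) = S := by
  ext ⟨x, z⟩
  constructor
  · rintro ⟨_, h⟩; exact h
  · intro h; exact ⟨z.isLt, h⟩

end Pool.Agent.Helper19.Perco
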