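import Mathlib
import Pool.Agent.Helper19.PercBasic

/-!
# Good configurations and the local estimates for stacking
-/

set_option linter.unusedSectionVars false
set_option linter.unusedVariables false

namespace Pool.Agent.Helper19.Perco

open Set

variable {V : Type*}

/-- at distance at least three -/
def Far (G : SimpleGraph V) (u v : V) : Prop :=
  u ≠ v ∧ ¬ G.Adj u v ∧ ∀ x, G.Adj x u → ¬ G.Adj x v

lemma Far.symm {G : SimpleGraph V} {u v : V} (h : Far G u v) : Far G v u :=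
  ⟨h.1.symm, fun h' => h.2.1 h'.symm, fun x h1 h2 => h.2.2 x h2 h1⟩

/-- Good configuration for threshold three, with delay `T`. -/
structure Good (G : SimpleGraph V) (T : ℕ) where
  A : Set V
  F : Set V
  pt : Bool → V
  p1 : Bool → V
  p2 : Bool → V
  nu : Bool → V
  FA : F ⊆ A
  Fne : F.Nonempty
  ptA : ∀ b, pt b ∉ A
  p1A : ∀ b, p1 b ∈ A
  p2A : ∀ b, p2 b ∈ A
  nuA : ∀ b, nu b ∈ A
  p12 : ∀ b, p1 b ≠ p2 b
  adj1 : ∀ b, G.Adj (pt b) (p1 b)
  adj2 : ∀ b, G.Adj (pt b) (p2 b)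
  nb : ∀ b u, u ∈ A → G.Adj (pt b) u → u = p1 b ∨ u = p2 b
  closed : ∀ x, x ∉ A → cnt G A x ≤ 2
  slow : ∀ b, pt (!b) ∉ proc G 3 (A ∪ {pt b}) T
  perc : ∀ b, Perc G 3 (A ∪ {pt b})
  perc2 : ∀ b, Perc G 2 (F ∪ {p1 b, pt b, nu b})
  conn : ∀ S : Set V, S.Nonempty → Closed G 1 S → ∀ v, v ∈ S
  D1 : ∀ x, x ∉ F → ∀ u ∈ F, ∀ w ∈ F, G.Adj x u → G.Adj x w → u = w
  D2 : ∀ b, ∀ u ∈ ({p1 b, pt b, p2 b, nu b} : Set V), ∀ w ∈ F, Far G u w
  D3 : ∀ b, ∀ u ∈ ({p1 b, pt b, p2 b, nu b} : Set V),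
    ∀ w ∈ ({p1 (!b), pt (!b), p2 (!b), nu (!b)} : Set V), Far G u w
  far1 : ∀ b, Far G (nu b) (p1 b)
  far2 : ∀ b, Far G (nu b) (p2 b)
  nupt : ∀ b, nu b ≠ pt b ∧ ¬ G.Adj (nu b) (pt b)
  line : ∀ b x, G.Adj x (p1 b) → G.Adj x (p2 b) → x = pt b
  np12 : ∀ b, ¬ G.Adj (p1 b) (p2 b)
  tri1 : ∀ b x, G.Adj x (p1 b) → ¬ G.Adj x (pt b)
  tri2 : ∀ b x, G.Adj x (p2 b) → ¬ G.Adj x (pt b)

namespace Good

variable {G : SimpleGraph V} {T : ℕ} (D : Good G T)

lemma m1 (b : Bool) : D.p1 b ∈ ({D.p1 b, D.pt b, D.p2 b, D.nu b} : Set V) := by simp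
lemma m2 (b : Bool) : D.pt b ∈ ({D.p1 b, D.pt b, D.p2 b, D.nu b} : Set V) := by simp
lemma m3 (b : Bool) : D.p2 b ∈ ({D.p1 b, D.pt b, D.p2 b, D.nu b} : Set V) := by simp
lemma m4 (b : Bool) : D.nu b ∈ ({D.p1 b, D.pt b, D.p2 b, D.nu b} : Set V) := by simp

/-- gap level one -/
def B1 (b : Bool) : Set V := D.F ∪ {D.p1 (!b), D.p2 (!b), D.p1 b, D.nu b}
/-- gap level two -/
def B2 (b : Bool) : Set V := D.F ∪ {D.p1 (!b), D.p2 (!b), D.p1 b, D.p2 b}
def C1 (b : Bool) : Set V := D.F ∪ {D.pt (!b), D.p1 (!b), D.p2 (!b), D.p1 b, D.nu b}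
def C2 (b : Bool) : Set V := D.F ∪ {D.pt (!b), D.p1 (!b), D.p2 (!b), D.p1 b, D.p2 b}
def C2r (b : Bool) : Set V := D.F ∪ {D.pt b, D.pt (!b), D.p1 (!b), D.p2 (!b), D.p1 b, D.p2 b}
def B2r (b : Bool) : Set V := D.F ∪ {D.pt b, D.p1 (!b), D.p2 (!b), D.p1 b, D.p2 b}

lemma B1_sub_A (b : Bool) : D.B1 b ⊆ D.A := by
  rintro x (h | rfl | rfl | rfl | rfl)
  · exact D.FA h
  · exact D.p1A _
  · exact D.p2A _
  · exact D.p1A _
  · exact D.nuA _

lemma B2_sub_A (b : Bool) : D.B2 b ⊆ D.A := by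
  rintro x (h | rfl | rfl | rfl | rfl)
  · exact D.FA h
  · exact D.p1A _
  · exact D.p2A _
  · exact D.p1A _
  · exact D.p2A _

lemma C1_eq (b : Bool) : D.C1 b = D.B1 b ∪ {D.pt (!b)} := by
  ext x; simp only [C1, B1, Set.mem_union, Set.mem_insert_iff, Set.mem_singleton_iff]; tauto
lemma C2_eq (b : Bool) : D.C2 b = D.B2 b ∪ {D.pt (!b)} := by
  ext x; simp only [C2, B2, Set.mem_union, Set.mem_insert_iff, Set.mem_singleton_iff]; tauto
lemma B2r_eq (b : Bool) : D.B2r b = D.B2 b ∪ {D.pt b} := by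
  ext x; simp only [B2r, B2, Set.mem_union, Set.mem_insert_iff, Set.mem_singleton_iff]; tauto
lemma C2r_eq (b : Bool) : D.C2r b = D.C2 b ∪ {D.pt b} := by
  ext x; simp only [C2r, C2, Set.mem_union, Set.mem_insert_iff, Set.mem_singleton_iff]; tauto

lemma B1_sub_C1 (b : Bool) : D.B1 b ⊆ D.C1 b := by rw [C1_eq]; exact Set.subset_union_left
lemma B2_sub_C2 (b : Bool) : D.B2 b ⊆ D.C2 b := by rw [C2_eq]; exact Set.subset_union_left
lemma C2_sub_C2r (b : Bool) : D.C2 b ⊆ D.C2r b := by rw [C2r_eq]; exact Set.subset_union_left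
lemma B2_sub_B2r (b : Bool) : D.B2 b ⊆ D.B2r b := by rw [B2r_eq]; exact Set.subset_union_left
lemma B2r_sub_C2r (b : Bool) : D.B2r b ⊆ D.C2r b := by
  intro x; simp only [C2r, B2r, Set.mem_union, Set.mem_insert_iff, Set.mem_singleton_iff]; tauto

lemma ptfar (b : Bool) : Far G (D.pt b) (D.pt (!b)) := D.D3 b _ (D.m2 b) _ (D.m2 (!b))

lemma ptne (b : Bool) : D.pt (!b) ≠ D.pt b := (D.ptfar b).1.symm

section
variable [Finite V]

/-- the set `C1` is closed for threshold two -/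
lemma cnt_C1_le (b : Bool) (x : V) (hx : x ∉ D.C1 b) : cnt G (D.C1 b) x ≤ 1 := by
  apply cnt_le_one
  have hxF : x ∉ D.F := fun h => hx (Or.inl h)
  have hxpt : x ≠ D.pt (!b) := by
    rintro rfl; apply hx; right; simp
  have hFF := D.D1 x hxF
  have f1 := fun w hw => (D.D2 b _ (D.m1 b) w hw).2.2 x
  have f2 := fun w hw => (D.D2 b _ (D.m4 b) w hw).2.2 x
  have f3 := fun w hw => (D.D2 (!b) _ (D.m1 (!b)) w hw).2.2 x
  have f4 := fun w hw => (D.D2 (!b) _ (D.m2 (!b)) w hw).2.2 x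
  have f5 := fun w hw => (D.D2 (!b) _ (D.m3 (!b)) w hw).2.2 x
  have g1 := (D.D3 b _ (D.m1 b) _ (D.m1 (!b))).2.2 x
  have g2 := (D.D3 b _ (D.m1 b) _ (D.m2 (!b))).2.2 x
  have g3 := (D.D3 b _ (D.m1 b) _ (D.m3 (!b))).2.2 x
  have g4 := (D.D3 b _ (D.m4 b) _ (D.m1 (!b))).2.2 x
  have g5 := (D.D3 b _ (D.m4 b) _ (D.m2 (!b))).2.2 x
  have g6 := (D.D3 b _ (D.m4 b) _ (D.m3 (!b))).2.2 x
  have h1 := (D.far1 b).2.2 x
  have h2 := D.line (!b) x
  have h3 := D.tri1 (!b) x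
  have h4 := D.tri2 (!b) x
  have h2' : G.Adj x (D.p1 (!b)) → ¬ G.Adj x (D.p2 (!b)) := fun a c => hxpt (h2 a c)
  rintro u (hu | rfl | rfl | rfl | rfl | rfl) w (hw | rfl | rfl | rfl | rfl | rfl) a c
  · exact hFF u hu w hw a c
  · exact absurd a (f4 u hu c)
  · exact absurd a (f3 u hu c)
  · exact absurd a (f5 u hu c)
  · exact absurd a (f1 u hu c)
  · exact absurd a (f2 u hu c)
  · exact absurd c (f4 w hw a)
  all_goals first | rfl | exact absurd c (f1 w hw a) | exact absurd c (f2 w hw a) | exact absurd c (f3 w hw a) | exact absurd c (f4 w hw a) | exact absurd c (f5 w hw a) | exact absurd c (g1 a) | exact absurd a (g1 c) | exact absurd c (g2 a) | exact absurd a (g2 c) | exact absurd c (g3 a) | exact absurd a (g3 c) | exact absurd c (g4 a) | exact absurd a (g4 c) | exact absurd c (g5 a) | exact absurd a (g5 c) | exact absurd c (g6 a) | exact absurd a (g6 c) | exact absurd c (h1 a) | exact absurd a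 (h1 c) | exact absurd c (h2' a) | exact absurd a (h2' c) | exact absurd c (h3 a) | exact absurd a (h3 c) | exact absurd c (h4 a) | exact absurd a (h4 c)

lemma cnt_C1_p2 (b : Bool) : D.p2 b ∉ D.C1 b ∧ cnt G (D.C1 b) (D.p2 b) = 0 := by
  have f1 := fun w hw => (D.D2 b _ (D.m3 b) w hw)
  have g1 := D.D3 b _ (D.m3 b) _ (D.m1 (!b))
  have g2 := D.D3 b _ (D.m3 b) _ (D.m2 (!b))
  have g3 := D.D3 b _ (D.m3 b) _ (D.m3 (!b))
  have h1 := D.far2 b
  have h2 := D.p12 b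
  have h3 := D.np12 b
  constructor
  · rintro (h | h | h | h | h | h)
    · exact (f1 _ h).1 rfl
    · exact g2.1 h
    · exact g1.1 h
    · exact g3.1 h
    · exact h2 h.symm
    · exact h1.1 h.symm
  · apply cnt_eq_zero
    rintro u (h | rfl | rfl | rfl | rfl | rfl) ha
    · exact (f1 _ h).2.1 ha
    · exact g2.2.1 ha
    · exact g1.2.1 ha
    · exact g3.2.1 ha
    · exact h3 ha.symm
    · exact h1.2.1 ha.symm

lemma cnt_C2r_le (b : Bool) (x : V) (hx : x ∉ D.C2r b) : cnt G (D.C2r b) x ≤ 1 := by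
  apply cnt_le_one
  have hxF : x ∉ D.F := fun h => hx (Or.inl h)
  have hxpt : x ≠ D.pt (!b) := by
    rintro rfl; apply hx; right; simp
  have hxpt' : x ≠ D.pt b := by
    rintro rfl; apply hx; right; simp
  have hFF := D.D1 x hxF
  have f1 := fun w hw => (D.D2 b _ (D.m1 b) w hw).2.2 x
  have f2 := fun w hw => (D.D2 b _ (D.m2 b) w hw).2.2 x
  have f2' := fun w hw => (D.D2 b _ (D.m3 b) w hw).2.2 x
  have f3 := fun w hw => (D.D2 (!b) _ (D.m1 (!b)) w hw).2.2 x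
  have f4 := fun w hw => (D.D2 (!b) _ (D.m2 (!b)) w hw).2.2 x
  have f5 := fun w hw => (D.D2 (!b) _ (D.m3 (!b)) w hw).2.2 x
  have g1 := (D.D3 b _ (D.m1 b) _ (D.m1 (!b))).2.2 x
  have g2 := (D.D3 b _ (D.m1 b) _ (D.m2 (!b))).2.2 x
  have g3 := (D.D3 b _ (D.m1 b) _ (D.m3 (!b))).2.2 x
  have g4 := (D.D3 b _ (D.m2 b) _ (D.m1 (!b))).2.2 x
  have g5 := (D.D3 b _ (D.m2 b) _ (D.m2 (!b))).2.2 x
  have g6 := (D.D3 b _ (D.m2 b) _ (D.m3 (!b))).2.2 x
  have g7 := (D.D3 b _ (D.m3 b) _ (D.m1 (!b))).2.2 x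
  have g8 := (D.D3 b _ (D.m3 b) _ (D.m2 (!b))).2.2 x
  have g9 := (D.D3 b _ (D.m3 b) _ (D.m3 (!b))).2.2 x
  have h2 := D.line (!b) x
  have h3 := D.tri1 (!b) x
  have h4 := D.tri2 (!b) x
  have h2' : G.Adj x (D.p1 (!b)) → ¬ G.Adj x (D.p2 (!b)) := fun a c => hxpt (h2 a c)
  have h5 := D.line b x
  have h6 := D.tri1 b x
  have h7 := D.tri2 b x
  have h5' : G.Adj x (D.p1 b) → ¬ G.Adj x (D.p2 b) := fun a c => hxpt' (h5 a c)
  rintro u (hu | rfl | rfl | rfl | rfl | rfl | rfl) w (hw | rfl | rfl | rfl | rfl | rfl | rfl) a c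
  · exact hFF u hu w hw a c
  · exact absurd a (f2 u hu c)
  · exact absurd a (f4 u hu c)
  · exact absurd a (f3 u hu c)
  · exact absurd a (f5 u hu c)
  · exact absurd a (f1 u hu c)
  · exact absurd a (f2' u hu c)
  all_goals first | rfl | exact absurd c (f1 w hw a) | exact absurd c (f2 w hw a) | exact absurd c (f2' w hw a) | exact absurd c (f3 w hw a) | exact absurd c (f4 w hw a) | exact absurd c (f5 w hw a) | exact absurd c (g1 a) | exact absurd a (g1 c) | exact absurd c (g2 a) | exact absurd a (g2 c) | exact absurd c (g3 a) | exact absurd a (g3 c) | exact absurd c (g4 a) | exact absurd a (g4 c) | exact absurd c (g5 a) | exact absurd a (g5 c) | exact absurd c (g6 a) | exact absurd a (g6 c) | exact absurd c (g7 a) | exact absurd a (g7 c) | exact absurd c (g8 a) | exact absurd a (g8 c) | exact absurd c (g9 a) | exact absurd a (g9 c) | exact absurd c (h2' a) | exact absurd a (h2' c) | exact absurd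 c (h3 a) | exact absurd a (h3 c) | exact absurd c (h4 a) | exact absurd a (h4 c) | exact absurd c (h5' a) | exact absurd a (h5' c) | exact absurd c (h6 a) | exact absurd a (h6 c) | exact absurd c (h7 a) | exact absurd a (h7 c)

lemma cnt_C2r_nu (b : Bool) : D.nu b ∉ D.C2r b ∧ cnt G (D.C2r b) (D.nu b) = 0 := by
  have f1 := fun w hw => (D.D2 b _ (D.m4 b) w hw)
  have g1 := D.D3 b _ (D.m4 b) _ (D.m1 (!b))
  have g2 := D.D3 b _ (D.m4 b) _ (D.m2 (!b))
  have g3 := D.D3 b _ (D.m4 b) _ (D.m3 (!b))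
  have h1 := D.far1 b
  have h2 := D.far2 b
  have h3 := D.nupt b
  constructor
  · rintro (h | h | h | h | h | h | h)
    · exact (f1 _ h).1 rfl
    · exact h3.1 h
    · exact g2.1 h
    · exact g1.1 h
    · exact g3.1 h
    · exact h1.1 h
    · exact h2.1 h
  · apply cnt_eq_zero
    rintro u (h | rfl | rfl | rfl | rfl | rfl | rfl) ha
    · exact (f1 _ h).2.1 ha
    · exact h3.2 ha
    · exact g2.2.1 ha
    · exact g1.2.1 ha
    · exact g3.2.1 ha
    · exact h1.2.1 ha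
    · exact h2.2.1 ha

/-- a subset of `A` together with the other special point has few neighbours of `pt b` -/
lemma cnt_pt_le (b : Bool) (S : Set V) (hS : S ⊆ D.A ∪ {D.pt (!b)}) : cnt G S (D.pt b) ≤ 2 := by
  apply cnt_le_two_of G S _ (D.p1 b) (D.p2 b)
  intro u hu ha
  rcases hS hu with h | h
  · exact D.nb b u h ha
  · rw [Set.mem_singleton_iff] at h
    subst h
    exact absurd ha (D.ptfar b).2.1


open Classical in
/-- indicator -/
noncomputable def ind (p : Prop) : ℕ := if p then 1 else 0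

omit [Finite V] in
lemma ind_le (p : Prop) : ind p ≤ 1 := by unfold ind; split_ifs <;> omega

omit [Finite V] in
lemma ind_zero {p : Prop} (h : ¬ p) : ind p = 0 := by unfold ind; rw [if_neg h]

lemma C1_sub (b : Bool) : D.C1 b ⊆ D.A ∪ {D.pt (!b)} := by
  rw [C1_eq]; exact Set.union_subset_union_left _ (D.B1_sub_A b)
lemma C2_sub (b : Bool) : D.C2 b ⊆ D.A ∪ {D.pt (!b)} := by
  rw [C2_eq]; exact Set.union_subset_union_left _ (D.B2_sub_A b)
lemma B2r_sub (b : Bool) : D.B2r b ⊆ D.A ∪ {D.pt b} := by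
  rw [B2r_eq]; exact Set.union_subset_union_left _ (D.B2_sub_A b)

lemma pt_notMem_C1 (b : Bool) : D.pt b ∉ D.C1 b := by
  intro h
  rcases D.C1_sub b h with h | h
  · exact D.ptA b h
  · exact D.ptne b h.symm

lemma pt'_notMem_B2r (b : Bool) : D.pt (!b) ∉ D.B2r b := by
  intro h
  rcases D.B2r_sub b h with h | h
  · exact D.ptA _ h
  · exact D.ptne b h

lemma mem_C2_of (b : Bool) {x : V} (h : x ∈ D.C2 b) : x ∈ D.C1 b ∨ x = D.p2 b := by
  simp only [C2, C1, Set.mem_union, Set.mem_insert_iff, Set.mem_singleton_iff] at h ⊢; tauto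

lemma mem_C2r_of (b : Bool) {x : V} (h : x ∈ D.C2r b) :
    x ∈ D.C1 b ∨ x = D.p2 b ∨ x = D.pt b := by
  simp only [C2r, C1, Set.mem_union, Set.mem_insert_iff, Set.mem_singleton_iff] at h ⊢; tauto

lemma mem_C1_of (b : Bool) {x : V} (h : x ∈ D.C1 b) : x ∈ D.C2 b ∨ x = D.nu b := by
  simp only [C2, C1, Set.mem_union, Set.mem_insert_iff, Set.mem_singleton_iff] at h ⊢; tauto

lemma mem_C2r_of' (b : Bool) {x : V} (h : x ∈ D.C2r b) : x ∈ D.B2r b ∨ x = D.pt (!b) := by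
  simp only [C2r, B2r, Set.mem_union, Set.mem_insert_iff, Set.mem_singleton_iff] at h ⊢; tauto

lemma mem_C2r_of'' (b : Bool) {x : V} (h : x ∈ D.C2r b) :
    x ∈ D.B2 b ∨ x = D.pt (!b) ∨ x = D.pt b := by
  simp only [C2r, B2, Set.mem_union, Set.mem_insert_iff, Set.mem_singleton_iff] at h ⊢; tauto

lemma J1 (b : Bool) (x : V) (hx : x ∉ D.C1 b) : cnt G (D.C1 b) x + ind (x ∈ D.C2 b) ≤ 1 := by
  by_cases h : x = D.p2 b
  · rw [h, (D.cnt_C1_p2 b).2]
    have := ind_le (D.p2 b ∈ D.C2 b); omega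
  · have h1 := D.cnt_C1_le b x hx
    have h2 : x ∉ D.C2 b := fun h' => by rcases D.mem_C2_of b h' with h'' | h''; exacts [hx h'', h h'']
    rw [ind_zero h2]; omega

lemma J2 (b : Bool) (Q : Set V) (x : V) (hx : x ∉ D.C2 b) (hQ : D.pt b ∉ Q) :
    cnt G (D.C2 b) x + ind (x ∈ D.C1 b) + ind (x ∈ Q) ≤ 2 := by
  have hq := ind_le (x ∈ Q)
  have hc := ind_le (x ∈ D.C1 b)
  by_cases h : x = D.pt b
  · subst h
    have h1 := D.cnt_pt_le b _ (D.C2_sub b)
    rw [ind_zero hQ, ind_zero (D.pt_notMem_C1 b)]; omega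
  by_cases h' : x = D.nu b
  · subst h'
    have h1 := cnt_mono G (D.C2_sub_C2r b) (D.nu b)
    rw [(D.cnt_C2r_nu b).2] at h1
    omega
  · have h3 : x ∉ D.C2r b := by
      rw [C2r_eq]; rintro (h'' | h''); exacts [hx h'', h h'']
    have h1 := cnt_mono G (D.C2_sub_C2r b) x
    have h2 := D.cnt_C2r_le b x h3
    have h4 : x ∉ D.C1 b := fun h'' => by rcases D.mem_C1_of b h'' with h'' | h''; exacts [hx h'', h' h'']
    rw [ind_zero h4]; omega

lemma J3 (b : Bool) (Q : Set V) (x : V) (hx : x ∉ D.B1 b) (hQ : D.pt (!b) ∉ Q) :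
    cnt G (D.B1 b) x + ind (x ∈ Q) + ind (x ∈ D.B2 b) ≤ 2 := by
  have hq := ind_le (x ∈ Q)
  have hc := ind_le (x ∈ D.B2 b)
  by_cases h : x = D.pt (!b)
  · subst h
    have h1 := D.cnt_pt_le (!b) (D.B1 b) ((D.B1_sub_A b).trans Set.subset_union_left)
    rw [ind_zero hQ, ind_zero (fun h => D.ptA _ (D.B2_sub_A b h))]; omega
  by_cases h' : x = D.p2 b
  · subst h'
    have h1 := cnt_mono G (D.B1_sub_C1 b) (D.p2 b)
    rw [(D.cnt_C1_p2 b).2] at h1
    omega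
  · have h3 : x ∉ D.C1 b := by
      rw [C1_eq]; rintro (h'' | h''); exacts [hx h'', h h'']
    have h1 := cnt_mono G (D.B1_sub_C1 b) x
    have h2 := D.cnt_C1_le b x h3
    have h4 : x ∉ D.B2 b := fun h'' => by
      rcases D.mem_C2_of b (D.B2_sub_C2 b h'') with h'' | h''; exacts [h3 h'', h' h'']
    rw [ind_zero h4]; omega

lemma J4 (b : Bool) (Q : Set V) (x : V) (hx : x ∉ D.B2 b) (hQ : D.pt b ∉ Q)
    (hQ' : D.pt (!b) ∉ Q) :
    cnt G (D.B2 b) x + ind (x ∈ D.B1 b) + ind (x ∈ Q) ≤ 2 := by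
  have hq := ind_le (x ∈ Q)
  have hc := ind_le (x ∈ D.B1 b)
  by_cases h : x = D.pt (!b)
  · subst h
    have h1 := D.cnt_pt_le (!b) (D.B2 b) ((D.B2_sub_A b).trans Set.subset_union_left)
    rw [ind_zero hQ', ind_zero (fun h => D.ptA _ (D.B1_sub_A b h))]; omega
  by_cases h1 : x = D.pt b
  · subst h1
    have h1 := D.cnt_pt_le b (D.B2 b) ((D.B2_sub_A b).trans Set.subset_union_left)
    rw [ind_zero hQ, ind_zero (fun h => D.ptA _ (D.B1_sub_A b h))]; omega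
  by_cases h' : x = D.nu b
  · subst h'
    have h1 := cnt_mono G ((D.B2_sub_C2 b).trans (D.C2_sub_C2r b)) (D.nu b)
    rw [(D.cnt_C2r_nu b).2] at h1
    omega
  · have h3 : x ∉ D.C2r b := fun h'' => by
      rcases D.mem_C2r_of'' b h'' with h'' | h'' | h''; exacts [hx h'', h h'', h1 h'']
    have h1 := cnt_mono G ((D.B2_sub_C2 b).trans (D.C2_sub_C2r b)) x
    have h2 := D.cnt_C2r_le b x h3
    have h4 : x ∉ D.B1 b := fun h'' => by
      rcases D.mem_C1_of b (D.B1_sub_C1 b h'') with h'' | h''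
      exacts [h3 (D.C2_sub_C2r b h''), h' h'']
    rw [ind_zero h4]; omega

lemma J5 (b : Bool) (x : V) (hx : x ∉ D.C2r b) : cnt G (D.C2r b) x + ind (x ∈ D.C1 b) ≤ 1 := by
  by_cases h : x = D.nu b
  · rw [h, (D.cnt_C2r_nu b).2]
    have := ind_le (D.nu b ∈ D.C1 b); omega
  · have h1 := D.cnt_C2r_le b x hx
    have h2 : x ∉ D.C1 b := fun h' => by
      rcases D.mem_C1_of b h' with h'' | h''; exacts [hx (D.C2_sub_C2r b h''), h h'']
    rw [ind_zero h2]; omega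

lemma J6 (b : Bool) (Q : Set V) (x : V) (hx : x ∉ D.C1 b) (hQ : D.pt b ∉ Q) :
    cnt G (D.C1 b) x + ind (x ∈ Q) + ind (x ∈ D.C2r b) ≤ 2 := by
  have hq := ind_le (x ∈ Q)
  have hc := ind_le (x ∈ D.C2r b)
  have h0 := D.cnt_C1_le b x hx
  by_cases h : x = D.pt b
  · subst h
    rw [ind_zero hQ]; omega
  by_cases h' : x = D.p2 b
  · subst h'
    rw [(D.cnt_C1_p2 b).2]
    omega
  · have h4 : x ∉ D.C2r b := fun h'' => by
      rcases D.mem_C2r_of b h'' with h'' | h'' | h''; exacts [hx h'', h' h'', h h'']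
    rw [ind_zero h4]; omega

lemma J7 (b : Bool) (Q : Set V) (x : V) (hx : x ∉ D.B2r b) (hQ : D.pt (!b) ∉ Q) :
    cnt G (D.B2r b) x + ind (x ∈ D.B1 b) + ind (x ∈ Q) ≤ 2 := by
  have hq := ind_le (x ∈ Q)
  have hc := ind_le (x ∈ D.B1 b)
  by_cases h : x = D.pt (!b)
  · subst h
    have h1 := D.cnt_pt_le (!b) (D.B2r b) (by rw [Bool.not_not]; exact D.B2r_sub b)
    rw [ind_zero hQ, ind_zero (fun h => D.ptA _ (D.B1_sub_A b h))]; omega
  by_cases h' : x = D.nu b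
  · subst h'
    have h1 := cnt_mono G (D.B2r_sub_C2r b) (D.nu b)
    rw [(D.cnt_C2r_nu b).2] at h1
    omega
  · have h3 : x ∉ D.C2r b := fun h'' => by
      rcases D.mem_C2r_of' b h'' with h'' | h''; exacts [hx h'', h h'']
    have h1 := cnt_mono G (D.B2r_sub_C2r b) x
    have h2 := D.cnt_C2r_le b x h3
    have h4 : x ∉ D.B1 b := fun h'' => by
      rcases D.mem_C1_of b (D.B1_sub_C1 b h'') with h'' | h''
      exacts [h3 (D.C2_sub_C2r b h''), h' h'']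
    rw [ind_zero h4]; omega

lemma J8 (b : Bool) (Q : Set V) (x : V) (hx : x ∉ D.B1 b) (hQ : D.pt b ∉ Q)
    (hQ' : D.pt (!b) ∉ Q) :
    cnt G (D.B1 b) x + ind (x ∈ Q) + ind (x ∈ D.B2r b) ≤ 2 := by
  have hq := ind_le (x ∈ Q)
  have hc := ind_le (x ∈ D.B2r b)
  by_cases h : x = D.pt (!b)
  · subst h
    have h1 := D.cnt_pt_le (!b) (D.B1 b) ((D.B1_sub_A b).trans Set.subset_union_left)
    rw [ind_zero hQ', ind_zero (D.pt'_notMem_B2r b)]; omega
  have h3 : x ∉ D.C1 b := by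
    rw [C1_eq]; rintro (h'' | h''); exacts [hx h'', h h'']
  have h1 := cnt_mono G (D.B1_sub_C1 b) x
  have h2 := D.cnt_C1_le b x h3
  by_cases h4 : x = D.pt b
  · subst h4
    rw [ind_zero hQ]; omega
  by_cases h' : x = D.p2 b
  · subst h'
    rw [(D.cnt_C1_p2 b).2] at h1
    omega
  · have h4 : x ∉ D.B2r b := fun h'' => by
      rcases D.mem_C2r_of b (D.B2r_sub_C2r b h'') with h'' | h'' | h''
      exacts [h3 h'', h' h'', h4 h'']
    rw [ind_zero h4]; omega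

end

end Good

end Pool.Agent.Helper19.Perco
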