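import Mathlib
import Pool.Agent.Helper19.PercGood

/-!
# A long induced path in a grid
-/

set_option linter.unusedSectionVars false
set_option linter.unusedVariables false

namespace Pool.Agent.Helper19.Perco

open Set

namespace Snake

/-- cells of the snake -/
def U (W k x y : ℕ) : Prop :=
  (y % 2 = 1 ∧ y + 1 ≤ 2 * k ∧ 1 ≤ x ∧ x ≤ W) ∨
  (y + 1 = 2 * k ∧ (x = W + 1 ∨ x = W + 2)) ∨
  (y % 4 = 2 ∧ y + 2 ≤ 2 * k ∧ x = W) ∨ (y % 4 = 0 ∧ y + 2 ≤ 2 * k ∧ x = 1) ∨
  (x = W + 2 ∧ 1 ≤ y ∧ y + 1 ≤ 2 * k) ∨
  (y = 1 ∧ (x = W + 3 ∨ x = W + 4)) ∨ (y = 0 ∧ x = W + 4)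

section
variable {W k x y : ℕ}
lemma U1 (h1 : y % 2 = 1) (h2 : y + 1 ≤ 2 * k) (h3 : 1 ≤ x) (h4 : x ≤ W) : U W k x y :=
  Or.inl ⟨h1, h2, h3, h4⟩
lemma U2 (h1 : y + 1 = 2 * k) (h2 : x = W + 1 ∨ x = W + 2) : U W k x y :=
  Or.inr (Or.inl ⟨h1, h2⟩)
lemma U3 (h1 : y % 4 = 2) (h2 : y + 2 ≤ 2 * k) (h3 : x = W) : U W k x y :=
  Or.inr (Or.inr (Or.inl ⟨h1, h2, h3⟩))
lemma U4 (h1 : y % 4 = 0) (h2 : y + 2 ≤ 2 * k) (h3 : x = 1) : U W k x y :=
  Or.inr (Or.inr (Or.inr (Or.inl ⟨h1, h2, h3⟩)))
lemma U5 (h1 : x = W + 2) (h2 : 1 ≤ y) (h3 : y + 1 ≤ 2 * k) : U W k x y :=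
  Or.inr (Or.inr (Or.inr (Or.inr (Or.inl ⟨h1, h2, h3⟩))))
lemma U6 (h1 : y = 1) (h2 : x = W + 3 ∨ x = W + 4) : U W k x y :=
  Or.inr (Or.inr (Or.inr (Or.inr (Or.inr (Or.inl ⟨h1, h2⟩)))))
lemma U7 (h1 : y = 0) (h2 : x = W + 4) : U W k x y :=
  Or.inr (Or.inr (Or.inr (Or.inr (Or.inr (Or.inr ⟨h1, h2⟩)))))
end

/-- position along the snake -/
def pos (W k x y : ℕ) : ℕ :=
  if x ≤ W + 2 ∧ y + 1 = 2 * k then (y / 2) * (W + 1) + x
  else if x = W + 2 then k * (W + 1) + (2 * k - y)
  else if W + 2 < x then k * (W + 1) + (2 * k - 1) + (x - W - 2) + (1 - y)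
  else if y % 2 = 0 then (y / 2) * (W + 1)
  else if y % 4 = 1 then (y / 2) * (W + 1) + x
  else (y / 2) * (W + 1) + (W + 1 - x)

/-- last position -/
def last (W k : ℕ) : ℕ := k * (W + 1) + 2 * k + 2

lemma pos_even {W k x y j : ℕ} (hy : y = 2 * j + 1) (hj : j % 2 = 0) (hk : k % 2 = 1)
    (hx : x ≤ W ∨ (x ≤ W + 2 ∧ j + 1 = k)) : pos W k x y = j * (W + 1) + x := by
  unfold pos
  have h1 : y / 2 = j := by omega
  by_cases h : x ≤ W + 2 ∧ y + 1 = 2 * k
  · rw [if_pos h, h1]
  · rw [if_neg h, if_neg (by omega), if_neg (by omega), if_neg (by omega), if_pos (by omega), h1]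

lemma pos_odd {W k x y j : ℕ} (hy : y = 2 * j + 1) (hj : j % 2 = 1) (hk : k % 2 = 1)
    (hx : x ≤ W) : pos W k x y = j * (W + 1) + (W + 1 - x) := by
  unfold pos
  have h1 : y / 2 = j := by omega
  rw [if_neg (by omega), if_neg (by omega), if_neg (by omega), if_neg (by omega),
    if_neg (by omega), h1]

lemma pos_turn {W k x y j : ℕ} (hy : y = 2 * j) (hx : x ≤ W) :
    pos W k x y = j * (W + 1) := by
  unfold pos
  have h1 : y / 2 = j := by omega
  rw [if_neg (by omega), if_neg (by omega), if_neg (by omega), if_pos (by omega), h1]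

lemma pos_col {W k x y : ℕ} (hx : x = W + 2) (hy : y + 1 ≤ 2 * k) (hk : k % 2 = 1) :
    pos W k x y = k * (W + 1) + (2 * k - y) := by
  subst hx
  by_cases h : y + 1 = 2 * k
  · obtain ⟨j, rfl⟩ : ∃ j, k = j + 1 := ⟨k - 1, by omega⟩
    rw [pos_even (j := j) (by omega) (by omega) hk (Or.inr ⟨le_rfl, rfl⟩)]
    have : 2 * (j + 1) - y = 1 := by omega
    rw [this]; ring
  · unfold pos
    rw [if_neg (by omega), if_pos rfl]

lemma pos_tail {W k x y : ℕ} (hx : W + 2 < x) :
    pos W k x y = k * (W + 1) + (2 * k - 1) + (x - W - 2) + (1 - y) := by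
  unfold pos
  rw [if_neg (by omega), if_neg (by omega), if_pos hx]

/-- the predicate: outside the snake, or position in `Q` -/
def Sn (W k : ℕ) (Q : ℕ → Prop) (a b : ℕ) : Prop := U W k a b → Q (pos W k a b)

open Good (ind ind_le ind_zero)

lemma ind_off {W k : ℕ} {Q : ℕ → Prop} {a b : ℕ} {c : Prop} (hc : c) (h : ¬ U W k a b) :
    ind (c ∧ Sn W k Q a b) = 1 := by
  unfold ind
  rw [if_pos ⟨hc, fun h' => absurd h' h⟩]

lemma ind_on {W k : ℕ} {Q : ℕ → Prop} {a b q : ℕ} {c : Prop} (hc : c) (h : U W k a b)
    (hq : pos W k a b = q) : ind (c ∧ Sn W k Q a b) = ind (Q q) := by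
  unfold ind Sn
  subst hq
  congr 1
  apply propext
  constructor
  · rintro ⟨_, h'⟩; exact h' h
  · intro h'; exact ⟨hc, fun _ => h'⟩

lemma ind_and {c p : Prop} (hc : c) : ind (c ∧ p) = ind p := by
  unfold ind; congr 1; apply propext; tauto

lemma ind_false {c p : Prop} (hc : ¬ c) : ind (c ∧ p) = 0 := by
  apply ind_zero; tauto

/-- the neighbour count formula for a snake -/
theorem formula (L n W k : ℕ) (hW : W % 4 = 1) (hW5 : 5 ≤ W) (hL : W + 8 ≤ L) (hk : k % 2 = 1) (hk3 : 3 ≤ k)
    (hn : 2 * k + 1 ≤ n) (Q : ℕ → Prop) (x y : ℕ) (h : U W k x y) :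
    (ind (0 < x ∧ Sn W k Q (x - 1) y) + ind (x + 1 < L ∧ Sn W k Q (x + 1) y)) +
      (ind (0 < y ∧ Sn W k Q x (y - 1)) + ind (y + 1 < n ∧ Sn W k Q x (y + 1))) =
    2 + (ind (0 < pos W k x y ∧ Q (pos W k x y - 1)) +
      ind (pos W k x y + 1 < last W k + 1 ∧ Q (pos W k x y + 1))) := by
  have hW1 : 1 ≤ W := by omega
  by_cases hx1 : x ≤ W
  · rcases Nat.even_or_odd' y with ⟨j, hy | hy⟩
    · -- turning cells (and the start)
      have hp : pos W k x y = j * (W + 1) := pos_turn hy hx1
      rw [hp]
      have hjk : j + 1 ≤ k := by unfold U at h; omega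
      have hlt : j * (W + 1) + (W + 1) ≤ k * (W + 1) := by
        calc j * (W + 1) + (W + 1) = (j + 1) * (W + 1) := by ring
          _ ≤ k * (W + 1) := Nat.mul_le_mul_right _ hjk
      by_cases hj : j % 2 = 0
      · -- left turn
        have hx : x = 1 := by unfold U at h; omega
        subst hx
        have eU : ind (y + 1 < n ∧ Sn W k Q 1 (y + 1)) = ind (Q (j * (W + 1) + 1)) :=
          ind_on (by omega) (U1 (by omega) (by omega) (by omega) (by omega))
            (by rw [pos_even (j := j) (by omega) hj hk (Or.inl hx1)])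
        have eL : ind (0 < 1 ∧ Sn W k Q (1 - 1) y) = 1 := ind_off (by omega) (by rintro (h | h | h | h | h | h | h) <;> omega)
        have eR : ind (1 + 1 < L ∧ Sn W k Q (1 + 1) y) = 1 :=
          ind_off (by omega) (by rintro (h | h | h | h | h | h | h) <;> omega)
        rw [eU, eL, eR, ind_and (p := Q (j * (W + 1) + 1))
          (show j * (W + 1) + 1 < last W k + 1 by unfold last; omega)]
        by_cases hj0 : j = 0
        · subst hj0
          rw [ind_false (by omega), ind_false (by simp)]
        · obtain ⟨j', rfl⟩ : ∃ j', j = j' + 1 := ⟨j - 1, by omega⟩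
          have hmul : (j' + 1) * (W + 1) = j' * (W + 1) + (W + 1) := by ring
          have eD : ind (0 < y ∧ Sn W k Q 1 (y - 1)) = ind (Q ((j' + 1) * (W + 1) - 1)) :=
            ind_on (by omega) (U1 (by omega) (by omega) (by omega) (by omega))
              (by rw [pos_odd (j := j') (by omega) (by omega) hk (by omega), hmul] <;> omega)
          rw [eD, ind_and (p := Q ((j' + 1) * (W + 1) - 1)) (by rw [hmul] <;> omega)]
      · -- right turn
        have hx : x = W := by unfold U at h; omega
        subst hx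
        obtain ⟨j', rfl⟩ : ∃ j', j = j' + 1 := ⟨j - 1, by omega⟩
        have hmul : (j' + 1) * (x + 1) = j' * (x + 1) + (x + 1) := by ring
        have eU : ind (y + 1 < n ∧ Sn x k Q x (y + 1)) = ind (Q ((j' + 1) * (x + 1) + 1)) :=
          ind_on (by omega) (U1 (by omega) (by omega) (by omega) (by omega))
            (by rw [pos_odd (j := j' + 1) (by omega) (by omega) hk le_rfl] <;> omega)
        have eD : ind (0 < y ∧ Sn x k Q x (y - 1)) = ind (Q ((j' + 1) * (x + 1) - 1)) :=
          ind_on (by omega) (U1 (by omega) (by omega) (by omega) (by omega))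
            (by rw [pos_even (j := j') (by omega) (by omega) hk (Or.inl le_rfl), hmul] <;> omega)
        have eL : ind (0 < x ∧ Sn x k Q (x - 1) y) = 1 := ind_off (by omega) (by rintro (h | h | h | h | h | h | h) <;> omega)
        have eR : ind (x + 1 < L ∧ Sn x k Q (x + 1) y) = 1 :=
          ind_off (by omega) (by rintro (h | h | h | h | h | h | h) <;> omega)
        rw [eU, eD, eL, eR, ind_and (p := Q ((j' + 1) * (x + 1) + 1))
          (show (j' + 1) * (x + 1) + 1 < last x k + 1 by unfold last; omega),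
          ind_and (p := Q ((j' + 1) * (x + 1) - 1)) (by rw [hmul] <;> omega)]
    · -- strands
      have hjk : j + 1 ≤ k := by unfold U at h; omega
      have hx0 : 1 ≤ x := by unfold U at h; omega
      have hlt : j * (W + 1) + (W + 1) ≤ k * (W + 1) := by
        calc j * (W + 1) + (W + 1) = (j + 1) * (W + 1) := by ring
          _ ≤ k * (W + 1) := Nat.mul_le_mul_right _ hjk
      by_cases hj : j % 2 = 0
      · -- left to right
        have hp : pos W k x y = j * (W + 1) + x := pos_even hy hj hk (Or.inl hx1)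
        rw [hp]
        rw [ind_and (p := Q (j * (W + 1) + x - 1)) (by omega),
          ind_and (p := Q (j * (W + 1) + x + 1)) (by unfold last; omega)]
        by_cases hxl : x = 1
        · subst hxl
          have eL : ind (0 < 1 ∧ Sn W k Q (1 - 1) y) = 1 :=
            ind_off (by omega) (by rintro (h | h | h | h | h | h | h) <;> omega)
          have eR : ind (1 + 1 < L ∧ Sn W k Q (1 + 1) y) = ind (Q (j * (W + 1) + 1 + 1)) := by
            exact ind_on (by omega) (U1 (by omega) (by omega) (by omega) (by omega))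
                (by rw [pos_even (j := j) hy hj hk (Or.inl (by omega))] <;> omega)
          have eD : ind (0 < y ∧ Sn W k Q 1 (y - 1)) = ind (Q (j * (W + 1) + 1 - 1)) :=
            ind_on (by omega) (U4 (by omega) (by omega) (by omega))
              (by rw [pos_turn (j := j) (by omega) hW1] <;> omega)
          have eU : ind (y + 1 < n ∧ Sn W k Q 1 (y + 1)) = 1 :=
            ind_off (by omega) (by rintro (h | h | h | h | h | h | h) <;> omega)
          rw [eL, eR, eD, eU]; omega
        by_cases hxr : x = W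
        · subst hxr
          have eL : ind (0 < x ∧ Sn x k Q (x - 1) y) = ind (Q (j * (x + 1) + x - 1)) :=
            ind_on (by omega) (U1 (by omega) (by omega) (by omega) (by omega))
                (by rw [pos_even (j := j) hy hj hk (Or.inl (by omega))] <;> omega)
          have eD : ind (0 < y ∧ Sn x k Q x (y - 1)) = 1 :=
            ind_off (by omega) (by rintro (h | h | h | h | h | h | h) <;> omega)
          by_cases hjl : j + 1 = k
          · have eR : ind (x + 1 < L ∧ Sn x k Q (x + 1) y) = ind (Q (j * (x + 1) + x + 1)) :=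
              ind_on (by omega) (U2 (by omega) (by omega))
                (by rw [pos_even (j := j) hy hj hk (Or.inr ⟨by omega, hjl⟩)] <;> omega)
            have eU : ind (y + 1 < n ∧ Sn x k Q x (y + 1)) = 1 :=
              ind_off (by omega) (by rintro (h | h | h | h | h | h | h) <;> omega)
            rw [eL, eR, eD, eU]; omega
          · have eR : ind (x + 1 < L ∧ Sn x k Q (x + 1) y) = 1 :=
              ind_off (by omega) (by rintro (h | h | h | h | h | h | h) <;> omega)
            have eU : ind (y + 1 < n ∧ Sn x k Q x (y + 1)) = ind (Q (j * (x + 1) + x + 1)) :=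
              ind_on (by omega) (U3 (by omega) (by omega) (by omega))
                (by rw [pos_turn (j := j + 1) (by omega) le_rfl]; ring)
            rw [eL, eR, eD, eU]; omega
        · have eL : ind (0 < x ∧ Sn W k Q (x - 1) y) = ind (Q (j * (W + 1) + x - 1)) :=
            ind_on (by omega) (U1 (by omega) (by omega) (by omega) (by omega))
                (by rw [pos_even (j := j) hy hj hk (Or.inl (by omega))] <;> omega)
          have eR : ind (x + 1 < L ∧ Sn W k Q (x + 1) y) = ind (Q (j * (W + 1) + x + 1)) :=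
            ind_on (by omega) (U1 (by omega) (by omega) (by omega) (by omega))
                (by rw [pos_even (j := j) hy hj hk (Or.inl (by omega))] <;> omega)
          have eD : ind (0 < y ∧ Sn W k Q x (y - 1)) = 1 :=
            ind_off (by omega) (by rintro (h | h | h | h | h | h | h) <;> (clear * - hy hj h hk hW hx1 hp hxl hxr; omega))
          have eU : ind (y + 1 < n ∧ Sn W k Q x (y + 1)) = 1 :=
            ind_off (by omega) (by rintro (h | h | h | h | h | h | h) <;> omega)
          rw [eL, eR, eD, eU]; omega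
      · -- right to left
        have hp : pos W k x y = j * (W + 1) + (W + 1 - x) := pos_odd hy (by omega) hk hx1
        rw [hp]
        have hj1 : W + 1 ≤ j * (W + 1) := by
          have : 1 ≤ j := by omega
          calc W + 1 = 1 * (W + 1) := by ring
            _ ≤ j * (W + 1) := Nat.mul_le_mul_right _ this
        rw [ind_and (p := Q (j * (W + 1) + (W + 1 - x) - 1)) (by omega),
          ind_and (p := Q (j * (W + 1) + (W + 1 - x) + 1)) (by unfold last; omega)]
        by_cases hxl : x = 1
        · subst hxl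
          have eL : ind (0 < 1 ∧ Sn W k Q (1 - 1) y) = 1 :=
            ind_off (by omega) (by rintro (h | h | h | h | h | h | h) <;> omega)
          have eR : ind (1 + 1 < L ∧ Sn W k Q (1 + 1) y) =
              ind (Q (j * (W + 1) + (W + 1 - 1) - 1)) := by
            exact ind_on (by omega) (U1 (by omega) (by omega) (by omega) (by omega))
                (by rw [pos_odd (j := j) hy (by omega) hk (by omega)] <;> omega)
          have eU : ind (y + 1 < n ∧ Sn W k Q 1 (y + 1)) =
              ind (Q (j * (W + 1) + (W + 1 - 1) + 1)) :=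
            ind_on (by omega) (U4 (by omega) (by omega) (by omega))
              (by rw [pos_turn (j := j + 1) (by omega) hW1]; have : (j + 1) * (W + 1) = j * (W + 1) + (W + 1) := by ring
                  omega)
          have eD : ind (0 < y ∧ Sn W k Q 1 (y - 1)) = 1 :=
            ind_off (by omega) (by rintro (h | h | h | h | h | h | h) <;> omega)
          rw [eL, eR, eD, eU]; omega
        by_cases hxr : x = W
        · subst hxr
          have eL : ind (0 < x ∧ Sn x k Q (x - 1) y) = ind (Q (j * (x + 1) + (x + 1 - x) + 1)) :=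
            ind_on (by omega) (U1 (by omega) (by omega) (by omega) (by omega))
                (by rw [pos_odd (j := j) hy (by omega) hk (by omega)] <;> omega)
          have eD : ind (0 < y ∧ Sn x k Q x (y - 1)) = ind (Q (j * (x + 1) + (x + 1 - x) - 1)) :=
            ind_on (by omega) (U3 (by omega) (by omega) (by omega))
              (by rw [pos_turn (j := j) (by omega) le_rfl] <;> omega)
          have eR : ind (x + 1 < L ∧ Sn x k Q (x + 1) y) = 1 :=
            ind_off (by omega) (by rintro (h | h | h | h | h | h | h) <;> omega)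
          have eU : ind (y + 1 < n ∧ Sn x k Q x (y + 1)) = 1 :=
            ind_off (by omega) (by rintro (h | h | h | h | h | h | h) <;> omega)
          rw [eL, eR, eD, eU]; omega
        · have eL : ind (0 < x ∧ Sn W k Q (x - 1) y) = ind (Q (j * (W + 1) + (W + 1 - x) + 1)) :=
            ind_on (by omega) (U1 (by omega) (by omega) (by omega) (by omega))
                (by rw [pos_odd (j := j) hy (by omega) hk (by omega)] <;> omega)
          have eR : ind (x + 1 < L ∧ Sn W k Q (x + 1) y) =
              ind (Q (j * (W + 1) + (W + 1 - x) - 1)) :=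
            ind_on (by omega) (U1 (by omega) (by omega) (by omega) (by omega))
                (by rw [pos_odd (j := j) hy (by omega) hk (by omega)] <;> omega)
          have eD : ind (0 < y ∧ Sn W k Q x (y - 1)) = 1 :=
            ind_off (by omega) (by rintro (h | h | h | h | h | h | h) <;> omega)
          have eU : ind (y + 1 < n ∧ Sn W k Q x (y + 1)) = 1 :=
            ind_off (by omega) (by rintro (h | h | h | h | h | h | h) <;> omega)
          rw [eL, eR, eD, eU]; omega
  · -- the part to the right
    obtain ⟨j, rfl⟩ : ∃ j, k = j + 1 := ⟨k - 1, by omega⟩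
    have hmul : (j + 1) * (W + 1) = j * (W + 1) + (W + 1) := by ring
    by_cases hx2 : x = W + 1
    · subst hx2
      have hy : y = 2 * j + 1 := by unfold U at h; omega
      have hp : pos W (j + 1) (W + 1) y = j * (W + 1) + (W + 1) :=
        pos_even hy (by omega) hk (Or.inr ⟨by omega, rfl⟩)
      rw [hp]
      rw [ind_and (p := Q (j * (W + 1) + (W + 1) - 1)) (by omega),
          ind_and (p := Q (j * (W + 1) + (W + 1) + 1)) (by unfold last; omega)]
      have eL : ind (0 < W + 1 ∧ Sn W (j + 1) Q (W + 1 - 1) y) =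
          ind (Q (j * (W + 1) + (W + 1) - 1)) :=
        ind_on (by omega) (U1 (by omega) (by omega) (by omega) (by omega))
          (by rw [pos_even (j := j) hy (by omega) hk (Or.inl (by omega))] <;> omega)
      have eR : ind (W + 1 + 1 < L ∧ Sn W (j + 1) Q (W + 1 + 1) y) =
          ind (Q (j * (W + 1) + (W + 1) + 1)) :=
        ind_on (by omega) (U2 (by omega) (by omega))
          (by rw [pos_even (j := j) hy (by omega) hk (Or.inr ⟨by omega, rfl⟩)] <;> omega)
      have eD : ind (0 < y ∧ Sn W (j + 1) Q (W + 1) (y - 1)) = 1 :=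
        ind_off (by omega) (by rintro (h | h | h | h | h | h | h) <;> omega)
      have eU : ind (y + 1 < n ∧ Sn W (j + 1) Q (W + 1) (y + 1)) = 1 :=
        ind_off (by omega) (by rintro (h | h | h | h | h | h | h) <;> omega)
      rw [eL, eR, eD, eU]; omega
    by_cases hx3 : x = W + 2
    · subst hx3
      have hy0 : 1 ≤ y := by unfold U at h; omega
      have hy1 : y ≤ 2 * j + 1 := by unfold U at h; omega
      have hp : pos W (j + 1) (W + 2) y = (j + 1) * (W + 1) + (2 * (j + 1) - y) :=
        pos_col rfl (by omega) hk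
      rw [hp]
      rw [ind_and (p := Q ((j + 1) * (W + 1) + (2 * (j + 1) - y) - 1)) (by omega),
          ind_and (p := Q ((j + 1) * (W + 1) + (2 * (j + 1) - y) + 1)) (by unfold last; omega)]
      by_cases hyt : y = 2 * j + 1
      · have eL : ind (0 < W + 2 ∧ Sn W (j + 1) Q (W + 2 - 1) y) =
            ind (Q ((j + 1) * (W + 1) + (2 * (j + 1) - y) - 1)) :=
          ind_on (by omega) (U2 (by omega) (by omega))
            (by rw [pos_even (j := j) hyt (by omega) hk (Or.inr ⟨by omega, rfl⟩)] <;> omega)
        have eD : ind (0 < y ∧ Sn W (j + 1) Q (W + 2) (y - 1)) =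
            ind (Q ((j + 1) * (W + 1) + (2 * (j + 1) - y) + 1)) :=
          ind_on (by omega) (U5 (by omega) (by omega) (by omega))
            (by rw [pos_col rfl (by omega) hk] <;> omega)
        have eR : ind (W + 2 + 1 < L ∧ Sn W (j + 1) Q (W + 2 + 1) y) = 1 :=
          ind_off (by omega) (by rintro (h | h | h | h | h | h | h) <;> omega)
        have eU : ind (y + 1 < n ∧ Sn W (j + 1) Q (W + 2) (y + 1)) = 1 :=
          ind_off (by omega) (by rintro (h | h | h | h | h | h | h) <;> omega)
        rw [eL, eR, eD, eU]; omega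
      by_cases hyb : y = 1
      · have eU : ind (y + 1 < n ∧ Sn W (j + 1) Q (W + 2) (y + 1)) =
            ind (Q ((j + 1) * (W + 1) + (2 * (j + 1) - y) - 1)) :=
          ind_on (by omega) (U5 (by omega) (by omega) (by omega))
            (by rw [pos_col rfl (by omega) hk] <;> omega)
        have eR : ind (W + 2 + 1 < L ∧ Sn W (j + 1) Q (W + 2 + 1) y) =
            ind (Q ((j + 1) * (W + 1) + (2 * (j + 1) - y) + 1)) :=
          ind_on (by omega) (U6 (by omega) (by omega))
            (by rw [pos_tail (by omega)] <;> omega)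
        have eL : ind (0 < W + 2 ∧ Sn W (j + 1) Q (W + 2 - 1) y) = 1 :=
          ind_off (by omega) (by rintro (h | h | h | h | h | h | h) <;> omega)
        have eD : ind (0 < y ∧ Sn W (j + 1) Q (W + 2) (y - 1)) = 1 :=
          ind_off (by omega) (by rintro (h | h | h | h | h | h | h) <;> omega)
        rw [eL, eR, eD, eU]; omega
      · have eU : ind (y + 1 < n ∧ Sn W (j + 1) Q (W + 2) (y + 1)) =
            ind (Q ((j + 1) * (W + 1) + (2 * (j + 1) - y) - 1)) :=
          ind_on (by omega) (U5 (by omega) (by omega) (by omega))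
            (by rw [pos_col rfl (by omega) hk] <;> omega)
        have eD : ind (0 < y ∧ Sn W (j + 1) Q (W + 2) (y - 1)) =
            ind (Q ((j + 1) * (W + 1) + (2 * (j + 1) - y) + 1)) :=
          ind_on (by omega) (U5 (by omega) (by omega) (by omega))
            (by rw [pos_col rfl (by omega) hk] <;> omega)
        have eL : ind (0 < W + 2 ∧ Sn W (j + 1) Q (W + 2 - 1) y) = 1 :=
          ind_off (by omega) (by rintro (h | h | h | h | h | h | h) <;> omega)
        have eR : ind (W + 2 + 1 < L ∧ Sn W (j + 1) Q (W + 2 + 1) y) = 1 :=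
          ind_off (by omega) (by rintro (h | h | h | h | h | h | h) <;> omega)
        rw [eL, eR, eD, eU]; omega
    · -- tail
      have hp : pos W (j + 1) x y =
          (j + 1) * (W + 1) + (2 * (j + 1) - 1) + (x - W - 2) + (1 - y) := pos_tail (by unfold U at h; omega)
      rcases (show (x = W + 3 ∧ y = 1) ∨ (x = W + 4 ∧ y = 1) ∨ (x = W + 4 ∧ y = 0) by
        unfold U at h; (clear * - hW hW5 hx1 hk hk3 h hx2 hx3; omega)) with ⟨rfl, rfl⟩ | ⟨rfl, rfl⟩ | ⟨rfl, rfl⟩
      · have hp' : pos W (j + 1) (W + 3) 1 = (j + 1) * (W + 1) + 2 * (j + 1) := by rw [hp]; omega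
        rw [hp', ind_and (p := Q ((j + 1) * (W + 1) + 2 * (j + 1) - 1)) (by omega),
          ind_and (p := Q ((j + 1) * (W + 1) + 2 * (j + 1) + 1)) (by unfold last; omega)]
        have eL : ind (0 < W + 3 ∧ Sn W (j + 1) Q (W + 3 - 1) 1) =
            ind (Q ((j + 1) * (W + 1) + 2 * (j + 1) - 1)) :=
          ind_on (by omega) (U5 (by omega) (by omega) (by omega))
            (by rw [pos_col (by omega) (by omega) hk] <;> omega)
        have eR : ind (W + 3 + 1 < L ∧ Sn W (j + 1) Q (W + 3 + 1) 1) =
            ind (Q ((j + 1) * (W + 1) + 2 * (j + 1) + 1)) :=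
          ind_on (by omega) (U6 (by omega) (by omega))
            (by rw [pos_tail (by omega)] <;> omega)
        have eD : ind (0 < 1 ∧ Sn W (j + 1) Q (W + 3) (1 - 1)) = 1 :=
          ind_off (by omega) (by rintro (h | h | h | h | h | h | h) <;> omega)
        have eU : ind (1 + 1 < n ∧ Sn W (j + 1) Q (W + 3) (1 + 1)) = 1 :=
          ind_off (by omega) (by rintro (h | h | h | h | h | h | h) <;> omega)
        rw [eL, eR, eD, eU]; omega
      · have hp' : pos W (j + 1) (W + 4) 1 = (j + 1) * (W + 1) + 2 * (j + 1) + 1 := by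
          rw [hp]; omega
        rw [hp', ind_and (p := Q ((j + 1) * (W + 1) + 2 * (j + 1) + 1 - 1)) (by omega),
          ind_and (p := Q ((j + 1) * (W + 1) + 2 * (j + 1) + 1 + 1)) (by unfold last; omega)]
        have eL : ind (0 < W + 4 ∧ Sn W (j + 1) Q (W + 4 - 1) 1) =
            ind (Q ((j + 1) * (W + 1) + 2 * (j + 1) + 1 - 1)) :=
          ind_on (by omega) (U6 (by omega) (by omega))
            (by rw [pos_tail (by omega)] <;> omega)
        have eD : ind (0 < 1 ∧ Sn W (j + 1) Q (W + 4) (1 - 1)) =
            ind (Q ((j + 1) * (W + 1) + 2 * (j + 1) + 1 + 1)) :=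
          ind_on (by omega) (U7 (by omega) (by omega))
            (by rw [pos_tail (by omega)] <;> omega)
        have eR : ind (W + 4 + 1 < L ∧ Sn W (j + 1) Q (W + 4 + 1) 1) = 1 :=
          ind_off (by omega) (by rintro (h | h | h | h | h | h | h) <;> omega)
        have eU : ind (1 + 1 < n ∧ Sn W (j + 1) Q (W + 4) (1 + 1)) = 1 :=
          ind_off (by omega) (by rintro (h | h | h | h | h | h | h) <;> omega)
        rw [eL, eR, eD, eU]; omega
      · have hp' : pos W (j + 1) (W + 4) 0 = (j + 1) * (W + 1) + 2 * (j + 1) + 2 := by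
          rw [hp]; omega
        rw [hp', ind_and (p := Q ((j + 1) * (W + 1) + 2 * (j + 1) + 2 - 1)) (by omega),
          ind_false (p := Q ((j + 1) * (W + 1) + 2 * (j + 1) + 2 + 1)) (by unfold last; omega)]
        have eU : ind (0 + 1 < n ∧ Sn W (j + 1) Q (W + 4) (0 + 1)) =
            ind (Q ((j + 1) * (W + 1) + 2 * (j + 1) + 2 - 1)) :=
          ind_on (by omega) (U6 (by omega) (by omega))
            (by rw [pos_tail (by omega)] <;> omega)
        have eL : ind (0 < W + 4 ∧ Sn W (j + 1) Q (W + 4 - 1) 0) = 1 :=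
          ind_off (by omega) (by rintro (h | h | h | h | h | h | h) <;> omega)
        have eR : ind (W + 4 + 1 < L ∧ Sn W (j + 1) Q (W + 4 + 1) 0) = 1 :=
          ind_off (by omega) (by rintro (h | h | h | h | h | h | h) <;> omega)
        rw [eU, eL, eR, ind_false (by omega)]; omega

end Snake

end Pool.Agent.Helper19.Perco
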