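import Mathlib
import Pool.Agent.Helper19.PercSnake

/-!
# The base configuration on a two dimensional grid
-/

set_option linter.unusedSectionVars false
set_option linter.unusedVariables false

namespace Pool.Agent.Helper19.Perco

open Set Snake Good

section base

variable (L n W k : ℕ)

abbrev Gr (L n : ℕ) : SimpleGraph (Fin L × Fin n) := SimpleGraph.pathGraph L □ SimpleGraph.pathGraph n

lemma gadj {L n : ℕ} {x x' : Fin L} {y y' : Fin n} : (Gr L n).Adj (x, y) (x', y') ↔
    ((x.val + 1 = x'.val ∨ x'.val + 1 = x.val) ∧ y.val = y'.val) ∨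
    ((y.val + 1 = y'.val ∨ y'.val + 1 = y.val) ∧ x.val = x'.val) := by
  rw [SimpleGraph.boxProd_adj, SimpleGraph.pathGraph_adj, SimpleGraph.pathGraph_adj]
  simp only [Fin.ext_iff]

/-- the sparse seeds -/
def Fp (x y : ℕ) : Prop :=
  ((x % 2 = 0 ∧ y % 2 = 0 ∧ (x + y) % 4 = 2) ∨
    (x % 2 = 1 ∧ x + 1 = L ∧ y % 2 = 0 ∧ (x + 1 + y) % 4 = 2) ∨
    (x % 2 = 0 ∧ y % 2 = 1 ∧ y + 1 = n ∧ (x + y + 1) % 4 = 2 ∧ x + 2 < L)) ∧
  2 ≤ y ∧ ¬ (x = 0 ∧ y = 2) ∧ ¬ (x = W + 3 ∧ y = 2)

/-- special column -/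
def xb (b : Bool) : ℕ := if b then W + 4 else 1

/-- distance -/
def dd (a b c d : ℕ) : ℕ := (a - c) + (c - a) + ((b - d) + (d - b))

lemma far_of_dd {L n : ℕ} {a c : Fin L} {b d : Fin n} (h : 3 ≤ dd a.val b.val c.val d.val) :
    Far (Gr L n) (a, b) (c, d) := by
  unfold dd at h
  refine ⟨?_, ?_, ?_⟩
  · intro he
    have h1 := congrArg Fin.val (Prod.mk.inj he).1
    have h2 := congrArg Fin.val (Prod.mk.inj he).2
    omega
  · rw [gadj]; omega
  · rintro ⟨x, y⟩ h1 h2
    rw [gadj] at h1 h2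
    omega

lemma Fp_dist {L n W a b c d : ℕ} (h1 : Fp L n W a b) (h2 : Fp L n W c d) (ha : a < L) (hb : b < n)
    (hc : c < L) (hd : d < n) (h : ¬ (a = c ∧ b = d)) : 3 ≤ dd a b c d := by
  unfold Fp at h1 h2
  unfold dd
  obtain ⟨h1, -⟩ := h1
  obtain ⟨h2, -⟩ := h2
  rcases h1 with h1 | h1 | h1 <;> rcases h2 with h2 | h2 | h2 <;> omega

lemma Fp_not_U {L n W k x y : ℕ} (hW : W % 4 = 1) (hW5 : 5 ≤ W) (hL : W + 8 ≤ L) (hk : k % 2 = 1)
    (hk3 : 3 ≤ k) (hn : 2 * k + 1 ≤ n) (h : Fp L n W x y) : ¬ U W k x y := by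
  unfold Fp at h
  rintro (h' | h' | h' | h' | h' | h' | h') <;> rcases h with ⟨h | h | h, h2, h3⟩ <;> omega

/-- cluster points are far from the seeds -/
lemma Fp_cluster {L n W x y c d : ℕ} (hW : W % 4 = 1) (hW5 : 5 ≤ W) (hL : W + 8 ≤ L)
    (hn : 7 ≤ n) (b : Bool) (h : Fp L n W x y)
    (hc : (d = 0 ∧ (c + 1 = xb W b ∨ c = xb W b ∨ c = xb W b + 1)) ∨ (d = 2 ∧ c = xb W b)) :
    3 ≤ dd c d x y := by
  unfold Fp at h
  unfold dd
  obtain ⟨h1, h2, h3, h4⟩ := h
  cases b
  · simp only [xb, Bool.false_eq_true, if_false] at hc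
    rcases h1 with h1 | h1 | h1 <;> rcases hc with hc | hc <;> omega
  · simp only [xb, if_true] at hc
    rcases h1 with h1 | h1 | h1 <;> rcases hc with hc | hc <;> omega

/-! ### spreading -/

variable {L n W k}

/-- membership in natural coordinates -/
def sm (S : Set (Fin L × Fin n)) (x y : ℕ) : Prop := ∃ (h1 : x < L) (h2 : y < n), ((⟨x, h1⟩ : Fin L), (⟨y, h2⟩ : Fin n)) ∈ S

lemma sm_two (S : Set (Fin L × Fin n)) (hS : Closed (Gr L n) 2 S) {x y a b c d : ℕ}
    (hx : x < L) (hy : y < n) (h1 : sm S a b) (h2 : sm S c d)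
    (h3 : ((x + 1 = a ∨ a + 1 = x) ∧ y = b) ∨ ((y + 1 = b ∨ b + 1 = y) ∧ x = a))
    (h4 : ((x + 1 = c ∨ c + 1 = x) ∧ y = d) ∨ ((y + 1 = d ∨ d + 1 = y) ∧ x = c))
    (h5 : ¬ (a = c ∧ b = d)) : sm S x y := by
  obtain ⟨ha, hb, h1⟩ := h1
  obtain ⟨hc, hd, h2⟩ := h2
  refine ⟨hx, hy, ?_⟩
  apply hS
  apply two_le_cnt (Gr L n) S _ (⟨a, ha⟩, ⟨b, hb⟩) (⟨c, hc⟩, ⟨d, hd⟩)
  · intro he
    apply h5
    exact ⟨congrArg Fin.val (Prod.mk.inj he).1, congrArg Fin.val (Prod.mk.inj he).2⟩
  · rw [gadj]; exact h3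
  · rw [gadj]; exact h4
  · exact h1
  · exact h2

lemma line_fill (N : ℕ) (P Q : ℕ → Prop) (lo : ℕ) (hP : ∀ i, lo ≤ i → i < N → P i)
    (c : ℕ) (hc : c < N) (hc0 : lo ≤ c) (hQ : Q c)
    (hr : ∀ i, lo ≤ i → i + 1 < N → Q i → P (i + 1) → Q (i + 1))
    (hl : ∀ i, lo ≤ i → i + 1 < N → Q (i + 1) → P i → Q i) : ∀ i, lo ≤ i → i < N → Q i := by
  have hup : ∀ j, c + j < N → Q (c + j) := by
    intro j
    induction j with
    | zero => intro _; exact hQ
    | succ j ih =>
      intro hj
      exact hr (c + j) (by omega) (by omega) (ih (by omega)) (hP _ (by omega) (by omega))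
  have hdn : ∀ j, lo + j ≤ c → Q (c - j) := by
    intro j
    induction j with
    | zero => intro _; exact hQ
    | succ j ih =>
      intro hj
      have e : c - (j + 1) + 1 = c - j := by omega
      apply hl (c - (j + 1)) (by omega) (by omega)
      · rw [e]; exact ih (by omega)
      · exact hP _ (by omega) (by omega)
  intro i hi hiN
  rcases Nat.lt_or_ge i c with h | h
  · have := hdn (c - i) (by omega)
    rwa [Nat.sub_sub_self h.le] at this
  · have := hup (i - c) (by omega)
    rwa [Nat.add_sub_cancel' h] at this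

/-- filling the next row of a window -/
lemma row_fill (S : Set (Fin L × Fin n)) (hS : Closed (Gr L n) 2 S) (lo hi y : ℕ) (y' : ℕ)
    (hy' : y' < n) (hyy : y + 1 = y' ∨ y' + 1 = y) (hhi : hi ≤ L)
    (hrow : ∀ x, lo ≤ x → x < hi → sm S x y) (c : ℕ) (hc0 : lo ≤ c) (hc : c < hi)
    (hcS : sm S c y') : ∀ x, lo ≤ x → x < hi → sm S x y' := by
  apply line_fill hi (fun x => sm S x y) (fun x => sm S x y') lo hrow c hc hc0 hcS
  · intro i hi0 hi1 h1 h2
    exact sm_two S hS (by omega) hy' h1 h2 (by omega) (by omega) (by omega)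
  · intro i hi0 hi1 h1 h2
    exact sm_two S hS (by omega) hy' h1 h2 (by omega) (by omega) (by omega)

/-- filling the next column -/
lemma col_fill (S : Set (Fin L × Fin n)) (hS : Closed (Gr L n) 2 S) (x x' : ℕ)
    (hx' : x' < L) (hxx : x + 1 = x' ∨ x' + 1 = x)
    (hcol : ∀ y, y < n → sm S x y) (c : ℕ) (hc : c < n)
    (hcS : sm S x' c) : ∀ y, y < n → sm S x' y := by
  have := line_fill n (fun y => sm S x y) (fun y => sm S x' y) 0 (fun i _ h => hcol i h) c hc
    (Nat.zero_le _) hcS
    (fun i hi0 hi1 h1 h2 => sm_two S hS hx' (by omega) h1 h2 (by omega) (by omega) (by omega))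
    (fun i hi0 hi1 h1 h2 => sm_two S hS hx' (by omega) h1 h2 (by omega) (by omega) (by omega))
  intro y hy
  exact this y (Nat.zero_le _) hy

/-- the full growth from a nucleus -/
lemma growth (hn : 7 ≤ n) (hW : W % 4 = 1) (hW5 : 5 ≤ W) (x0 : ℕ) (hx0 : x0 % 4 = 1)
    (hx0L : x0 + 5 < L) (hx0W : x0 = 1 ∨ x0 = W + 4)
    (S : Set (Fin L × Fin n)) (hS : Closed (Gr L n) 2 S)
    (hF : ∀ x y, x < L → y < n → Fp L n W x y → sm S x y)
    (s1 : sm S (x0 + 1) 0) (s2 : sm S x0 0) (s3 : sm S x0 2) :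
    ∀ x y, x < L → y < n → sm S x y := by
  -- the nucleus
  have a1 : sm S x0 1 := sm_two S hS (by omega) (by omega) s2 s3 (by omega) (by omega) (by omega)
  have a2 : sm S (x0 + 1) 1 :=
    sm_two S hS (by omega) (by omega) s1 a1 (by omega) (by omega) (by omega)
  have a3 : sm S (x0 + 1) 2 :=
    sm_two S hS (by omega) (by omega) a2 s3 (by omega) (by omega) (by omega)
  have a4 : sm S (x0 + 3) 2 := hF _ _ (by omega) (by omega) (by
    refine ⟨Or.inl ⟨by omega, by omega, by omega⟩, by omega, by omega, by omega⟩)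
  have a5 : sm S (x0 + 2) 2 :=
    sm_two S hS (by omega) (by omega) a3 a4 (by omega) (by omega) (by omega)
  have r2 : ∀ x, x0 ≤ x → x < x0 + 4 → sm S x 2 := by
    intro x h1 h2
    rcases (by omega : x = x0 ∨ x = x0 + 1 ∨ x = x0 + 2 ∨ x = x0 + 3) with rfl | rfl | rfl | rfl
    exacts [s3, a3, a5, a4]
  have r1 : ∀ x, x0 ≤ x → x < x0 + 4 → sm S x 1 :=
    row_fill S hS x0 (x0 + 4) 2 1 (by omega) (by omega) (by omega) r2 x0 le_rfl (by omega) a1
  have r0 : ∀ x, x0 ≤ x → x < x0 + 4 → sm S x 0 :=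
    row_fill S hS x0 (x0 + 4) 1 0 (by omega) (by omega) (by omega) r1 x0 le_rfl (by omega) s2
  -- vertical growth
  have hv : ∀ j, ∀ y, y ≤ 2 * j + 2 → y < n → ∀ x, x0 ≤ x → x < x0 + 4 → sm S x y := by
    intro j
    induction j with
    | zero =>
      intro y hy hyn
      rcases (by omega : y = 0 ∨ y = 1 ∨ y = 2) with rfl | rfl | rfl
      exacts [r0, r1, r2]
    | succ j ih =>
      intro y hy hyn
      by_cases hold : y ≤ 2 * j + 2
      · exact ih y hold hyn
      -- seed column
      obtain ⟨c, hc0, hc1, hc2, hc3⟩ : ∃ c, x0 ≤ c ∧ c < x0 + 4 ∧ c % 2 = 0 ∧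
          (c + (2 * j + 4)) % 4 = 2 := by
        by_cases h : j % 2 = 0
        · exact ⟨x0 + 1, by omega, by omega, by omega, by omega⟩
        · exact ⟨x0 + 3, by omega, by omega, by omega, by omega⟩
      have hprev := ih (2 * j + 2) le_rfl (by omega)
      by_cases hlast : 2 * j + 4 < n
      · have hseed : sm S c (2 * j + 4) := hF _ _ (by omega) (by omega)
          ⟨Or.inl ⟨by omega, by omega, by omega⟩, by omega, by omega, by omega⟩
        have h1 : sm S c (2 * j + 3) := sm_two S hS (by omega) (by omega)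
          (hprev c hc0 hc1) hseed (by omega) (by omega) (by omega)
        have hr3 := row_fill S hS x0 (x0 + 4) (2 * j + 2) (2 * j + 3) (by omega) (by omega)
          (by omega) hprev c hc0 hc1 h1
        have hr4 := row_fill S hS x0 (x0 + 4) (2 * j + 3) (2 * j + 4) (by omega) (by omega)
          (by omega) hr3 c hc0 hc1 hseed
        rcases (by omega : y = 2 * j + 3 ∨ y = 2 * j + 4) with rfl | rfl
        exacts [hr3, hr4]
      · have hy3 : y = 2 * j + 3 := by omega
        subst hy3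
        have hseed : sm S c (2 * j + 3) := hF _ _ (by omega) (by omega)
          ⟨Or.inr (Or.inr ⟨by omega, by omega, by omega, by omega, by omega⟩), by omega, by omega,
            by omega⟩
        exact row_fill S hS x0 (x0 + 4) (2 * j + 2) (2 * j + 3) (by omega) (by omega)
          (by omega) hprev c hc0 hc1 hseed
  have hcol0 : ∀ y, y < n → sm S x0 y := fun y hy => hv n y (by omega) hy x0 le_rfl (by omega)
  -- horizontal growth
  have hright : ∀ x, x0 ≤ x → x < L → ∀ y, y < n → sm S x y := by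
    intro x hx
    induction x, hx using Nat.le_induction with
    | base => intro _; exact hcol0
    | succ x hx ih =>
      intro hxL
      have ih' := ih (by omega)
      by_cases hpar : x % 2 = 1
      · -- next column even
        obtain ⟨c, hc, hcs⟩ : ∃ c, (c = 4 ∨ c = 6) ∧ (x + 1 + c) % 4 = 2 := by
          by_cases h : (x + 1) % 4 = 2
          · exact ⟨4, by omega, by omega⟩
          · exact ⟨6, by omega, by omega⟩
        have hseed : sm S (x + 1) c := hF _ _ (by omega) (by omega)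
          ⟨Or.inl ⟨by omega, by omega, by omega⟩, by omega, by omega, by omega⟩
        exact col_fill S hS x (x + 1) hxL (by omega) ih' c (by omega) hseed
      · obtain ⟨c, hc, hcs⟩ : ∃ c, (c = 4 ∨ c = 6) ∧ (x + 2 + c) % 4 = 2 := by
          by_cases h : (x + 2) % 4 = 2
          · exact ⟨4, by omega, by omega⟩
          · exact ⟨6, by omega, by omega⟩
        by_cases hlast : x + 2 < L
        · have hseed : sm S (x + 2) c := hF _ _ (by omega) (by omega)
            ⟨Or.inl ⟨by omega, by omega, by omega⟩, by omega, by omega, by omega⟩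
          have h1 : sm S (x + 1) c := sm_two S hS (by omega) (by omega) (ih' c (by omega)) hseed
            (by omega) (by omega) (by omega)
          exact col_fill S hS x (x + 1) hxL (by omega) ih' c (by omega) h1
        · have hseed : sm S (x + 1) c := hF _ _ (by omega) (by omega)
            ⟨Or.inr (Or.inl ⟨by omega, by omega, by omega, by omega⟩), by omega, by omega,
              by omega⟩
          exact col_fill S hS x (x + 1) hxL (by omega) ih' c (by omega) hseed
  have hleft : ∀ j, j ≤ x0 → ∀ y, y < n → sm S (x0 - j) y := by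
    intro j
    induction j with
    | zero => intro _; exact hcol0
    | succ j ih =>
      intro hj
      have ih' := ih (by omega)
      obtain ⟨x, hx⟩ : ∃ x, x0 - (j + 1) = x := ⟨_, rfl⟩
      have hx' : x0 - j = x + 1 := by omega
      rw [hx'] at ih'
      rw [hx]
      by_cases hpar : x % 2 = 0
      · obtain ⟨c, hc, hcs⟩ : ∃ c, (c = 4 ∨ c = 6) ∧ (x + c) % 4 = 2 := by
          by_cases h : x % 4 = 2
          · exact ⟨4, by omega, by omega⟩
          · exact ⟨6, by omega, by omega⟩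
        have hseed : sm S x c := hF _ _ (by omega) (by omega)
          ⟨Or.inl ⟨by omega, by omega, by omega⟩, by omega, by omega, by omega⟩
        exact col_fill S hS (x + 1) x (by omega) (by omega) ih' c (by omega) hseed
      · obtain ⟨c, hc, hcs⟩ : ∃ c, (c = 4 ∨ c = 6) ∧ (x - 1 + c) % 4 = 2 := by
          by_cases h : (x - 1) % 4 = 2
          · exact ⟨4, by omega, by omega⟩
          · exact ⟨6, by omega, by omega⟩
        have hseed : sm S (x - 1) c := hF _ _ (by omega) (by omega)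
          ⟨Or.inl ⟨by omega, by omega, by omega⟩, by omega, by omega, by omega⟩
        have h1 : sm S x c := sm_two S hS (by omega) (by omega) (ih' c (by omega)) hseed
            (by omega) (by omega) (by omega)
        exact col_fill S hS (x + 1) x (by omega) (by omega) ih' c (by omega) h1
  intro x y hx hy
  rcases Nat.lt_or_ge x x0 with h | h
  · have := hleft (x0 - x) (by omega) y hy
    rwa [Nat.sub_sub_self h.le] at this
  · exact hright x h hx y hy

end base

end Pool.Agent.Helper19.Perco
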