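import Mathlib
import Pool.Agent.Helper19.PercSnake

/-!
# Raising the threshold by two
-/

set_option linter.unusedSectionVars false
set_option linter.unusedVariables false

namespace Pool.Agent.Helper19.Perco

open Set

namespace Snake

open Good (ind ind_le ind_zero)

lemma pos_le {W k x y : ℕ} (hW5 : 5 ≤ W) (hk : k % 2 = 1) (hk3 : 3 ≤ k) (h : U W k x y) :
    pos W k x y < last W k + 1 := by
  have key : ∀ j, j + 1 ≤ k → j * (W + 1) + (W + 1) ≤ k * (W + 1) := by
    intro j hj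
    calc j * (W + 1) + (W + 1) = (j + 1) * (W + 1) := by ring
          _ ≤ k * (W + 1) := Nat.mul_le_mul_right _ hj
  unfold last
  rcases h with h | h | h | h | h | h | h
  · obtain ⟨j, hj⟩ : ∃ j, y = 2 * j + 1 := ⟨y / 2, by omega⟩
    have := key j (by omega)
    by_cases hj2 : j % 2 = 0
    · rw [pos_even hj hj2 hk (Or.inl h.2.2.2)]; omega
    · rw [pos_odd hj (by omega) hk h.2.2.2]; omega
  · obtain ⟨j, rfl⟩ : ∃ j, k = j + 1 := ⟨k - 1, by omega⟩
    have := key j le_rfl
    rw [pos_even (j := j) (by omega) (by omega) hk (Or.inr ⟨by omega, rfl⟩)]; omega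
  · obtain ⟨j, hj⟩ : ∃ j, y = 2 * j := ⟨y / 2, by omega⟩
    have := key j (by omega)
    rw [pos_turn hj (by omega)]; omega
  · obtain ⟨j, hj⟩ : ∃ j, y = 2 * j := ⟨y / 2, by omega⟩
    have := key j (by omega)
    rw [pos_turn hj (by omega)]; omega
  · rw [pos_col h.1 h.2.2 hk]; omega
  · rw [pos_tail (by omega)]; omega
  · rw [pos_tail (by omega)]; omega

lemma pos_zero {W k x y : ℕ} (hW5 : 5 ≤ W) (hk : k % 2 = 1) (hk3 : 3 ≤ k) (h : U W k x y)
    (h0 : pos W k x y = 0) : x = 1 ∧ y = 0 := by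
  have key : ∀ j, 1 ≤ j → (W + 1) ≤ j * (W + 1) := by
    intro j hj
    calc (W + 1) = 1 * (W + 1) := by ring
          _ ≤ j * (W + 1) := Nat.mul_le_mul_right _ hj
  have hkk := key k (by omega)
  rcases h with h | h | h | h | h | h | h
  · obtain ⟨j, hj⟩ : ∃ j, y = 2 * j + 1 := ⟨y / 2, by omega⟩
    by_cases hj2 : j % 2 = 0
    · rw [pos_even hj hj2 hk (Or.inl h.2.2.2)] at h0; omega
    · rw [pos_odd hj (by omega) hk h.2.2.2] at h0; omega
  · obtain ⟨j, rfl⟩ : ∃ j, k = j + 1 := ⟨k - 1, by omega⟩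
    rw [pos_even (j := j) (by omega) (by omega) hk (Or.inr ⟨by omega, rfl⟩)] at h0; omega
  · obtain ⟨j, hj⟩ : ∃ j, y = 2 * j := ⟨y / 2, by omega⟩
    have := key j (by omega)
    rw [pos_turn hj (by omega)] at h0; omega
  · obtain ⟨j, hj⟩ : ∃ j, y = 2 * j := ⟨y / 2, by omega⟩
    rw [pos_turn hj (by omega)] at h0
    by_cases hj0 : j = 0
    · omega
    · have := key j (by omega); omega
  · rw [pos_col h.1 h.2.2 hk] at h0; omega
  · rw [pos_tail (by omega)] at h0; omega
  · rw [pos_tail (by omega)] at h0; omega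

lemma pos_last {W k x y : ℕ} (hW5 : 5 ≤ W) (hk : k % 2 = 1) (hk3 : 3 ≤ k) (h : U W k x y)
    (h0 : pos W k x y = last W k) : x = W + 4 ∧ y = 0 := by
  have key : ∀ j, j + 1 ≤ k → j * (W + 1) + (W + 1) ≤ k * (W + 1) := by
    intro j hj
    calc j * (W + 1) + (W + 1) = (j + 1) * (W + 1) := by ring
          _ ≤ k * (W + 1) := Nat.mul_le_mul_right _ hj
  unfold last at h0
  rcases h with h | h | h | h | h | h | h
  · obtain ⟨j, hj⟩ : ∃ j, y = 2 * j + 1 := ⟨y / 2, by omega⟩
    have := key j (by omega)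
    by_cases hj2 : j % 2 = 0
    · rw [pos_even hj hj2 hk (Or.inl h.2.2.2)] at h0; omega
    · rw [pos_odd hj (by omega) hk h.2.2.2] at h0; omega
  · obtain ⟨j, rfl⟩ : ∃ j, k = j + 1 := ⟨k - 1, by omega⟩
    have := key j le_rfl
    rw [pos_even (j := j) (by omega) (by omega) hk (Or.inr ⟨by omega, rfl⟩)] at h0; omega
  · obtain ⟨j, hj⟩ : ∃ j, y = 2 * j := ⟨y / 2, by omega⟩
    have := key j (by omega)
    rw [pos_turn hj (by omega)] at h0; omega
  · obtain ⟨j, hj⟩ : ∃ j, y = 2 * j := ⟨y / 2, by omega⟩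
    have := key j (by omega)
    rw [pos_turn hj (by omega)] at h0; omega
  · rw [pos_col h.1 h.2.2 hk] at h0; omega
  · rw [pos_tail (by omega)] at h0; omega
  · rw [pos_tail (by omega)] at h0; omega

lemma Sn_congr {W k : ℕ} {Q Q' : ℕ → Prop} (h : ∀ x y, U W k x y → (Q (pos W k x y) ↔ Q' (pos W k x y)))
    (a b : ℕ) : Sn W k Q a b = Sn W k Q' a b := by
  unfold Sn
  apply propext
  constructor
  · intro h1 h2; exact (h a b h2).1 (h1 h2)
  · intro h1 h2; exact (h a b h2).2 (h1 h2)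

lemma pos_surj (L n W k : ℕ) (hW : W % 4 = 1) (hW5 : 5 ≤ W) (hL : W + 8 ≤ L) (hk : k % 2 = 1)
    (hk3 : 3 ≤ k) (hn : 2 * k + 1 ≤ n) (p : ℕ) (hp : p ≤ last W k) :
    ∃ x y, U W k x y ∧ pos W k x y = p := by
  induction p with
  | zero =>
    refine ⟨1, 0, U4 (by omega) (by omega) rfl, ?_⟩
    rw [pos_turn (j := 0) (by omega) (by omega)]; simp
  | succ p ih =>
    obtain ⟨x, y, hU, hpos⟩ := ih (by omega)
    by_contra hcon
    push Not at hcon
    have e1 := formula L n W k hW hW5 hL hk hk3 hn (fun q => q = p + 1) x y hU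
    have e2 := formula L n W k hW hW5 hL hk hk3 hn (fun _ => False) x y hU
    have hc : ∀ a b, Sn W k (fun q => q = p + 1) a b = Sn W k (fun _ => False) a b :=
      Sn_congr (fun x y h => ⟨fun h' => hcon x y h h', fun h' => h'.elim⟩)
    simp only [hc] at e1
    rw [e2] at e1
    rw [hpos] at e1
    have h1 : ind (p + 1 < last W k + 1 ∧ True) = 1 := by
      unfold ind; rw [if_pos ⟨by omega, trivial⟩]
    have h2 : ind (0 < p ∧ False) = 0 := ind_zero (by tauto)
    have h3 : ind (p + 1 < last W k + 1 ∧ False) = 0 := ind_zero (by tauto)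
    simp only at e1
    rw [h1, h2, h3] at e1
    omega

end Snake

section raise

open Snake Good

variable {V : Type*} [Finite V]

lemma cnt_path' (m : ℕ) (Q : ℕ → Prop) (z : Fin m) :
    cnt (SimpleGraph.pathGraph m) {z' | Q z'.val} z =
      ind (0 < z.val ∧ Q (z.val - 1)) + ind (z.val + 1 < m ∧ Q (z.val + 1)) := by
  rw [cnt_path]
  unfold ind
  congr 1 <;> (split_ifs <;> rfl)

lemma cnt_grid (L n : ℕ) (S : ℕ → ℕ → Prop) (x : Fin L) (y : Fin n) :
    cnt (SimpleGraph.pathGraph L □ SimpleGraph.pathGraph n) {v | S v.1.val v.2.val} (x, y) =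
      (ind (0 < x.val ∧ S (x.val - 1) y.val) + ind (x.val + 1 < L ∧ S (x.val + 1) y.val)) +
      (ind (0 < y.val ∧ S x.val (y.val - 1)) + ind (y.val + 1 < n ∧ S x.val (y.val + 1))) := by
  rw [cnt_boxProd]
  have h1 := cnt_path' L (fun a => S a y.val) x
  have h2 := cnt_path' n (fun b => S x.val b) y
  exact congrArg₂ (· + ·) h1 h2

variable (L n W k : ℕ)

/-- pull back along the snake -/
def pull (S : Set (V × Fin (last W k + 1))) : Set (V × (Fin L × Fin n)) :=
  {v | Sn W k (fun p => ∃ h : p < last W k + 1, (v.1, ⟨p, h⟩) ∈ S) v.2.1.val v.2.2.val}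

variable (hW : W % 4 = 1) (hW5 : 5 ≤ W) (hL : W + 8 ≤ L) (hk : k % 2 = 1) (hk3 : 3 ≤ k)
  (hn : 2 * k + 1 ≤ n)

include hW hW5 hL hk hk3 hn in
lemma cnt_pull (K : SimpleGraph V) (S : Set (V × Fin (last W k + 1))) (κ : V) (x : Fin L)
    (y : Fin n) (hU : U W k x.val y.val) :
    cnt (K □ (SimpleGraph.pathGraph L □ SimpleGraph.pathGraph n)) (pull L n W k S) (κ, (x, y)) =
      2 + cnt (K □ SimpleGraph.pathGraph (last W k + 1)) S
        (κ, ⟨pos W k x.val y.val, pos_le hW5 hk hk3 hU⟩) := by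
  rw [cnt_boxProd K (SimpleGraph.pathGraph (last W k + 1)) S κ,
    cnt_boxProd K (SimpleGraph.pathGraph L □ SimpleGraph.pathGraph n) _ κ (x, y)]
  have e1 : {κ' | (κ', (x, y)) ∈ pull L n W k S} =
      {κ' | (κ', (⟨pos W k x.val y.val, pos_le hW5 hk hk3 hU⟩ : Fin (last W k + 1))) ∈ S} := by
    ext κ'
    constructor
    · intro h
      obtain ⟨_, h2⟩ := h hU
      exact h2
    · intro h _
      exact ⟨pos_le hW5 hk hk3 hU, h⟩
  rw [e1]
  let Q : ℕ → Prop := fun p => ∃ h : p < last W k + 1, (κ, (⟨p, h⟩ : Fin (last W k + 1))) ∈ S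
  have e2 : cnt (SimpleGraph.pathGraph L □ SimpleGraph.pathGraph n)
      {v | (κ, v) ∈ pull L n W k S} (x, y) = _ :=
    cnt_grid L n (fun a b => Sn W k Q a b) x y
  rw [e2, formula L n W k hW hW5 hL hk hk3 hn Q x.val y.val hU]
  have e3 := cnt_path' (last W k + 1) Q
    (⟨pos W k x.val y.val, pos_le hW5 hk hk3 hU⟩ : Fin (last W k + 1))
  have e4 : {z' : Fin (last W k + 1) | Q z'.val} = {z' | (κ, z') ∈ S} := by
    ext z'
    constructor
    · rintro ⟨_, h⟩; exact h
    · intro h; exact ⟨z'.isLt, h⟩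
  rw [e4] at e3
  rw [e3]
  simp only
  ring

include hW hW5 hL hk hk3 hn in
lemma proc_pull (K : SimpleGraph V) (r : ℕ) (A : Set (V × Fin (last W k + 1))) (t : ℕ) :
    proc (K □ (SimpleGraph.pathGraph L □ SimpleGraph.pathGraph n)) (r + 2) (pull L n W k A) t =
      pull L n W k (proc (K □ SimpleGraph.pathGraph (last W k + 1)) r A t) := by
  induction t with
  | zero => rfl
  | succ t ih =>
    show nxt _ _ _ = pull L n W k (nxt _ _ _)
    rw [ih]
    ext ⟨κ, x, y⟩
    by_cases hU : U W k x.val y.val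
    · rw [mem_nxt, cnt_pull L n W k hW hW5 hL hk hk3 hn K _ κ x y hU]
      have hmem : ∀ S : Set (V × Fin (last W k + 1)), (κ, (x, y)) ∈ pull L n W k S ↔
          (κ, (⟨pos W k x.val y.val, pos_le hW5 hk hk3 hU⟩ : Fin (last W k + 1))) ∈ S := by
        intro S
        constructor
        · intro h
          obtain ⟨_, h2⟩ := h hU
          exact h2
        · intro h _
          exact ⟨pos_le hW5 hk hk3 hU, h⟩
      rw [hmem, hmem, mem_nxt]
      constructor
      · rintro (h | h)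
        · left; exact h
        · right; omega
      · rintro (h | h)
        · left; exact h
        · right; omega
    · constructor
      · intro _ h; exact absurd h hU
      · intro _; left; intro h; exact absurd h hU

include hW hW5 hL hk hk3 hn in
/-- raising the threshold by two -/
theorem slow_raise (K : SimpleGraph V) (r T : ℕ)
    (h : Slow (K □ SimpleGraph.pathGraph (last W k + 1)) r T) :
    Slow (K □ (SimpleGraph.pathGraph L □ SimpleGraph.pathGraph n)) (r + 2) T := by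
  obtain ⟨A, hA, ⟨κ, p⟩, hv⟩ := h
  refine ⟨pull L n W k A, ?_, ?_⟩
  · rw [perc_iff] at hA ⊢
    obtain ⟨t, ht⟩ := hA
    refine ⟨t, ?_⟩
    rw [proc_pull L n W k hW hW5 hL hk hk3 hn, ht]
    ext ⟨κ, x, y⟩
    constructor
    · intro _; exact Set.mem_univ _
    · intro _ hU
      exact ⟨pos_le hW5 hk hk3 hU, Set.mem_univ _⟩
  · obtain ⟨x, y, hU, hpos⟩ := pos_surj L n W k hW hW5 hL hk hk3 hn p.val
      (Nat.lt_succ_iff.1 p.isLt)
    have hx : x < L := by unfold U at hU; omega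
    have hy : y < n := by unfold U at hU; omega
    refine ⟨(κ, (⟨x, hx⟩, ⟨y, hy⟩)), ?_⟩
    rw [proc_pull L n W k hW hW5 hL hk hk3 hn]
    intro h
    obtain ⟨h1, h2⟩ := h hU
    apply hv
    have : (⟨pos W k x y, h1⟩ : Fin (last W k + 1)) = p := Fin.ext hpos
    rw [← this]; exact h2

end raise

end Pool.Agent.Helper19.Perco
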