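import Mathlib
import Pool.Agent.Helper19.PercBase
import Pool.Agent.Helper19.PercRaise

/-!
# The base configuration, assembled
-/

set_option linter.unusedSectionVars false
set_option linter.unusedVariables false

namespace Pool.Agent.Helper19.Perco

open Set Snake Good

section base2

variable (L n W k : ℕ)

/-- initial set: complement of the snake -/
def A0 : Set (Fin L × Fin n) := {v | ¬ U W k v.1.val v.2.val}

/-- barrier sets -/
def SQ (Q : ℕ → Prop) : Set (Fin L × Fin n) := {v | Sn W k Q v.1.val v.2.val}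

variable {L n W k}

section
variable (hW : W % 4 = 1) (hW5 : 5 ≤ W) (hL : W + 10 ≤ L) (hk : k % 2 = 1) (hk3 : 3 ≤ k)
  (hn : 2 * k + 1 ≤ n)

include hW hW5 hL hk hk3 hn

lemma cnt_SQ (Q : ℕ → Prop) (x : Fin L) (y : Fin n) (hU : U W k x.val y.val) :
    cnt (Gr L n) (SQ L n W k Q) (x, y) =
      2 + (ind (0 < pos W k x.val y.val ∧ Q (pos W k x.val y.val - 1)) +
      ind (pos W k x.val y.val + 1 < last W k + 1 ∧ Q (pos W k x.val y.val + 1))) := by
  have e2 : cnt (Gr L n) (SQ L n W k Q) (x, y) = _ :=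
    cnt_grid L n (fun a b => Sn W k Q a b) x y
  rw [e2, formula L n W k hW hW5 (by omega) hk hk3 hn Q x.val y.val hU]

lemma A0_closed (v : Fin L × Fin n) (hv : v ∉ A0 L n W k) : cnt (Gr L n) (A0 L n W k) v ≤ 2 := by
  obtain ⟨x, y⟩ := v
  have hU : U W k x.val y.val := not_not.1 hv
  have e : A0 L n W k = SQ L n W k (fun _ => False) := by
    ext v; exact Iff.rfl
  rw [e, cnt_SQ hW hW5 hL hk hk3 hn _ x y hU]
  rw [ind_zero (by tauto), ind_zero (by tauto)]

lemma base_slow_false (b : Fin L × Fin n) (hb1 : b.1.val = 1) (hb0 : b.2.val = 0) (t : ℕ) :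
    proc (Gr L n) 3 (A0 L n W k ∪ {b}) t ⊆ SQ L n W k (fun q => q ≤ t) := by
  apply proc_subset_barrier _ _ _ t (fun t => SQ L n W k (fun q => q ≤ t)) _ _ t le_rfl
  · rintro ⟨x, y⟩ (hv | hv)
    · intro hU; exact absurd hU hv
    · rw [Set.mem_singleton_iff] at hv
      subst hv
      intro hU
      show pos W k x.val y.val ≤ 0
      simp only at hb1 hb0
      rw [hb1, hb0, pos_turn (j := 0) (by omega) (by omega)]; simp
  · rintro s hs ⟨x, y⟩ hv
    have hv' : ¬ (U W k x.val y.val → pos W k x.val y.val ≤ s + 1) := hv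
    push Not at hv'
    obtain ⟨hU, hp⟩ := hv'
    refine ⟨fun h => ?_, ?_⟩
    · have : pos W k x.val y.val ≤ s := h hU
      omega
    · show cnt (Gr L n) (SQ L n W k (fun q => q ≤ s)) (x, y) < 3
      rw [cnt_SQ hW hW5 hL hk hk3 hn _ x y hU]
      rw [ind_zero (by intro h; have := h.2; omega), ind_zero (by intro h; have := h.2; omega)]
      omega

lemma base_slow_true (b : Fin L × Fin n) (hb1 : b.1.val = W + 4) (hb0 : b.2.val = 0) (t : ℕ) :
    proc (Gr L n) 3 (A0 L n W k ∪ {b}) t ⊆ SQ L n W k (fun q => last W k ≤ q + t) := by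
  apply proc_subset_barrier _ _ _ t (fun t => SQ L n W k (fun q => last W k ≤ q + t)) _ _ t le_rfl
  · rintro ⟨x, y⟩ (hv | hv)
    · intro hU; exact absurd hU hv
    · rw [Set.mem_singleton_iff] at hv
      subst hv
      intro hU
      show last W k ≤ pos W k x.val y.val + 0
      simp only at hb1 hb0
      rw [hb1, hb0, pos_tail (by omega)]; unfold last; omega
  · rintro s hs ⟨x, y⟩ hv
    have hv' : ¬ (U W k x.val y.val → last W k ≤ pos W k x.val y.val + (s + 1)) := hv
    push Not at hv'
    obtain ⟨hU, hp⟩ := hv'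
    refine ⟨fun h => ?_, ?_⟩
    · have : last W k ≤ pos W k x.val y.val + s := h hU
      omega
    · show cnt (Gr L n) (SQ L n W k (fun q => last W k ≤ q + s)) (x, y) < 3
      rw [cnt_SQ hW hW5 hL hk hk3 hn _ x y hU]
      rw [ind_zero (by intro h; have := h.2; omega), ind_zero (by intro h; have := h.2; omega)]
      omega

lemma base_perc_false (b : Fin L × Fin n) (hb1 : b.1.val = 1) (hb0 : b.2.val = 0) :
    Perc (Gr L n) 3 (A0 L n W k ∪ {b}) := by
  intro S hS hcl
  have key : ∀ p, ∀ x : Fin L, ∀ y : Fin n, U W k x.val y.val → pos W k x.val y.val = p →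
      (x, y) ∈ S := by
    intro p
    induction p using Nat.strong_induction_on with
    | _ p ih =>
      intro x y hU hp
      rcases Nat.eq_zero_or_pos p with h0 | h0
      · obtain ⟨h1, h2⟩ := pos_zero hW5 hk hk3 hU (by omega)
        apply hS; right
        rw [Set.mem_singleton_iff]
        exact Prod.ext (Fin.ext (by rw [hb1]; exact h1)) (Fin.ext (by rw [hb0]; exact h2))
      · apply hcl
        have hsub : SQ L n W k (fun q => q < p) ⊆ S := by
          rintro ⟨x', y'⟩ hv
          by_cases hU' : U W k x'.val y'.val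
          · exact ih _ (hv hU') x' y' hU' rfl
          · exact hS (Or.inl hU')
        refine le_trans ?_ (cnt_mono (Gr L n) hsub (x, y))
        rw [cnt_SQ hW hW5 hL hk hk3 hn _ x y hU, hp]
        have : ind (0 < p ∧ p - 1 < p) = 1 := by unfold ind; rw [if_pos ⟨h0, by omega⟩]
        rw [this]; omega
  rintro ⟨x, y⟩
  by_cases hU : U W k x.val y.val
  · exact key _ x y hU rfl
  · exact hS (Or.inl hU)

lemma base_perc_true (b : Fin L × Fin n) (hb1 : b.1.val = W + 4) (hb0 : b.2.val = 0) :
    Perc (Gr L n) 3 (A0 L n W k ∪ {b}) := by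
  intro S hS hcl
  have key : ∀ p, ∀ x : Fin L, ∀ y : Fin n, U W k x.val y.val →
      last W k - pos W k x.val y.val = p → (x, y) ∈ S := by
    intro p
    induction p using Nat.strong_induction_on with
    | _ p ih =>
      intro x y hU hp
      have hle := pos_le hW5 hk hk3 hU
      rcases Nat.eq_zero_or_pos p with h0 | h0
      · obtain ⟨h1, h2⟩ := pos_last hW5 hk hk3 hU (by omega)
        apply hS; right
        rw [Set.mem_singleton_iff]
        exact Prod.ext (Fin.ext (by rw [hb1]; exact h1)) (Fin.ext (by rw [hb0]; exact h2))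
      · apply hcl
        have hsub : SQ L n W k (fun q => last W k - q < p) ⊆ S := by
          rintro ⟨x', y'⟩ hv
          by_cases hU' : U W k x'.val y'.val
          · exact ih _ (hv hU') x' y' hU' rfl
          · exact hS (Or.inl hU')
        refine le_trans ?_ (cnt_mono (Gr L n) hsub (x, y))
        rw [cnt_SQ hW hW5 hL hk hk3 hn _ x y hU]
        have : ind (pos W k x.val y.val + 1 < last W k + 1 ∧
            last W k - (pos W k x.val y.val + 1) < p) = 1 := by
          unfold ind; rw [if_pos ⟨by omega, by omega⟩]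
        rw [this]; omega
  rintro ⟨x, y⟩
  by_cases hU : U W k x.val y.val
  · exact key _ x y hU rfl
  · exact hS (Or.inl hU)

end

lemma path_conn (m : ℕ) (S : Set (Fin m)) (hne : S.Nonempty)
    (hcl : Closed (SimpleGraph.pathGraph m) 1 S) : ∀ v, v ∈ S := by
  obtain ⟨c, hc⟩ := hne
  have := line_fill m (fun _ => True) (fun i => ∃ h : i < m, (⟨i, h⟩ : Fin m) ∈ S) 0
    (fun _ _ _ => trivial) c.val c.isLt (Nat.zero_le _) ⟨c.isLt, hc⟩
    (fun i _ hi1 h1 _ => by
      obtain ⟨h2, h3⟩ := h1
      refine ⟨hi1, hcl _ (cnt_pos_of _ _ _ _ ?_ h3)⟩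
      rw [SimpleGraph.pathGraph_adj]; right; rfl)
    (fun i _ hi1 h1 _ => by
      obtain ⟨h2, h3⟩ := h1
      refine ⟨by omega, hcl _ (cnt_pos_of _ _ _ _ ?_ h3)⟩
      rw [SimpleGraph.pathGraph_adj]; left; rfl)
  intro v
  obtain ⟨_, h⟩ := this v.val (Nat.zero_le _) v.isLt
  exact h

lemma grid_conn (S : Set (Fin L × Fin n)) (hne : S.Nonempty) (hcl : Closed (Gr L n) 1 S) :
    ∀ v, v ∈ S := by
  obtain ⟨⟨x0, y0⟩, h0⟩ := hne
  have hrow : ∀ x, (x, y0) ∈ S := by
    apply path_conn L {x | (x, y0) ∈ S} ⟨x0, h0⟩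
    intro x hx
    apply hcl
    rw [cnt_boxProd]
    have : 1 ≤ cnt (SimpleGraph.pathGraph L) {x | (x, y0) ∈ S} x := hx
    omega
  rintro ⟨x, y⟩
  apply path_conn n {y | (x, y) ∈ S} ⟨y0, hrow x⟩
  intro y hy
  apply hcl
  rw [cnt_boxProd]
  have : 1 ≤ cnt (SimpleGraph.pathGraph n) {y | (x, y) ∈ S} y := hy
  omega

lemma xb_cases (b : Bool) : (b = false ∧ xb W b = 1) ∨ (b = true ∧ xb W b = W + 4) := by
  cases b <;> simp [xb]

lemma xb_le (b : Bool) (hL : W + 10 ≤ L) : xb W b + 1 < L ∧ 1 ≤ xb W b ∧ xb W b ≤ W + 4 := by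
  rcases xb_cases (W := W) b with h | h <;> omega

/-- the base configuration -/
def baseGood (hW : W % 4 = 1) (hW5 : 5 ≤ W) (hL : W + 10 ≤ L) (hk : k % 2 = 1) (hk3 : 3 ≤ k)
    (hn : 2 * k + 1 ≤ n) : Good (Gr L n) (last W k - 1) where
  A := A0 L n W k
  F := {v | Fp L n W v.1.val v.2.val}
  pt b := (⟨xb W b, by have := xb_le (L := L) (W := W) b hL; omega⟩, ⟨0, by omega⟩)
  p1 b := (⟨xb W b + 1, by have := xb_le (L := L) (W := W) b hL; omega⟩, ⟨0, by omega⟩)
  p2 b := (⟨xb W b - 1, by have := xb_le (L := L) (W := W) b hL; omega⟩, ⟨0, by omega⟩)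
  nu b := (⟨xb W b, by have := xb_le (L := L) (W := W) b hL; omega⟩, ⟨2, by omega⟩)
  FA := by
    rintro ⟨x, y⟩ hF
    exact Fp_not_U hW hW5 (by omega) hk hk3 hn hF
  Fne := by
    refine ⟨(⟨2, by omega⟩, ⟨4, by omega⟩), ?_⟩
    show Fp L n W 2 4
    unfold Fp; omega
  ptA := by
    intro b h
    apply h
    show U W k (xb W b) 0
    rcases xb_cases (W := W) b with h | h
    · rw [h.2]; exact U4 (by omega) (by omega) rfl
    · rw [h.2]; exact U7 rfl rfl
  p1A := by
    intro b
    show ¬ U W k (xb W b + 1) 0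
    rcases xb_cases (W := W) b with h | h
    · rw [h.2]; rintro (h | h | h | h | h | h | h) <;> omega
    · rw [h.2]; rintro (h | h | h | h | h | h | h) <;> omega
  p2A := by
    intro b
    show ¬ U W k (xb W b - 1) 0
    rcases xb_cases (W := W) b with h | h
    · rw [h.2]; rintro (h | h | h | h | h | h | h) <;> omega
    · rw [h.2]; rintro (h | h | h | h | h | h | h) <;> omega
  nuA := by
    intro b
    show ¬ U W k (xb W b) 2
    rcases xb_cases (W := W) b with h | h
    · rw [h.2]; rintro (h | h | h | h | h | h | h) <;> omega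
    · rw [h.2]; rintro (h | h | h | h | h | h | h) <;> omega
  p12 := by
    intro b h
    have := xb_le (L := L) (W := W) b hL
    have := congrArg Fin.val (Prod.mk.inj h).1
    simp only at this
    omega
  adj1 := by
    intro b
    rw [gadj]; exact Or.inl ⟨Or.inl rfl, rfl⟩
  adj2 := by
    intro b
    have := xb_le (L := L) (W := W) b hL
    rw [gadj]; exact Or.inl ⟨Or.inr (Nat.sub_add_cancel this.2.1), rfl⟩
  nb := by
    rintro b ⟨x, y⟩ hA ha
    have hb := xb_le (L := L) (W := W) b hL
    rw [gadj] at ha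
    simp only at ha
    rcases ha with ⟨h1 | h1, h2⟩ | ⟨h1, h2⟩
    · left
      exact Prod.ext (Fin.ext h1.symm) (Fin.ext h2.symm)
    · right
      exact Prod.ext (Fin.ext (by simp only; omega)) (Fin.ext h2.symm)
    · exfalso
      apply hA
      show U W k x.val y.val
      rcases xb_cases (W := W) b with h | h
      · exact U1 (by omega) (by omega) (by omega) (by omega)
      · exact U6 (by omega) (by omega)
  closed := fun x hx => A0_closed hW hW5 hL hk hk3 hn x hx
  slow := by
    intro b
    cases b with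
    | false =>
      intro h
      have h1 := base_slow_false hW hW5 hL hk hk3 hn _ (by simp [xb]) (by simp) _ h
      have h2 := h1 (show U W k (xb W (!false)) 0 from U7 rfl (by simp [xb]))
      have h3 : pos W k (W + 4) 0 ≤ last W k - 1 := h2
      rw [pos_tail (by omega)] at h3
      unfold last at h3
      omega
    | true =>
      intro h
      have h1 := base_slow_true hW hW5 hL hk hk3 hn _ (by simp [xb]) (by simp) _ h
      have h2 := h1 (show U W k (xb W (!true)) 0 from U4 (by omega) (by omega) (by simp [xb]))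
      have h3 : last W k ≤ pos W k 1 0 + (last W k - 1) := h2
      rw [pos_turn (j := 0) (by omega) (by omega)] at h3
      have : 0 < last W k := by unfold last; omega
      omega
  perc := by
    intro b
    cases b with
    | false => exact base_perc_false hW hW5 hL hk hk3 hn _ (by simp [xb]) (by simp)
    | true => exact base_perc_true hW hW5 hL hk hk3 hn _ (by simp [xb]) (by simp)
  perc2 := by
    intro b S hS hcl
    have hb := xb_le (L := L) (W := W) b hL
    have hg := growth (L := L) (n := n) (W := W) (by omega) hW hW5 (xb W b)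
      (by rcases xb_cases (W := W) b with h | h <;> omega)
      (by rcases xb_cases (W := W) b with h | h <;> omega)
      (by rcases xb_cases (W := W) b with h | h <;> omega) S hcl
      (fun x y hx hy hF => ⟨hx, hy, hS (Or.inl hF)⟩)
      ⟨by omega, by omega, hS (Or.inr (by simp))⟩
      ⟨by omega, by omega, hS (Or.inr (by simp))⟩
      ⟨by omega, by omega, hS (Or.inr (by simp))⟩
    rintro ⟨x, y⟩
    obtain ⟨_, _, h⟩ := hg x.val y.val x.isLt y.isLt
    exact h
  conn := fun S hne hcl => grid_conn S hne hcl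
  D1 := by
    rintro ⟨x, y⟩ _ ⟨a, b⟩ hu ⟨c, d⟩ hw h1 h2
    by_contra hne
    have h3 := Fp_dist hu hw a.isLt b.isLt c.isLt d.isLt (by
      rintro ⟨e1, e2⟩
      exact hne (Prod.ext (Fin.ext e1) (Fin.ext e2)))
    exact (far_of_dd (a := a) (b := b) (c := c) (d := d) h3).2.2 _ h1 h2
  D2 := by
    rintro b u hu ⟨c, d⟩ hw
    have hb := xb_le (L := L) (W := W) b hL
    simp only [Set.mem_insert_iff, Set.mem_singleton_iff] at hu
    rcases hu with rfl | rfl | rfl | rfl
    · exact far_of_dd (Fp_cluster hW hW5 (by omega) (by omega) b hw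
        (Or.inl ⟨rfl, Or.inr (Or.inr rfl)⟩))
    · exact far_of_dd (Fp_cluster hW hW5 (by omega) (by omega) b hw
        (Or.inl ⟨rfl, Or.inr (Or.inl rfl)⟩))
    · exact far_of_dd (Fp_cluster hW hW5 (by omega) (by omega) b hw
        (Or.inl ⟨rfl, Or.inl (Nat.sub_add_cancel hb.2.1)⟩))
    · exact far_of_dd (Fp_cluster hW hW5 (by omega) (by omega) b hw
        (Or.inr ⟨rfl, rfl⟩))
  D3 := by
    rintro b u hu w hw
    have hb := xb_cases (W := W) b
    have hb' := xb_cases (W := W) (!b)
    have hbb : xb W b + 5 < xb W (!b) + 1 ∨ xb W (!b) + 5 < xb W b + 1 := by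
      cases b <;> simp [xb] <;> omega
    simp only [Set.mem_insert_iff, Set.mem_singleton_iff] at hu hw
    rcases hu with rfl | rfl | rfl | rfl <;> rcases hw with rfl | rfl | rfl | rfl <;>
      exact far_of_dd (by simp only [dd]; omega)
  far1 := by
    intro b
    exact far_of_dd (by simp only [dd]; omega)
  far2 := by
    intro b
    have hb := xb_le (L := L) (W := W) b hL
    exact far_of_dd (by simp only [dd]; omega)
  nupt := by
    intro b
    refine ⟨?_, ?_⟩
    · intro h
      have := congrArg Fin.val (Prod.mk.inj h).2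
      simp only at this
      omega
    · rw [gadj]; simp only; omega
  line := by
    rintro b ⟨x, y⟩ h1 h2
    have hb := xb_le (L := L) (W := W) b hL
    rw [gadj] at h1 h2
    simp only at h1 h2
    exact Prod.ext (Fin.ext (by simp only; omega)) (Fin.ext (by simp only; omega))
  np12 := by
    intro b
    have hb := xb_le (L := L) (W := W) b hL
    rw [gadj]; simp only; omega
  tri1 := by
    rintro b ⟨x, y⟩ h1 h2
    rw [gadj] at h1 h2
    simp only at h1 h2
    omega
  tri2 := by
    rintro b ⟨x, y⟩ h1 h2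
    have hb := xb_le (L := L) (W := W) b hL
    rw [gadj] at h1 h2
    simp only at h1 h2
    omega

end base2

end Pool.Agent.Helper19.Perco
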