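import Mathlib
import Pool.Agent.Helper19.PercGood

/-!
# Stacking copies of a good configuration
-/

set_option linter.unusedSectionVars false
set_option linter.unusedVariables false

namespace Pool.Agent.Helper19.Perco

open Set

variable {V : Type*}

/-- parity -/
def bt (k : ℕ) : Bool := decide (k % 2 = 1)

lemma bt_succ (k : ℕ) : bt (k + 1) = !bt k := by
  unfold bt
  by_cases h : k % 2 = 1
  · have : ¬ ((k + 1) % 2 = 1) := by omega
    simp [h, this]
  · have : (k + 1) % 2 = 1 := by omega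
    simp [h, this]

namespace Good

variable {G : SimpleGraph V} {T : ℕ} (D : Good G T) (K : ℕ)

/-- the layers of the stacked initial set -/
def AX (z : ℕ) : Set V :=
  if z % 3 = 0 ∨ 3 * K ≤ z then D.A
  else if z % 3 = 1 then D.B1 (bt (z / 3)) else D.B2 (bt (z / 3))

lemma AX_A {z : ℕ} (h : z % 3 = 0 ∨ 3 * K ≤ z) : D.AX K z = D.A := by
  unfold AX; rw [if_pos h]

lemma AX_1 {z : ℕ} (k : ℕ) (h : z = 3 * k + 1) (h2 : z < 3 * K) : D.AX K z = D.B1 (bt k) := by
  unfold AX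
  rw [if_neg (by omega), if_pos (by omega)]
  congr 2; omega

lemma AX_2 {z : ℕ} (k : ℕ) (h : z = 3 * k + 2) (h2 : z < 3 * K) : D.AX K z = D.B2 (bt k) := by
  unfold AX
  rw [if_neg (by omega), if_neg (by omega)]
  congr 2; omega

lemma AX_sub (z : ℕ) : D.AX K z ⊆ D.A := by
  unfold AX
  split_ifs
  · exact subset_rfl
  · exact D.B1_sub_A _
  · exact D.B2_sub_A _

/-- in-layer forward process -/
def R (b : Bool) (t : ℕ) : Set V := proc G 3 (D.A ∪ {D.pt b}) t

lemma sub_R (b : Bool) (t : ℕ) : D.A ∪ {D.pt b} ⊆ D.R b t := by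
  unfold R
  induction t with
  | zero => exact subset_rfl
  | succ t ih => exact ih.trans (fun v hv => Or.inl hv)

lemma R_succ (b : Bool) (t : ℕ) : D.R b t ⊆ D.R b (t + 1) := fun v hv => Or.inl hv

section
variable [Finite V]

lemma pt_notMem_R (b : Bool) (t : ℕ) (ht : t ≤ T) : D.pt (!b) ∉ D.R b t :=
  fun h => D.slow b (proc_mono_time G 3 _ ht h)

lemma cnt_R_le (b : Bool) (t : ℕ) (x : V) (hx : x ∉ D.R b (t + 1)) : cnt G (D.R b t) x ≤ 2 := by
  by_contra h
  apply hx
  right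
  show 3 ≤ cnt G (D.R b t) x
  omega

end

/-- the forward stage sets -/
def Sf (k t z : ℕ) : Set V :=
  if z + 3 ≤ 3 * k then Set.univ
  else if z + 2 = 3 * k then D.C1 (!bt k)
  else if z + 1 = 3 * k then D.C2 (!bt k)
  else if z = 3 * k ∨ (k = K ∧ 3 * k ≤ z) then D.R (bt k) t
  else D.AX K z

lemma Sf_univ {k t z : ℕ} (h : z + 3 ≤ 3 * k) : D.Sf K k t z = Set.univ := by
  unfold Sf; rw [if_pos h]
lemma Sf_C1 {k t z : ℕ} (h : z + 2 = 3 * k) : D.Sf K k t z = D.C1 (!bt k) := by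
  unfold Sf; rw [if_neg (by omega), if_pos h]
lemma Sf_C2 {k t z : ℕ} (h : z + 1 = 3 * k) : D.Sf K k t z = D.C2 (!bt k) := by
  unfold Sf; rw [if_neg (by omega), if_neg (by omega), if_pos h]
lemma Sf_R {k t z : ℕ} (h : z = 3 * k ∨ (k = K ∧ 3 * k ≤ z)) : D.Sf K k t z = D.R (bt k) t := by
  unfold Sf; rw [if_neg (by omega), if_neg (by omega), if_neg (by omega), if_pos h]
lemma Sf_AX {k t z : ℕ} (h : 3 * k < z) (h2 : k ≠ K) : D.Sf K k t z = D.AX K z := by
  unfold Sf; rw [if_neg (by omega), if_neg (by omega), if_neg (by omega), if_neg (by omega)]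

open Classical in
/-- neighbour count in a stack -/
noncomputable def vc (m : ℕ) (S : ℕ → Set V) (z : ℕ) (x : V) : ℕ :=
  (if 0 < z ∧ x ∈ S (z - 1) then 1 else 0) + (if z + 1 < m ∧ x ∈ S (z + 1) then 1 else 0)

lemma vc_le (m : ℕ) (S : ℕ → Set V) (z : ℕ) (x : V) (lo up : Set V)
    (h1 : 0 < z → S (z - 1) = lo) (h2 : z + 1 < m → S (z + 1) = up) :
    vc m S z x ≤ ind (x ∈ lo) + ind (x ∈ up) := by
  unfold vc ind
  apply Nat.add_le_add
  · split_ifs with h h' h' <;> try omega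
    exfalso; rw [h1 h.1] at h; exact h' h.2
  · split_ifs with h h' h' <;> try omega
    exfalso; rw [h2 h.1] at h; exact h' h.2

section
variable [Finite V]

/-- layers of the initial set strictly inside the initial region -/
lemma AX_step (m z : ℕ) (S : ℕ → Set V) (x : V) (hK : 3 * K + 1 ≤ m)
    (hS : S z = D.AX K z) (hx : x ∉ D.AX K z)
    (hlo : 0 < z → S (z - 1) = D.AX K (z - 1)) (hup : z + 1 < m → S (z + 1) = D.AX K (z + 1)) :
    cnt G (S z) x + vc m S z x ≤ 2 := by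
  rw [hS]
  have hv := vc_le m S z x _ _ hlo hup
  by_cases h0 : z % 3 = 0 ∨ 3 * K ≤ z
  · rw [D.AX_A K h0] at hx ⊢
    have h1 := D.closed x hx
    rw [ind_zero (fun h => hx (D.AX_sub K _ h)), ind_zero (fun h => hx (D.AX_sub K _ h))] at hv
    omega
  · obtain ⟨k, hk⟩ : ∃ k, z = 3 * k + 1 ∨ z = 3 * k + 2 := ⟨z / 3, by omega⟩
    rcases hk with hk | hk
    · rw [D.AX_1 K k hk (by omega)] at hx ⊢
      rw [D.AX_A K (z := z - 1) (by omega), D.AX_2 K (z := z + 1) k (by omega) (by omega)] at hv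
      have := D.J3 (bt k) D.A x hx (D.ptA _)
      omega
    · rw [D.AX_2 K k hk (by omega)] at hx ⊢
      rw [D.AX_1 K (z := z - 1) k (by omega) (by omega), D.AX_A K (z := z + 1) (by omega)] at hv
      have := D.J4 (bt k) D.A x hx (D.ptA _) (D.ptA _)
      omega

lemma fstep (m : ℕ) (hK : 3 * K + 1 ≤ m) (k t : ℕ) (hk : k ≤ K) (ht : t < T) (z : ℕ) (hz : z < m)
    (x : V) (hx : x ∉ D.Sf K k (t + 1) z) :
    x ∉ D.Sf K k t z ∧ cnt G (D.Sf K k t z) x + vc m (D.Sf K k t) z x ≤ 2 := by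
  have hptR : D.pt (!bt k) ∉ D.R (bt k) t := D.pt_notMem_R _ _ ht.le
  rcases Nat.lt_or_ge (z + 2) (3 * k) with h | h
  · rw [D.Sf_univ K (by omega)] at hx
    exact absurd (Set.mem_univ _) hx
  rcases Nat.eq_or_lt_of_le h with h | h
  · -- level one of the gap below
    rw [D.Sf_C1 K h.symm] at hx
    rw [D.Sf_C1 K h.symm]
    refine ⟨hx, ?_⟩
    have hv := vc_le m (D.Sf K k t) z x Set.univ (D.C2 (!bt k)) (fun _ => D.Sf_univ K (by omega))
      (fun _ => D.Sf_C2 K (by omega))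
    have h1 := D.J1 (!bt k) x hx
    have h2 := ind_le (x ∈ (Set.univ : Set V))
    omega
  rcases Nat.eq_or_lt_of_le (Nat.lt_iff_add_one_le.1 h) with h | h
  · -- level two of the gap below
    rw [D.Sf_C2 K (by omega)] at hx
    rw [D.Sf_C2 K (by omega)]
    refine ⟨hx, ?_⟩
    have hv := vc_le m (D.Sf K k t) z x (D.C1 (!bt k)) (D.R (bt k) t)
      (fun _ => D.Sf_C1 K (by omega)) (fun _ => D.Sf_R K (by omega))
    have h1 := D.J2 (!bt k) (D.R (bt k) t) x hx hptR
    omega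
  by_cases hb : z = 3 * k ∨ (k = K ∧ 3 * k ≤ z)
  · -- the evolving block
    rw [D.Sf_R K hb] at hx
    rw [D.Sf_R K hb]
    have hx0 : x ∉ D.R (bt k) t := fun h => hx (D.R_succ _ _ h)
    refine ⟨hx0, ?_⟩
    have hxA : x ∉ D.A ∪ {D.pt (bt k)} := fun h => hx0 (D.sub_R _ _ h)
    have h1 := D.cnt_R_le (bt k) t x hx
    have hlo : 0 < z → x ∉ D.Sf K k t (z - 1) := by
      intro hz0
      by_cases h2 : z = 3 * k
      · rw [D.Sf_C2 K (by omega)]
        intro h3
        have := D.C2_sub (!bt k) h3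
        rw [Bool.not_not] at this
        exact hxA this
      · rw [D.Sf_R K (by omega)]; exact hx0
    have hup : z + 1 < m → x ∉ D.Sf K k t (z + 1) := by
      intro hz0
      by_cases h2 : k = K
      · rw [D.Sf_R K (by omega)]; exact hx0
      · rw [D.Sf_AX K (by omega) h2]
        intro h3
        exact hxA (Or.inl (D.AX_sub K _ h3))
    have hv : vc m (D.Sf K k t) z x = 0 := by
      unfold vc
      rw [if_neg (fun h => hlo h.1 h.2), if_neg (fun h => hup h.1 h.2)]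
    omega
  · -- above
    have hkK : k ≠ K := by omega
    have hz3 : 3 * k < z := by omega
    rw [D.Sf_AX K hz3 hkK] at hx
    have hSz : D.Sf K k t z = D.AX K z := D.Sf_AX K hz3 hkK
    refine ⟨by rw [hSz]; exact hx, ?_⟩
    by_cases hz1 : z = 3 * k + 1
    · -- level one of the gap above
      rw [hSz]
      rw [D.AX_1 K k hz1 (by omega)] at hx ⊢
      have hv := vc_le m (D.Sf K k t) z x (D.R (bt k) t) (D.B2 (bt k))
        (fun _ => D.Sf_R K (by omega))
        (fun _ => by rw [D.Sf_AX K (by omega) hkK, D.AX_2 K k (by omega) (by omega)])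
      have h1 := D.J3 (bt k) (D.R (bt k) t) x hx hptR
      omega
    · exact D.AX_step K m z _ x hK hSz hx (fun _ => D.Sf_AX K (by omega) hkK)
        (fun _ => D.Sf_AX K (by omega) hkK)

end

/-- the reverse stage sets -/
def Sr (k t z : ℕ) : Set V :=
  if k < K ∧ 3 * k + 3 ≤ z then Set.univ
  else if k < K ∧ z = 3 * k + 1 then D.C1 (bt k)
  else if k < K ∧ z = 3 * k + 2 then D.C2r (bt k)
  else if z = 3 * k ∨ (k = K ∧ 3 * k ≤ z) then D.R (!bt k) t
  else if z + 1 = 3 * k then D.B2r (!bt k)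
  else D.AX K z

lemma Sr_univ {k t z : ℕ} (h : 3 * k + 3 ≤ z) (h2 : k < K) : D.Sr K k t z = Set.univ := by
  unfold Sr; rw [if_pos ⟨h2, h⟩]
lemma Sr_C1 {k t z : ℕ} (h : z = 3 * k + 1) (h2 : k < K) : D.Sr K k t z = D.C1 (bt k) := by
  unfold Sr; rw [if_neg (by omega), if_pos (by omega)]
lemma Sr_C2 {k t z : ℕ} (h : z = 3 * k + 2) (h2 : k < K) : D.Sr K k t z = D.C2r (bt k) := by
  unfold Sr; rw [if_neg (by omega), if_neg (by omega), if_pos (by omega)]
lemma Sr_R {k t z : ℕ} (h : z = 3 * k ∨ (k = K ∧ 3 * k ≤ z)) :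
    D.Sr K k t z = D.R (!bt k) t := by
  unfold Sr; rw [if_neg (by omega), if_neg (by omega), if_neg (by omega), if_pos h]
lemma Sr_B2 {k t z : ℕ} (h : z + 1 = 3 * k) : D.Sr K k t z = D.B2r (!bt k) := by
  unfold Sr
  rw [if_neg (by omega), if_neg (by omega), if_neg (by omega), if_neg (by omega), if_pos h]
lemma Sr_AX {k t z : ℕ} (h : z + 2 ≤ 3 * k) : D.Sr K k t z = D.AX K z := by
  unfold Sr
  rw [if_neg (by omega), if_neg (by omega), if_neg (by omega), if_neg (by omega),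
    if_neg (by omega)]

section
variable [Finite V]

lemma rstep (m : ℕ) (hK : 3 * K + 1 ≤ m) (k t : ℕ) (hk : k ≤ K) (ht : t < T) (z : ℕ) (hz : z < m)
    (x : V) (hx : x ∉ D.Sr K k (t + 1) z) :
    x ∉ D.Sr K k t z ∧ cnt G (D.Sr K k t z) x + vc m (D.Sr K k t) z x ≤ 2 := by
  have hptR : D.pt (bt k) ∉ D.R (!bt k) t := by
    have := D.pt_notMem_R (!bt k) t ht.le
    rwa [Bool.not_not] at this
  by_cases hb : z = 3 * k ∨ (k = K ∧ 3 * k ≤ z)
  · -- the evolving block
    rw [D.Sr_R K hb] at hx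
    rw [D.Sr_R K hb]
    have hx0 : x ∉ D.R (!bt k) t := fun h => hx (D.R_succ _ _ h)
    refine ⟨hx0, ?_⟩
    have hxA : x ∉ D.A ∪ {D.pt (!bt k)} := fun h => hx0 (D.sub_R _ _ h)
    have h1 := D.cnt_R_le (!bt k) t x hx
    have hlo : 0 < z → x ∉ D.Sr K k t (z - 1) := by
      intro hz0
      by_cases h2 : z = 3 * k
      · rw [D.Sr_B2 K (by omega)]
        intro h3
        exact hxA (D.B2r_sub (!bt k) h3)
      · rw [D.Sr_R K (by omega)]; exact hx0
    have hup : z + 1 < m → x ∉ D.Sr K k t (z + 1) := by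
      intro hz0
      by_cases h2 : k = K
      · rw [D.Sr_R K (by omega)]; exact hx0
      · rw [D.Sr_C1 K (by omega) (by omega)]
        intro h3
        exact hxA (D.C1_sub (bt k) h3)
    have hv : vc m (D.Sr K k t) z x = 0 := by
      unfold vc
      rw [if_neg (fun h => hlo h.1 h.2), if_neg (fun h => hup h.1 h.2)]
    omega
  by_cases h1 : 3 * k < z
  · have hkK : k < K := by omega
    by_cases h2 : z = 3 * k + 1
    · rw [D.Sr_C1 K h2 hkK] at hx
      rw [D.Sr_C1 K h2 hkK]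
      refine ⟨hx, ?_⟩
      have hv := vc_le m (D.Sr K k t) z x (D.R (!bt k) t) (D.C2r (bt k))
        (fun _ => D.Sr_R K (by omega)) (fun _ => D.Sr_C2 K (by omega) hkK)
      have h3 := D.J6 (bt k) (D.R (!bt k) t) x hx hptR
      omega
    by_cases h3 : z = 3 * k + 2
    · rw [D.Sr_C2 K h3 hkK] at hx
      rw [D.Sr_C2 K h3 hkK]
      refine ⟨hx, ?_⟩
      have hv := vc_le m (D.Sr K k t) z x (D.C1 (bt k)) Set.univ
        (fun _ => D.Sr_C1 K (by omega) hkK) (fun _ => D.Sr_univ K (by omega) hkK)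
      have h4 := D.J5 (bt k) x hx
      have h5 := ind_le (x ∈ (Set.univ : Set V))
      omega
    · rw [D.Sr_univ K (by omega) hkK] at hx
      exact absurd (Set.mem_univ _) hx
  · by_cases h2 : z + 1 = 3 * k
    · rw [D.Sr_B2 K h2] at hx
      rw [D.Sr_B2 K h2]
      refine ⟨hx, ?_⟩
      obtain ⟨k', rfl⟩ : ∃ k', k = k' + 1 := ⟨k - 1, by omega⟩
      have hbt : bt k' = !bt (k' + 1) := by rw [bt_succ, Bool.not_not]
      have hv := vc_le m (D.Sr K (k' + 1) t) z x (D.B1 (!bt (k' + 1))) (D.R (!bt (k' + 1)) t)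
        (fun _ => by rw [D.Sr_AX K (by omega), D.AX_1 K k' (by omega) (by omega), hbt])
        (fun _ => D.Sr_R K (by omega))
      have h3 := D.J7 (!bt (k' + 1)) (D.R (!bt (k' + 1)) t) x hx (by rwa [Bool.not_not])
      omega
    · have hSz : D.Sr K k t z = D.AX K z := D.Sr_AX K (by omega)
      have hSz' : D.Sr K k (t + 1) z = D.AX K z := D.Sr_AX K (by omega)
      rw [hSz'] at hx
      refine ⟨by rw [hSz]; exact hx, ?_⟩
      by_cases h4 : z + 2 = 3 * k
      · obtain ⟨k', rfl⟩ : ∃ k', k = k' + 1 := ⟨k - 1, by omega⟩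
        have hbt : bt k' = !bt (k' + 1) := by rw [bt_succ, Bool.not_not]
        rw [hSz]
        rw [D.AX_1 K k' (by omega) (by omega), hbt] at hx ⊢
        have hv := vc_le m (D.Sr K (k' + 1) t) z x D.A (D.B2r (!bt (k' + 1)))
          (fun _ => by rw [D.Sr_AX K (by omega), D.AX_A K (by omega)])
          (fun _ => D.Sr_B2 K (by omega))
        have h3 := D.J8 (!bt (k' + 1)) D.A x hx (D.ptA _) (D.ptA _)
        omega
      · exact D.AX_step K m z _ x hK hSz hx (fun _ => D.Sr_AX K (by omega))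
          (fun _ => D.Sr_AX K (by omega))

end

end Good

end Pool.Agent.Helper19.Perco
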