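import Mathlib
import Pool.Agent.Helper19.PercStack

/-!
# A good configuration on the product with a path
-/

set_option linter.unusedSectionVars false
set_option linter.unusedVariables false

namespace Pool.Agent.Helper19.Perco

open Set

variable {V : Type*}

lemma cnt_lay' [Finite V] (G : SimpleGraph V) (m : ℕ) (S : ℕ → Set V) (x : V) (z : Fin m) :
    cnt (G □ SimpleGraph.pathGraph m) (lay m S) (x, z) =
      cnt G (S z.val) x + Good.vc m S z.val x := by
  rw [cnt_lay]; rfl

/-- closedness in terms of layers -/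
def LC (G : SimpleGraph V) (m r : ℕ) (S : ℕ → Set V) : Prop :=
  ∀ z < m, ∀ x, r ≤ cnt G (S z) x + Good.vc m S z x → x ∈ S z

lemma LC_layers [Finite V] (G : SimpleGraph V) (m r : ℕ) (S : Set (V × Fin m))
    (h : Closed (G □ SimpleGraph.pathGraph m) r S) : LC G m r (layers S) := by
  intro z hz x hx
  refine ⟨hz, ?_⟩
  apply h
  rw [← lay_layers S, cnt_lay']
  exact hx

lemma layers_of_lay {m : ℕ} {S : Set (V × Fin m)} {A : ℕ → Set V} (h : lay m A ⊆ S) {z : ℕ}
    (hz : z < m) : A z ⊆ layers S z := by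
  intro x hx
  exact ⟨hz, h (show (x, (⟨z, hz⟩ : Fin m)) ∈ lay m A from hx)⟩

section
variable [Finite V] {G : SimpleGraph V} {m r : ℕ} {S : ℕ → Set V}

lemma vc_below {z : ℕ} {x : V} (hz : 0 < z) (hx : x ∈ S (z - 1)) : 1 ≤ Good.vc m S z x := by
  unfold Good.vc
  rw [if_pos ⟨hz, hx⟩]; omega

lemma vc_above {z : ℕ} {x : V} (hz : z + 1 < m) (hx : x ∈ S (z + 1)) : 1 ≤ Good.vc m S z x := by
  unfold Good.vc
  rw [if_pos (⟨hz, hx⟩ : z + 1 < m ∧ x ∈ S (z + 1))]; omega

lemma vc_both {z : ℕ} {x : V} (hz : 0 < z) (hx : x ∈ S (z - 1)) (hz' : z + 1 < m)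
    (hx' : x ∈ S (z + 1)) : Good.vc m S z x = 2 := by
  unfold Good.vc
  rw [if_pos ⟨hz, hx⟩, if_pos (⟨hz', hx'⟩ : z + 1 < m ∧ x ∈ S (z + 1))]

lemma LC.closed (h : LC G m r S) {z : ℕ} (hz : z < m) : Closed G r (S z) := by
  intro x hx
  exact h z hz x (by omega)

lemma LC.closed_vert (h : LC G m (r + 1) S) {z : ℕ} (hz : z < m)
    (hv : ∀ x, 1 ≤ Good.vc m S z x) : Closed G r (S z) := by
  intro x hx
  apply h z hz x
  have := hv x
  omega

lemma LC.three (h : LC G m 3 S) {z : ℕ} (hz : z < m) (x a b : V) (hab : a ≠ b)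
    (h1 : G.Adj x a) (h2 : G.Adj x b) (h3 : a ∈ S z) (h4 : b ∈ S z)
    (h5 : 1 ≤ Good.vc m S z x) : x ∈ S z := by
  apply h z hz x
  have := two_le_cnt G (S z) x a b hab h1 h2 h3 h4
  omega

end

namespace Good

variable {G : SimpleGraph V} {T : ℕ} (D : Good G T) (K m : ℕ)

section
variable [Finite V]

lemma gapfill (hK : 3 * K + 1 ≤ m) {S : ℕ → Set V} (h : LC G m 3 S)
    (hS : ∀ z < m, D.AX K z ⊆ S z) (k : ℕ) (hk : k < K) (h0 : ∀ x, x ∈ S (3 * k))
    (h3 : ∀ x, x ∈ S (3 * k + 3)) :
    (∀ x, x ∈ S (3 * k + 1)) ∧ (∀ x, x ∈ S (3 * k + 2)) := by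
  set b := bt k with hb
  have e1 : D.B1 b ⊆ S (3 * k + 1) := by
    have := hS (3 * k + 1) (by omega)
    rwa [D.AX_1 K k rfl (by omega)] at this
  have e2 : D.B2 b ⊆ S (3 * k + 2) := by
    have := hS (3 * k + 2) (by omega)
    rwa [D.AX_2 K k rfl (by omega)] at this
  have g2 : D.pt b ∈ S (3 * k + 2) := by
    apply h.three (by omega) _ (D.p1 b) (D.p2 b) (D.p12 b) (D.adj1 b) (D.adj2 b)
    · exact e2 (by simp [B2])
    · exact e2 (by simp [B2])
    · exact vc_above (by omega) (h3 _)
  have g1 : D.pt b ∈ S (3 * k + 1) := by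
    apply h (3 * k + 1) (by omega)
    rw [vc_both (by omega) (by simpa using h0 _) (by omega) g2]
    have := cnt_pos_of G (S (3 * k + 1)) (D.pt b) (D.p1 b) (D.adj1 b) (e1 (by simp [B1]))
    omega
  have f1 : ∀ x, x ∈ S (3 * k + 1) := by
    apply D.perc2 b
    · rintro x (hx | rfl | rfl | rfl)
      · exact e1 (Or.inl hx)
      · exact e1 (by simp [B1])
      · exact g1
      · exact e1 (by simp [B1])
    · exact LC.closed_vert (r := 2) h (by omega)
        (fun x => vc_below (by omega) (by simpa using h0 x))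
  refine ⟨f1, ?_⟩
  apply D.conn
  · exact ⟨_, g2⟩
  · intro x hx
    apply h (3 * k + 2) (by omega)
    rw [vc_both (by omega) (by simpa using f1 x) (by omega) (h3 x)]
    omega

lemma fwd_perc (hK : 3 * K + 1 ≤ m) {S : ℕ → Set V} (h : LC G m 3 S)
    (hS : ∀ z < m, D.AX K z ⊆ S z) (h0 : D.pt false ∈ S 0) : ∀ z < m, ∀ x, x ∈ S z := by
  have hmain : ∀ k, k ≤ K → ∀ z, z ≤ 3 * k → ∀ x, x ∈ S z := by
    intro k
    induction k with
    | zero =>
      intro _ z hz
      obtain rfl : z = 0 := by omega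
      apply D.perc false
      · rintro x (hx | rfl)
        · apply hS 0 (by omega)
          rw [D.AX_A K (by omega)]; exact hx
        · exact h0
      · exact h.closed (by omega)
    | succ k ih =>
      intro hk z hz
      have ih' := ih (by omega)
      set b := bt k with hb
      have e1 : D.B1 b ⊆ S (3 * k + 1) := by
        have := hS (3 * k + 1) (by omega)
        rwa [D.AX_1 K k rfl (by omega)] at this
      have e2 : D.B2 b ⊆ S (3 * k + 2) := by
        have := hS (3 * k + 2) (by omega)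
        rwa [D.AX_2 K k rfl (by omega)] at this
      have e3 : D.A ⊆ S (3 * k + 3) := by
        have := hS (3 * k + 3) (by omega)
        rwa [D.AX_A K (by omega)] at this
      have w1 : D.pt (!b) ∈ S (3 * k + 1) := by
        apply h.three (by omega) _ (D.p1 (!b)) (D.p2 (!b)) (D.p12 _) (D.adj1 _) (D.adj2 _)
        · exact e1 (by simp [B1])
        · exact e1 (by simp [B1])
        · exact vc_below (by omega) (by simpa using ih' (3 * k) le_rfl _)
      have w2 : D.pt (!b) ∈ S (3 * k + 2) := by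
        apply h.three (by omega) _ (D.p1 (!b)) (D.p2 (!b)) (D.p12 _) (D.adj1 _) (D.adj2 _)
        · exact e2 (by simp [B2])
        · exact e2 (by simp [B2])
        · exact vc_below (by omega) (by simpa using w1)
      have w3 : D.pt (!b) ∈ S (3 * k + 3) := by
        apply h.three (by omega) _ (D.p1 (!b)) (D.p2 (!b)) (D.p12 _) (D.adj1 _) (D.adj2 _)
        · exact e3 (D.p1A _)
        · exact e3 (D.p2A _)
        · exact vc_below (by omega) (by simpa using w2)
      have f3 : ∀ x, x ∈ S (3 * k + 3) := by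
        apply D.perc (!b)
        · rintro x (hx | rfl)
          · exact e3 hx
          · exact w3
        · exact h.closed (by omega)
      obtain ⟨f1, f2⟩ := D.gapfill K m hK h hS k (by omega) (ih' (3 * k) le_rfl) f3
      rcases Nat.lt_or_ge (3 * k) z with hz1 | hz1
      · rcases (by omega : z = 3 * k + 1 ∨ z = 3 * k + 2 ∨ z = 3 * k + 3) with rfl | rfl | rfl
        · exact f1
        · exact f2
        · exact f3
      · exact ih' z hz1
  have htop : ∀ j, 3 * K + j < m → ∀ x, x ∈ S (3 * K + j) := by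
    intro j
    induction j with
    | zero => intro _; exact hmain K le_rfl _ (by omega)
    | succ j ih =>
      intro hj
      have e3 : D.A ⊆ S (3 * K + (j + 1)) := by
        have := hS (3 * K + (j + 1)) hj
        rwa [D.AX_A K (by omega)] at this
      apply D.perc false
      · rintro x (hx | rfl)
        · exact e3 hx
        · apply h.three hj _ (D.p1 false) (D.p2 false) (D.p12 _) (D.adj1 _) (D.adj2 _)
          · exact e3 (D.p1A _)
          · exact e3 (D.p2A _)
          · exact vc_below (by omega) (by simpa using ih (by omega) _)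
      · exact h.closed hj
  intro z hz x
  rcases Nat.lt_or_ge (3 * K) z with h1 | h1
  · have := htop (z - 3 * K) (by omega) x
    rwa [Nat.add_sub_cancel' h1.le] at this
  · exact hmain K le_rfl z h1 x

lemma rev_perc (hK : 3 * K + 1 ≤ m) {S : ℕ → Set V} (h : LC G m 3 S)
    (hS : ∀ z < m, D.AX K z ⊆ S z) (c : Bool) (h0 : D.pt c ∈ S (m - 1)) :
    ∀ z < m, ∀ x, x ∈ S z := by
  have htop : ∀ j, 3 * K + j < m → ∀ x, x ∈ S (m - 1 - j) := by
    intro j
    induction j with
    | zero =>
      intro hj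
      apply D.perc c
      · rintro x (hx | rfl)
        · apply hS (m - 1 - 0) (by omega)
          rw [D.AX_A K (by omega)]; exact hx
        · exact h0
      · exact h.closed (by omega)
    | succ j ih =>
      intro hj
      have e3 : D.A ⊆ S (m - 1 - (j + 1)) := by
        have := hS (m - 1 - (j + 1)) (by omega)
        rwa [D.AX_A K (by omega)] at this
      have ih' := ih (by omega)
      have e : m - 1 - (j + 1) + 1 = m - 1 - j := by omega
      apply D.perc c
      · rintro x (hx | rfl)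
        · exact e3 hx
        · apply h.three (by omega) _ (D.p1 c) (D.p2 c) (D.p12 _) (D.adj1 _) (D.adj2 _)
          · exact e3 (D.p1A _)
          · exact e3 (D.p2A _)
          · exact vc_above (by omega) (by rw [e]; exact ih' _)
      · exact h.closed (by omega)
  have hmain : ∀ j, j ≤ K → ∀ z, 3 * (K - j) ≤ z → z < m → ∀ x, x ∈ S z := by
    intro j
    induction j with
    | zero =>
      intro _ z hz hzm x
      have := htop (m - 1 - z) (by omega) x
      have e : m - 1 - (m - 1 - z) = z := by omega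
      rwa [e] at this
    | succ j ih =>
      intro hj z hz hzm
      have ih' := ih (by omega)
      obtain ⟨k, hk⟩ : ∃ k, K - (j + 1) = k := ⟨_, rfl⟩
      have hk' : K - j = k + 1 := by omega
      rw [hk] at hz
      rw [hk'] at ih'
      set b := bt k with hb
      have e1 : D.B1 b ⊆ S (3 * k + 1) := by
        have := hS (3 * k + 1) (by omega)
        rwa [D.AX_1 K k rfl (by omega)] at this
      have e2 : D.B2 b ⊆ S (3 * k + 2) := by
        have := hS (3 * k + 2) (by omega)
        rwa [D.AX_2 K k rfl (by omega)] at this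
      have e0 : D.A ⊆ S (3 * k) := by
        have := hS (3 * k) (by omega)
        rwa [D.AX_A K (by omega)] at this
      have f3 : ∀ x, x ∈ S (3 * k + 3) := ih' (3 * k + 3) (by omega) (by omega)
      have w2 : D.pt (!b) ∈ S (3 * k + 2) := by
        apply h.three (by omega) _ (D.p1 (!b)) (D.p2 (!b)) (D.p12 _) (D.adj1 _) (D.adj2 _)
        · exact e2 (by simp [B2])
        · exact e2 (by simp [B2])
        · exact vc_above (by omega) (f3 _)
      have w1 : D.pt (!b) ∈ S (3 * k + 1) := by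
        apply h.three (by omega) _ (D.p1 (!b)) (D.p2 (!b)) (D.p12 _) (D.adj1 _) (D.adj2 _)
        · exact e1 (by simp [B1])
        · exact e1 (by simp [B1])
        · exact vc_above (by omega) w2
      have w0 : D.pt (!b) ∈ S (3 * k) := by
        apply h.three (by omega) _ (D.p1 (!b)) (D.p2 (!b)) (D.p12 _) (D.adj1 _) (D.adj2 _)
        · exact e0 (D.p1A _)
        · exact e0 (D.p2A _)
        · exact vc_above (by omega) w1
      have f0 : ∀ x, x ∈ S (3 * k) := by
        apply D.perc (!b)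
        · rintro x (hx | rfl)
          · exact e0 hx
          · exact w0
        · exact h.closed (by omega)
      obtain ⟨f1, f2⟩ := D.gapfill K m hK h hS k (by omega) f0 f3
      rcases Nat.lt_or_ge z (3 * k + 3) with hz1 | hz1
      · rcases (by omega : z = 3 * k ∨ z = 3 * k + 1 ∨ z = 3 * k + 2) with rfl | rfl | rfl
        · exact f0
        · exact f1
        · exact f2
      · exact ih' z (by omega) hzm
  intro z hz x
  exact hmain K le_rfl z (by omega) hz x

/-! ### slowness -/

lemma Sf_stage (k : ℕ) (hk : k + 1 ≤ K) (z : ℕ) : D.Sf K k T z ⊆ D.Sf K (k + 1) 0 z := by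
  rcases Nat.lt_or_ge (3 * k) z with h | h
  · rw [D.Sf_AX K h (by omega)]
    rcases Nat.lt_or_ge (3 * k + 3) z with h1 | h1
    · by_cases h2 : k + 1 = K
      · rw [D.Sf_R K (by omega)]
        exact (D.AX_sub K z).trans (Set.subset_union_left.trans (D.sub_R _ _))
      · rw [D.Sf_AX K (by omega) h2]
    · rcases (by omega : z = 3 * k + 1 ∨ z = 3 * k + 2 ∨ z = 3 * k + 3) with rfl | rfl | rfl
      · rw [D.Sf_C1 K (by omega), D.AX_1 K k rfl (by omega), bt_succ, Bool.not_not]
        exact D.B1_sub_C1 _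
      · rw [D.Sf_C2 K (by omega), D.AX_2 K k rfl (by omega), bt_succ, Bool.not_not]
        exact D.B2_sub_C2 _
      · rw [D.Sf_R K (by omega)]
        exact (D.AX_sub K _).trans (Set.subset_union_left.trans (D.sub_R _ _))
  · rw [D.Sf_univ K (k := k + 1) (by omega)]
    exact Set.subset_univ _

lemma Sr_stage (k : ℕ) (hk : k + 1 ≤ K) (z : ℕ) : D.Sr K (k + 1) T z ⊆ D.Sr K k 0 z := by
  rcases Nat.lt_or_ge z (3 * k + 3) with h | h
  · rcases Nat.lt_or_ge z (3 * k) with h1 | h1
    · rw [D.Sr_AX K (by omega)]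
      by_cases h2 : z + 1 = 3 * k
      · rw [D.Sr_B2 K h2]
        obtain ⟨k', rfl⟩ : ∃ k', k = k' + 1 := ⟨k - 1, by omega⟩
        rw [D.AX_2 K k' (by omega) (by omega), bt_succ, Bool.not_not]
        exact D.B2_sub_B2r _
      · rw [D.Sr_AX K (by omega)]
    · rcases (by omega : z = 3 * k ∨ z = 3 * k + 1 ∨ z = 3 * k + 2) with rfl | rfl | rfl
      · rw [D.Sr_AX K (by omega), D.Sr_R K (by omega)]
        exact (D.AX_sub K _).trans (Set.subset_union_left.trans (D.sub_R _ _))
      · rw [D.Sr_AX K (by omega), D.Sr_C1 K rfl (by omega), D.AX_1 K k rfl (by omega)]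
        exact D.B1_sub_C1 _
      · rw [D.Sr_B2 K (by omega), D.Sr_C2 K rfl (by omega), bt_succ, Bool.not_not]
        exact D.B2r_sub_C2r _
  · rw [D.Sr_univ K (k := k) h (by omega)]
    exact Set.subset_univ _

lemma lay_barrier (A : Set (V × Fin m)) (S : ℕ → ℕ → Set V) (h0 : A ⊆ lay m (S 0))
    (hstep : ∀ t < T, ∀ z < m, ∀ x, x ∉ S (t + 1) z →
      x ∉ S t z ∧ cnt G (S t z) x + vc m (S t) z x ≤ 2) :
    proc (G □ SimpleGraph.pathGraph m) 3 A T ⊆ lay m (S T) := by
  apply proc_subset_barrier _ _ _ T (fun t => lay m (S t)) h0 _ T le_rfl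
  rintro t ht ⟨x, z⟩ hx
  obtain ⟨h1, h2⟩ := hstep t ht z.val z.isLt x hx
  refine ⟨h1, ?_⟩
  rw [cnt_lay']
  omega

lemma fwd_slow (hK : 3 * K + 1 ≤ m) :
    ∀ k ≤ K, proc (G □ SimpleGraph.pathGraph m) 3
      (lay m (D.AX K) ∪ {(D.pt false, ⟨0, by omega⟩)}) ((k + 1) * T) ⊆ lay m (D.Sf K k T) := by
  intro k
  induction k with
  | zero =>
    intro _
    rw [Nat.zero_add, Nat.one_mul]
    apply lay_barrier m _ (fun t => D.Sf K 0 t) _ (fun t ht z hz x hx =>
      D.fstep K m hK 0 t (Nat.zero_le _) ht z hz x hx)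
    rintro ⟨x, z⟩ (hx | hx)
    · have hx' : x ∈ D.AX K z.val := hx
      show x ∈ D.Sf K 0 0 z.val
      by_cases h : z.val = 3 * 0 ∨ (0 = K ∧ 3 * 0 ≤ z.val)
      · rw [D.Sf_R K h]
        exact D.sub_R _ _ (Or.inl (D.AX_sub K _ hx'))
      · rw [D.Sf_AX K (by omega) (by omega)]; exact hx'
    · rw [Set.mem_singleton_iff, Prod.mk.injEq] at hx
      obtain ⟨rfl, rfl⟩ := hx
      show D.pt false ∈ D.Sf K 0 0 0
      rw [D.Sf_R K (by omega)]
      exact D.sub_R _ _ (Or.inr rfl)
  | succ k ih =>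
    intro hk
    rw [Nat.succ_mul, proc_add]
    apply lay_barrier m _ (fun t => D.Sf K (k + 1) t) _ (fun t ht z hz x hx =>
      D.fstep K m hK (k + 1) t hk ht z hz x hx)
    refine (ih (by omega)).trans ?_
    rintro ⟨x, z⟩ hx
    exact D.Sf_stage K k hk z.val hx

lemma rev_slow (hK : 3 * K + 1 ≤ m) :
    ∀ j ≤ K, proc (G □ SimpleGraph.pathGraph m) 3
      (lay m (D.AX K) ∪ {(D.pt (!bt K), ⟨m - 1, by omega⟩)}) ((j + 1) * T) ⊆
        lay m (D.Sr K (K - j) T) := by
  intro j
  induction j with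
  | zero =>
    intro _
    rw [Nat.zero_add, Nat.one_mul, Nat.sub_zero]
    apply lay_barrier m _ (fun t => D.Sr K K t) _ (fun t ht z hz x hx =>
      D.rstep K m hK K t le_rfl ht z hz x hx)
    rintro ⟨x, z⟩ (hx | hx)
    · have hx' : x ∈ D.AX K z.val := hx
      show x ∈ D.Sr K K 0 z.val
      by_cases h : z.val = 3 * K ∨ (K = K ∧ 3 * K ≤ z.val)
      · rw [D.Sr_R K h]
        exact D.sub_R _ _ (Or.inl (D.AX_sub K _ hx'))
      · by_cases h2 : z.val + 1 = 3 * K
        · rw [D.Sr_B2 K h2]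
          obtain ⟨k', rfl⟩ : ∃ k', K = k' + 1 := ⟨K - 1, by omega⟩
          rw [D.AX_2 (k' + 1) k' (by omega) (by omega)] at hx'
          rw [bt_succ, Bool.not_not]
          exact D.B2_sub_B2r _ hx'
        · rw [D.Sr_AX K (by omega)]; exact hx'
    · rw [Set.mem_singleton_iff, Prod.mk.injEq] at hx
      obtain ⟨rfl, rfl⟩ := hx
      show D.pt (!bt K) ∈ D.Sr K K 0 (m - 1)
      rw [D.Sr_R K (by omega)]
      exact D.sub_R _ _ (Or.inr rfl)
  | succ j ih =>
    intro hj
    rw [Nat.succ_mul, proc_add]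
    apply lay_barrier m _ (fun t => D.Sr K (K - (j + 1)) t) _ (fun t ht z hz x hx =>
      D.rstep K m hK _ t (by omega) ht z hz x hx)
    refine (ih (by omega)).trans ?_
    rintro ⟨x, z⟩ hx
    obtain ⟨k, hk⟩ : ∃ k, K - (j + 1) = k := ⟨_, rfl⟩
    have hk' : K - j = k + 1 := by omega
    rw [hk'] at hx
    rw [hk]
    exact D.Sr_stage K k (by omega) z.val hx

end

end Good

end Pool.Agent.Helper19.Perco
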