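import Mathlib
import Pool.Agent.Helper19.PercNext

/-!
# Threshold four on the product of a good graph with a path
-/

set_option linter.unusedSectionVars false
set_option linter.unusedVariables false

namespace Pool.Agent.Helper19.Perco

open Set

variable {V : Type*}

namespace Good

variable {G : SimpleGraph V} {T : ℕ} (D : Good G T) (z0 : ℕ)

/-- slabs of the initial set for threshold four -/
def AY (z : ℕ) : Set V :=
  if z + 1 - z0 = 0 then Set.univ
  else if (z + 1 - z0) % 2 = 1 then D.A ∪ {D.pt (bt ((z + 1 - z0) / 2))} else D.A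

lemma AY_univ {z : ℕ} (h : z + 1 - z0 = 0) : D.AY z0 z = Set.univ := by
  unfold AY; rw [if_pos h]
lemma AY_odd {z : ℕ} (i : ℕ) (h : z + 1 - z0 = 2 * i + 1) :
    D.AY z0 z = D.A ∪ {D.pt (bt i)} := by
  unfold AY
  rw [if_neg (by omega), if_pos (by omega)]
  have : (z + 1 - z0) / 2 = i := by omega
  rw [this]
lemma AY_even {z : ℕ} (i : ℕ) (h : z + 1 - z0 = 2 * i + 2) : D.AY z0 z = D.A := by
  unfold AY
  rw [if_neg (by omega), if_neg (by omega)]

/-- stage sets for threshold four -/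
def St (i t z : ℕ) : Set V :=
  if z + 1 - z0 = 0 ∨ z + 1 - z0 < 2 * i then Set.univ
  else if z + 1 - z0 ≤ 2 * i + 1 then D.R (bt i) t
  else D.AY z0 z

lemma St_univ {i t z : ℕ} (h : z + 1 - z0 = 0 ∨ z + 1 - z0 < 2 * i) :
    D.St z0 i t z = Set.univ := by
  unfold St; rw [if_pos h]
lemma St_R {i t z : ℕ} (h1 : z + 1 - z0 ≠ 0) (h2 : 2 * i ≤ z + 1 - z0)
    (h3 : z + 1 - z0 ≤ 2 * i + 1) : D.St z0 i t z = D.R (bt i) t := by
  unfold St; rw [if_neg (by omega), if_pos h3]
lemma St_AY {i t z : ℕ} (h : 2 * i + 2 ≤ z + 1 - z0) : D.St z0 i t z = D.AY z0 z := by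
  unfold St; rw [if_neg (by omega), if_neg (by omega)]

section
variable [Finite V]

lemma sstep (m : ℕ) (hz0 : 0 < z0) (I : ℕ) (hm : m = z0 + 2 * I + 1) (i t : ℕ) (hi : i ≤ I)
    (ht : t < T) (z : ℕ) (hz : z < m) (x : V) (hx : x ∉ D.St z0 i (t + 1) z) :
    x ∉ D.St z0 i t z ∧ cnt G (D.St z0 i t z) x + vc m (D.St z0 i t) z x ≤ 3 := by
  have hptR : D.pt (!bt i) ∉ D.R (bt i) t := D.pt_notMem_R _ _ ht.le
  by_cases h0 : z + 1 - z0 = 0 ∨ z + 1 - z0 < 2 * i
  · rw [D.St_univ z0 h0] at hx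
    exact absurd (Set.mem_univ _) hx
  by_cases h1 : z + 1 - z0 ≤ 2 * i + 1
  · rw [D.St_R z0 (by omega) (by omega) h1] at hx
    rw [D.St_R z0 (by omega) (by omega) h1]
    have hx0 : x ∉ D.R (bt i) t := fun h => hx (D.R_succ _ _ h)
    refine ⟨hx0, ?_⟩
    have h2 := D.cnt_R_le (bt i) t x hx
    by_cases h3 : z + 1 - z0 = 2 * i
    · have hv := vc_le m (D.St z0 i t) z x Set.univ (D.R (bt i) t)
        (fun _ => D.St_univ z0 (by omega)) (fun _ => D.St_R z0 (by omega) (by omega) (by omega))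
      have h4 := ind_le (x ∈ (Set.univ : Set V))
      rw [ind_zero hx0] at hv
      omega
    · have hv := vc_le m (D.St z0 i t) z x (D.St z0 i t (z - 1)) D.A
        (fun _ => rfl)
        (fun _ => by rw [D.St_AY z0 (by omega), D.AY_even z0 i (by omega)])
      have hxA : x ∉ D.A := fun h => hx0 (D.sub_R _ _ (Or.inl h))
      rw [ind_zero hxA] at hv
      have h4 := ind_le (x ∈ D.St z0 i t (z - 1))
      omega
  · have hSz : D.St z0 i t z = D.AY z0 z := D.St_AY z0 (by omega)
    rw [D.St_AY z0 (by omega)] at hx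
    refine ⟨by rw [hSz]; exact hx, ?_⟩
    rw [hSz]
    obtain ⟨j, hj⟩ : ∃ j, z + 1 - z0 = 2 * j + 1 ∨ z + 1 - z0 = 2 * j + 2 :=
      ⟨(z + 1 - z0 - 1) / 2, by omega⟩
    rcases hj with hj | hj
    · -- odd
      rw [D.AY_odd z0 j hj] at hx ⊢
      have hxA : x ∉ D.A := fun h => hx (Or.inl h)
      have h2 : cnt G (D.A ∪ {D.pt (bt j)}) x ≤ cnt G D.A x + 1 := by
        rw [Set.union_singleton]; exact cnt_insert_le G _ _ _
      have h3 := D.closed x hxA
      obtain ⟨j', rfl⟩ : ∃ j', j = j' + 1 := ⟨j - 1, by omega⟩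
      have hv := vc_le m (D.St z0 i t) z x D.A D.A
        (fun _ => by rw [D.St_AY z0 (by omega), D.AY_even z0 j' (by omega)])
        (fun _ => by rw [D.St_AY z0 (by omega), D.AY_even z0 (j' + 1) (by omega)])
      rw [ind_zero hxA] at hv
      omega
    · -- even
      rw [D.AY_even z0 j hj] at hx ⊢
      have h3 := D.closed x hx
      have hup : z + 1 < m → D.St z0 i t (z + 1) = D.A ∪ {D.pt (bt (j + 1))} := fun _ => by
        rw [D.St_AY z0 (by omega), D.AY_odd z0 (j + 1) (by omega)]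
      by_cases h4 : z + 1 - z0 = 2 * i + 2
      · obtain rfl : j = i := by omega
        have hv := vc_le m (D.St z0 j t) z x (D.R (bt j) t) _
          (fun _ => D.St_R z0 (by omega) (by omega) (by omega)) hup
        rw [bt_succ] at hv
        by_cases h5 : x = D.pt (!bt j)
        · subst h5
          rw [ind_zero hptR] at hv
          have := ind_le (D.pt (!bt j) ∈ D.A ∪ {D.pt (!bt j)})
          omega
        · have h6 : x ∉ D.A ∪ {D.pt (!bt j)} := by
            rintro (h | h); exacts [hx h, h5 h]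
          rw [ind_zero h6] at hv
          have := ind_le (x ∈ D.R (bt j) t)
          omega
      · have hv := vc_le m (D.St z0 i t) z x (D.A ∪ {D.pt (bt j)}) _
          (fun _ => by rw [D.St_AY z0 (by omega), D.AY_odd z0 j (by omega)]) hup
        rw [bt_succ] at hv
        by_cases h5 : x = D.pt (!bt j)
        · subst h5
          have h6 : D.pt (!bt j) ∉ D.A ∪ {D.pt (bt j)} := by
            rintro (h | h); exacts [hx h, D.ptne _ h]
          rw [ind_zero h6] at hv
          have := ind_le (D.pt (!bt j) ∈ D.A ∪ {D.pt (!bt j)})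
          omega
        · have h6 : x ∉ D.A ∪ {D.pt (!bt j)} := by
            rintro (h | h); exacts [hx h, h5 h]
          rw [ind_zero h6] at hv
          have := ind_le (x ∈ D.A ∪ {D.pt (bt j)})
          omega

lemma lay_barrier4 (m : ℕ) (A : Set (V × Fin m)) (S : ℕ → ℕ → Set V) (h0 : A ⊆ lay m (S 0))
    (hstep : ∀ t < T, ∀ z < m, ∀ x, x ∉ S (t + 1) z →
      x ∉ S t z ∧ cnt G (S t z) x + vc m (S t) z x ≤ 3) :
    proc (G □ SimpleGraph.pathGraph m) 4 A T ⊆ lay m (S T) := by
  apply proc_subset_barrier _ _ _ T (fun t => lay m (S t)) h0 _ T le_rfl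
  rintro t ht ⟨x, z⟩ hx
  obtain ⟨h1, h2⟩ := hstep t ht z.val z.isLt x hx
  refine ⟨h1, ?_⟩
  rw [cnt_lay']
  omega

lemma St_stage (i z : ℕ) : D.St z0 i T z ⊆ D.St z0 (i + 1) 0 z := by
  by_cases h0 : z + 1 - z0 = 0 ∨ z + 1 - z0 < 2 * (i + 1)
  · rw [D.St_univ z0 (i := i + 1) h0]; exact Set.subset_univ _
  · rw [D.St_AY z0 (i := i) (by omega)]
    by_cases h1 : z + 1 - z0 ≤ 2 * (i + 1) + 1
    · rw [D.St_R z0 (i := i + 1) (by omega) (by omega) h1]
      refine Set.Subset.trans ?_ (D.sub_R _ _)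
      by_cases h2 : z + 1 - z0 = 2 * i + 2
      · rw [D.AY_even z0 i h2]; exact Set.subset_union_left
      · rw [D.AY_odd z0 (i + 1) (by omega)]
    · rw [D.St_AY z0 (i := i + 1) (by omega)]

lemma four_slow (m : ℕ) (hz0 : 0 < z0) (I : ℕ) (hm : m = z0 + 2 * I + 1) :
    ∀ i ≤ I, proc (G □ SimpleGraph.pathGraph m) 4 (lay m (D.AY z0)) ((i + 1) * T) ⊆
      lay m (D.St z0 i T) := by
  intro i
  induction i with
  | zero =>
    intro _
    rw [Nat.zero_add, Nat.one_mul]
    apply lay_barrier4 m _ (fun t => D.St z0 0 t) _ (fun t ht z hz x hx =>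
      D.sstep z0 m hz0 I hm 0 t (Nat.zero_le _) ht z hz x hx)
    rintro ⟨x, z⟩ hx
    have hx' : x ∈ D.AY z0 z.val := hx
    show x ∈ D.St z0 0 0 z.val
    by_cases h0 : z.val + 1 - z0 = 0
    · rw [D.St_univ z0 (Or.inl h0)]; exact Set.mem_univ _
    · by_cases h1 : z.val + 1 - z0 ≤ 1
      · rw [D.St_R z0 h0 (by omega) (by omega)]
        rw [D.AY_odd z0 0 (by omega)] at hx'
        exact D.sub_R _ _ hx'
      · rw [D.St_AY z0 (by omega)]; exact hx'
  | succ i ih =>
    intro hi
    rw [Nat.succ_mul, proc_add]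
    apply lay_barrier4 m _ (fun t => D.St z0 (i + 1) t) _ (fun t ht z hz x hx =>
      D.sstep z0 m hz0 I hm (i + 1) t hi ht z hz x hx)
    refine (ih (by omega)).trans ?_
    rintro ⟨x, z⟩ hx
    exact D.St_stage z0 i z.val hx

lemma four_perc (m : ℕ) (hz0 : 0 < z0) (I : ℕ) (hm : m = z0 + 2 * I + 1) {S : ℕ → Set V}
    (h : LC G m 4 S) (hS : ∀ z < m, D.AY z0 z ⊆ S z) :
    ∀ i ≤ I, ∀ z < m, z + 1 - z0 ≤ 2 * i + 1 → ∀ x, x ∈ S z := by
  intro i
  induction i with
  | zero =>
    intro _ z hz h1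
    have hflo : ∀ z < m, z + 1 - z0 = 0 → ∀ x, x ∈ S z := by
      intro z hz h0 x
      apply hS z hz
      rw [D.AY_univ z0 h0]; exact Set.mem_univ _
    by_cases h0 : z + 1 - z0 = 0
    · exact hflo z hz h0
    · apply D.perc (bt 0)
      · have := hS z hz
        rwa [D.AY_odd z0 0 (by omega)] at this
      · exact LC.closed_vert (r := 3) h hz
          (fun x => vc_below (by omega) (hflo (z - 1) (by omega) (by omega) x))
  | succ i ih =>
    intro hi z hz h1
    have ih' := ih (by omega)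
    -- the even slab
    have hev : ∀ z < m, z + 1 - z0 = 2 * i + 2 → ∀ x, x ∈ S z := by
      intro z hz h2
      have hA : D.A ⊆ S z := by
        have := hS z hz
        rwa [D.AY_even z0 i h2] at this
      have hlow : ∀ x, x ∈ S (z - 1) := ih' (z - 1) (by omega) (by omega)
      have hup : D.pt (bt (i + 1)) ∈ S (z + 1) := by
        have := hS (z + 1) (by omega)
        rw [D.AY_odd z0 (i + 1) (by omega)] at this
        exact this (Or.inr rfl)
      apply D.perc (bt (i + 1))
      · rintro x (hx | rfl)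
        · exact hA hx
        · apply h z hz
          rw [vc_both (by omega) (hlow _) (by omega) hup]
          have := two_le_cnt G (S z) _ _ _ (D.p12 (bt (i + 1))) (D.adj1 _) (D.adj2 _)
            (hA (D.p1A _)) (hA (D.p2A _))
          omega
      · exact LC.closed_vert (r := 3) h hz (fun x => vc_below (by omega) (hlow x))
    by_cases h2 : z + 1 - z0 ≤ 2 * i + 1
    · exact ih' z hz h2
    by_cases h3 : z + 1 - z0 = 2 * i + 2
    · exact hev z hz h3
    · apply D.perc (bt (i + 1))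
      · have := hS z hz
        rwa [D.AY_odd z0 (i + 1) (by omega)] at this
      · exact LC.closed_vert (r := 3) h hz
          (fun x => vc_below (by omega) (hev (z - 1) (by omega) (by omega) x))

include D in
/-- threshold four -/
theorem slow4 (m : ℕ) (hm : 4 ≤ m) :
    Slow (G □ SimpleGraph.pathGraph m) 4 ((m - 1) / 2 * T) := by
  obtain ⟨z0, I, hz0, hmI, hI⟩ : ∃ z0 I, 0 < z0 ∧ m = z0 + 2 * I + 1 ∧ (m - 1) / 2 ≤ I + 1 := by
    rcases Nat.even_or_odd m with ⟨j, hj⟩ | ⟨j, hj⟩
    · exact ⟨1, j - 1, by omega, by omega, by omega⟩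
    · exact ⟨2, j - 1, by omega, by omega, by omega⟩
  refine ⟨lay m (D.AY z0), ?_, (D.pt (!bt I), ⟨m - 1, by omega⟩), ?_⟩
  · intro S hS hcl
    have hLC := LC_layers G m 4 S hcl
    have h1 := D.four_perc z0 m hz0 I hmI hLC (fun z hz => layers_of_lay hS hz) I le_rfl
    rintro ⟨x, z⟩
    obtain ⟨_, h2⟩ := h1 z.val z.isLt (by have := z.isLt; omega) x
    exact h2
  · intro h
    have h1 := proc_mono_time _ _ _ (Nat.mul_le_mul_right T hI) h
    have h2 := D.four_slow z0 m hz0 I hmI I le_rfl h1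
    have h3 : D.pt (!bt I) ∈ D.St z0 I T (m - 1) := h2
    rw [D.St_R z0 (by omega) (by omega) (by omega)] at h3
    exact D.pt_notMem_R _ _ le_rfl h3

include D in
/-- threshold three -/
theorem slow3 : Slow G 3 T := ⟨_, D.perc false, _, D.slow false⟩

end

end Good

end Pool.Agent.Helper19.Perco
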