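import Mathlib
import Pool.Agent.Helper19.PercNext

/-!
# Assembling the good configuration on the product with a path
-/

set_option linter.unusedSectionVars false
set_option linter.unusedVariables false

namespace Pool.Agent.Helper19.Perco

open Set

variable {V : Type*}

lemma bp_adj {G : SimpleGraph V} {m : ℕ} {x y : V} {z w : Fin m} :
    (G □ SimpleGraph.pathGraph m).Adj (x, z) (y, w) ↔
      (G.Adj x y ∧ z = w) ∨ ((z.val + 1 = w.val ∨ w.val + 1 = z.val) ∧ x = y) := by
  rw [SimpleGraph.boxProd_adj, SimpleGraph.pathGraph_adj]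

lemma Far.prod {G : SimpleGraph V} {m : ℕ} {u v : V} (h : Far G u v) (z w : Fin m) :
    Far (G □ SimpleGraph.pathGraph m) (u, z) (v, w) := by
  obtain ⟨h1, h2, h3⟩ := h
  refine ⟨?_, ?_, ?_⟩
  · intro he
    exact h1 (Prod.mk.inj he).1
  · rw [bp_adj]
    rintro (⟨h4, _⟩ | ⟨_, h4⟩)
    · exact h2 h4
    · exact h1 h4
  · rintro ⟨x, y⟩ ha hb
    rw [bp_adj] at ha hb
    rcases ha with ⟨h4, _⟩ | ⟨_, h4⟩ <;> rcases hb with ⟨h5, _⟩ | ⟨_, h5⟩
    · exact h3 x h4 h5
    · subst h5; exact h2 h4.symm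
    · subst h4; exact h2 h5
    · subst h4; exact h1 h5

lemma Far_of_layers {G : SimpleGraph V} {m : ℕ} (u v : V) (z w : Fin m)
    (h : z.val + 3 ≤ w.val ∨ w.val + 3 ≤ z.val) :
    Far (G □ SimpleGraph.pathGraph m) (u, z) (v, w) := by
  refine ⟨?_, ?_, ?_⟩
  · intro he
    have := (Prod.mk.inj he).2
    rw [this] at h; omega
  · rw [bp_adj]
    rintro (⟨_, h4⟩ | ⟨h4, _⟩)
    · rw [h4] at h; omega
    · omega
  · rintro ⟨x, y⟩ ha hb
    rw [bp_adj] at ha hb
    have ha' : y.val = z.val ∨ y.val + 1 = z.val ∨ z.val + 1 = y.val := by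
      rcases ha with ⟨_, h4⟩ | ⟨h4 | h4, _⟩
      · left; rw [h4]
      · right; left; exact h4
      · right; right; exact h4
    have hb' : y.val = w.val ∨ y.val + 1 = w.val ∨ w.val + 1 = y.val := by
      rcases hb with ⟨_, h4⟩ | ⟨h4 | h4, _⟩
      · left; rw [h4]
      · right; left; exact h4
      · right; right; exact h4
    omega

section
variable [Finite V]

lemma closed_of_layers {G : SimpleGraph V} {m r : ℕ} {S : Set (V × Fin m)}
    (h : ∀ z < m, ∀ x, x ∈ layers S z) (v : V × Fin m) : v ∈ S := by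
  obtain ⟨_, h2⟩ := h v.2.val v.2.isLt v.1
  exact h2

end

namespace Good

variable {G : SimpleGraph V} {T : ℕ}

/-- the base index of the two special points of the product -/
def ci (K : ℕ) (b : Bool) : Bool := if b then !bt K else false

/-- the layer of the two special points of the product -/
def zi (m : ℕ) (hm : 4 ≤ m) (b : Bool) : Fin m := if b then ⟨m - 1, by omega⟩ else ⟨0, by omega⟩

lemma zi_far (m : ℕ) (hm : 4 ≤ m) (b : Bool) :
    (zi m hm b).val + 3 ≤ (zi m hm (!b)).val ∨ (zi m hm (!b)).val + 3 ≤ (zi m hm b).val := by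
  cases b <;> (simp [zi]; try omega)

variable [Finite V]

/-- the product configuration -/
def next (D : Good G T) (m : ℕ) (hm : 4 ≤ m) :
    Good (G □ SimpleGraph.pathGraph m) (((m - 1) / 3 + 1) * T) where
  A := lay m (D.AX ((m - 1) / 3))
  F := {p | p.1 ∈ D.F}
  pt b := (D.pt (ci ((m - 1) / 3) b), zi m hm b)
  p1 b := (D.p1 (ci ((m - 1) / 3) b), zi m hm b)
  p2 b := (D.p2 (ci ((m - 1) / 3) b), zi m hm b)
  nu b := (D.nu (ci ((m - 1) / 3) b), zi m hm b)
  FA := by
    rintro ⟨x, z⟩ hx
    show x ∈ D.AX _ z.val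
    unfold AX
    split_ifs
    · exact D.FA hx
    · exact Or.inl hx
    · exact Or.inl hx
  Fne := by
    obtain ⟨x, hx⟩ := D.Fne
    exact ⟨(x, ⟨0, by omega⟩), hx⟩
  ptA := by
    intro b h
    exact D.ptA _ (D.AX_sub _ _ h)
  p1A := by
    intro b
    have h : (zi m hm b).val % 3 = 0 ∨ 3 * ((m - 1) / 3) ≤ (zi m hm b).val := by
      cases b <;> (simp [zi]; try omega)
    show D.p1 _ ∈ D.AX _ (zi m hm b).val
    rw [D.AX_A _ h]; exact D.p1A _
  p2A := by
    intro b
    have h : (zi m hm b).val % 3 = 0 ∨ 3 * ((m - 1) / 3) ≤ (zi m hm b).val := by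
      cases b <;> (simp [zi]; try omega)
    show D.p2 _ ∈ D.AX _ (zi m hm b).val
    rw [D.AX_A _ h]; exact D.p2A _
  nuA := by
    intro b
    have h : (zi m hm b).val % 3 = 0 ∨ 3 * ((m - 1) / 3) ≤ (zi m hm b).val := by
      cases b <;> (simp [zi]; try omega)
    show D.nu _ ∈ D.AX _ (zi m hm b).val
    rw [D.AX_A _ h]; exact D.nuA _
  p12 := by
    intro b h
    exact D.p12 _ (Prod.mk.inj h).1
  adj1 := by
    intro b
    rw [bp_adj]; exact Or.inl ⟨D.adj1 _, rfl⟩
  adj2 := by
    intro b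
    rw [bp_adj]; exact Or.inl ⟨D.adj2 _, rfl⟩
  nb := by
    rintro b ⟨u, z⟩ hu ha
    have hu' := D.AX_sub _ _ hu
    rw [bp_adj] at ha
    rcases ha with ⟨h1, h2⟩ | ⟨_, h1⟩
    · subst h2
      rcases D.nb _ u hu' h1 with h | h
      · left; rw [h]
      · right; rw [h]
    · subst h1
      exact absurd hu' (D.ptA _)
  closed := by
    rintro ⟨x, z⟩ hx
    rw [cnt_lay']
    exact D.AX_step ((m - 1) / 3) m z.val (D.AX ((m - 1) / 3)) x (by omega) rfl hx
      (fun _ => rfl) (fun _ => rfl)
  slow := by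
    intro b
    cases b with
    | false =>
      intro h
      have h1 := D.fwd_slow ((m - 1) / 3) m (by omega) ((m - 1) / 3) le_rfl h
      have h2 : D.pt (!bt ((m - 1) / 3)) ∈ D.Sf ((m - 1) / 3) ((m - 1) / 3) T (m - 1) := h1
      rw [D.Sf_R _ (by omega)] at h2
      exact D.pt_notMem_R _ _ le_rfl h2
    | true =>
      intro h
      have h1 := D.rev_slow ((m - 1) / 3) m (by omega) ((m - 1) / 3) le_rfl h
      have h2 : D.pt false ∈ D.Sr ((m - 1) / 3) ((m - 1) / 3 - (m - 1) / 3) T 0 := h1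
      rw [Nat.sub_self, D.Sr_R _ (by omega)] at h2
      have h3 := D.pt_notMem_R (!bt 0) T le_rfl
      apply h3
      exact h2
  perc := by
    intro b S hS hcl
    apply closed_of_layers (G := G) (r := 3)
    have hLC := LC_layers G m 3 S hcl
    have hlay : ∀ z < m, D.AX ((m - 1) / 3) z ⊆ layers S z := fun z hz =>
      layers_of_lay (Set.subset_union_left.trans hS) hz
    cases b with
    | false =>
      apply D.fwd_perc ((m - 1) / 3) m (by omega) hLC hlay
      exact ⟨by omega, hS (Or.inr rfl)⟩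
    | true =>
      apply D.rev_perc ((m - 1) / 3) m (by omega) hLC hlay (!bt ((m - 1) / 3))
      exact ⟨by omega, hS (Or.inr rfl)⟩
  perc2 := by
    intro b S hS hcl
    apply closed_of_layers (G := G) (r := 2)
    have hLC := LC_layers G m 2 S hcl
    have hF : ∀ z < m, D.F ⊆ layers S z := by
      intro z hz x hx
      exact ⟨hz, hS (Or.inl hx)⟩
    have hz0 : ∀ x, x ∈ layers S (zi m hm b).val := by
      apply D.perc2 (ci ((m - 1) / 3) b)
      · rintro x (hx | rfl | rfl | rfl)
        · exact hF _ (zi m hm b).isLt hx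
        · exact ⟨(zi m hm b).isLt, hS (Or.inr (by simp))⟩
        · exact ⟨(zi m hm b).isLt, hS (Or.inr (by simp))⟩
        · exact ⟨(zi m hm b).isLt, hS (Or.inr (by simp))⟩
      · exact hLC.closed (zi m hm b).isLt
    have hup : ∀ j, (zi m hm b).val + j < m → ∀ x, x ∈ layers S ((zi m hm b).val + j) := by
      intro j
      induction j with
      | zero => intro _; exact hz0
      | succ j ih =>
        intro hj
        apply D.conn
        · obtain ⟨x, hx⟩ := D.Fne
          exact ⟨x, hF _ hj hx⟩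
        · exact LC.closed_vert (r := 1) hLC hj
            (fun x => vc_below (by omega) (by simpa using ih (by omega) x))
    have hdn : ∀ j, j ≤ (zi m hm b).val → ∀ x, x ∈ layers S ((zi m hm b).val - j) := by
      intro j
      induction j with
      | zero => intro _; exact hz0
      | succ j ih =>
        intro hj
        have e : (zi m hm b).val - (j + 1) + 1 = (zi m hm b).val - j := by omega
        have hlt := (zi m hm b).isLt
        apply D.conn
        · obtain ⟨x, hx⟩ := D.Fne
          exact ⟨x, hF _ (by omega) hx⟩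
        · exact LC.closed_vert (r := 1) hLC (by omega)
            (fun x => vc_above (by omega) (by rw [e]; exact ih (by omega) x))
    intro z hz x
    rcases Nat.lt_or_ge z (zi m hm b).val with h | h
    · have := hdn ((zi m hm b).val - z) (by omega) x
      rwa [Nat.sub_sub_self h.le] at this
    · have := hup (z - (zi m hm b).val) (by omega) x
      rwa [Nat.add_sub_cancel' h] at this
  conn := by
    rintro S ⟨⟨x0, z0⟩, hx0⟩ hcl
    apply closed_of_layers (G := G) (r := 1)
    have hLC := LC_layers G m 1 S hcl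
    have hz0 : ∀ x, x ∈ layers S z0.val :=
      D.conn _ ⟨x0, z0.isLt, hx0⟩ (hLC.closed z0.isLt)
    have hup : ∀ j, z0.val + j < m → ∀ x, x ∈ layers S (z0.val + j) := by
      intro j
      induction j with
      | zero => intro _; exact hz0
      | succ j ih =>
        intro hj x
        apply hLC _ hj
        have := vc_below (m := m) (S := layers S) (z := z0.val + (j + 1)) (x := x) (by omega)
          (by simpa using ih (by omega) x)
        omega
    have hdn : ∀ j, j ≤ z0.val → ∀ x, x ∈ layers S (z0.val - j) := by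
      intro j
      induction j with
      | zero => intro _; exact hz0
      | succ j ih =>
        intro hj x
        have e : z0.val - (j + 1) + 1 = z0.val - j := by omega
        have hlt := z0.isLt
        apply hLC _ (by omega)
        have := vc_above (m := m) (S := layers S) (z := z0.val - (j + 1)) (x := x) (by omega)
          (by rw [e]; exact ih (by omega) x)
        omega
    intro z hz x
    rcases Nat.lt_or_ge z z0.val with h | h
    · have := hdn (z0.val - z) (by omega) x
      rwa [Nat.sub_sub_self h.le] at this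
    · have := hup (z - z0.val) (by omega) x
      rwa [Nat.add_sub_cancel' h] at this
  D1 := by
    rintro ⟨x, z⟩ hx ⟨u, zu⟩ hu ⟨w, zw⟩ hw h1 h2
    have hx' : x ∉ D.F := hx
    have hu' : u ∈ D.F := hu
    have hw' : w ∈ D.F := hw
    rw [bp_adj] at h1 h2
    rcases h1 with ⟨h1, rfl⟩ | ⟨_, rfl⟩
    · rcases h2 with ⟨h2, rfl⟩ | ⟨_, rfl⟩
      · rw [D.D1 x hx' u hu' w hw' h1 h2]
      · exact absurd hw' hx'
    · exact absurd hu' hx'
  D2 := by
    rintro b u hu ⟨w, zw⟩ hw
    have hw' : w ∈ D.F := hw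
    simp only [Set.mem_insert_iff, Set.mem_singleton_iff] at hu
    rcases hu with rfl | rfl | rfl | rfl
    · exact (D.D2 _ _ (D.m1 _) w hw').prod _ _
    · exact (D.D2 _ _ (D.m2 _) w hw').prod _ _
    · exact (D.D2 _ _ (D.m3 _) w hw').prod _ _
    · exact (D.D2 _ _ (D.m4 _) w hw').prod _ _
  D3 := by
    rintro b u hu w hw
    have hz := zi_far m hm b
    simp only [Set.mem_insert_iff, Set.mem_singleton_iff] at hu hw
    rcases hu with rfl | rfl | rfl | rfl <;> rcases hw with rfl | rfl | rfl | rfl <;>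
      exact Far_of_layers _ _ _ _ hz
  far1 := fun b => (D.far1 _).prod _ _
  far2 := fun b => (D.far2 _).prod _ _
  nupt := by
    intro b
    refine ⟨fun h => (D.nupt _).1 (Prod.mk.inj h).1, ?_⟩
    rw [bp_adj]
    rintro (⟨h, _⟩ | ⟨_, h⟩)
    · exact (D.nupt _).2 h
    · exact (D.nupt _).1 h
  line := by
    rintro b ⟨x, z⟩ h1 h2
    rw [bp_adj] at h1 h2
    rcases h1 with ⟨h1, rfl⟩ | ⟨_, rfl⟩
    · rcases h2 with ⟨h2, _⟩ | ⟨h2, _⟩
      · rw [D.line _ x h1 h2]
      · omega
    · rcases h2 with ⟨h2, h3⟩ | ⟨_, h2⟩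
      · rename_i h4
        rw [h3] at h4; omega
      · exact absurd h2 (D.p12 _)
  np12 := by
    intro b
    rw [bp_adj]
    rintro (⟨h, _⟩ | ⟨h, _⟩)
    · exact D.np12 _ h
    · omega
  tri1 := by
    rintro b ⟨x, z⟩ h1 h2
    rw [bp_adj] at h1 h2
    rcases h1 with ⟨h1, rfl⟩ | ⟨h4, rfl⟩
    · rcases h2 with ⟨h2, _⟩ | ⟨h2, _⟩
      · exact D.tri1 _ x h1 h2
      · omega
    · rcases h2 with ⟨h2, h3⟩ | ⟨_, h2⟩
      · rw [h3] at h4; omega
      · exact (D.adj1 _).ne h2.symm
  tri2 := by
    rintro b ⟨x, z⟩ h1 h2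
    rw [bp_adj] at h1 h2
    rcases h1 with ⟨h1, rfl⟩ | ⟨h4, rfl⟩
    · rcases h2 with ⟨h2, _⟩ | ⟨h2, _⟩
      · exact D.tri2 _ x h1 h2
      · omega
    · rcases h2 with ⟨h2, h3⟩ | ⟨_, h2⟩
      · rw [h3] at h4; omega
      · exact (D.adj2 _).ne h2.symm

end Good

end Pool.Agent.Helper19.Perco
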