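import Mathlib
import Pool.Agent.Helper19.PercBase2
import Pool.Agent.Helper19.PercFour
import Pool.Agent.Helper19.PercNext2

/-!
# Slow percolating sets in all grids
-/

set_option linter.unusedSectionVars false
set_option linter.unusedVariables false

namespace Pool.Agent.Helper19.Perco

open Set Snake Good SimpleGraph

/-! ### isomorphisms -/

lemma cnt_iso {V W : Type*} [Finite V] [Finite W] {G : SimpleGraph V} {H : SimpleGraph W}
    (e : G ≃g H) (S : Set W) (v : V) : cnt G (e ⁻¹' S) v = cnt H S (e v) := by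
  unfold cnt
  rw [← Set.ncard_image_of_injective (G.neighborSet v ∩ e ⁻¹' S) e.injective]
  congr 1
  ext w
  constructor
  · rintro ⟨u, ⟨h1, h2⟩, rfl⟩
    exact ⟨e.map_adj_iff.2 h1, h2⟩
  · rintro ⟨h1, h2⟩
    refine ⟨e.symm w, ⟨?_, ?_⟩, e.apply_symm_apply w⟩
    · have : H.Adj (e v) (e (e.symm w)) := by rw [e.apply_symm_apply]; exact h1
      exact e.map_adj_iff.1 this
    · show e (e.symm w) ∈ S
      rw [e.apply_symm_apply]; exact h2

lemma proc_iso {V W : Type*} [Finite V] [Finite W] {G : SimpleGraph V} {H : SimpleGraph W}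
    (e : G ≃g H) (r : ℕ) (A : Set W) (t : ℕ) :
    proc G r (e ⁻¹' A) t = e ⁻¹' (proc H r A t) := by
  induction t with
  | zero => rfl
  | succ t ih =>
    show nxt _ _ _ = e ⁻¹' (nxt _ _ _)
    rw [ih]
    ext v
    rw [mem_nxt, cnt_iso e]
    rfl

lemma Slow.iso {V W : Type*} [Finite V] [Finite W] {G : SimpleGraph V} {H : SimpleGraph W}
    {r T : ℕ} (h : Slow G r T) (e : G ≃g H) : Slow H r T := by
  obtain ⟨A, hA, v, hv⟩ := h
  have hpre : e ⁻¹' (e.symm ⁻¹' A) = A := by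
    ext x
    show e.symm (e x) ∈ A ↔ x ∈ A
    rw [e.symm_apply_apply]
  refine ⟨e.symm ⁻¹' A, ?_, e v, ?_⟩
  · intro S hS hcl w
    have h1 := hA (e ⁻¹' S) (by
      intro x hx
      apply hS
      show e.symm (e x) ∈ A
      rw [e.symm_apply_apply]; exact hx) (by
      intro x hx
      rw [cnt_iso e] at hx
      exact hcl _ hx) (e.symm w)
    have h2 : e (e.symm w) ∈ S := h1
    rwa [e.apply_symm_apply] at h2
  · intro h
    apply hv
    have h1 : v ∈ e ⁻¹' (proc H r (e.symm ⁻¹' A) T) := h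
    rw [← proc_iso e, hpre] at h1
    exact h1

/-- congruence for box products -/
def boxCongr {V V' W W' : Type*} {G : SimpleGraph V} {G' : SimpleGraph V'} {H : SimpleGraph W}
    {H' : SimpleGraph W'} (e : G ≃g G') (f : H ≃g H') : (G □ H) ≃g (G' □ H') where
  toEquiv := Equiv.prodCongr e.toEquiv f.toEquiv
  map_rel_iff' := by
    rintro ⟨a, b⟩ ⟨c, d⟩
    simp only [boxProd_adj, Equiv.prodCongr_apply, Prod.map]
    have h1 : G'.Adj (e.toEquiv a) (e.toEquiv c) ↔ G.Adj a c := e.map_adj_iff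
    have h2 : H'.Adj (f.toEquiv b) (f.toEquiv d) ↔ H.Adj b d := f.map_adj_iff
    rw [h1, h2, e.toEquiv.apply_eq_iff_eq, f.toEquiv.apply_eq_iff_eq]

/-- the grid `[n]^d` -/
def Gd (d n : ℕ) : SimpleGraph (Fin d → Fin n) where
  Adj x y := ∃ i, ((x i).val + 1 = (y i).val ∨ (y i).val + 1 = (x i).val) ∧ ∀ j, j ≠ i → x j = y j
  symm := ⟨fun x y ⟨i, h1, h2⟩ => ⟨i, h1.symm, fun j hj => (h2 j hj).symm⟩⟩
  loopless := ⟨fun x ⟨i, h1, _⟩ => by omega⟩

/-- splitting off a coordinate -/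
def consIso (d n : ℕ) : Gd (d + 1) n ≃g (pathGraph n □ Gd d n) where
  toFun x := (x 0, fun i => x i.succ)
  invFun p := Fin.cons p.1 p.2
  left_inv x := by
    ext i
    refine Fin.cases ?_ (fun i => ?_) i
    · rfl
    · rfl
  right_inv p := by
    rfl
  map_rel_iff' := by
    intro x y
    show (pathGraph n □ Gd d n).Adj (x 0, fun i => x i.succ) (y 0, fun i => y i.succ) ↔
      (Gd (d + 1) n).Adj x y
    rw [boxProd_adj, pathGraph_adj]
    constructor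
    · rintro (⟨h1, h2⟩ | ⟨⟨i, h1, h2⟩, h3⟩)
      · refine ⟨0, h1, ?_⟩
        intro j
        refine Fin.cases ?_ (fun i => ?_) j
        · intro h; exact absurd rfl h
        · intro _; exact congrFun h2 i
      · refine ⟨i.succ, h1, ?_⟩
        intro j
        refine Fin.cases ?_ (fun i' => ?_) j
        · intro _; exact h3
        · intro h
          exact h2 i' (fun h' => h (by rw [h']))
    · rintro ⟨i, h1, h2⟩
      revert h1 h2
      refine Fin.cases ?_ (fun i => ?_) i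
      · intro h1 h2
        left
        exact ⟨h1, funext fun j => h2 j.succ (Fin.succ_ne_zero j)⟩
      · intro h1 h2
        right
        exact ⟨⟨i, h1, fun j hj => h2 j.succ (fun h => hj (Fin.succ_injective _ h))⟩,
          h2 0 (Fin.succ_ne_zero i).symm⟩

/-- adding the zero dimensional grid -/
def zeroIso {V : Type*} (K : SimpleGraph V) (n : ℕ) : (K □ Gd 0 n) ≃g K where
  toFun p := p.1
  invFun v := (v, fun i => i.elim0)
  left_inv p := by
    rcases p with ⟨v, f⟩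
    simp only [Prod.mk.injEq, true_and]
    funext i; exact i.elim0
  right_inv v := rfl
  map_rel_iff' := by
    rintro ⟨a, f⟩ ⟨b, g⟩
    show K.Adj a b ↔ (K □ Gd 0 n).Adj (a, f) (b, g)
    rw [boxProd_adj]
    constructor
    · intro h; exact Or.inl ⟨h, funext fun i => i.elim0⟩
    · rintro (⟨h, _⟩ | ⟨⟨i, _⟩, _⟩)
      · exact h
      · exact i.elim0

/-- swapping the inner factors -/
def swapIso {V1 V2 V3 : Type*} (G1 : SimpleGraph V1) (G2 : SimpleGraph V2) (G3 : SimpleGraph V3) :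
    (G1 □ (G2 □ G3)) ≃g (G2 □ (G1 □ G3)) :=
  (boxProdAssoc G1 G2 G3).symm.trans
    ((boxCongr (boxProdComm G1 G2) (Iso.refl)).trans (boxProdAssoc G2 G1 G3))

/-- additivity of grids -/
def addIso (b n : ℕ) : ∀ a, (Gd b n □ Gd a n) ≃g Gd (b + a) n
  | 0 => zeroIso (Gd b n) n
  | a + 1 =>
    (boxCongr (Iso.refl) (consIso a n)).trans
      ((swapIso (Gd b n) (pathGraph n) (Gd a n)).trans
        ((boxCongr (Iso.refl) (addIso b n a)).trans (consIso (b + a) n).symm))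

/-- the one dimensional grid -/
def oneIso (n : ℕ) : pathGraph n ≃g Gd 1 n :=
  (zeroIso (pathGraph n) n).symm.trans (consIso 0 n).symm

/-- appending one dimension -/
def snocIso (d n : ℕ) : (Gd d n □ pathGraph n) ≃g Gd (d + 1) n :=
  (boxProdComm _ _).trans (consIso d n).symm

/-! ### parameters -/

lemma snake_params (L n : ℕ) (hL : 24 ≤ L) (hn : 24 ≤ n) : ∃ W k, W % 4 = 1 ∧ 5 ≤ W ∧
    W + 10 ≤ L ∧ k % 2 = 1 ∧ 3 ≤ k ∧ 2 * k + 1 ≤ n ∧ n * L ≤ 8 * last W k := by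
  refine ⟨4 * ((L - 11) / 4) + 1, 2 * ((n - 3) / 4) + 1, by omega, by omega, by omega, by omega,
    by omega, by omega, ?_⟩
  obtain ⟨l, rfl⟩ : ∃ l, L = 24 + l := ⟨L - 24, by omega⟩
  obtain ⟨m, rfl⟩ : ∃ m, n = 24 + m := ⟨n - 24, by omega⟩
  set W := 4 * ((24 + l - 11) / 4) + 1 with hW
  set k := 2 * ((24 + m - 3) / 4) + 1 with hk
  have h1 : 12 + l ≤ W + 1 := by omega
  have h2 : 20 + m ≤ 2 * k := by omega
  have h3 : (20 + m) * (12 + l) ≤ (2 * k) * (W + 1) := Nat.mul_le_mul h2 h1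
  unfold last
  nlinarith

theorem chain (a n : ℕ) (hn : 24 ≤ n) : ∃ L : ℕ, 24 ≤ L ∧ n ^ (a + 1) ≤ 8 ^ a * L ∧
    ∀ (V : Type) [Finite V] (K : SimpleGraph V) (r T : ℕ), Slow (K □ pathGraph L) r T →
      Slow (K □ Gd (a + 1) n) (r + 2 * a) T := by
  induction a with
  | zero =>
    refine ⟨n, hn, by simp, ?_⟩
    intro V _ K r T h
    exact h.iso (boxCongr Iso.refl (oneIso n))
  | succ a ih =>
    obtain ⟨L, hL, hpow, hLK⟩ := ih
    obtain ⟨W, k, h1, h2, h3, h4, h5, h6, h7⟩ := snake_params L n hL hn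
    have hlast : 24 ≤ last W k + 1 := by
      have : 24 * 24 ≤ n * L := Nat.mul_le_mul hn hL
      omega
    refine ⟨last W k + 1, hlast, ?_, ?_⟩
    · calc n ^ (a + 1 + 1) = n ^ (a + 1) * n := by rw [pow_succ]
        _ ≤ (8 ^ a * L) * n := Nat.mul_le_mul_right _ hpow
        _ = 8 ^ a * (n * L) := by ring
        _ ≤ 8 ^ a * (8 * last W k) := Nat.mul_le_mul_left _ h7
        _ ≤ 8 ^ a * (8 * (last W k + 1)) := by gcongr; omega
        _ = 8 ^ (a + 1) * (last W k + 1) := by ring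
    · intro V _ K r T h
      have e1 := slow_raise L n W k h1 h2 (by omega) h4 h5 h6 K r T h
      -- K □ (P L □ P n)
      have e2 : (K □ (pathGraph L □ pathGraph n)) ≃g ((K □ pathGraph n) □ pathGraph L) :=
        (boxCongr Iso.refl (boxProdComm _ _)).trans (boxProdAssoc K (pathGraph n) (pathGraph L)).symm
      have e3 := hLK (V × Fin n) (K □ pathGraph n) (r + 2) T (e1.iso e2)
      have e4 : ((K □ pathGraph n) □ Gd (a + 1) n) ≃g (K □ Gd (a + 1 + 1) n) :=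
        (boxProdAssoc K (pathGraph n) (Gd (a + 1) n)).trans
          (boxCongr Iso.refl (consIso (a + 1) n).symm)
      have e5 := e3.iso e4
      have : r + 2 + 2 * a = r + 2 * (a + 1) := by ring
      rwa [this] at e5

theorem good_chain (b L n : ℕ) (hL : 24 ≤ L) (hn : 24 ≤ n) :
    ∃ (V : Type) (_ : Finite V) (X : SimpleGraph V) (T : ℕ), Nonempty (Good X T) ∧
      Nonempty (X ≃g (pathGraph L □ Gd (b + 1) n)) ∧ L * n ^ (b + 1) ≤ 16 * 3 ^ b * T := by
  induction b with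
  | zero =>
    obtain ⟨W, k, h1, h2, h3, h4, h5, h6, h7⟩ := snake_params L n hL hn
    refine ⟨Fin L × Fin n, inferInstance, Gr L n, last W k - 1,
      ⟨baseGood h1 h2 h3 h4 h5 h6⟩, ⟨boxCongr Iso.refl (oneIso n)⟩, ?_⟩
    have : 24 * 24 ≤ n * L := Nat.mul_le_mul hn hL
    rw [Nat.zero_add, pow_one, pow_zero, Nat.mul_one, Nat.mul_comm]
    omega
  | succ b ih =>
    obtain ⟨V, hV, X, T, ⟨D⟩, ⟨e⟩, hT⟩ := ih
    refine ⟨V × Fin n, inferInstance, X □ pathGraph n, ((n - 1) / 3 + 1) * T,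
      ⟨D.next n (by omega)⟩, ⟨?_⟩, ?_⟩
    · exact (boxCongr e Iso.refl).trans ((boxProdAssoc _ _ _).trans
        (boxCongr Iso.refl (snocIso (b + 1) n)))
    · have h1 : n ≤ 3 * ((n - 1) / 3 + 1) := by omega
      calc L * n ^ (b + 1 + 1) = (L * n ^ (b + 1)) * n := by ring
        _ ≤ (16 * 3 ^ b * T) * (3 * ((n - 1) / 3 + 1)) := Nat.mul_le_mul hT h1
        _ = 16 * 3 ^ (b + 1) * (((n - 1) / 3 + 1) * T) := by ring

/-- odd thresholds -/
theorem slow_odd (a b n : ℕ) (hn : 24 ≤ n) : ∃ T, n ^ (b + 1 + (a + 1)) ≤ (8 ^ a * 16 * 3 ^ b) * T ∧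
    Slow (Gd (b + 1 + (a + 1)) n) (3 + 2 * a) T := by
  obtain ⟨L, hL, hpow, hLK⟩ := chain a n hn
  obtain ⟨V, hV, X, T, ⟨D⟩, ⟨e⟩, hT⟩ := good_chain b L n hL hn
  refine ⟨T, ?_, ?_⟩
  · calc n ^ (b + 1 + (a + 1)) = n ^ (a + 1) * n ^ (b + 1) := by rw [← pow_add]; congr 1; ring
      _ ≤ (8 ^ a * L) * n ^ (b + 1) := Nat.mul_le_mul_right _ hpow
      _ = 8 ^ a * (L * n ^ (b + 1)) := by ring
      _ ≤ 8 ^ a * (16 * 3 ^ b * T) := Nat.mul_le_mul_left _ hT
      _ = (8 ^ a * 16 * 3 ^ b) * T := by ring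
  · have h1 : Slow (Gd (b + 1) n □ pathGraph L) 3 T :=
      D.slow3.iso (e.trans (boxProdComm _ _))
    exact (hLK _ _ 3 T h1).iso (addIso (b + 1) n (a + 1))

/-- even thresholds -/
theorem slow_even (a b n : ℕ) (hn : 24 ≤ n) :
    ∃ T, n ^ (b + 1 + 1 + (a + 1)) ≤ (8 ^ a * 16 * 3 ^ (b + 1)) * T ∧
    Slow (Gd (b + 1 + 1 + (a + 1)) n) (4 + 2 * a) T := by
  obtain ⟨L, hL, hpow, hLK⟩ := chain a n hn
  obtain ⟨V, hV, X, T, ⟨D⟩, ⟨e⟩, hT⟩ := good_chain b L n hL hn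
  refine ⟨(n - 1) / 2 * T, ?_, ?_⟩
  · have h1 : n ≤ 3 * ((n - 1) / 2) := by omega
    calc n ^ (b + 1 + 1 + (a + 1)) = n ^ (a + 1) * n ^ (b + 1) * n := by
          rw [← pow_add, ← pow_succ]; congr 1; ring
      _ ≤ (8 ^ a * L) * n ^ (b + 1) * n := by gcongr
      _ = 8 ^ a * ((L * n ^ (b + 1)) * n) := by ring
      _ ≤ 8 ^ a * ((16 * 3 ^ b * T) * (3 * ((n - 1) / 2))) :=
          Nat.mul_le_mul_left _ (Nat.mul_le_mul hT h1)
      _ = (8 ^ a * 16 * 3 ^ (b + 1)) * ((n - 1) / 2 * T) := by ring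
  · have h0 := D.slow4 n (by omega)
    have e1 : (X □ pathGraph n) ≃g (pathGraph L □ Gd (b + 1 + 1) n) :=
      (boxCongr e Iso.refl).trans ((boxProdAssoc _ _ _).trans
        (boxCongr Iso.refl (snocIso (b + 1) n)))
    have h1 : Slow (Gd (b + 1 + 1) n □ pathGraph L) 4 ((n - 1) / 2 * T) :=
      h0.iso (e1.trans (boxProdComm _ _))
    exact (hLK _ _ 4 _ h1).iso (addIso (b + 1 + 1) n (a + 1))

/-- all thresholds -/
theorem slow_all (d r : ℕ) (h3 : 3 ≤ r) (hr : r + 1 ≤ 2 * d) :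
    ∃ C : ℕ, ∀ n, 24 ≤ n → ∃ T, n ^ d ≤ C * T ∧ Slow (Gd d n) r T := by
  rcases Nat.even_or_odd' r with ⟨q, hq | hq⟩
  · obtain ⟨a, ha⟩ : ∃ a, r = 4 + 2 * a := ⟨q - 2, by omega⟩
    obtain ⟨b, hb⟩ : ∃ b, d = b + 1 + 1 + (a + 1) := ⟨d - a - 3, by omega⟩
    refine ⟨8 ^ a * 16 * 3 ^ (b + 1), fun n hn => ?_⟩
    rw [ha, hb]
    exact slow_even a b n hn
  · obtain ⟨a, ha⟩ : ∃ a, r = 3 + 2 * a := ⟨q - 1, by omega⟩
    obtain ⟨b, hb⟩ : ∃ b, d = b + 1 + (a + 1) := ⟨d - a - 2, by omega⟩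
    refine ⟨8 ^ a * 16 * 3 ^ b, fun n hn => ?_⟩
    rw [ha, hb]
    exact slow_odd a b n hn

end Pool.Agent.Helper19.Perco
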