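import Mathlib

/-!
# The Bregman-Minc inequality (Schrijver's proof)
-/

universe u v

namespace Pool.Agent.Helper19

open Finset

/-- The logarithm of the Bregman factor `(s!)^(1/s)`. -/
noncomputable def bl (s : ℕ) : ℝ := Real.log (s.factorial : ℝ) / s

lemma bl_zero : bl 0 = 0 := by simp [bl]

lemma bl_nonneg (s : ℕ) : 0 ≤ bl s := by
  unfold bl
  apply div_nonneg
  · apply Real.log_nonneg
    exact_mod_cast Nat.succ_le_of_lt (Nat.factorial_pos s)
  · positivity

lemma bl_rec (n r : ℕ) (hr : 1 ≤ r) :
    Real.log r + ((n : ℝ) - r) * bl r + ((r : ℝ) - 1) * bl (r - 1) = n * bl r := by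
  have hr0 : (r : ℝ) ≠ 0 := by positivity
  have h1 : ((r : ℝ) - 1) * bl (r - 1) = Real.log ((r - 1).factorial : ℝ) := by
    unfold bl
    rcases Nat.eq_or_lt_of_le hr with h | h
    · subst h; simp
    · have : ((r - 1 : ℕ) : ℝ) = (r : ℝ) - 1 := by
        rw [Nat.cast_sub hr]; simp
      rw [this]
      have h2 : (r : ℝ) - 1 ≠ 0 := by
        have : (1 : ℝ) < r := by exact_mod_cast h
        linarith
      field_simp
  have h2 : Real.log (r.factorial : ℝ) = Real.log r + Real.log ((r - 1).factorial : ℝ) := by
    have h3 : r.factorial = r * (r - 1).factorial := by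
      rw [Nat.mul_factorial_pred (by omega)]
    rw [h3]
    push_cast
    rw [Real.log_mul hr0 (by positivity)]
  have h3 : (r : ℝ) * bl r = Real.log (r.factorial : ℝ) := by
    unfold bl; field_simp
  rw [h1]
  nlinarith [h2, h3]

/-- Matchings from `X` to `Y` with `σ x ∈ A x`. -/
noncomputable def PM {X Y : Type*} [Fintype X] [Fintype Y] [DecidableEq X] [DecidableEq Y]
    (A : X → Finset Y) : Finset (X ≃ Y) :=
  Finset.univ.filter (fun σ => ∀ x, σ x ∈ A x)

lemma mem_PM {X Y : Type*} [Fintype X] [Fintype Y] [DecidableEq X] [DecidableEq Y]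
    (A : X → Finset Y) (σ : X ≃ Y) : σ ∈ PM A ↔ ∀ x, σ x ∈ A x := by
  simp [PM]

/-- Jensen for `x log x`. -/
lemma jensen_mul_log {ι : Type*} (s : Finset ι) (hs : s.Nonempty) (f : ι → ℝ)
    (hf : ∀ i ∈ s, 0 ≤ f i) :
    (∑ i ∈ s, f i) * Real.log (∑ i ∈ s, f i) ≤
      (∑ i ∈ s, f i) * Real.log (s.card : ℝ) + ∑ i ∈ s, f i * Real.log (f i) := by
  set S := ∑ i ∈ s, f i with hS
  have hc : (0 : ℝ) < s.card := by exact_mod_cast hs.card_pos
  have hconv := Real.convexOn_mul_log
  have h := hconv.map_sum_le (t := s) (w := fun _ => (1 : ℝ) / s.card) (p := f)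
    (fun i _ => by positivity) (by simp; field_simp) (fun i hi => hf i hi)
  simp only [smul_eq_mul] at h
  rw [← Finset.mul_sum, ← Finset.mul_sum, ← hS] at h
  rcases eq_or_lt_of_le (Finset.sum_nonneg hf) with h0 | h0
  · rw [← hS] at h0
    rw [← h0]
    simp only [zero_mul, zero_add]
    have : ∀ i ∈ s, f i = 0 := by
      intro i hi
      exact (Finset.sum_eq_zero_iff_of_nonneg hf).1 (by rw [← hS]; exact h0.symm) i hi
    rw [Finset.sum_eq_zero]
    intro i hi
    rw [this i hi]; simp
  · rw [← hS] at h0
    have h1 : Real.log (1 / (s.card : ℝ) * S) = Real.log S - Real.log s.card := by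
      rw [Real.log_mul (by positivity) (by positivity), one_div, Real.log_inv]; ring
    rw [h1] at h
    have h2 : S * (Real.log S - Real.log s.card) ≤ ∑ i ∈ s, f i * Real.log (f i) := by
      have h3 := mul_le_mul_of_nonneg_left h hc.le
      have e1 : (s.card : ℝ) * (1 / (s.card : ℝ) * S * (Real.log S - Real.log s.card))
          = S * (Real.log S - Real.log s.card) := by field_simp
      have e2 : (s.card : ℝ) * (1 / (s.card : ℝ) * ∑ i ∈ s, f i * Real.log (f i))
          = ∑ i ∈ s, f i * Real.log (f i) := by field_simp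
      rw [e1, e2] at h3
      exact h3
    linarith

/-- Restriction of matchings sending `x` to `y`. -/
lemma card_PM_fiber_le {X Y : Type*} [Fintype X] [Fintype Y] [DecidableEq X] [DecidableEq Y]
    (A : X → Finset Y) (x : X) (y : Y) :
    ((PM A).filter (fun σ => σ x = y)).card ≤
      (PM (X := {x' // x' ≠ x}) (Y := {y' // y' ≠ y})
        (fun x' => (A x'.1).subtype (fun y' => y' ≠ y))).card := by
  have hh : ∀ σ : X ≃ Y, σ x = y → ∀ a, a ≠ x ↔ σ a ≠ y := by
    intro σ h a
    constructor
    · intro ha hb
      apply ha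
      apply σ.injective
      rw [hb, h]
    · intro ha hb
      apply ha
      rw [hb, h]
  rw [← Fintype.card_coe, ← Fintype.card_coe]
  let F : {σ // σ ∈ (PM A).filter (fun σ => σ x = y)} →
      {τ // τ ∈ PM (X := {x' // x' ≠ x}) (Y := {y' // y' ≠ y})
        (fun x' => (A x'.1).subtype (fun y' => y' ≠ y))} := fun σ =>
    ⟨σ.1.subtypeEquiv (hh σ.1 (Finset.mem_filter.1 σ.2).2), by
      rw [mem_PM]
      intro x'
      rw [Finset.mem_subtype]
      exact (mem_PM _ _).1 (Finset.mem_filter.1 σ.2).1 x'.1⟩
  apply Fintype.card_le_of_injective F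
  intro σ τ h
  have h1 : σ.1.subtypeEquiv (hh σ.1 (Finset.mem_filter.1 σ.2).2) =
      τ.1.subtypeEquiv (hh τ.1 (Finset.mem_filter.1 τ.2).2) := congrArg Subtype.val h
  apply Subtype.ext
  apply Equiv.ext
  intro a
  by_cases ha : a = x
  · subst ha
    rw [(Finset.mem_filter.1 σ.2).2, (Finset.mem_filter.1 τ.2).2]
  · have := congrArg (fun e : {x' // x' ≠ x} ≃ {y' // y' ≠ y} => (e ⟨a, ha⟩).1) h1
    simpa using this

theorem bregman_aux (n : ℕ) : ∀ {X : Type u} {Y : Type v} [Fintype X] [Fintype Y]
    [DecidableEq X] [DecidableEq Y] (A : X → Finset Y), Fintype.card X = n →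
    ((PM A).card : ℝ) ≤ Real.exp (∑ x, bl (A x).card) := by
  induction n with
  | zero =>
    intro X Y _ _ _ _ A hX
    have : IsEmpty X := Fintype.card_eq_zero_iff.1 hX
    have h1 : (PM A).card ≤ 1 := by
      rw [Finset.card_le_one]
      intro σ _ τ _
      apply Equiv.ext
      intro a
      exact isEmptyElim a
    have h2 : ((PM A).card : ℝ) ≤ 1 := by exact_mod_cast h1
    simpa using h2
  | succ m ih =>
    intro X Y _ _ _ _ A hX
    set n := m + 1 with hn
    rcases (PM A).eq_empty_or_nonempty with he | hne
    · rw [he]; simp; positivity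
    set p : ℝ := ((PM A).card : ℝ) with hp
    have hp0 : 0 < p := by rw [hp]; exact_mod_cast hne.card_pos
    obtain ⟨σ₀, hσ₀⟩ := hne
    have hA : ∀ x, (A x).Nonempty := fun x => ⟨σ₀ x, (mem_PM _ _).1 hσ₀ x⟩
    let q : X → Y → ℝ := fun x y => (((PM A).filter (fun σ => σ x = y)).card : ℝ)
    have hqd : ∀ x y, q x y = (((PM A).filter (fun σ => σ x = y)).card : ℝ) := fun _ _ => rfl
    -- step 1
    have hsum : ∀ x, ∑ y ∈ A x, q x y = p := by
      intro x
      have := Finset.card_eq_sum_card_fiberwise (s := PM A) (t := A x) (f := fun σ => σ x)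
        (fun σ hσ => (mem_PM _ _).1 hσ x)
      rw [hp, this]
      push_cast
      rfl
    have hstep1 : ∀ x, p * Real.log p ≤ p * Real.log (A x).card +
        ∑ σ ∈ PM A, Real.log (q x (σ x)) := by
      intro x
      have h := jensen_mul_log (A x) (hA x) (q x) (fun y _ => by positivity)
      rw [hsum x] at h
      have h2 : ∑ y ∈ A x, q x y * Real.log (q x y) = ∑ σ ∈ PM A, Real.log (q x (σ x)) := by
        rw [← Finset.sum_fiberwise_of_maps_to (s := PM A) (t := A x) (g := fun σ => σ x)
          (fun σ hσ => (mem_PM _ _).1 hσ x)]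
        apply Finset.sum_congr rfl
        intro y _
        rw [Finset.sum_congr rfl (g := fun _ => Real.log (q x y))]
        · rw [Finset.sum_const, nsmul_eq_mul]
        · intro σ hσ
          rw [(Finset.mem_filter.1 hσ).2]
      rw [h2] at h
      exact h
    -- step 2: bound log q
    have hstep2 : ∀ σ ∈ PM A, ∀ x, Real.log (q x (σ x)) ≤
        ∑ x' ∈ Finset.univ.erase x, bl ((A x').card - (if σ x ∈ A x' then 1 else 0)) := by
      intro σ hσ x
      have hqpos : 0 < q x (σ x) := by
        have : 0 < ((PM A).filter (fun τ => τ x = σ x)).card :=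
          Finset.card_pos.2 ⟨σ, Finset.mem_filter.2 ⟨hσ, rfl⟩⟩
        rw [hqd]
        exact_mod_cast this
      have hcard : Fintype.card {x' // x' ≠ x} = m := by
        rw [Fintype.card_subtype_compl (fun x' => x' = x)]
        simp [hX, hn]
      have h1 := ih (X := {x' // x' ≠ x}) (Y := {y' // y' ≠ σ x})
        (fun x' => (A x'.1).subtype (fun y' => y' ≠ σ x)) hcard
      have h2 : q x (σ x) ≤ Real.exp (∑ x' : {x' // x' ≠ x},
          bl ((A x'.1).subtype (fun y' => y' ≠ σ x)).card) := by
        refine le_trans ?_ h1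
        have := card_PM_fiber_le A x (σ x)
        rw [hqd]
        exact_mod_cast this
      have h3 : Real.log (q x (σ x)) ≤ ∑ x' : {x' // x' ≠ x},
          bl ((A x'.1).subtype (fun y' => y' ≠ σ x)).card := by
        rw [← Real.log_exp (∑ x' : {x' // x' ≠ x},
          bl ((A x'.1).subtype (fun y' => y' ≠ σ x)).card)]
        exact Real.log_le_log hqpos h2
      refine le_trans h3 (le_of_eq ?_)
      have h4 : ∀ x' : {x' // x' ≠ x}, bl ((A x'.1).subtype (fun y' => y' ≠ σ x)).card =
          (fun x'' : X => bl ((A x'').card - (if σ x ∈ A x'' then 1 else 0))) x'.1 := by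
        intro x'
        simp only
        congr 1
        rw [Finset.card_subtype, Finset.filter_ne']
        by_cases hm : σ x ∈ A x'.1
        · rw [if_pos hm, Finset.card_erase_of_mem hm]
        · rw [if_neg hm, Finset.erase_eq_of_notMem hm]; simp
      rw [Finset.sum_congr rfl (fun x' _ => h4 x')]
      rw [← Finset.sum_subtype (Finset.univ.erase x) (p := fun x' => x' ≠ x)
        (f := fun x'' : X => bl ((A x'').card - (if σ x ∈ A x'' then 1 else 0)))]
      intro x'
      simp
    -- step 3 : for each σ
    have hstep3 : ∀ σ ∈ PM A, ∑ x, (Real.log (A x).card + Real.log (q x (σ x))) ≤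
        n * ∑ x, bl (A x).card := by
      intro σ hσ
      have h1 : ∑ x, Real.log (q x (σ x)) ≤ ∑ x, ∑ x' ∈ Finset.univ.erase x,
          bl ((A x').card - (if σ x ∈ A x' then 1 else 0)) :=
        Finset.sum_le_sum (fun x _ => hstep2 σ hσ x)
      have h2 : ∑ x, ∑ x' ∈ Finset.univ.erase x,
          bl ((A x').card - (if σ x ∈ A x' then 1 else 0)) =
          ∑ x', ∑ x ∈ Finset.univ.erase x', bl ((A x').card - (if σ x ∈ A x' then 1 else 0)) := by
        apply Finset.sum_comm'
        intro x y
        simp
        tauto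
      have h3 : ∀ x', ∑ x ∈ Finset.univ.erase x', bl ((A x').card - (if σ x ∈ A x' then 1 else 0))
          = ((n : ℝ) - (A x').card) * bl (A x').card +
            (((A x').card : ℝ) - 1) * bl ((A x').card - 1) := by
        intro x'
        have hmem : σ x' ∈ A x' := (mem_PM _ _).1 hσ x'
        have hc1 : ((Finset.univ.erase x').filter (fun x => σ x ∈ A x')).card =
            (A x').card - 1 := by
          have : (Finset.univ.erase x').filter (fun x => σ x ∈ A x') =
              ((A x').erase (σ x')).map σ.symm.toEmbedding := by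
            ext a
            simp only [Finset.mem_filter, Finset.mem_erase, Finset.mem_univ, and_true,
              Finset.mem_map, Equiv.coe_toEmbedding]
            constructor
            · rintro ⟨ha, hb⟩
              exact ⟨σ a, ⟨fun h => ha (σ.injective h), hb⟩, by simp⟩
            · rintro ⟨b, ⟨hb1, hb2⟩, rfl⟩
              refine ⟨fun h => hb1 ?_, by simpa using hb2⟩
              rw [← h]; simp
          rw [this, Finset.card_map, Finset.card_erase_of_mem hmem]
        have hc2 : ((Finset.univ.erase x').filter (fun x => ¬ σ x ∈ A x')).card +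
            ((Finset.univ.erase x').filter (fun x => σ x ∈ A x')).card = n - 1 := by
          rw [add_comm, Finset.card_filter_add_card_filter_not, Finset.card_erase_of_mem (Finset.mem_univ _)]
          rw [Finset.card_univ, hX]
        have hpos : 1 ≤ (A x').card := (hA x').card_pos
        rw [← Finset.sum_filter_add_sum_filter_not (Finset.univ.erase x')
          (fun x => σ x ∈ A x')]
        rw [Finset.sum_congr rfl (g := fun _ => bl ((A x').card - 1))
          (fun x hx => by rw [if_pos (Finset.mem_filter.1 hx).2])]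
        rw [Finset.sum_congr (s₁ := (Finset.univ.erase x').filter (fun x => ¬ σ x ∈ A x')) rfl
          (g := fun _ => bl ((A x').card))
          (fun x hx => by rw [if_neg (Finset.mem_filter.1 hx).2]; simp)]
        rw [Finset.sum_const, Finset.sum_const, nsmul_eq_mul, nsmul_eq_mul, hc1]
        have hc3 : (((Finset.univ.erase x').filter (fun x => ¬ σ x ∈ A x')).card : ℝ) =
            (n : ℝ) - (A x').card := by
          rw [hc1] at hc2
          have : (((Finset.univ.erase x').filter (fun x => ¬ σ x ∈ A x')).card : ℝ) +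
            (((A x').card - 1 : ℕ) : ℝ) = ((n - 1 : ℕ) : ℝ) := by exact_mod_cast hc2
          rw [Nat.cast_sub hpos, Nat.cast_sub (by omega)] at this
          push_cast at this ⊢
          linarith
        rw [hc3, Nat.cast_sub hpos]
        push_cast
        ring
      rw [Finset.sum_add_distrib]
      calc ∑ x, Real.log (A x).card + ∑ x, Real.log (q x (σ x))
          ≤ ∑ x, Real.log (A x).card + ∑ x', (((n : ℝ) - (A x').card) * bl (A x').card +
            (((A x').card : ℝ) - 1) * bl ((A x').card - 1)) := by
            rw [h2] at h1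
            rw [Finset.sum_congr rfl (fun x' _ => h3 x')] at h1
            linarith
        _ = n * ∑ x, bl (A x).card := by
            rw [← Finset.sum_add_distrib, Finset.mul_sum]
            apply Finset.sum_congr rfl
            intro x _
            rw [← bl_rec n (A x).card (hA x).card_pos]
            ring
    -- combine
    have hfin : (n : ℝ) * (p * Real.log p) ≤ p * (n * ∑ x, bl (A x).card) := by
      have h1 : (n : ℝ) * (p * Real.log p) = ∑ _x : X, p * Real.log p := by
        rw [Finset.sum_const, Finset.card_univ, hX, nsmul_eq_mul]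
      rw [h1]
      calc ∑ _x : X, p * Real.log p
          ≤ ∑ x, (p * Real.log (A x).card + ∑ σ ∈ PM A, Real.log (q x (σ x))) :=
            Finset.sum_le_sum (fun x _ => hstep1 x)
        _ = ∑ x, ∑ σ ∈ PM A, (Real.log (A x).card + Real.log (q x (σ x))) := by
            apply Finset.sum_congr rfl
            intro x _
            rw [Finset.sum_add_distrib, Finset.sum_const, nsmul_eq_mul]
        _ = ∑ σ ∈ PM A, ∑ x, (Real.log (A x).card + Real.log (q x (σ x))) := Finset.sum_comm
        _ ≤ ∑ σ ∈ PM A, (n * ∑ x, bl (A x).card) := Finset.sum_le_sum hstep3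
        _ = p * (n * ∑ x, bl (A x).card) := by
            rw [Finset.sum_const, nsmul_eq_mul]
    have hlog : Real.log p ≤ ∑ x, bl (A x).card := by
      have hnp : (0 : ℝ) < n * p := by
        have : (0 : ℝ) < n := by rw [hn]; positivity
        positivity
      have h1 : (n * p) * Real.log p ≤ (n * p) * ∑ x, bl (A x).card := by
        calc (n * p) * Real.log p = (n : ℝ) * (p * Real.log p) := by ring
          _ ≤ p * (n * ∑ x, bl (A x).card) := hfin
          _ = _ := by ring
      exact le_of_mul_le_mul_left h1 hnp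
    calc p = Real.exp (Real.log p) := (Real.exp_log hp0).symm
      _ ≤ _ := Real.exp_le_exp.2 hlog

/-- **Bregman-Minc inequality.** -/
theorem bregman {X : Type u} {Y : Type v} [Fintype X] [Fintype Y] [DecidableEq X] [DecidableEq Y]
    (A : X → Finset Y) : ((PM A).card : ℝ) ≤ Real.exp (∑ x, bl (A x).card) :=
  bregman_aux _ A rfl

end Pool.Agent.Helper19
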