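import Mathlib
import Pool.Agent.Helper19.Bregman

/-!
# A Stirling type bound for `bl`
-/

namespace Pool.Agent.Helper19

lemma log_factorial_le (s : ℕ) (hs : 1 ≤ s) :
    Real.log (s.factorial : ℝ) ≤ 1 + Real.log s + s * Real.log s - s := by
  induction s, hs using Nat.le_induction with
  | base => simp
  | succ s hs ih =>
    have hs0 : (0 : ℝ) < s := by exact_mod_cast hs
    have hs1 : (0 : ℝ) < s + 1 := by positivity
    rw [Nat.factorial_succ]
    push_cast
    rw [Real.log_mul (by positivity) (by positivity)]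
    -- 1 ≤ (s+1) (log (s+1) - log s)
    have h1 : Real.log ((s : ℝ) / (s + 1)) ≤ (s : ℝ) / (s + 1) - 1 :=
      Real.log_le_sub_one_of_pos (by positivity)
    rw [Real.log_div hs0.ne' hs1.ne'] at h1
    have h2 : (s : ℝ) / (s + 1) - 1 = - (1 / (s + 1)) := by field_simp; ring
    rw [h2] at h1
    have h3 : ((s : ℝ) + 1) * (Real.log s - Real.log (s + 1)) ≤ -1 := by
      calc ((s : ℝ) + 1) * (Real.log s - Real.log (s + 1)) ≤ (s + 1) * (-(1 / (s + 1))) :=
            mul_le_mul_of_nonneg_left h1 hs1.le
        _ = -1 := by field_simp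
    nlinarith

lemma bl_bound (d : ℕ) (δ : ℝ) (hd : 1 ≤ d) (hδ : 3 + 4 * Real.log d ≤ δ * d) :
    ∀ s : ℕ, s ≤ d * d → bl s ≤ Real.log d - 1 + Real.log ((s : ℝ) / d + δ) := by
  intro s hs
  have hd0 : (0 : ℝ) < d := by exact_mod_cast hd
  have hd1 : (1 : ℝ) ≤ d := by exact_mod_cast hd
  have hld : 0 ≤ Real.log d := Real.log_nonneg hd1
  have hδ0 : 0 < δ := by
    by_contra h
    push Not at h
    have := mul_nonpos_of_nonpos_of_nonneg h hd0.le
    linarith
  rcases Nat.eq_zero_or_pos s with h0 | h0
  · subst h0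
    rw [bl_zero, Nat.cast_zero, zero_div, zero_add]
    have h1 : Real.log d + Real.log δ = Real.log (δ * d) := by
      rw [Real.log_mul hδ0.ne' hd0.ne']; ring
    have h2 : 1 ≤ Real.log (δ * d) := by
      rw [Real.le_log_iff_exp_le (by positivity)]
      have := Real.exp_one_lt_d9
      linarith
    linarith
  · have hs0 : (0 : ℝ) < s := by exact_mod_cast h0
    have hs1 : (1 : ℝ) ≤ s := by exact_mod_cast h0
    have hls : 0 ≤ Real.log s := Real.log_nonneg hs1
    have h1 := log_factorial_le s h0
    set z : ℝ := (1 + Real.log s) / s with hz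
    have hz0 : 0 ≤ z := by positivity
    have hz1 : z ≤ 1 := by
      rw [hz, div_le_one hs0]
      have := Real.log_le_sub_one_of_pos hs0
      linarith
    have h2 : bl s ≤ Real.log s - 1 + z := by
      unfold bl
      rw [div_le_iff₀ hs0, hz]
      have : (Real.log s - 1 + (1 + Real.log s) / s) * s = 1 + Real.log s + s * Real.log s - s := by
        field_simp; ring
      rw [this]; exact h1
    have h3 : Real.exp z ≤ 1 + 2 * z := by
      have := Real.abs_exp_sub_one_le (x := z) (by rw [abs_of_nonneg hz0]; exact hz1)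
      rw [abs_of_nonneg hz0] at this
      have := (abs_le.1 this).2
      linarith
    have h4 : Real.log s ≤ 2 * Real.log d := by
      have : Real.log (s : ℝ) ≤ Real.log ((d : ℝ) * d) :=
        Real.log_le_log hs0 (by exact_mod_cast hs)
      rw [Real.log_mul hd0.ne' hd0.ne'] at this
      linarith
    have h5 : (s : ℝ) * Real.exp z ≤ s + δ * d := by
      have : (s : ℝ) * Real.exp z ≤ s * (1 + 2 * z) := mul_le_mul_of_nonneg_left h3 hs0.le
      have e : (s : ℝ) * (1 + 2 * z) = s + 2 * (1 + Real.log s) := by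
        rw [hz]; field_simp
      linarith
    have h6 : Real.log s + z ≤ Real.log d + Real.log ((s : ℝ) / d + δ) := by
      rw [← Real.log_mul hd0.ne' (by positivity)]
      have e : (d : ℝ) * ((s : ℝ) / d + δ) = s + δ * d := by field_simp
      rw [e, Real.le_log_iff_exp_le (by positivity), Real.exp_add, Real.exp_log hs0]
      exact h5
    linarith

end Pool.Agent.Helper19
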