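import Mathlib
import Pool.Agent.Helper19.Bregman

/-!
# Weighted counting of spanning embeddings of a rooted tree with levels
-/

set_option linter.unusedSectionVars false

universe u v

namespace Pool.Agent.Helper19

open Finset

/-- A rooted tree given by its parent map, with a depth function and a level function:
level `0` is a subtree containing the root (the core), and outside the core the level is the
distance to the core. -/
structure LevTree (U : Type u) where
  root : U
  par : U → U
  dep : U → ℕ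
  lev : U → ℕ
  dep_par : ∀ a, a ≠ root → dep a = dep (par a) + 1
  lev_root : lev root = 0
  lev_zero : ∀ a, a ≠ root → lev a = 0 → lev (par a) = 0
  lev_succ : ∀ a, a ≠ root → lev a ≠ 0 → lev a = lev (par a) + 1

variable {U : Type u} {V : Type v} [Fintype U] [Fintype V] [DecidableEq U] [DecidableEq V]

namespace LevTree

variable (L : LevTree U)

/-- children of `a` of level `h` -/
def ch (h : ℕ) (a : U) : Finset U := univ.filter (fun b => b ≠ L.root ∧ L.par b = a ∧ L.lev b = h)

/-- number of children of `a` of level `h` -/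
def c (h : ℕ) (a : U) : ℕ := (L.ch h a).card

lemma mem_ch (h : ℕ) (a b : U) : b ∈ L.ch h a ↔ b ≠ L.root ∧ L.par b = a ∧ L.lev b = h := by
  simp [ch]

lemma c_eq_zero_of_lt {h : ℕ} {a : U} (hh : h ≠ 0) (ha : h ≤ L.lev a) : L.c h a = 0 := by
  rw [c, Finset.card_eq_zero, Finset.eq_empty_iff_forall_notMem]
  intro b hb
  rw [mem_ch] at hb
  obtain ⟨h1, h2, h3⟩ := hb
  have := L.lev_succ b h1 (by omega)
  rw [h2] at this
  omega

/-- index of a core vertex among the core children of its parent -/
noncomputable def idx (a : U) : ℕ :=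
  if h : a ∈ L.ch 0 (L.par a) then ((L.ch 0 (L.par a)).equivFin ⟨a, h⟩).val else 0

lemma idx_lt {a b : U} (h : b ∈ L.ch 0 a) : L.idx b < L.c 0 a := by
  have hp : L.par b = a := ((L.mem_ch _ _ _).1 h).2.1
  subst hp
  rw [idx, dif_pos h]
  exact Fin.is_lt _

lemma idx_inj {a b b' : U} (h : b ∈ L.ch 0 a) (h' : b' ∈ L.ch 0 a) (e : L.idx b = L.idx b') :
    b = b' := by
  have hp : L.par b = a := ((L.mem_ch _ _ _).1 h).2.1
  have hp' : L.par b' = a := ((L.mem_ch _ _ _).1 h').2.1
  have key : ∀ (b : U) (hb : b ∈ L.ch 0 a), L.idx b = ((L.ch 0 a).equivFin ⟨b, hb⟩).val := by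
    intro b hb
    have hp : L.par b = a := ((L.mem_ch _ _ _).1 hb).2.1
    subst hp
    rw [idx, dif_pos hb]
  rw [key b h, key b' h'] at e
  have := (L.ch 0 a).equivFin.injective (Fin.ext e)
  exact congrArg Subtype.val this

lemma idx_surj {a : U} {i : ℕ} (hi : i < L.c 0 a) : ∃ b ∈ L.ch 0 a, L.idx b = i := by
  have key : ∀ (b : U) (hb : b ∈ L.ch 0 a), L.idx b = ((L.ch 0 a).equivFin ⟨b, hb⟩).val := by
    intro b hb
    have hp : L.par b = a := ((L.mem_ch _ _ _).1 hb).2.1
    subst hp
    rw [idx, dif_pos hb]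
  let b := (L.ch 0 a).equivFin.symm ⟨i, hi⟩
  refine ⟨b.1, b.2, ?_⟩
  rw [key b.1 b.2]
  simp [b]

/-- spanning embeddings -/
noncomputable def emb (N : V → Finset V) : Finset (U ≃ V) :=
  univ.filter (fun φ => ∀ a, a ≠ L.root → φ (L.par a) ∈ N (φ a))

lemma mem_emb (N : V → Finset V) (φ : U ≃ V) :
    φ ∈ L.emb N ↔ ∀ a, a ≠ L.root → φ (L.par a) ∈ N (φ a) := by
  simp [emb]

/-- number of slots of level `h` at the neighbours of `x` -/
def s (N : V → Finset V) (φ : U ≃ V) (h : ℕ) (x : V) : ℕ := ∑ y ∈ N x, L.c h (φ.symm y)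

/-- embeddings with prescribed root, levels and core children counts -/
noncomputable def embf (N : V → Finset V) (w : V) (lam α : V → ℕ) : Finset (U ≃ V) :=
  (L.emb N).filter (fun φ => φ L.root = w ∧ (∀ x, L.lev (φ.symm x) = lam x) ∧
    (∀ x, L.c 0 (φ.symm x) = α x))

/-- restriction -/
def res (lam : V → ℕ) (j : ℕ) (φ : U ≃ V) : V → Option U :=
  fun x => if lam x ≤ j then some (φ.symm x) else none

/-- truncation -/
def trunc (lam : V → ℕ) (j : ℕ) (g : V → Option U) : V → Option U :=
  fun x => if lam x ≤ j then g x else none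

lemma trunc_res (lam : V → ℕ) (j : ℕ) (φ : U ≃ V) :
    trunc lam j (res lam (j+1) φ) = res lam j φ := by
  funext x
  simp only [trunc, res]
  by_cases h : lam x ≤ j
  · rw [if_pos h, if_pos h, if_pos (by omega)]
  · rw [if_neg h, if_neg h]

/-- option version of c -/
def cO (h : ℕ) : Option U → ℕ
  | some a => L.c h a
  | none => 0

/-- option version of s -/
def sO (N : V → Finset V) (g : V → Option U) (h : ℕ) (x : V) : ℕ := ∑ y ∈ N x, L.cO h (g y)

lemma sO_res (N : V → Finset V) (lam : V → ℕ) (φ : U ≃ V) (hlam : ∀ x, L.lev (φ.symm x) = lam x)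
    (j h : ℕ) (hh : h ≠ 0) (hj : h ≤ j + 1) (x : V) : L.sO N (res lam j φ) h x = L.s N φ h x := by
  unfold sO s
  apply Finset.sum_congr rfl
  intro y _
  simp only [res]
  by_cases hy : lam y ≤ j
  · rw [if_pos hy]; rfl
  · rw [if_neg hy]
    show 0 = _
    rw [L.c_eq_zero_of_lt hh]
    rw [hlam]; omega

/-- the number of possible slots, from partial information -/
def tt (N : V → Finset V) (lam α : V → ℕ) (g : V → Option U) (x : V) : ℕ :=
  if lam x = 0 then ∑ y ∈ N x, α y else L.sO N g (lam x) x

lemma tt_res (N : V → Finset V) (w : V) (lam α : V → ℕ) (φ : U ≃ V)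
    (hφ : φ ∈ L.embf N w lam α) (j : ℕ) (x : V) (hx : lam x ≤ j + 1) :
    L.tt N lam α (res lam j φ) x = L.s N φ (lam x) x := by
  rw [embf, Finset.mem_filter] at hφ
  obtain ⟨_, _, h2, h3⟩ := hφ
  unfold tt
  by_cases h0 : lam x = 0
  · rw [if_pos h0, h0]
    unfold s
    apply Finset.sum_congr rfl
    intro y _
    rw [h3]
  · rw [if_neg h0]
    exact L.sO_res N lam φ h2 j _ h0 hx x

lemma eq_of_symm_root (φ : U ≃ V) (w : V) (h1 : φ L.root = w) (x : V)
    (h : φ.symm x = L.root) : x = w := by
  rw [← h1, ← h]; simp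

/-- base case count -/
lemma card_image_res_zero (N : V → Finset V) (w : V) (lam α : V → ℕ) :
    (((L.embf N w lam α).image (res lam 0)).card : ℝ) ≤
      Real.exp (∑ x ∈ univ.filter (fun x => lam x ≤ 0 ∧ x ≠ w), bl (∑ y ∈ N x, α y)) := by
  classical
  let Yset : Finset (Σ _ : V, ℕ) := (univ : Finset V).sigma (fun y => range (α y))
  let A : {x : V // lam x ≤ 0 ∧ x ≠ w} → Finset {p // p ∈ Yset} := fun x =>
    univ.filter (fun p => p.1.1 ∈ N x.1)
  have hcard : ∀ x, (A x).card = ∑ y ∈ N x.1, α y := by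
    intro x
    have h1 : (A x).map (Function.Embedding.subtype _) =
        (N x.1).sigma (fun y => range (α y)) := by
      ext p
      simp only [A, Yset, Finset.mem_map, Finset.mem_filter, Finset.mem_univ, true_and,
        Function.Embedding.coe_subtype, Subtype.exists, exists_and_right, exists_eq_right,
        Finset.mem_sigma, Finset.mem_range]
      constructor
      · rintro ⟨hp, hq⟩
        exact ⟨hq, hp⟩
      · rintro ⟨hq, hp⟩
        exact ⟨hp, hq⟩
    have h2 := congrArg Finset.card h1
    rw [Finset.card_map, Finset.card_sigma] at h2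
    rw [h2]
    simp
  have hB := bregman A
  rw [Finset.sum_congr rfl (fun x _ => by rw [hcard x])] at hB
  have hsum : ∑ x : {x : V // lam x ≤ 0 ∧ x ≠ w}, bl (∑ y ∈ N x.1, α y) =
      ∑ x ∈ univ.filter (fun x => lam x ≤ 0 ∧ x ≠ w), bl (∑ y ∈ N x, α y) := by
    rw [Finset.sum_subtype (univ.filter (fun x => lam x ≤ 0 ∧ x ≠ w))
      (p := fun x => lam x ≤ 0 ∧ x ≠ w) (f := fun x => bl (∑ y ∈ N x, α y))]
    intro x; simp
  rw [hsum] at hB
  refine le_trans ?_ hB
  have hφ : ∀ g ∈ (L.embf N w lam α).image (res lam 0), ∃ φ ∈ L.embf N w lam α,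
      res lam 0 φ = g := fun g hg => Finset.mem_image.1 hg
  -- the matching attached to φ
  have hmem : ∀ φ ∈ L.embf N w lam α, ∀ x : {x : V // lam x ≤ 0 ∧ x ≠ w},
      (⟨φ (L.par (φ.symm x.1)), L.idx (φ.symm x.1)⟩ : Σ _ : V, ℕ) ∈ Yset := by
    intro φ hφ x
    rw [embf, Finset.mem_filter] at hφ
    obtain ⟨h0, h1, h2, h3⟩ := hφ
    simp only [Yset, Finset.mem_sigma, Finset.mem_univ, true_and, Finset.mem_range]
    rw [← h3, Equiv.symm_apply_apply]
    apply L.idx_lt
    rw [mem_ch]
    refine ⟨?_, rfl, ?_⟩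
    · intro h
      exact x.2.2 (L.eq_of_symm_root φ w h1 _ h)
    · rw [h2]; have := x.2.1; omega
  let f : ∀ φ ∈ L.embf N w lam α, {x : V // lam x ≤ 0 ∧ x ≠ w} → {p // p ∈ Yset} :=
    fun φ hφ x => ⟨_, hmem φ hφ x⟩
  have fbij : ∀ φ (hφ : φ ∈ L.embf N w lam α), Function.Bijective (f φ hφ) := by
    intro φ hφ
    have hφ' := hφ
    rw [embf, Finset.mem_filter] at hφ'
    obtain ⟨h0, h1, h2, h3⟩ := hφ'
    have hch : ∀ x : {x : V // lam x ≤ 0 ∧ x ≠ w},
        φ.symm x.1 ∈ L.ch 0 (L.par (φ.symm x.1)) := by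
      intro x
      rw [mem_ch]
      refine ⟨?_, rfl, ?_⟩
      · intro h
        exact x.2.2 (L.eq_of_symm_root φ w h1 _ h)
      · rw [h2]; have := x.2.1; omega
    constructor
    · intro x x' h
      have h4 := congrArg Subtype.val h
      have h5 : φ (L.par (φ.symm x.1)) = φ (L.par (φ.symm x'.1)) :=
        congrArg Sigma.fst h4
      have h6 : L.idx (φ.symm x.1) = L.idx (φ.symm x'.1) :=
        congrArg (fun p : (Σ _ : V, ℕ) => p.2) h4
      have h7 := φ.injective h5
      have h8 : φ.symm x'.1 ∈ L.ch 0 (L.par (φ.symm x.1)) := by rw [h7]; exact hch x'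
      have h9 := L.idx_inj (hch x) h8 h6
      exact Subtype.ext (φ.symm.injective h9)
    · rintro ⟨⟨y, i⟩, hp⟩
      have hi : i < α y := by
        simpa [Yset] using hp
      rw [← h3] at hi
      obtain ⟨b, hb, hbi⟩ := L.idx_surj hi
      have hb' := (L.mem_ch _ _ _).1 hb
      refine ⟨⟨φ b, ?_, ?_⟩, ?_⟩
      · rw [← h2]; simp [hb'.2.2]
      · rw [← h1]
        exact fun h => hb'.1 (φ.injective h)
      · apply Subtype.ext
        show (⟨φ (L.par (φ.symm (φ b))), L.idx (φ.symm (φ b))⟩ : Σ _ : V, ℕ) = ⟨y, i⟩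
        rw [Equiv.symm_apply_apply, hb'.2.1, hbi]
        simp
  have hPM : ∀ φ (hφ : φ ∈ L.embf N w lam α), Equiv.ofBijective _ (fbij φ hφ) ∈ PM A := by
    intro φ hφ
    rw [mem_PM]
    intro x
    have hφ' := hφ
    rw [embf, Finset.mem_filter] at hφ'
    obtain ⟨h0, h1, h2, h3⟩ := hφ'
    rw [mem_emb] at h0
    simp only [A, Finset.mem_filter, Finset.mem_univ, true_and]
    show φ (L.par (φ.symm x.1)) ∈ N x.1
    have := h0 (φ.symm x.1) (fun h => x.2.2 (L.eq_of_symm_root φ w h1 _ h))
    simpa using this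
  -- injectivity
  have hinj : ∀ φ (hφ : φ ∈ L.embf N w lam α) φ' (hφ' : φ' ∈ L.embf N w lam α),
      (∀ x, f φ hφ x = f φ' hφ' x) → res lam 0 φ = res lam 0 φ' := by
    intro φ hφ φ' hφ' hf
    have hφ1 := hφ
    have hφ1' := hφ'
    rw [embf, Finset.mem_filter] at hφ1 hφ1'
    obtain ⟨h0, h1, h2, h3⟩ := hφ1
    obtain ⟨h0', h1', h2', h3'⟩ := hφ1'
    have key : ∀ k : ℕ, ∀ x, lam x ≤ 0 → L.dep (φ.symm x) = k → φ.symm x = φ'.symm x := by
      intro k
      induction k using Nat.strong_induction_on with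
      | _ k ih =>
        intro x hx hk
        by_cases hxw : x = w
        · have e1 : φ.symm w = L.root := by rw [← h1]; simp
          have e2 : φ'.symm w = L.root := by rw [← h1']; simp
          rw [hxw, e1, e2]
        · have hne : φ.symm x ≠ L.root := by
            intro h; apply hxw; rw [← h1, ← h]; simp
          have hne' : φ'.symm x ≠ L.root := by
            intro h; apply hxw; rw [← h1', ← h]; simp
          have h4 := congrArg Subtype.val (hf ⟨x, hx, hxw⟩)
          have h5 : φ (L.par (φ.symm x)) = φ' (L.par (φ'.symm x)) :=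
            congrArg Sigma.fst h4
          have h6 : L.idx (φ.symm x) = L.idx (φ'.symm x) :=
            congrArg (fun p : (Σ _ : V, ℕ) => p.2) h4
          set y := φ (L.par (φ.symm x)) with hy
          have hy1 : φ.symm y = L.par (φ.symm x) := by rw [hy]; simp
          have hy2 : φ'.symm y = L.par (φ'.symm x) := by rw [h5]; simp
          have hlevx : L.lev (φ.symm x) = 0 := by rw [h2]; omega
          have hlevx' : L.lev (φ'.symm x) = 0 := by rw [h2']; omega
          have hly : lam y ≤ 0 := by
            rw [← h2, hy1, L.lev_zero _ hne hlevx]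
          have hdep := L.dep_par _ hne
          have h7 := ih (L.dep (φ.symm y)) (by rw [hy1]; omega) y hly rfl
          rw [hy1, hy2] at h7
          apply L.idx_inj (a := L.par (φ.symm x)) _ _ h6
          · rw [mem_ch]; exact ⟨hne, rfl, hlevx⟩
          · rw [mem_ch]; exact ⟨hne', h7.symm, hlevx'⟩
    funext x
    simp only [res]
    by_cases hx : lam x ≤ 0
    · rw [if_pos hx, if_pos hx, key _ x hx rfl]
    · rw [if_neg hx, if_neg hx]
  -- card
  have hfinal : ((L.embf N w lam α).image (res lam 0)).card ≤ (PM A).card := by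
    rw [← Fintype.card_coe, ← Fintype.card_coe]
    choose φs hφs hres using hφ
    let F : {g // g ∈ (L.embf N w lam α).image (res lam 0)} → {σ // σ ∈ PM A} :=
      fun g => ⟨Equiv.ofBijective _ (fbij (φs g.1 g.2) (hφs g.1 g.2)), hPM _ (hφs g.1 g.2)⟩
    apply Fintype.card_le_of_injective F
    intro g g' h
    have h1 := congrArg Subtype.val h
    apply Subtype.ext
    rw [← hres g.1 g.2, ← hres g'.1 g'.2]
    apply hinj _ (hφs g.1 g.2) _ (hφs g'.1 g'.2)
    intro x
    exact congrArg (fun e : {x : V // lam x ≤ 0 ∧ x ≠ w} ≃ {p // p ∈ Yset} => e x) h1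
  exact_mod_cast hfinal

/-- extension count -/
lemma card_ext_le (N : V → Finset V) (w : V) (lam α : V → ℕ) (j : ℕ) (φ₀ : U ≃ V)
    (hφ₀ : φ₀ ∈ L.embf N w lam α) :
    ((((L.embf N w lam α).image (res lam (j+1))).filter
      (fun g => trunc lam j g = res lam j φ₀)).card : ℝ) ≤
      Real.exp (∑ x ∈ univ.filter (fun x => lam x = j + 1),
        bl (L.tt N lam α (res lam j φ₀) x)) := by
  classical
  let A : {x : V // lam x = j + 1} → Finset {b : U // L.lev b = j + 1} := fun x =>
    univ.filter (fun b => ∃ y ∈ N x.1, res lam j φ₀ y = some (L.par b.1))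
  have hφ₀' := hφ₀
  rw [embf, Finset.mem_filter] at hφ₀'
  obtain ⟨h0, h1, h2, h3⟩ := hφ₀'
  have hcard : ∀ x, (A x).card = L.tt N lam α (res lam j φ₀) x.1 := by
    intro x
    have hx0 : lam x.1 ≠ 0 := by rw [x.2]; omega
    rw [tt, if_neg hx0]
    unfold sO
    have h4 : (A x).map (Function.Embedding.subtype _) =
        (N x.1).biUnion (fun y => univ.filter (fun b => L.lev b = j + 1 ∧
          res lam j φ₀ y = some (L.par b))) := by
      ext b
      simp only [A, Finset.mem_map, Finset.mem_filter, Finset.mem_univ, true_and,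
        Function.Embedding.coe_subtype, Subtype.exists, exists_and_right, exists_eq_right,
        Finset.mem_biUnion]
      constructor
      · rintro ⟨hb, y, hy, hy2⟩
        exact ⟨y, hy, hb, hy2⟩
      · rintro ⟨y, hy, hb, hy2⟩
        exact ⟨hb, y, hy, hy2⟩
    have h5 := congrArg Finset.card h4
    rw [Finset.card_map, Finset.card_biUnion] at h5
    · rw [h5]
      apply Finset.sum_congr rfl
      intro y _
      rcases hg : res lam j φ₀ y with _ | a
      · simp [cO]
      · simp only [cO, c, Option.some.injEq]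
        congr 1
        ext b
        simp only [Finset.mem_filter, Finset.mem_univ, true_and, mem_ch]
        constructor
        · rintro ⟨hb1, hb2⟩
          refine ⟨?_, hb2.symm, by rw [x.2]; exact hb1⟩
          intro h; rw [h, L.lev_root] at hb1; omega
        · rintro ⟨hb1, hb2, hb3⟩
          exact ⟨by rw [hb3, x.2], hb2.symm⟩
    · intro y _ y' _ hyy'
      show Disjoint _ _
      rw [Finset.disjoint_left]
      intro b hb hb'
      simp only [Finset.mem_filter, Finset.mem_univ, true_and] at hb hb'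
      apply hyy'
      have e1 := hb.2
      have e2 := hb'.2
      simp only [res] at e1 e2
      by_cases hy : lam y ≤ j
      · by_cases hy' : lam y' ≤ j
        · rw [if_pos hy] at e1
          rw [if_pos hy'] at e2
          have := e1.trans e2.symm
          exact φ₀.symm.injective (Option.some.inj this)
        · rw [if_neg hy'] at e2; simp at e2
      · rw [if_neg hy] at e1; simp at e1
  have hB := bregman A
  rw [Finset.sum_congr rfl (fun x _ => by rw [hcard x])] at hB
  have hsum : ∑ x : {x : V // lam x = j + 1}, bl (L.tt N lam α (res lam j φ₀) x.1) =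
      ∑ x ∈ univ.filter (fun x => lam x = j + 1), bl (L.tt N lam α (res lam j φ₀) x) := by
    rw [Finset.sum_subtype (univ.filter (fun x => lam x = j + 1))
      (p := fun x => lam x = j + 1) (f := fun x => bl (L.tt N lam α (res lam j φ₀) x))]
    intro x; simp
  rw [hsum] at hB
  refine le_trans ?_ hB
  have hφ : ∀ g ∈ ((L.embf N w lam α).image (res lam (j+1))).filter
      (fun g => trunc lam j g = res lam j φ₀), ∃ φ ∈ L.embf N w lam α,
      res lam (j+1) φ = g := fun g hg => Finset.mem_image.1 (Finset.mem_filter.1 hg).1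
  have hlevφ : ∀ φ ∈ L.embf N w lam α, ∀ x, lam x = j + 1 ↔ L.lev (φ.symm x) = j + 1 := by
    intro φ hφ x
    rw [embf, Finset.mem_filter] at hφ
    rw [hφ.2.2.1]
  have hPM : ∀ φ (hφ : φ ∈ L.embf N w lam α), res lam j φ = res lam j φ₀ →
      φ.symm.subtypeEquiv (hlevφ φ hφ) ∈ PM A := by
    intro φ hφ hr
    rw [mem_PM]
    intro x
    have hφ' := hφ
    rw [embf, Finset.mem_filter] at hφ'
    obtain ⟨k0, k1, k2, k3⟩ := hφ'
    rw [mem_emb] at k0
    simp only [A, Finset.mem_filter, Finset.mem_univ, true_and]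
    have hlx : L.lev (φ.symm x.1) = j + 1 := (hlevφ φ hφ x.1).1 x.2
    have hne : φ.symm x.1 ≠ L.root := by
      intro h; rw [h, L.lev_root] at hlx; omega
    refine ⟨φ (L.par (φ.symm x.1)), ?_, ?_⟩
    · have := k0 (φ.symm x.1) hne
      simpa using this
    · rw [← hr]
      have hl2 := L.lev_succ _ hne (by omega)
      simp only [res]
      rw [if_pos]
      · simp [Equiv.subtypeEquiv]
      · rw [← k2]; simp; omega
  have hfinal : (((L.embf N w lam α).image (res lam (j+1))).filter
      (fun g => trunc lam j g = res lam j φ₀)).card ≤ (PM A).card := by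
    rw [← Fintype.card_coe, ← Fintype.card_coe]
    choose φs hφs hres using hφ
    have hrr : ∀ g (hg : g ∈ ((L.embf N w lam α).image (res lam (j+1))).filter
      (fun g => trunc lam j g = res lam j φ₀)), res lam j (φs g hg) = res lam j φ₀ := by
      intro g hg
      rw [← trunc_res, hres, (Finset.mem_filter.1 hg).2]
    let F : {g // g ∈ ((L.embf N w lam α).image (res lam (j+1))).filter
      (fun g => trunc lam j g = res lam j φ₀)} → {σ // σ ∈ PM A} :=
      fun g => ⟨(φs g.1 g.2).symm.subtypeEquiv (hlevφ _ (hφs g.1 g.2)),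
        hPM _ (hφs g.1 g.2) (hrr g.1 g.2)⟩
    apply Fintype.card_le_of_injective F
    intro g g' h
    have h1 := congrArg Subtype.val h
    apply Subtype.ext
    rw [← hres g.1 g.2, ← hres g'.1 g'.2]
    funext x
    have hx1 := congrFun (hrr g.1 g.2) x
    have hx2 := congrFun (hrr g'.1 g'.2) x
    simp only [res] at hx1 hx2 ⊢
    by_cases hx : lam x ≤ j
    · rw [if_pos hx] at hx1 hx2
      rw [if_pos (by omega), if_pos (by omega), hx1]
      rw [if_pos hx] at hx2 ⊢
      rw [hx2]
    · by_cases hx' : lam x = j + 1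
      · rw [if_pos (by omega), if_pos (by omega)]
        have := congrArg (fun e : {x : V // lam x = j + 1} ≃ {b : U // L.lev b = j + 1} =>
          (e ⟨x, hx'⟩).1) h1
        exact congrArg some this
      · rw [if_neg (by omega), if_neg (by omega)]
  exact_mod_cast hfinal

/-- the weight exponent -/
noncomputable def EE (N : V → Finset V) (w : V) (lam α : V → ℕ) (j : ℕ) (g : V → Option U) : ℝ :=
  ∑ x ∈ univ.filter (fun x => lam x ≤ j ∧ x ≠ w), bl (L.tt N lam α g x)

lemma EE_succ (N : V → Finset V) (w : V) (lam α : V → ℕ) (j : ℕ) (φ : U ≃ V)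
    (hφ : φ ∈ L.embf N w lam α) :
    L.EE N w lam α (j+1) (res lam (j+1) φ) = L.EE N w lam α j (res lam j φ) +
      ∑ x ∈ univ.filter (fun x => lam x = j + 1), bl (L.tt N lam α (res lam j φ) x) := by
  classical
  have hφ' := hφ
  rw [embf, Finset.mem_filter] at hφ'
  obtain ⟨h0, h1, h2, h3⟩ := hφ'
  have hw : lam w = 0 := by
    rw [← h2, ← h1]; simp [L.lev_root]
  unfold EE
  have hsplit : univ.filter (fun x => lam x ≤ j + 1 ∧ x ≠ w) =
      univ.filter (fun x => lam x ≤ j ∧ x ≠ w) ∪ univ.filter (fun x => lam x = j + 1) := by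
    ext x
    simp only [Finset.mem_filter, Finset.mem_univ, true_and, Finset.mem_union]
    constructor
    · rintro ⟨ha, hb⟩
      by_cases hc : lam x = j + 1
      · right; exact hc
      · left; exact ⟨by omega, hb⟩
    · rintro (⟨ha, hb⟩ | ha)
      · exact ⟨by omega, hb⟩
      · refine ⟨by omega, ?_⟩
        rintro rfl
        omega
  rw [hsplit, Finset.sum_union]
  · congr 1
    · apply Finset.sum_congr rfl
      intro x hx
      have hx' := (Finset.mem_filter.1 hx).2.1
      rw [L.tt_res N w lam α φ hφ (j+1) x (by omega), L.tt_res N w lam α φ hφ j x (by omega)]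
    · apply Finset.sum_congr rfl
      intro x hx
      have hx' := (Finset.mem_filter.1 hx).2
      rw [L.tt_res N w lam α φ hφ (j+1) x (by omega), L.tt_res N w lam α φ hφ j x (by omega)]
  · rw [Finset.disjoint_left]
    intro x hx hx'
    have e1 := (Finset.mem_filter.1 hx).2.1
    have e2 := (Finset.mem_filter.1 hx').2
    omega

lemma sum_image_le_one (N : V → Finset V) (w : V) (lam α : V → ℕ) (j : ℕ) :
    ∑ g ∈ (L.embf N w lam α).image (res lam j), Real.exp (-(L.EE N w lam α j g)) ≤ 1 := by
  classical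
  induction j with
  | zero =>
    have hconst : ∀ g : V → Option U, L.EE N w lam α 0 g =
        ∑ x ∈ univ.filter (fun x => lam x ≤ 0 ∧ x ≠ w), bl (∑ y ∈ N x, α y) := by
      intro g
      unfold EE
      apply Finset.sum_congr rfl
      intro x hx
      have hx' := (Finset.mem_filter.1 hx).2.1
      rw [tt, if_pos (by omega)]
    rw [Finset.sum_congr rfl (fun g _ => by rw [hconst g])]
    rw [Finset.sum_const, nsmul_eq_mul, Real.exp_neg]
    have h1 := L.card_image_res_zero N w lam α
    rw [mul_inv_le_iff₀ (Real.exp_pos _), one_mul]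
    exact h1
  | succ j ih =>
    refine le_trans ?_ ih
    rw [← Finset.sum_fiberwise_of_maps_to (s := (L.embf N w lam α).image (res lam (j+1)))
      (t := (L.embf N w lam α).image (res lam j)) (g := trunc lam j)]
    · apply Finset.sum_le_sum
      intro g hg
      obtain ⟨φ₀, hφ₀, rfl⟩ := Finset.mem_image.1 hg
      have hF : ∀ g' ∈ ((L.embf N w lam α).image (res lam (j+1))).filter
          (fun g' => trunc lam j g' = res lam j φ₀),
          Real.exp (-(L.EE N w lam α (j+1) g')) = Real.exp (-(L.EE N w lam α j (res lam j φ₀) +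
            ∑ x ∈ univ.filter (fun x => lam x = j + 1),
              bl (L.tt N lam α (res lam j φ₀) x))) := by
        intro g' hg'
        obtain ⟨hg1, hg2⟩ := Finset.mem_filter.1 hg'
        obtain ⟨φ, hφ, rfl⟩ := Finset.mem_image.1 hg1
        rw [trunc_res] at hg2
        rw [L.EE_succ N w lam α j φ hφ, hg2]
      rw [Finset.sum_congr rfl hF, Finset.sum_const, nsmul_eq_mul]
      have h1 := L.card_ext_le N w lam α j φ₀ hφ₀
      rw [neg_add, Real.exp_add]
      have h2 : ∀ (a b c : ℝ), 0 < b → a ≤ Real.exp c → a * (b * Real.exp (-c)) ≤ b := by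
        intro a b c hb hac
        calc a * (b * Real.exp (-c)) ≤ Real.exp c * (b * Real.exp (-c)) := by
              apply mul_le_mul_of_nonneg_right hac
              positivity
          _ = b * (Real.exp c * Real.exp (-c)) := by ring
          _ = b := by rw [← Real.exp_add]; simp
      exact h2 _ _ _ (Real.exp_pos _) h1
    · intro g hg
      obtain ⟨φ, hφ, rfl⟩ := Finset.mem_image.1 hg
      rw [trunc_res]
      exact Finset.mem_image_of_mem _ hφ

/-- **Key weighted count**: for fixed root, levels and core children counts. -/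
theorem sum_embf_le_one (N : V → Finset V) (w : V) (lam α : V → ℕ) :
    ∑ φ ∈ L.embf N w lam α, Real.exp (-(∑ x ∈ univ.filter (fun x => x ≠ w),
      bl (L.s N φ (lam x) x))) ≤ 1 := by
  classical
  obtain ⟨K, hK⟩ : ∃ K, ∀ x, lam x ≤ K := ⟨univ.sup lam, fun x => Finset.le_sup (Finset.mem_univ x)⟩
  have h1 := L.sum_image_le_one N w lam α K
  rw [Finset.sum_image] at h1
  · refine le_trans (le_of_eq ?_) h1
    apply Finset.sum_congr rfl
    intro φ hφ
    congr 2
    unfold EE
    have : univ.filter (fun x => lam x ≤ K ∧ x ≠ w) = univ.filter (fun x => x ≠ w) := by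
      ext x; simp [hK x]
    rw [this]
    apply Finset.sum_congr rfl
    intro x _
    rw [L.tt_res N w lam α φ hφ K x (by have := hK x; omega)]
  · intro φ _ φ' _ h
    have : ∀ x, φ.symm x = φ'.symm x := by
      intro x
      have hx := congrFun h x
      simp only [res] at hx
      rw [if_pos (hK x), if_pos (hK x)] at hx
      exact Option.some.inj hx
    have h3 : φ.symm = φ'.symm := Equiv.ext this
    exact Equiv.symm_bijective.injective h3

end LevTree

end Pool.Agent.Helper19
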