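import Mathlib

/-!
# Random sparse samples: second moment estimates
-/

set_option linter.unusedSectionVars false

universe u v

namespace Pool.Agent.Helper19

open Finset
open scoped BigOperators

variable {V : Type v} [Fintype V] [DecidableEq V]

/-- centered, scaled indicator of `κ y = 0` -/
noncomputable def zc (m : ℕ) (c : Fin m) : ℝ := (if c.val = 0 then (m : ℝ) else 0) - 1

lemma sum_zc (m : ℕ) : ∑ c : Fin m, zc m c = 0 := by
  unfold zc
  rw [Finset.sum_sub_distrib]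
  rcases m with _ | m
  · simp
  · rw [Fin.sum_univ_succ]
    simp

lemma sum_zc_sq (m : ℕ) : ∑ c : Fin m, (zc m c) ^ 2 = m * ((m : ℝ) - 1) := by
  unfold zc
  rcases m with _ | m
  · simp
  · rw [Fin.sum_univ_succ]
    simp
    ring

/-- `zeta` -/
noncomputable def zeta (m : ℕ) (κ : V → Fin m) (y : V) : ℝ := zc m (κ y)

lemma sum_prod_fun (m : ℕ) (f : V → Fin m → ℝ) :
    ∑ κ : V → Fin m, ∏ x, f x (κ x) = ∏ x, ∑ c, f x c := by
  rw [Finset.prod_univ_sum, Fintype.piFinset_univ]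

lemma sum_zeta (m : ℕ) (y : V) : ∑ κ : V → Fin m, zeta m κ y = 0 := by
  have h1 : ∀ κ : V → Fin m, zeta m κ y = ∏ x, (if x = y then zc m (κ x) else 1) := by
    intro κ
    rw [Finset.prod_ite_eq' univ y (fun x => zc m (κ x))]
    simp [zeta]
  rw [Finset.sum_congr rfl (fun κ _ => h1 κ),
    sum_prod_fun m (fun x c => if x = y then zc m c else 1)]
  apply Finset.prod_eq_zero (Finset.mem_univ y)
  simp [sum_zc]

lemma sum_zeta_mul (m : ℕ) (y y' : V) (h : y ≠ y') :
    ∑ κ : V → Fin m, zeta m κ y * zeta m κ y' = 0 := by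
  have h1 : ∀ κ : V → Fin m, zeta m κ y * zeta m κ y' =
      ∏ x, ((if x = y then zc m (κ x) else 1) * (if x = y' then zc m (κ x) else 1)) := by
    intro κ
    rw [Finset.prod_mul_distrib, Finset.prod_ite_eq' univ y (fun x => zc m (κ x)),
      Finset.prod_ite_eq' univ y' (fun x => zc m (κ x))]
    simp [zeta]
  rw [Finset.sum_congr rfl (fun κ _ => h1 κ), sum_prod_fun m
    (fun x c => (if x = y then zc m c else 1) * (if x = y' then zc m c else 1))]
  apply Finset.prod_eq_zero (Finset.mem_univ y)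
  simp [sum_zc, h]

lemma sum_zeta_sq (m : ℕ) (y : V) :
    ∑ κ : V → Fin m, zeta m κ y * zeta m κ y = ((m : ℝ) - 1) * m ^ Fintype.card V := by
  have h1 : ∀ κ : V → Fin m, zeta m κ y * zeta m κ y =
      ∏ x, (if x = y then (zc m (κ x)) ^ 2 else 1) := by
    intro κ
    rw [Finset.prod_ite_eq' univ y (fun x => (zc m (κ x)) ^ 2)]
    simp [zeta, sq]
  rw [Finset.sum_congr rfl (fun κ _ => h1 κ), sum_prod_fun m
    (fun x c => if x = y then (zc m c) ^ 2 else 1)]
  have h2 : ∀ x : V, ∑ c : Fin m, (if x = y then (zc m c) ^ 2 else 1) =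
      if x = y then (m : ℝ) * ((m : ℝ) - 1) else m := by
    intro x
    by_cases h : x = y
    · simp only [if_pos h]; exact sum_zc_sq m
    · simp [if_neg h]
  rw [Finset.prod_congr rfl (fun x _ => h2 x)]
  rw [← Finset.mul_prod_erase univ _ (Finset.mem_univ y)]
  rw [if_pos rfl]
  rw [Finset.prod_congr rfl (g := fun _ => (m : ℝ))
    (fun x hx => by rw [if_neg (Finset.ne_of_mem_erase hx)])]
  rw [Finset.prod_const, Finset.card_erase_of_mem (Finset.mem_univ y), Finset.card_univ]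
  have : 1 ≤ Fintype.card V := Fintype.card_pos_iff.2 ⟨y⟩
  obtain ⟨k, hk⟩ := Nat.exists_eq_add_of_le this
  rw [hk]
  simp
  ring

lemma expect_zeta (m : ℕ) (y : V) : 𝔼 κ : V → Fin m, zeta m κ y = 0 := by
  rw [Fintype.expect_eq_sum_div_card, sum_zeta, zero_div]

lemma expect_zeta_mul (m : ℕ) (y y' : V) (h : y ≠ y') :
    𝔼 κ : V → Fin m, zeta m κ y * zeta m κ y' = 0 := by
  rw [Fintype.expect_eq_sum_div_card, sum_zeta_mul m y y' h, zero_div]

lemma expect_zeta_sq (m : ℕ) (hm : 0 < m) (y : V) :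
    𝔼 κ : V → Fin m, zeta m κ y * zeta m κ y = (m : ℝ) - 1 := by
  rw [Fintype.expect_eq_sum_div_card, sum_zeta_sq]
  simp only [Fintype.card_fun, Fintype.card_fin, Nat.cast_pow]
  have : (m : ℝ) ≠ 0 := by positivity
  field_simp

/-- second moment of a linear statistic -/
lemma expect_lin_sq (m : ℕ) (hm : 0 < m) (S : Finset V) (w : V → ℝ) :
    𝔼 κ : V → Fin m, (∑ y ∈ S, w y * zeta m κ y) ^ 2 = ((m : ℝ) - 1) * ∑ y ∈ S, (w y) ^ 2 := by
  have h1 : ∀ κ : V → Fin m, (∑ y ∈ S, w y * zeta m κ y) ^ 2 =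
      ∑ y ∈ S, ∑ y' ∈ S, (w y * w y') * (zeta m κ y * zeta m κ y') := by
    intro κ
    rw [sq, Finset.sum_mul_sum]
    apply Finset.sum_congr rfl; intro y _
    apply Finset.sum_congr rfl; intro y' _
    ring
  rw [Finset.expect_congr rfl (fun κ _ => h1 κ), Finset.expect_sum_comm]
  rw [Finset.mul_sum]
  apply Finset.sum_congr rfl
  intro y hy
  rw [Finset.expect_sum_comm]
  rw [Finset.sum_eq_single_of_mem y hy]
  · rw [← Finset.mul_expect, expect_zeta_sq m hm]; ring
  · intro y' _ hne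
    rw [← Finset.mul_expect, expect_zeta_mul m y y' (Ne.symm hne), mul_zero]

lemma expect_lin (m : ℕ) (S : Finset V) (w : V → ℝ) :
    𝔼 κ : V → Fin m, (∑ y ∈ S, w y * zeta m κ y) = 0 := by
  rw [Finset.expect_sum_comm]
  apply Finset.sum_eq_zero
  intro y _
  rw [← Finset.mul_expect, expect_zeta, mul_zero]

/-- Lower bound for the expected logarithm of a sampled quantity. -/
lemma expect_log_ge (m : ℕ) (hm : 0 < m) (S : Finset V) (w : V → ℝ) (p δ : ℝ) (hp : 0 ≤ p)
    (hδ : 0 < δ) (hpos : ∀ κ : V → Fin m, δ ≤ p + δ + ∑ y ∈ S, w y * zeta m κ y) :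
    Real.log (p + δ) - ((m : ℝ) - 1) * (∑ y ∈ S, (w y) ^ 2) / ((p + δ) * δ) ≤
      𝔼 κ : V → Fin m, Real.log (p + δ + ∑ y ∈ S, w y * zeta m κ y) := by
  have : Nonempty (Fin m) := ⟨⟨0, hm⟩⟩
  have hpd : 0 < p + δ := by linarith
  have h1 : ∀ κ : V → Fin m, Real.log (p + δ) + (∑ y ∈ S, w y * zeta m κ y) / (p + δ) -
      (∑ y ∈ S, w y * zeta m κ y) ^ 2 / ((p + δ) * δ) ≤
      Real.log (p + δ + ∑ y ∈ S, w y * zeta m κ y) := by
    intro κ
    set Y := ∑ y ∈ S, w y * zeta m κ y with hY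
    have hq := hpos κ
    rw [← hY] at hq
    have hq0 : 0 < p + δ + Y := lt_of_lt_of_le hδ hq
    have h2 : 1 - (p + δ) / (p + δ + Y) ≤ Real.log ((p + δ + Y) / (p + δ)) := by
      have := Real.one_sub_inv_le_log_of_pos (x := (p + δ + Y) / (p + δ)) (by positivity)
      rwa [inv_div] at this
    rw [Real.log_div hq0.ne' hpd.ne'] at h2
    have h3 : Y / (p + δ) - Y ^ 2 / ((p + δ) * δ) ≤ 1 - (p + δ) / (p + δ + Y) := by
      have e1 : 1 - (p + δ) / (p + δ + Y) = Y / (p + δ) - Y ^ 2 / ((p + δ) * (p + δ + Y)) := by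
        field_simp
        ring
      rw [e1]
      have : Y ^ 2 / ((p + δ) * (p + δ + Y)) ≤ Y ^ 2 / ((p + δ) * δ) := by
        apply div_le_div_of_nonneg_left (sq_nonneg _) (by positivity)
        exact mul_le_mul_of_nonneg_left hq hpd.le
      linarith
    linarith
  have h2 := Finset.expect_le_expect (s := (univ : Finset (V → Fin m))) (fun κ _ => h1 κ)
  refine le_trans (le_of_eq ?_) h2
  rw [Finset.expect_sub_distrib, Finset.expect_add_distrib, Fintype.expect_const,
    ← Finset.expect_div, ← Finset.expect_div, expect_lin, expect_lin_sq m hm]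
  simp

end Pool.Agent.Helper19
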