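import Mathlib
import Pool.Agent.Helper19.Matching
import Pool.Agent.Helper19.Sampling

/-!
# Coding argument for spanning embeddings
-/

set_option linter.unusedSectionVars false

universe u v

namespace Pool.Agent.Helper19

open Finset
open scoped BigOperators

variable {U : Type u} {V : Type v} [Fintype U] [Fintype V] [DecidableEq U] [DecidableEq V]

namespace LevTree

variable (L : LevTree U)

/-- number of non-core children -/
def b (a : U) : ℕ := L.c (L.lev a + 1) a

lemma c_zero_of_lev {a : U} (ha : L.lev a ≠ 0) : L.c 0 a = 0 := by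
  rw [c, Finset.card_eq_zero, Finset.eq_empty_iff_forall_notMem]
  intro x hx
  rw [mem_ch] at hx
  obtain ⟨h1, h2, h3⟩ := hx
  have := L.lev_zero x h1 h3
  rw [h2] at this
  exact ha this

lemma c_eq (h : ℕ) (a : U) :
    L.c h a = if h = 0 then L.c 0 a else if h = L.lev a + 1 then L.b a else 0 := by
  by_cases h0 : h = 0
  · rw [if_pos h0, h0]
  · rw [if_neg h0]
    by_cases h1 : h = L.lev a + 1
    · rw [if_pos h1, h1]; rfl
    · rw [if_neg h1, c, Finset.card_eq_zero, Finset.eq_empty_iff_forall_notMem]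
      intro x hx
      rw [mem_ch] at hx
      obtain ⟨k1, k2, k3⟩ := hx
      have := L.lev_succ x k1 (by omega)
      rw [k2] at this
      omega

/-- exceptional vertices -/
def exc (Δ : ℕ) (a : U) : Prop := (L.lev a = 0 ∧ L.c 0 a ≠ 1) ∨ Δ < L.b a

instance (Δ : ℕ) (a : U) : Decidable (L.exc Δ a) := by unfold exc; infer_instance

/-- truncation to `Fin` -/
def tf (K k : ℕ) : Fin (K + 1) := ⟨min k K, by omega⟩

lemma tf_val {K k : ℕ} (h : k ≤ K) : (tf K k).val = k := by simp [tf, h]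

/-- exceptional record -/
abbrev X3 (K d : ℕ) := Fin (K + 1) × Fin (d + 1) × Fin (d + 1)
/-- hint record -/
abbrev X2 (K Δ : ℕ) := Fin (K + 1) × Fin (Δ + 1)

variable (K Δ m d : ℕ) (δ y0 : ℝ)

/-- global exceptional information -/
def gF (φ : U ≃ V) : V → Option (X3 K d) := fun x =>
  if L.exc Δ (φ.symm x) then
    some (tf K (L.lev (φ.symm x)), tf d (L.c 0 (φ.symm x)), tf d (L.b (φ.symm x)))
  else none

/-- hints -/
def eF (κ : V → Fin m) (φ : U ≃ V) : V → X2 K Δ := fun x =>
  if (κ x).val = 0 then (tf K (L.lev (φ.symm x)), tf Δ (L.b (φ.symm x))) else (0, 0)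

/-- levels -/
def lF (φ : U ≃ V) : V → Fin (K + 1) := fun x => tf K (L.lev (φ.symm x))

/-- multiplicities read off from the code -/
noncomputable def mult {K d Δ : ℕ} (m : ℕ) (o : Option (X3 K d)) (e : X2 K Δ) (ξ : Prop)
    [Decidable ξ] (h : ℕ) : ℝ :=
  match o with
  | some r => if h = 0 then (r.2.1.val : ℝ) else if h = r.1.val + 1 then (r.2.2.val : ℝ) else 0
  | none => if ξ then
      (m : ℝ) * (if h = 0 then (if e.1.val = 0 then 1 else 0)
        else if h = e.1.val + 1 then (e.2.val : ℝ) else 0)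
    else 0

lemma mult_nonneg {K d Δ : ℕ} (m : ℕ) (o : Option (X3 K d)) (e : X2 K Δ) (ξ : Prop)
    [Decidable ξ] (h : ℕ) : 0 ≤ mult m o e ξ h := by
  unfold mult
  rcases o with _ | r
  · simp only
    split_ifs <;> positivity
  · simp only
    split_ifs <;> positivity

/-- estimated density -/
noncomputable def ph {K d Δ : ℕ} (m : ℕ) (δ : ℝ) (N : V → Finset V) (κ : V → Fin m)
    (g : V → Option (X3 K d)) (η : V → X2 K Δ) (x : V) (h : Fin (K + 1)) : ℝ :=
  (∑ y ∈ N x, mult m (g y) (η y) ((κ y).val = 0) h.val) / d + δ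

lemma ph_ge {K d Δ : ℕ} (m : ℕ) (δ : ℝ) (N : V → Finset V) (κ : V → Fin m)
    (g : V → Option (X3 K d)) (η : V → X2 K Δ) (x : V) (h : Fin (K + 1)) :
    δ ≤ ph m δ N κ g η x h := by
  unfold ph
  have : 0 ≤ (∑ y ∈ N x, mult m (g y) (η y) ((κ y).val = 0) h.val) / d := by
    apply div_nonneg
    · exact Finset.sum_nonneg (fun y _ => mult_nonneg m _ _ _ _)
    · positivity
  linarith

/-- normalisation -/
noncomputable def PH {K d Δ : ℕ} (m : ℕ) (δ : ℝ) (N : V → Finset V) (κ : V → Fin m)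
    (g : V → Option (X3 K d)) (η : V → X2 K Δ) (x : V) : ℝ := ∑ h, ph m δ N κ g η x h

lemma PH_pos {K d Δ : ℕ} (m : ℕ) (δ : ℝ) (hδ : 0 < δ) (N : V → Finset V) (κ : V → Fin m)
    (g : V → Option (X3 K d)) (η : V → X2 K Δ) (x : V) : 0 < PH m δ N κ g η x := by
  unfold PH
  apply Finset.sum_pos
  · intro h _
    exact lt_of_lt_of_le hδ (ph_ge m δ N κ g η x h)
  · exact ⟨0, Finset.mem_univ _⟩

/-- level prediction -/
noncomputable def q {K d Δ : ℕ} (m : ℕ) (δ : ℝ) (N : V → Finset V) (κ : V → Fin m)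
    (g : V → Option (X3 K d)) (η : V → X2 K Δ) (l : V → Fin (K + 1)) : ℝ :=
  ∏ x, ph m δ N κ g η x (l x) / PH m δ N κ g η x

lemma sum_q {K d Δ : ℕ} (m : ℕ) (δ : ℝ) (hδ : 0 < δ) (N : V → Finset V) (κ : V → Fin m)
    (g : V → Option (X3 K d)) (η : V → X2 K Δ) :
    ∑ l : V → Fin (K + 1), q m δ N κ g η l = 1 := by
  unfold q
  rw [sum_prod_fun (K + 1) (fun x c => ph m δ N κ g η x c / PH m δ N κ g η x)]
  apply Finset.prod_eq_one
  intro x _
  rw [← Finset.sum_div]
  exact div_self (PH_pos m δ hδ N κ g η x).ne'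

/-- prior on the exceptional information -/
noncomputable def prior {K d : ℕ} (y0 : ℝ) (g : V → Option (X3 K d)) : ℝ :=
  ∏ x, (match g x with
    | none => 1 - y0
    | some _ => y0 / (Fintype.card (X3 K d) : ℝ))

lemma sum_prior {K d : ℕ} (y0 : ℝ) : ∑ g : V → Option (X3 K d), prior y0 g = 1 := by
  unfold prior
  have h := Finset.prod_univ_sum (fun _ : V => (Finset.univ : Finset (Option (X3 K d))))
    (fun _ o => (match o with
    | none => 1 - y0
    | some _ => y0 / (Fintype.card (X3 K d) : ℝ)))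
  rw [Fintype.piFinset_univ] at h
  rw [← h]
  apply Finset.prod_eq_one
  intro x _
  rw [Fintype.sum_option]
  simp only [Finset.sum_const, Finset.card_univ, nsmul_eq_mul]
  have : (Fintype.card (X3 K d) : ℝ) ≠ 0 := by
    have : 0 < Fintype.card (X3 K d) := Fintype.card_pos
    positivity
  field_simp
  ring

/-- weight of the hints -/
noncomputable def uw {K Δ : ℕ} (m : ℕ) (κ : V → Fin m) (η : V → X2 K Δ) : ℝ :=
  ∏ x, (if (κ x).val = 0 then 1 / (Fintype.card (X2 K Δ) : ℝ)
    else if η x = (0, 0) then 1 else 0)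

lemma sum_uw {K Δ : ℕ} (m : ℕ) (κ : V → Fin m) : ∑ η : V → X2 K Δ, uw m κ η = 1 := by
  unfold uw
  have h := Finset.prod_univ_sum (fun _ : V => (Finset.univ : Finset (X2 K Δ)))
    (fun x e => (if (κ x).val = 0 then 1 / (Fintype.card (X2 K Δ) : ℝ)
      else if e = (0, 0) then 1 else 0))
  rw [Fintype.piFinset_univ] at h
  rw [← h]
  apply Finset.prod_eq_one
  intro x _
  by_cases hx : (κ x).val = 0
  · simp only [if_pos hx, Finset.sum_const, Finset.card_univ, nsmul_eq_mul]
    have : (Fintype.card (X2 K Δ) : ℝ) ≠ 0 := by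
      have : 0 < Fintype.card (X2 K Δ) := Fintype.card_pos
      positivity
    field_simp
  · simp only [if_neg hx]
    rw [Finset.sum_ite_eq' univ ((0, 0) : X2 K Δ) (fun _ => (1 : ℝ))]
    simp

/-- total weight of a code word -/
noncomputable def W {K d Δ : ℕ} (m : ℕ) (δ y0 : ℝ) (N : V → Finset V) (κ : V → Fin m)
    (c : V × (V → Option (X3 K d)) × (V → X2 K Δ) × (V → Fin (K + 1))) : ℝ :=
  1 / (Fintype.card V : ℝ) * (prior y0 c.2.1 * (uw m κ c.2.2.1 *
    q m δ N κ c.2.1 c.2.2.1 c.2.2.2))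

lemma sum_W_le {K d Δ : ℕ} (m : ℕ) (δ y0 : ℝ) (hδ : 0 < δ) (N : V → Finset V) (κ : V → Fin m) :
    ∑ c : V × (V → Option (X3 K d)) × (V → X2 K Δ) × (V → Fin (K + 1)),
      W m δ y0 N κ c ≤ 1 := by
  unfold W
  simp only [Fintype.sum_prod_type]
  simp only [← Finset.mul_sum]
  simp only [sum_q m δ hδ, mul_one, sum_uw, sum_prior]
  rw [Finset.sum_const, nsmul_eq_mul, Finset.card_univ]
  rcases Nat.eq_zero_or_pos (Fintype.card V) with h | h
  · rw [h]; simp
  · have : (Fintype.card V : ℝ) ≠ 0 := by positivity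
    field_simp
    exact le_refl _

/-- the code of an embedding -/
def code (κ : V → Fin m) (φ : U ≃ V) :
    V × (V → Option (X3 K d)) × (V → X2 K Δ) × (V → Fin (K + 1)) :=
  (φ L.root, L.gF K Δ d φ, L.eF K Δ m κ φ, L.lF K φ)

/-- exponent weight -/
noncomputable def Fw (N : V → Finset V) (φ : U ≃ V) : ℝ :=
  Real.exp (-(∑ x ∈ univ.filter (fun x => x ≠ φ L.root), bl (L.s N φ (L.lev (φ.symm x)) x)))

lemma W_nonneg {K d Δ : ℕ} (m : ℕ) (δ y0 : ℝ) (hδ : 0 < δ) (hy0 : 0 ≤ y0) (hy1 : y0 ≤ 1)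
    (N : V → Finset V) (κ : V → Fin m)
    (c : V × (V → Option (X3 K d)) × (V → X2 K Δ) × (V → Fin (K + 1))) :
    0 ≤ W m δ y0 N κ c := by
  unfold W
  apply mul_nonneg (by positivity)
  apply mul_nonneg
  · unfold prior
    apply Finset.prod_nonneg
    intro x _
    rcases c.2.1 x with _ | r
    · simp only; linarith
    · simp only; positivity
  · apply mul_nonneg
    · unfold uw
      apply Finset.prod_nonneg
      intro x _
      split_ifs <;> positivity
    · unfold q
      apply Finset.prod_nonneg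
      intro x _
      apply div_nonneg
      · exact le_trans hδ.le (ph_ge m δ N κ _ _ x _)
      · exact (PH_pos m δ hδ N κ _ _ x).le

/-- Kraft inequality for the code. -/
theorem kraft (hK : ∀ a, L.lev a ≤ K) (N : V → Finset V)
    (hd : ∀ φ ∈ L.emb N, ∀ a h, L.c h a ≤ d)
    (hδ : 0 < δ) (hy0 : 0 ≤ y0) (hy1 : y0 ≤ 1) (κ : V → Fin m) :
    ∑ φ ∈ L.emb N, W m δ y0 N κ (L.code K Δ m d κ φ) * L.Fw N φ ≤ 1 := by
  classical
  rw [← Finset.sum_fiberwise (L.emb N) (L.code K Δ m d κ)
    (fun φ => W m δ y0 N κ (L.code K Δ m d κ φ) * L.Fw N φ)]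
  refine le_trans ?_ (sum_W_le (K := K) (d := d) (Δ := Δ) m δ y0 hδ N κ)
  apply Finset.sum_le_sum
  intro c _
  rw [Finset.sum_congr rfl (g := fun φ => W m δ y0 N κ c * L.Fw N φ)
    (fun φ hφ => by rw [(Finset.mem_filter.1 hφ).2])]
  rw [← Finset.mul_sum]
  have hW := W_nonneg m δ y0 hδ hy0 hy1 N κ c
  suffices h : ∑ φ ∈ (L.emb N).filter (fun φ => L.code K Δ m d κ φ = c), L.Fw N φ ≤ 1 by
    calc _ ≤ W m δ y0 N κ c * 1 := mul_le_mul_of_nonneg_left h hW
      _ = _ := mul_one _
  let lam : V → ℕ := fun x => (c.2.2.2 x).val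
  let α : V → ℕ := fun x => match c.2.1 x with
    | some r => r.2.1.val
    | none => if (c.2.2.2 x).val = 0 then 1 else 0
  have hsub : (L.emb N).filter (fun φ => L.code K Δ m d κ φ = c) ⊆ L.embf N c.1 lam α := by
    intro φ hφ
    obtain ⟨h1, h2⟩ := Finset.mem_filter.1 hφ
    rw [embf, Finset.mem_filter]
    have e1 : φ L.root = c.1 := congrArg (fun c => c.1) h2
    have e2 : L.gF K Δ d φ = c.2.1 := congrArg (fun c => c.2.1) h2
    have e4 : L.lF K φ = c.2.2.2 := congrArg (fun c => c.2.2.2) h2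
    have hlam : ∀ x, L.lev (φ.symm x) = lam x := by
      intro x
      show _ = (c.2.2.2 x).val
      rw [← e4]
      exact (tf_val (hK _)).symm
    refine ⟨h1, e1, hlam, ?_⟩
    intro x
    show _ = (match c.2.1 x with
    | some r => r.2.1.val
    | none => if (c.2.2.2 x).val = 0 then 1 else 0)
    rw [← e2]
    unfold gF
    by_cases hx : L.exc Δ (φ.symm x)
    · simp only [if_pos hx]
      exact (tf_val (hd φ h1 _ _)).symm
    · simp only [if_neg hx]
      have hl := hlam x
      unfold exc at hx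
      push Not at hx
      by_cases h0 : L.lev (φ.symm x) = 0
      · have : (c.2.2.2 x).val = 0 := by rw [← h0]; exact hl.symm
        rw [if_pos this]
        exact hx.1 h0
      · have : (c.2.2.2 x).val ≠ 0 := by
          intro h; apply h0; rw [hl]; exact h
        rw [if_neg this]
        exact L.c_zero_of_lev h0
  calc ∑ φ ∈ (L.emb N).filter (fun φ => L.code K Δ m d κ φ = c), L.Fw N φ
      ≤ ∑ φ ∈ L.embf N c.1 lam α, L.Fw N φ := by
        apply Finset.sum_le_sum_of_subset_of_nonneg hsub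
        intro φ _ _
        exact (Real.exp_pos _).le
    _ = ∑ φ ∈ L.embf N c.1 lam α, Real.exp (-(∑ x ∈ univ.filter (fun x => x ≠ c.1),
      bl (L.s N φ (lam x) x))) := by
        apply Finset.sum_congr rfl
        intro φ hφ
        rw [embf, Finset.mem_filter] at hφ
        obtain ⟨h0, h1, h2, h3⟩ := hφ
        unfold Fw
        rw [h1]
        congr 2
        apply Finset.sum_congr rfl
        intro x _
        rw [h2]
    _ ≤ 1 := L.sum_embf_le_one N c.1 lam α

end LevTree

end Pool.Agent.Helper19
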