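import Mathlib
import Pool.Agent.Helper19.Coding

/-!
# Expected code length
-/

set_option linter.unusedSectionVars false

universe u v

namespace Pool.Agent.Helper19

open Finset
open scoped BigOperators

variable {U : Type u} {V : Type v} [Fintype U] [Fintype V] [DecidableEq U] [DecidableEq V]

namespace LevTree

variable (L : LevTree U)

variable (K Δ m d : ℕ) (δ y0 : ℝ)

lemma c_le_of_not_exc (hΔ : 1 ≤ Δ) {a : U} (ha : ¬ L.exc Δ a) (h : ℕ) : L.c h a ≤ Δ := by
  unfold exc at ha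
  push Not at ha
  rw [L.c_eq h a]
  by_cases h0 : h = 0
  · rw [if_pos h0]
    by_cases hl : L.lev a = 0
    · rw [ha.1 hl]; exact hΔ
    · rw [L.c_zero_of_lev hl]; omega
  · rw [if_neg h0]
    split_ifs
    · exact ha.2
    · omega

lemma mult_code (hK : ∀ a, L.lev a ≤ K) (N : V → Finset V)
    (hd : ∀ φ ∈ L.emb N, ∀ a h, L.c h a ≤ d) (κ : V → Fin m) (φ : U ≃ V)
    (hφ : φ ∈ L.emb N) (y : V) (h : ℕ) :
    mult m (L.gF K Δ d φ y) (L.eF K Δ m κ φ y) ((κ y).val = 0) h =
      (L.c h (φ.symm y) : ℝ) + (if L.exc Δ (φ.symm y) then 0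
        else (L.c h (φ.symm y) : ℝ) * zeta m κ y) := by
  set a := φ.symm y with ha
  have hdd := hd φ hφ
  by_cases hx : L.exc Δ a
  · rw [if_pos hx, add_zero]
    have e1 : L.gF K Δ d φ y = some (tf K (L.lev a), tf d (L.c 0 a), tf d (L.b a)) := by
      unfold gF; rw [← ha, if_pos hx]
    rw [e1]
    simp only [mult]
    rw [tf_val (hK _), tf_val (hdd _ _), tf_val (show L.b a ≤ d from hdd _ _)]
    rw [L.c_eq h a]
    split_ifs <;> simp
  · rw [if_neg hx]
    have e1 : L.gF K Δ d φ y = none := by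
      unfold gF; rw [← ha, if_neg hx]
    rw [e1]
    simp only [mult]
    by_cases hk : (κ y).val = 0
    · rw [if_pos hk]
      have e2 : L.eF K Δ m κ φ y = (tf K (L.lev a), tf Δ (L.b a)) := by
        unfold eF; rw [← ha, if_pos hk]
      have hx' := hx
      unfold exc at hx'
      push Not at hx'
      rw [e2]
      simp only
      rw [tf_val (hK _), tf_val hx'.2]
      have e3 : zeta m κ y = (m : ℝ) - 1 := by
        unfold zeta zc; rw [if_pos hk]
      rw [e3]
      have e4 : (if h = 0 then (if L.lev a = 0 then 1 else 0)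
        else if h = L.lev a + 1 then (L.b a : ℝ) else 0) = (L.c h a : ℝ) := by
        rw [L.c_eq h a]
        by_cases h0 : h = 0
        · rw [if_pos h0, if_pos h0]
          by_cases hl : L.lev a = 0
          · rw [if_pos hl, hx'.1 hl]; simp
          · rw [if_neg hl, L.c_zero_of_lev hl]; simp
        · rw [if_neg h0, if_neg h0]
          split_ifs <;> simp
      rw [e4]; ring
    · rw [if_neg hk]
      have e3 : zeta m κ y = - 1 := by
        unfold zeta zc; rw [if_neg hk]; ring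
      rw [e3]; ring

lemma ph_code (hK : ∀ a, L.lev a ≤ K) (N : V → Finset V)
    (hd : ∀ φ ∈ L.emb N, ∀ a h, L.c h a ≤ d) (κ : V → Fin m) (φ : U ≃ V)
    (hφ : φ ∈ L.emb N) (x : V) (h : Fin (K + 1)) :
    ph m δ N κ (L.gF K Δ d φ) (L.eF K Δ m κ φ) x h =
      (L.s N φ h.val x : ℝ) / d + δ +
        ∑ y ∈ (N x).filter (fun y => ¬ L.exc Δ (φ.symm y)),
          ((L.c h.val (φ.symm y) : ℝ) / d) * zeta m κ y := by
  unfold ph
  rw [Finset.sum_congr rfl (fun y _ => L.mult_code K Δ m d hK N hd κ φ hφ y h.val)]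
  rw [Finset.sum_add_distrib, add_div, Finset.sum_filter, Finset.sum_div, Finset.sum_div]
  unfold s
  push_cast
  rw [Finset.sum_div]
  have : ∑ y ∈ N x, (if L.exc Δ (φ.symm y) then 0
        else (L.c h.val (φ.symm y) : ℝ) * zeta m κ y) / (d : ℝ) =
      ∑ y ∈ N x, (if ¬ L.exc Δ (φ.symm y) then
          ((L.c h.val (φ.symm y) : ℝ) / d) * zeta m κ y else 0) := by
    apply Finset.sum_congr rfl
    intro y _
    by_cases hx : L.exc Δ (φ.symm y)
    · simp [hx]
    · simp only [hx, if_false, not_false_eq_true, if_true]; ring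
  rw [this]; ring

/-- expected log of the sampled density -/
lemma expect_log_ph (hm : 0 < m) (hd0 : 0 < d) (hΔ : 1 ≤ Δ) (hδ : 0 < δ)
    (hK : ∀ a, L.lev a ≤ K) (N : V → Finset V)
    (hd : ∀ φ ∈ L.emb N, ∀ a h, L.c h a ≤ d) (φ : U ≃ V)
    (hφ : φ ∈ L.emb N) (x : V) (h : Fin (K + 1)) :
    Real.log ((L.s N φ h.val x : ℝ) / d + δ) - (m : ℝ) * Δ / (d * δ) ≤
      𝔼 κ : V → Fin m, Real.log (ph m δ N κ (L.gF K Δ d φ) (L.eF K Δ m κ φ) x h) := by
  have h1 := expect_log_ge m hm ((N x).filter (fun y => ¬ L.exc Δ (φ.symm y)))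
    (fun y => ((L.c h.val (φ.symm y) : ℝ) / d)) ((L.s N φ h.val x : ℝ) / d) δ (by positivity) hδ
    (by
      intro κ
      rw [← L.ph_code K Δ m d δ hK N hd κ φ hφ x h]
      exact ph_ge m δ N κ _ _ x h)
  rw [Finset.expect_congr rfl (fun κ _ => by
    rw [L.ph_code K Δ m d δ hK N hd κ φ hφ x h])]
  refine le_trans ?_ h1
  set p : ℝ := (L.s N φ h.val x : ℝ) / d with hp
  have hp0 : 0 ≤ p := by rw [hp]; positivity
  have hdr : (0 : ℝ) < d := by exact_mod_cast hd0
  have hmr : (1 : ℝ) ≤ m := by exact_mod_cast hm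
  have h2 : ∑ y ∈ (N x).filter (fun y => ¬ L.exc Δ (φ.symm y)),
      ((L.c h.val (φ.symm y) : ℝ) / d) ^ 2 ≤ ((Δ : ℝ) / d) * p := by
    have h3 : ∀ y ∈ (N x).filter (fun y => ¬ L.exc Δ (φ.symm y)),
        ((L.c h.val (φ.symm y) : ℝ) / d) ^ 2 ≤
          ((Δ : ℝ) / d) * ((L.c h.val (φ.symm y) : ℝ) / d) := by
      intro y hy
      rw [sq]
      apply mul_le_mul_of_nonneg_right _ (by positivity)
      apply div_le_div_of_nonneg_right _ hdr.le
      exact_mod_cast L.c_le_of_not_exc Δ hΔ (Finset.mem_filter.1 hy).2 h.val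
    refine le_trans (Finset.sum_le_sum h3) ?_
    rw [← Finset.mul_sum]
    apply mul_le_mul_of_nonneg_left _ (by positivity)
    rw [hp]
    unfold s
    push_cast
    rw [Finset.sum_div]
    apply Finset.sum_le_sum_of_subset_of_nonneg (Finset.filter_subset _ _)
    intro y _ _
    positivity
  have h4 : ((m : ℝ) - 1) * (∑ y ∈ (N x).filter (fun y => ¬ L.exc Δ (φ.symm y)),
      ((L.c h.val (φ.symm y) : ℝ) / d) ^ 2) / ((p + δ) * δ) ≤ (m : ℝ) * Δ / (d * δ) := by
    rw [div_le_div_iff₀ (by positivity) (by positivity)]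
    have h5 : ((m : ℝ) - 1) * (∑ y ∈ (N x).filter (fun y => ¬ L.exc Δ (φ.symm y)),
      ((L.c h.val (φ.symm y) : ℝ) / d) ^ 2) ≤ m * (((Δ : ℝ) / d) * (p + δ)) := by
      apply mul_le_mul (by linarith) _ (Finset.sum_nonneg (fun y _ => sq_nonneg _)) (by linarith)
      refine le_trans h2 ?_
      apply mul_le_mul_of_nonneg_left _ (by positivity)
      linarith
    calc _ ≤ m * (((Δ : ℝ) / d) * (p + δ)) * (d * δ) := by
          apply mul_le_mul_of_nonneg_right h5 (by positivity)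
      _ = _ := by field_simp
  linarith

/-- expected log of the normalisation -/
lemma expect_log_PH (hm : 0 < m) (hd0 : 0 < d) (hδ : 0 < δ)
    (hK : ∀ a, L.lev a ≤ K) (N : V → Finset V)
    (hd : ∀ φ ∈ L.emb N, ∀ a h, L.c h a ≤ d) (φ : U ≃ V)
    (hφ : φ ∈ L.emb N) (x : V) :
    𝔼 κ : V → Fin m, Real.log (PH m δ N κ (L.gF K Δ d φ) (L.eF K Δ m κ φ) x) ≤
      (∑ h : Fin (K + 1), (L.s N φ h.val x : ℝ)) / d + (K + 1) * δ - 1 := by
  have : Nonempty (Fin m) := ⟨⟨0, hm⟩⟩
  have h1 : ∀ κ : V → Fin m, Real.log (PH m δ N κ (L.gF K Δ d φ) (L.eF K Δ m κ φ) x) ≤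
      PH m δ N κ (L.gF K Δ d φ) (L.eF K Δ m κ φ) x - 1 := fun κ =>
    Real.log_le_sub_one_of_pos (PH_pos m δ hδ N κ _ _ x)
  refine le_trans (Finset.expect_le_expect (fun κ _ => h1 κ)) (le_of_eq ?_)
  rw [Finset.expect_sub_distrib, Fintype.expect_const]
  unfold PH
  rw [Finset.expect_sum_comm]
  rw [Finset.sum_congr rfl (g := fun h : Fin (K + 1) => (L.s N φ h.val x : ℝ) / d + δ)]
  · rw [Finset.sum_add_distrib, ← Finset.sum_div, Finset.sum_const, Finset.card_univ,
      Fintype.card_fin, nsmul_eq_mul]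
    push_cast; ring
  · intro h _
    rw [Finset.expect_congr rfl (fun κ _ => L.ph_code K Δ m d δ hK N hd κ φ hφ x h)]
    rw [Finset.expect_add_distrib, Fintype.expect_const, expect_lin, add_zero]

lemma sum_c_le (hK : ∀ a, L.lev a ≤ K) :
    ∑ a : U, ∑ h : Fin (K + 1), (L.c h.val a : ℝ) = (Fintype.card U : ℝ) - 1 := by
  classical
  have h1 : ∀ a, ∀ h : Fin (K + 1), (L.c h.val a : ℝ) =
      ∑ b : U, (if b ≠ L.root ∧ L.par b = a ∧ L.lev b = h.val then (1 : ℝ) else 0) := by
    intro a h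
    rw [← Finset.sum_filter, Finset.sum_const, nsmul_eq_mul, mul_one]
    rfl
  simp only [h1]
  have h2 : ∑ a : U, ∑ h : Fin (K + 1), ∑ b : U,
      (if b ≠ L.root ∧ L.par b = a ∧ L.lev b = h.val then (1 : ℝ) else 0) =
      ∑ b : U, ∑ a : U, ∑ h : Fin (K + 1),
        (if b ≠ L.root ∧ L.par b = a ∧ L.lev b = h.val then (1 : ℝ) else 0) := by
    rw [Finset.sum_congr rfl (fun a _ => Finset.sum_comm)]
    rw [Finset.sum_comm]
  rw [h2]
  have h3 : ∀ b : U, ∑ a : U, ∑ h : Fin (K + 1),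
        (if b ≠ L.root ∧ L.par b = a ∧ L.lev b = h.val then (1 : ℝ) else 0) =
        if b ≠ L.root then 1 else 0 := by
    intro b
    by_cases hb : b = L.root
    · simp [hb]
    · simp only [ne_eq, hb, not_false_eq_true, true_and, if_true]
      rw [Finset.sum_eq_single (L.par b)]
      · rw [Finset.sum_eq_single (⟨L.lev b, Nat.lt_succ_of_le (hK b)⟩ : Fin (K + 1))]
        · simp
        · intro h _ hne
          rw [if_neg]
          rintro ⟨_, h5⟩
          apply hne
          exact Fin.ext h5.symm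
        · intro h; exact absurd (Finset.mem_univ _) h
      · intro a _ hne
        apply Finset.sum_eq_zero
        intro h _
        rw [if_neg]
        rintro ⟨h5, _⟩
        exact hne h5.symm
      · intro h; exact absurd (Finset.mem_univ _) h
  rw [Finset.sum_congr rfl (fun b _ => h3 b)]
  rw [← Finset.sum_filter, Finset.sum_const, nsmul_eq_mul, mul_one]
  rw [Finset.filter_ne', Finset.card_erase_of_mem (Finset.mem_univ _), Finset.card_univ]
  have : 1 ≤ Fintype.card U := Fintype.card_pos_iff.2 ⟨L.root⟩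
  rw [Nat.cast_sub this]; simp

lemma sum_s (hK : ∀ a, L.lev a ≤ K) (N : V → Finset V) (hN : ∀ x, (N x).card = d)
    (hsym : ∀ x y, x ∈ N y ↔ y ∈ N x) (φ : U ≃ V) :
    ∑ x : V, ∑ h : Fin (K + 1), (L.s N φ h.val x : ℝ) =
      d * ((Fintype.card U : ℝ) - 1) := by
  classical
  unfold s
  push_cast
  rw [← L.sum_c_le K hK, Finset.mul_sum]
  have h1 : ∀ x : V, ∑ h : Fin (K + 1), ∑ y ∈ N x, (L.c h.val (φ.symm y) : ℝ) =
      ∑ y ∈ N x, ∑ h : Fin (K + 1), (L.c h.val (φ.symm y) : ℝ) := fun x => Finset.sum_comm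
  rw [Finset.sum_congr rfl (fun x _ => h1 x)]
  rw [Finset.sum_comm' (t' := univ) (s' := fun y => N y)
    (h := fun x y => by simp [hsym])]
  rw [← Equiv.sum_comp φ]
  apply Finset.sum_congr rfl
  intro a _
  rw [Finset.sum_const, hN, nsmul_eq_mul]
  simp

/-- logarithm of the weight -/
lemma log_W (κ : V → Fin m) (N : V → Finset V) (hδ : 0 < δ) (hy0 : 0 < y0) (hy1 : y0 < 1)
    (φ : U ≃ V) :
    Real.log (W m δ y0 N κ (L.code K Δ m d κ φ) * L.Fw N φ) =
      - Real.log (Fintype.card V) +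
      ∑ x : V, (if L.exc Δ (φ.symm x) then Real.log (y0 / (Fintype.card (X3 K d) : ℝ))
        else Real.log (1 - y0)) +
      ∑ x : V, (if (κ x).val = 0 then - Real.log (Fintype.card (X2 K Δ) : ℝ) else 0) +
      ∑ x : V, (Real.log (ph m δ N κ (L.gF K Δ d φ) (L.eF K Δ m κ φ) x (L.lF K φ x)) -
        Real.log (PH m δ N κ (L.gF K Δ d φ) (L.eF K Δ m κ φ) x)) -
      ∑ x ∈ univ.filter (fun x => x ≠ φ L.root), bl (L.s N φ (L.lev (φ.symm x)) x) := by
  have hn : 0 < Fintype.card V := Fintype.card_pos_iff.2 ⟨φ L.root⟩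
  have hX3 : (0 : ℝ) < Fintype.card (X3 K d) := by
    have : 0 < Fintype.card (X3 K d) := Fintype.card_pos
    exact_mod_cast this
  have hX2 : (0 : ℝ) < Fintype.card (X2 K Δ) := by
    have : 0 < Fintype.card (X2 K Δ) := Fintype.card_pos
    exact_mod_cast this
  have e1 : prior y0 (L.gF K Δ d φ) = ∏ x : V, (if L.exc Δ (φ.symm x) then
      (y0 / (Fintype.card (X3 K d) : ℝ)) else (1 - y0)) := by
    unfold prior
    apply Finset.prod_congr rfl
    intro x _
    unfold gF
    by_cases hx : L.exc Δ (φ.symm x)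
    · simp only [if_pos hx]
    · simp only [if_neg hx]
  have e2 : uw m κ (L.eF K Δ m κ φ) = ∏ x : V, (if (κ x).val = 0 then
      1 / (Fintype.card (X2 K Δ) : ℝ) else 1) := by
    unfold uw
    apply Finset.prod_congr rfl
    intro x _
    unfold eF
    by_cases hx : (κ x).val = 0
    · simp only [if_pos hx]
    · simp only [if_neg hx, if_true]
  have hph : ∀ x h, 0 < ph m δ N κ (L.gF K Δ d φ) (L.eF K Δ m κ φ) x h := fun x h =>
    lt_of_lt_of_le hδ (ph_ge m δ N κ _ _ x h)
  have hPH : ∀ x, 0 < PH m δ N κ (L.gF K Δ d φ) (L.eF K Δ m κ φ) x := fun x =>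
    PH_pos m δ hδ N κ _ _ x
  have p1 : 0 < prior y0 (L.gF K Δ d φ) := by
    rw [e1]
    apply Finset.prod_pos
    intro x _
    split_ifs
    · positivity
    · linarith
  have p2 : 0 < uw m κ (L.eF K Δ m κ φ) := by
    rw [e2]
    apply Finset.prod_pos
    intro x _
    split_ifs
    · positivity
    · norm_num
  have p3 : 0 < q m δ N κ (L.gF K Δ d φ) (L.eF K Δ m κ φ) (L.lF K φ) := by
    unfold q
    apply Finset.prod_pos
    intro x _
    exact div_pos (hph _ _) (hPH _)
  have hnr : (0 : ℝ) < Fintype.card V := by exact_mod_cast hn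
  unfold W code Fw
  simp only
  rw [Real.log_mul (by positivity) (Real.exp_pos _).ne', Real.log_exp,
    Real.log_mul (by positivity) (by positivity), Real.log_mul p1.ne' (by positivity),
    Real.log_mul p2.ne' p3.ne', e1, e2, one_div, Real.log_inv]
  unfold q
  rw [Real.log_prod, Real.log_prod, Real.log_prod]
  · have f1 : ∀ x : V, Real.log (if L.exc Δ (φ.symm x) then
      (y0 / (Fintype.card (X3 K d) : ℝ)) else (1 - y0)) =
      (if L.exc Δ (φ.symm x) then Real.log (y0 / (Fintype.card (X3 K d) : ℝ))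
        else Real.log (1 - y0)) := by
      intro x; split_ifs <;> rfl
    have f2 : ∀ x : V, Real.log (if (κ x).val = 0 then
      1 / (Fintype.card (X2 K Δ) : ℝ) else 1) =
      (if (κ x).val = 0 then - Real.log (Fintype.card (X2 K Δ) : ℝ) else 0) := by
      intro x; split_ifs
      · rw [one_div, Real.log_inv]
      · simp
    have f3 : ∀ x : V, Real.log (ph m δ N κ (L.gF K Δ d φ) (L.eF K Δ m κ φ) x (L.lF K φ x) /
        PH m δ N κ (L.gF K Δ d φ) (L.eF K Δ m κ φ) x) =
        (Real.log (ph m δ N κ (L.gF K Δ d φ) (L.eF K Δ m κ φ) x (L.lF K φ x)) -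
        Real.log (PH m δ N κ (L.gF K Δ d φ) (L.eF K Δ m κ φ) x)) := by
      intro x
      rw [Real.log_div (hph _ _).ne' (hPH _).ne']
    rw [Finset.sum_congr rfl (fun x _ => f1 x), Finset.sum_congr rfl (fun x _ => f2 x),
      Finset.sum_congr rfl (fun x _ => f3 x)]
    ring
  · intro x _
    exact (div_pos (hph _ _) (hPH _)).ne'
  · intro x _
    split_ifs
    · positivity
    · norm_num
  · intro x _
    split_ifs
    · positivity
    · linarith

end LevTree

end Pool.Agent.Helper19
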