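import Mathlib
import Pool.Agent.Helper19.CodeLength

/-!
# Upper bound for the number of spanning embeddings
-/

set_option linter.unusedSectionVars false

universe u v

namespace Pool.Agent.Helper19

open Finset
open scoped BigOperators

variable {U : Type u} {V : Type v} [Fintype U] [Fintype V] [DecidableEq U] [DecidableEq V]

lemma expect_ite_zero_color (m : ℕ) (hm : 0 < m) (y : V) (a : ℝ) :
    𝔼 κ : V → Fin m, (if (κ y).val = 0 then a else 0) = a / m := by
  have : Nonempty (Fin m) := ⟨⟨0, hm⟩⟩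
  have hmr : (m : ℝ) ≠ 0 := by positivity
  have h1 : ∀ κ : V → Fin m, (if (κ y).val = 0 then a else 0) =
      (a / m) * zeta m κ y + a / m := by
    intro κ
    unfold zeta zc
    split_ifs
    · field_simp; ring
    · ring
  rw [Finset.expect_congr rfl (fun κ _ => h1 κ), Finset.expect_add_distrib,
    Fintype.expect_const, ← Finset.mul_expect, expect_zeta]
  ring

namespace LevTree

variable (L : LevTree U)

variable (K Δ m d : ℕ) (δ y0 : ℝ)

/-- The bound. -/
noncomputable def BB (n E : ℕ) : ℝ :=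
  Real.log n + E * (Real.log (Fintype.card (X3 K d) : ℝ) - Real.log y0) - n * Real.log (1 - y0) +
    n / m * Real.log (Fintype.card (X2 K Δ) : ℝ) + n * ((m : ℝ) * Δ / (d * δ)) +
    n * ((K + 1) * δ) - 1 + (n - 1) * (Real.log d - 1) - Real.log δ

lemma expect_log_weight (hm : 0 < m) (hd0 : 0 < d) (hΔ : 1 ≤ Δ) (hδ : 0 < δ)
    (hy0 : 0 < y0) (hy1 : y0 < 1)
    (hK : ∀ a, L.lev a ≤ K) (N : V → Finset V) (hN : ∀ x, (N x).card = d)
    (hsym : ∀ x y, x ∈ N y ↔ y ∈ N x)
    (hd : ∀ φ ∈ L.emb N, ∀ a h, L.c h a ≤ d)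
    (hbl : ∀ s : ℕ, s ≤ d * d → bl s ≤ Real.log d - 1 + Real.log ((s : ℝ) / d + δ))
    (φ : U ≃ V) (hφ : φ ∈ L.emb N) :
    - BB K Δ m d δ y0 (Fintype.card U) ((univ.filter (fun a => L.exc Δ a)).card) ≤
      𝔼 κ : V → Fin m, Real.log (W m δ y0 N κ (L.code K Δ m d κ φ) * L.Fw N φ) := by
  classical
  have : Nonempty (Fin m) := ⟨⟨0, hm⟩⟩
  have hcard : Fintype.card V = Fintype.card U := (Fintype.card_congr φ).symm
  set n := Fintype.card U with hn
  set w := φ L.root with hw
  let p : V → ℝ := fun x => (L.s N φ (L.lev (φ.symm x)) x : ℝ) / d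
  have hp : ∀ x, p x = (L.s N φ (L.lev (φ.symm x)) x : ℝ) / d := fun _ => rfl
  have hp0 : ∀ x, 0 ≤ p x := fun x => by rw [hp]; positivity
  have hlF : ∀ x, (L.lF K φ x).val = L.lev (φ.symm x) := fun x => tf_val (hK _)
  rw [Finset.expect_congr rfl (fun κ _ => L.log_W K Δ m d δ y0 κ N hδ hy0 hy1 φ)]
  rw [Finset.expect_sub_distrib, Finset.expect_add_distrib, Finset.expect_add_distrib,
    Finset.expect_add_distrib, Fintype.expect_const, Fintype.expect_const, Fintype.expect_const,
    Finset.expect_sum_comm, Finset.expect_sum_comm]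
  -- term 2
  have t2 : ((univ.filter (fun a => L.exc Δ a)).card : ℝ) *
      (Real.log y0 - Real.log (Fintype.card (X3 K d) : ℝ)) + n * Real.log (1 - y0) ≤
      ∑ x : V, (if L.exc Δ (φ.symm x) then Real.log (y0 / (Fintype.card (X3 K d) : ℝ))
        else Real.log (1 - y0)) := by
    rw [← Equiv.sum_comp φ]
    simp only [Equiv.symm_apply_apply]
    rw [Finset.sum_ite, Finset.sum_const, Finset.sum_const, nsmul_eq_mul, nsmul_eq_mul]
    have hX3 : (0 : ℝ) < Fintype.card (X3 K d) := by
      have : 0 < Fintype.card (X3 K d) := Fintype.card_pos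
      exact_mod_cast this
    rw [Real.log_div hy0.ne' hX3.ne']
    have h1 : Real.log (1 - y0) ≤ 0 := Real.log_nonpos (by linarith) (by linarith)
    have h2 : ((univ.filter (fun a => ¬ L.exc Δ a)).card : ℝ) ≤ n := by
      rw [hn, ← Finset.card_univ]
      exact_mod_cast Finset.card_le_card (Finset.filter_subset _ _)
    have h3 : (n : ℝ) * Real.log (1 - y0) ≤
      ((univ.filter (fun a => ¬ L.exc Δ a)).card : ℝ) * Real.log (1 - y0) :=
      mul_le_mul_of_nonpos_right h2 h1
    linarith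
  -- term 3
  have t3 : ∑ x : V, 𝔼 κ : V → Fin m, (if (κ x).val = 0 then
      - Real.log (Fintype.card (X2 K Δ) : ℝ) else 0) =
      - (n / m * Real.log (Fintype.card (X2 K Δ) : ℝ)) := by
    rw [Finset.sum_congr rfl (fun x _ => expect_ite_zero_color m hm x _)]
    rw [Finset.sum_const, Finset.card_univ, hcard, nsmul_eq_mul]
    ring
  -- term 4
  have t4 : ∑ x : V, Real.log (p x + δ) - n * ((m : ℝ) * Δ / (d * δ)) -
      ((n : ℝ) - 1) - n * ((K + 1) * δ) + n ≤
      ∑ x : V, 𝔼 κ : V → Fin m,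
        (Real.log (ph m δ N κ (L.gF K Δ d φ) (L.eF K Δ m κ φ) x (L.lF K φ x)) -
        Real.log (PH m δ N κ (L.gF K Δ d φ) (L.eF K Δ m κ φ) x)) := by
    have h1 : ∀ x : V, Real.log (p x + δ) - (m : ℝ) * Δ / (d * δ) -
        ((∑ h : Fin (K + 1), (L.s N φ h.val x : ℝ)) / d + (K + 1) * δ - 1) ≤
        𝔼 κ : V → Fin m,
        (Real.log (ph m δ N κ (L.gF K Δ d φ) (L.eF K Δ m κ φ) x (L.lF K φ x)) -
        Real.log (PH m δ N κ (L.gF K Δ d φ) (L.eF K Δ m κ φ) x)) := by
      intro x
      rw [Finset.expect_sub_distrib]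
      have a1 := L.expect_log_ph K Δ m d δ hm hd0 hΔ hδ hK N hd φ hφ x (L.lF K φ x)
      have a2 := L.expect_log_PH K Δ m d δ hm hd0 hδ hK N hd φ hφ x
      rw [hlF] at a1
      rw [hp]
      linarith
    refine le_trans (le_of_eq ?_) (Finset.sum_le_sum (fun x _ => h1 x))
    have hdr : (d : ℝ) ≠ 0 := by positivity
    have hss : ∑ x : V, (∑ h : Fin (K + 1), (L.s N φ h.val x : ℝ)) / (d : ℝ) = (n : ℝ) - 1 := by
      rw [← Finset.sum_div, L.sum_s K d hK N hN hsym φ, ← hn]
      field_simp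
    rw [Finset.sum_sub_distrib, Finset.sum_sub_distrib, Finset.sum_sub_distrib,
      Finset.sum_add_distrib, hss]
    simp only [Finset.sum_const, Finset.card_univ, nsmul_eq_mul]
    rw [hcard]
    ring
  -- term 5
  have t5 : ∑ x ∈ univ.filter (fun x => x ≠ w), bl (L.s N φ (L.lev (φ.symm x)) x) ≤
      ((n : ℝ) - 1) * (Real.log d - 1) + ∑ x : V, Real.log (p x + δ) - Real.log δ := by
    have h1 : ∀ x ∈ univ.filter (fun x => x ≠ w), bl (L.s N φ (L.lev (φ.symm x)) x) ≤
        (Real.log d - 1) + Real.log (p x + δ) := by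
      intro x _
      apply hbl
      unfold s
      calc ∑ y ∈ N x, L.c (L.lev (φ.symm x)) (φ.symm y) ≤ ∑ y ∈ N x, d :=
            Finset.sum_le_sum (fun y _ => hd φ hφ _ _)
        _ = d * d := by rw [Finset.sum_const, hN, smul_eq_mul]
    refine le_trans (Finset.sum_le_sum h1) ?_
    rw [Finset.sum_add_distrib, Finset.sum_const, nsmul_eq_mul]
    have h2 : ((univ.filter (fun x => x ≠ w)).card : ℝ) = (n : ℝ) - 1 := by
      rw [Finset.filter_ne', Finset.card_erase_of_mem (Finset.mem_univ _), Finset.card_univ,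
        hcard]
      have : 1 ≤ n := by rw [hn]; exact Fintype.card_pos_iff.2 ⟨L.root⟩
      rw [Nat.cast_sub this]; simp
    rw [h2]
    have h3 : ∑ x : V, Real.log (p x + δ) = Real.log (p w + δ) +
        ∑ x ∈ univ.filter (fun x => x ≠ w), Real.log (p x + δ) := by
      rw [Finset.filter_ne']
      exact (Finset.add_sum_erase univ _ (Finset.mem_univ w)).symm
    have h4 : Real.log δ ≤ Real.log (p w + δ) :=
      Real.log_le_log hδ (by linarith [hp0 w])
    linarith
  rw [t3, hcard]
  unfold BB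
  linarith

/-- **Main upper bound** for the number of spanning embeddings. -/
theorem log_card_emb_le (hm : 0 < m) (hd0 : 0 < d) (hΔ : 1 ≤ Δ) (hδ : 0 < δ)
    (hy0 : 0 < y0) (hy1 : y0 < 1)
    (hK : ∀ a, L.lev a ≤ K) (N : V → Finset V) (hN : ∀ x, (N x).card = d)
    (hsym : ∀ x y, x ∈ N y ↔ y ∈ N x)
    (hbl : ∀ s : ℕ, s ≤ d * d → bl s ≤ Real.log d - 1 + Real.log ((s : ℝ) / d + δ))
    (hne : (L.emb N).Nonempty) :
    Real.log ((L.emb N).card : ℝ) ≤
      BB K Δ m d δ y0 (Fintype.card U) ((univ.filter (fun a => L.exc Δ a)).card) := by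
  classical
  have : Nonempty (Fin m) := ⟨⟨0, hm⟩⟩
  have hd : ∀ φ ∈ L.emb N, ∀ a h, L.c h a ≤ d := by
    intro φ hφ a h
    rw [← hN (φ a)]
    unfold c
    apply Finset.card_le_card_of_injOn (fun b => φ b)
    · intro b hb
      rw [Finset.mem_coe, mem_ch] at hb
      rw [mem_emb] at hφ
      have := hφ b hb.1
      rw [hb.2.1] at this
      exact (hsym _ _).1 this
    · intro b _ b' _ h
      exact φ.injective h
  set n0 : ℝ := ((L.emb N).card : ℝ) with hn0
  have hn0pos : 0 < n0 := by rw [hn0]; exact_mod_cast hne.card_pos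
  set B := BB K Δ m d δ y0 (Fintype.card U) ((univ.filter (fun a => L.exc Δ a)).card) with hB
  have hΩpos : ∀ κ : V → Fin m, ∀ φ ∈ L.emb N,
      0 < W m δ y0 N κ (L.code K Δ m d κ φ) * L.Fw N φ := by
    intro κ φ hφ
    apply mul_pos _ (Real.exp_pos _)
    have h0 := W_nonneg m δ y0 hδ hy0.le hy1.le N κ (L.code K Δ m d κ φ)
    unfold W code
    have hn : 0 < Fintype.card V := Fintype.card_pos_iff.2 ⟨φ L.root⟩
    have hnr : (0 : ℝ) < Fintype.card V := by exact_mod_cast hn
    have hX3 : (0 : ℝ) < Fintype.card (X3 K d) := by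
      have : 0 < Fintype.card (X3 K d) := Fintype.card_pos
      exact_mod_cast this
    have hX2 : (0 : ℝ) < Fintype.card (X2 K Δ) := by
      have : 0 < Fintype.card (X2 K Δ) := Fintype.card_pos
      exact_mod_cast this
    apply mul_pos (by positivity)
    apply mul_pos
    · unfold prior
      apply Finset.prod_pos
      intro x _
      simp only
      rcases L.gF K Δ d φ x with _ | r
      · simp only; linarith
      · simp only; positivity
    · apply mul_pos
      · unfold uw
        apply Finset.prod_pos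
        intro x _
        unfold eF
        by_cases hx : (κ x).val = 0
        · simp only [if_pos hx]; positivity
        · simp only [if_neg hx, if_true]; norm_num
      · unfold q
        apply Finset.prod_pos
        intro x _
        exact div_pos (lt_of_lt_of_le hδ (ph_ge m δ N κ _ _ x _)) (PH_pos m δ hδ N κ _ _ x)
  have hκ : ∀ κ : V → Fin m, n0 * Real.log n0 +
      ∑ φ ∈ L.emb N, Real.log (W m δ y0 N κ (L.code K Δ m d κ φ) * L.Fw N φ) ≤ 0 := by
    intro κ
    have hk := L.kraft K Δ m d δ y0 hK N hd hδ hy0.le hy1.le κ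
    have h1 : ∀ φ ∈ L.emb N, Real.log n0 +
        Real.log (W m δ y0 N κ (L.code K Δ m d κ φ) * L.Fw N φ) ≤
        n0 * (W m δ y0 N κ (L.code K Δ m d κ φ) * L.Fw N φ) - 1 := by
      intro φ hφ
      rw [← Real.log_mul hn0pos.ne' (hΩpos κ φ hφ).ne']
      exact Real.log_le_sub_one_of_pos (mul_pos hn0pos (hΩpos κ φ hφ))
    have h2 := Finset.sum_le_sum h1
    rw [Finset.sum_add_distrib, Finset.sum_const, nsmul_eq_mul, Finset.sum_sub_distrib,
      ← Finset.mul_sum, Finset.sum_const, nsmul_eq_mul, mul_one, ← hn0] at h2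
    have h3 := mul_le_mul_of_nonneg_left hk hn0pos.le
    linarith
  have h1 := Finset.expect_le_expect (s := (univ : Finset (V → Fin m))) (fun κ _ => hκ κ)
  rw [Finset.expect_add_distrib, Fintype.expect_const, Finset.expect_sum_comm,
    Fintype.expect_const] at h1
  have h2 : ∑ φ ∈ L.emb N, (- B) ≤ ∑ φ ∈ L.emb N, 𝔼 κ : V → Fin m,
      Real.log (W m δ y0 N κ (L.code K Δ m d κ φ) * L.Fw N φ) := by
    apply Finset.sum_le_sum
    intro φ hφ
    exact L.expect_log_weight K Δ m d δ y0 hm hd0 hΔ hδ hy0 hy1 hK N hN hsym hd hbl φ hφ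
  rw [Finset.sum_const, nsmul_eq_mul, ← hn0] at h2
  have h3 : n0 * Real.log n0 ≤ n0 * B := by linarith
  exact le_of_mul_le_mul_left h3 hn0pos

end LevTree

end Pool.Agent.Helper19
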