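import Mathlib

/-!
# Lower bound for the number of spanning trees of a connected regular graph
-/

set_option linter.unusedSectionVars false

universe u v

namespace Pool.Agent.Helper19

open Finset Function

variable {V : Type v} [Fintype V] [LinearOrder V]

open Classical in
/-- cycle representatives of a self map -/
noncomputable def Zr (f : V → V) : Finset V :=
  univ.filter (fun x => x ∈ periodicPts f ∧ ∀ k, x ≤ f^[k] x)

lemma mem_Zr (f : V → V) (x : V) : x ∈ Zr f ↔ x ∈ periodicPts f ∧ ∀ k, x ≤ f^[k] x := by
  simp [Zr]

lemma exists_iter_mem_Zr (f : V → V) (x : V) : ∃ k, f^[k] x ∈ Zr f := by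
  classical
  obtain ⟨i, j, hij, h⟩ := Finite.exists_ne_map_eq_of_infinite (fun i : ℕ => f^[i] x)
  wlog hlt : i < j generalizing i j
  · exact this j i (Ne.symm hij) h.symm (by omega)
  set y := f^[i] x with hy
  have hper : y ∈ periodicPts f := by
    refine mk_mem_periodicPts (n := j - i) (by omega) ?_
    show f^[j - i] y = y
    rw [hy, ← Function.iterate_add_apply, Nat.sub_add_cancel hlt.le]
    exact h.symm
  let S : Finset V := univ.filter (fun z => ∃ k, f^[k] y = z)
  have hS : S.Nonempty := ⟨y, by simp only [S, Finset.mem_filter, Finset.mem_univ, true_and]; exact ⟨0, rfl⟩⟩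
  obtain ⟨k0, hk0⟩ : ∃ k, f^[k] y = S.min' hS := by
    have := S.min'_mem hS
    simpa [S] using this
  have hE : f^[k0 + i] x = f^[k0] y := by rw [Function.iterate_add_apply]
  refine ⟨k0 + i, ?_⟩
  rw [hE, mem_Zr]
  constructor
  · have : ∀ k, f^[k] y ∈ periodicPts f := by
      intro k
      obtain ⟨n, hn, hn2⟩ := hper
      exact ⟨n, hn, hn2.apply_iterate k⟩
    exact this k0
  · intro j
    have h2 : f^[j] (f^[k0] y) ∈ S := by
      rw [← Function.iterate_add_apply]
      simp only [S, Finset.mem_filter, Finset.mem_univ, true_and]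
      exact ⟨_, rfl⟩
    have h3 := S.min'_le _ h2
    calc f^[k0] y = S.min' hS := hk0
      _ ≤ _ := h3

open Classical in
/-- hitting time of the representatives -/
noncomputable def rk (f : V → V) (x : V) : ℕ := Nat.find (exists_iter_mem_Zr f x)

lemma rk_succ (f : V → V) (x : V) (hx : x ∉ Zr f) : rk f x = rk f (f x) + 1 := by
  classical
  unfold rk
  exact Nat.find_comp_succ (exists_iter_mem_Zr f x) (exists_iter_mem_Zr f (f x)) (by simpa using hx)

/-- the forest of a functional digraph, broken at the representatives -/
def Hf (f : V → V) : SimpleGraph V where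
  Adj x y := x ≠ y ∧ ((x ∉ Zr f ∧ f x = y) ∨ (y ∉ Zr f ∧ f y = x))
  symm := ⟨fun x y h => ⟨h.1.symm, h.2.symm⟩⟩
  loopless := ⟨fun x h => h.1 rfl⟩

lemma Hf_acyclic (f : V → V) : (Hf f).IsAcyclic := by
  classical
  intro v c hc
  -- vertex with maximal rank
  have hne : c.support.toFinset.Nonempty := ⟨v, by simp⟩
  obtain ⟨x, hx, hmax⟩ := Finset.exists_max_image c.support.toFinset (rk f) hne
  have hx' : x ∈ c.support := by simpa using hx
  set c' := c.rotate x hx' with hc'
  have hcyc : c'.IsCycle := hc.rotate _
  have hsupp : ∀ y ∈ c'.support, rk f y ≤ rk f x := by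
    intro y hy
    apply hmax
    rw [List.mem_toFinset]
    exact (c.mem_support_rotate_iff _ hx').1 hy
  have hnil : ¬ c'.Nil := hcyc.not_nil
  have h1 : (Hf f).Adj x c'.snd := c'.adj_snd hnil
  have h2 : (Hf f).Adj c'.penultimate x := c'.adj_penultimate hnil
  have key : ∀ y, (Hf f).Adj x y → rk f y ≤ rk f x → y = f x := by
    rintro y ⟨_, h | h⟩ hle
    · exact h.2.symm
    · have := rk_succ f y h.1
      rw [h.2] at this
      omega
  have e1 := key _ h1 (hsupp _ (c'.getVert_mem_support 1))
  have e2 := key _ h2.symm (hsupp _ (c'.getVert_mem_support _))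
  exact hcyc.snd_ne_penultimate (e1.trans e2.symm)

lemma Hf_inj (f f' : V → V) (hff : ∀ x, f x ≠ x) (hH : Hf f = Hf f')
    (hZ : Zr f = Zr f') (hr : ∀ x ∈ Zr f, f x = f' x) : f = f' := by
  have key : ∀ k, ∀ x, rk f x = k → f x = f' x := by
    intro k
    induction k using Nat.strong_induction_on with
    | _ k ih =>
      intro x hk
      by_cases hx : x ∈ Zr f
      · exact hr x hx
      · have hadj : (Hf f).Adj x (f x) := ⟨(hff x).symm, Or.inl ⟨hx, rfl⟩⟩
        rw [hH] at hadj
        rcases hadj.2 with h | h
        · exact h.2.symm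
        · exfalso
          have h1 := rk_succ f x hx
          have h2 := ih (rk f (f x)) (by omega) (f x) rfl
          rw [← hZ] at h
          have h3 := rk_succ f (f x) h.1
          rw [h2, h.2] at h3
          omega
  funext x
  exact key _ x rfl

lemma card_edge_Hf (f : V → V) (hff : ∀ x, f x ≠ x) [Fintype (Hf f).edgeSet] :
    Fintype.card V ≤ (Hf f).edgeFinset.card + (Zr f).card := by
  classical
  have h1 : ((Zr f)ᶜ).card ≤ (Hf f).edgeFinset.card := by
    apply Finset.card_le_card_of_injOn (fun x => s(x, f x))
    · intro x hx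
      rw [Finset.mem_coe, SimpleGraph.mem_edgeFinset, SimpleGraph.mem_edgeSet]
      rw [Finset.mem_coe, Finset.mem_compl] at hx
      exact ⟨(hff x).symm, Or.inl ⟨hx, rfl⟩⟩
    · intro x hx x' hx' h
      rw [Finset.mem_coe, Finset.mem_compl] at hx hx'
      simp only [Sym2.eq_iff] at h
      rcases h with h | h
      · exact h.1
      · exfalso
        have e1 := rk_succ f x hx
        have e2 := rk_succ f x' hx'
        rw [h.2] at e1
        rw [← h.1] at e2
        omega
  rw [Finset.card_compl] at h1
  omega

/-- functions with a given period at `x` are rare -/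
lemma card_period (N : V → Finset V) (d : ℕ) (hN : ∀ x, (N x).card = d) (x : V) (k : ℕ)
    (hk : 0 < k) :
    ((Fintype.piFinset N).filter (fun f => minimalPeriod f x = k)).card * d ≤
      (Fintype.piFinset N).card := by
  classical
  set S := (Fintype.piFinset N).filter (fun f => minimalPeriod f x = k) with hS
  have hT : (S.sigma (fun f => N (f^[k - 1] x))).card = S.card * d := by
    rw [Finset.card_sigma, Finset.sum_congr rfl (fun f _ => hN _), Finset.sum_const, smul_eq_mul]
  rw [← hT]
  apply Finset.card_le_card_of_injOn (fun p => Function.update p.1 (p.1^[k - 1] x) p.2)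
  · intro p hp
    rw [Finset.mem_coe, Finset.mem_sigma] at hp
    obtain ⟨h1, h2⟩ := hp
    have h1' := (Finset.mem_filter.1 h1).1
    rw [Fintype.mem_piFinset] at h1'
    rw [Finset.mem_coe, Fintype.mem_piFinset]
    intro y
    show Function.update p.1 (p.1^[k - 1] x) p.2 y ∈ N y
    by_cases hy : y = p.1^[k - 1] x
    · rw [hy, Function.update_self]; exact h2
    · rw [Function.update_of_ne hy]; exact h1' y
  · intro p hp p' hp' h
    rw [Finset.mem_coe, Finset.mem_sigma] at hp hp'
    have hper := (Finset.mem_filter.1 hp.1).2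
    have hper' := (Finset.mem_filter.1 hp'.1).2
    simp only at h
    have key : ∀ (f : V → V) (w : V), minimalPeriod f x = k → ∀ i, i ≤ k - 1 →
        (Function.update f (f^[k - 1] x) w)^[i] x = f^[i] x := by
      intro f w hf i
      induction i with
      | zero => intro _; rfl
      | succ i ih =>
        intro hi
        rw [Function.iterate_succ_apply', ih (by omega), Function.iterate_succ_apply',
          Function.update_of_ne]
        intro heq
        have := iterate_injOn_Iio_minimalPeriod (f := f) (x := x)
          (show i ∈ Set.Iio (minimalPeriod f x) by rw [hf]; simp; omega)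
          (show k - 1 ∈ Set.Iio (minimalPeriod f x) by rw [hf]; simp; omega) heq
        omega
    have e1 := key p.1 p.2 hper (k - 1) le_rfl
    have e2 := key p'.1 p'.2 hper' (k - 1) le_rfl
    rw [h] at e1
    rw [e2] at e1
    -- e1 : p'.1^[k-1] x = p.1^[k-1] x
    set g := Function.update p.1 (p.1^[k - 1] x) p.2 with hg
    have hback : ∀ (f : V → V) (w : V), minimalPeriod f x = k →
        f = Function.update (Function.update f (f^[k - 1] x) w) (f^[k - 1] x) x := by
      intro f w hf
      rw [Function.update_idem]
      have h3 : f (f^[k - 1] x) = x := by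
        rw [← Function.iterate_succ_apply' f]
        have : (k - 1).succ = k := by omega
        rw [this, ← hf]
        exact iterate_minimalPeriod
      conv_lhs => rw [← Function.update_eq_self (f^[k - 1] x) f]
      rw [h3]
    have f1 := hback p.1 p.2 hper
    have f2 := hback p'.1 p'.2 hper'
    rw [← hg] at f1
    rw [← h, e1] at f2
    have hf : p.1 = p'.1 := f1.trans f2.symm
    have hw : p.2 = p'.2 := by
      have g1 : g (p.1^[k - 1] x) = p.2 := by rw [hg, Function.update_self]
      have g2 : g (p'.1^[k - 1] x) = p'.2 := by rw [h, Function.update_self]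
      rw [← g1, ← g2, e1]
    cases p; cases p'
    simp only at hf hw
    subst hf hw
    rfl

/-- few representatives with large period -/
lemma card_Zr_big (f : V → V) (k0 : ℕ) :
    ((Zr f).filter (fun x => k0 < minimalPeriod f x)).card * (k0 + 1) ≤ Fintype.card V := by
  classical
  set S := (Zr f).filter (fun x => k0 < minimalPeriod f x) with hS
  have h1 : (S ×ˢ (Finset.univ : Finset (Fin (k0 + 1)))).card ≤ (Finset.univ : Finset V).card := by
    apply Finset.card_le_card_of_injOn (fun p => f^[p.2.val] p.1)
    · intro p _; exact Finset.mem_univ _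
    · intro p hp p' hp' h
      rw [Finset.mem_coe, Finset.mem_product] at hp hp'
      have hz := (mem_Zr f _).1 (Finset.mem_filter.1 hp.1).1
      have hz' := (mem_Zr f _).1 (Finset.mem_filter.1 hp'.1).1
      have hk := (Finset.mem_filter.1 hp.1).2
      have hk' := (Finset.mem_filter.1 hp'.1).2
      simp only at h
      have hi := p.2.isLt
      have hi' := p'.2.isLt
      -- each is an iterate of the other
      have hret : ∀ (z : V) (i : ℕ), k0 < minimalPeriod f z → i ≤ k0 →
          f^[minimalPeriod f z - i] (f^[i] z) = z := by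
        intro z i hz hi
        rw [← Function.iterate_add_apply, Nat.sub_add_cancel (by omega)]
        exact iterate_minimalPeriod
      have a1 : p.1 ≤ p'.1 := by
        have e1 := hret p'.1 p'.2.val hk' (by omega)
        rw [← h, ← Function.iterate_add_apply] at e1
        rw [← e1]; exact hz.2 _
      have a2 : p'.1 ≤ p.1 := by
        have e1 := hret p.1 p.2.val hk (by omega)
        rw [h, ← Function.iterate_add_apply] at e1
        rw [← e1]; exact hz'.2 _
      have hp1 : p.1 = p'.1 := le_antisymm a1 a2
      have h2 : f^[p.2.val] p.1 = f^[p'.2.val] p.1 := by rw [h, hp1]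
      have h3 := iterate_injOn_Iio_minimalPeriod (f := f) (x := p.1)
          (show p.2.val ∈ Set.Iio (minimalPeriod f p.1) by simp; omega)
          (show p'.2.val ∈ Set.Iio (minimalPeriod f p.1) by simp; omega) h2
      exact Prod.ext hp1 (Fin.ext h3)
  rw [Finset.card_product, Finset.card_univ, Fintype.card_fin, Finset.card_univ] at h1
  exact h1

/-- average number of representatives -/
lemma sum_card_Zr (N : V → Finset V) (d : ℕ) (hd : 0 < d) (hN : ∀ x, (N x).card = d) (k0 : ℕ) :
    (∑ f ∈ Fintype.piFinset N, ((Zr f).card : ℝ)) ≤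
      (Fintype.piFinset N).card * (Fintype.card V * ((k0 : ℝ) / d + 1 / (k0 + 1))) := by
  classical
  set M := (Fintype.piFinset N).card with hM
  have h1 : ∀ f : V → V, ((Zr f).card : ℝ) ≤
      ∑ x : V, ∑ k ∈ Finset.Icc 1 k0, (if minimalPeriod f x = k then (1 : ℝ) else 0) +
        (Fintype.card V : ℝ) / (k0 + 1) := by
    intro f
    have h2 : (Zr f).card = ((Zr f).filter (fun x => k0 < minimalPeriod f x)).card +
        ((Zr f).filter (fun x => ¬ k0 < minimalPeriod f x)).card := by
      rw [Finset.card_filter_add_card_filter_not]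
    have h3 : (((Zr f).filter (fun x => k0 < minimalPeriod f x)).card : ℝ) ≤
        (Fintype.card V : ℝ) / (k0 + 1) := by
      rw [le_div_iff₀ (by positivity)]
      exact_mod_cast card_Zr_big f k0
    have h4 : (((Zr f).filter (fun x => ¬ k0 < minimalPeriod f x)).card : ℝ) ≤
        ∑ x : V, ∑ k ∈ Finset.Icc 1 k0, (if minimalPeriod f x = k then (1 : ℝ) else 0) := by
      rw [Finset.card_eq_sum_ones]
      push_cast
      have : ∑ x ∈ (Zr f).filter (fun x => ¬ k0 < minimalPeriod f x), (1 : ℝ) ≤
          ∑ x ∈ (Zr f).filter (fun x => ¬ k0 < minimalPeriod f x),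
            ∑ k ∈ Finset.Icc 1 k0, (if minimalPeriod f x = k then (1 : ℝ) else 0) := by
        apply Finset.sum_le_sum
        intro x hx
        rw [Finset.mem_filter, mem_Zr] at hx
        have hpos := minimalPeriod_pos_of_mem_periodicPts hx.1.1
        rw [Finset.sum_ite_eq]
        rw [if_pos]
        rw [Finset.mem_Icc]; omega
      refine le_trans this ?_
      apply Finset.sum_le_sum_of_subset_of_nonneg (Finset.subset_univ _)
      intro x _ _
      apply Finset.sum_nonneg
      intro k _
      split_ifs <;> norm_num
    rw [h2]; push_cast; linarith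
  calc (∑ f ∈ Fintype.piFinset N, ((Zr f).card : ℝ))
      ≤ ∑ f ∈ Fintype.piFinset N, (∑ x : V, ∑ k ∈ Finset.Icc 1 k0,
          (if minimalPeriod f x = k then (1 : ℝ) else 0) + (Fintype.card V : ℝ) / (k0 + 1)) :=
        Finset.sum_le_sum (fun f _ => h1 f)
    _ = ∑ x : V, ∑ k ∈ Finset.Icc 1 k0, (((Fintype.piFinset N).filter
          (fun f => minimalPeriod f x = k)).card : ℝ) + M * ((Fintype.card V : ℝ) / (k0 + 1)) := by
        rw [Finset.sum_add_distrib, Finset.sum_const, nsmul_eq_mul]
        congr 1
        rw [Finset.sum_comm]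
        apply Finset.sum_congr rfl
        intro x _
        rw [Finset.sum_comm]
        apply Finset.sum_congr rfl
        intro k _
        rw [← Finset.sum_filter, Finset.sum_const, nsmul_eq_mul, mul_one]
    _ ≤ ∑ x : V, ∑ k ∈ Finset.Icc 1 k0, ((M : ℝ) / d) + M * ((Fintype.card V : ℝ) / (k0 + 1)) := by
        gcongr with x _ k hk
        rw [le_div_iff₀ (by exact_mod_cast hd)]
        have := card_period N d hN x k (by rw [Finset.mem_Icc] at hk; omega)
        exact_mod_cast this
    _ = _ := by
        simp only [Finset.sum_const, Finset.card_univ, Nat.card_Icc, nsmul_eq_mul]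
        have : ((k0 + 1 - 1 : ℕ) : ℝ) = k0 := by simp
        rw [this]
        field_simp

end Pool.Agent.Helper19
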