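import Mathlib
import Pool.Agent.Helper19.SpanTree

/-!
# Lower bound for the number of spanning trees of a connected regular graph, final form
-/

set_option linter.unusedSectionVars false

universe u v

namespace Pool.Agent.Helper19

open Finset Function

variable {V : Type v} [Fintype V] [LinearOrder V]

open Classical in
/-- weight of the third coordinate -/
noncomputable def ow (d : ℕ) (y : ℝ) (o : Option V) : ℝ := if o = none then 1 - y else y / d

open Classical in
/-- the third coordinate -/
noncomputable def zf (f : V → V) (x : V) : Option V := if x ∈ Zr f then some (f x) else none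

lemma zf_eq_none (f : V → V) (x : V) : zf f x = none ↔ x ∉ Zr f := by
  unfold zf; split_ifs with h <;> simp [h]

open Classical in
/-- total weight of a code -/
noncomputable def TW (τ : ℝ) (d : ℕ) (y : ℝ) (c : SimpleGraph V × Finset (Sym2 V) × (V → Option V)) : ℝ :=
  (1 / τ) * ((y ^ c.2.1.card * (1 - y) ^ (c.1.edgeFinset.card - c.2.1.card)) *
    ∏ x, ow d y (c.2.2 x))

/-- the spanning trees -/
noncomputable def strees (G : SimpleGraph V) : Finset (SimpleGraph V) :=
  (Set.toFinite {F : SimpleGraph V | F ≤ G ∧ F.IsTree}).toFinset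

lemma mem_strees (G F : SimpleGraph V) : F ∈ strees G ↔ F ≤ G ∧ F.IsTree := by
  unfold strees
  rw [Set.Finite.mem_toFinset]; exact Iff.rfl

lemma sum_ow (d : ℕ) (hd : 0 < d) (y : ℝ) (S : Finset V) (hS : S.card = d) :
    ∑ o ∈ insert none (S.map Embedding.some), ow d y o = 1 := by
  classical
  rw [Finset.sum_insert (by simp), Finset.sum_map]
  unfold ow
  simp only [if_true, Embedding.some_apply, reduceCtorEq, if_false]
  rw [Finset.sum_const, hS, nsmul_eq_mul]
  have : (d : ℝ) ≠ 0 := by positivity
  field_simp
  ring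

open Classical in
/-- set of codes -/
noncomputable def codeSet (G : SimpleGraph V) (N : V → Finset V) :
    Finset (SimpleGraph V × Finset (Sym2 V) × (V → Option V)) :=
  ((strees G).sigma (fun F => F.edgeFinset.powerset ×ˢ
    Fintype.piFinset (fun x => insert none ((N x).map Embedding.some)))).image (fun p => (p.1, p.2.1, p.2.2))

lemma sum_TW (G : SimpleGraph V) (N : V → Finset V) (d : ℕ) (hd : 0 < d)
    (hN : ∀ x, (N x).card = d) (y : ℝ) (hτ : 0 < (strees G).card) :
    ∑ c ∈ codeSet G N, TW ((strees G).card : ℝ) d y c = 1 := by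
  classical
  unfold codeSet
  rw [Finset.sum_image (by
    rintro ⟨a, b, c⟩ _ ⟨a', b', c'⟩ _ h
    simp only [Prod.mk.injEq] at h
    obtain ⟨rfl, rfl, rfl⟩ := h
    rfl)]
  rw [Finset.sum_sigma]
  have h1 : ∀ F ∈ strees G, ∑ p ∈ F.edgeFinset.powerset ×ˢ
      Fintype.piFinset (fun x => insert none ((N x).map Embedding.some)),
      TW ((strees G).card : ℝ) d y (F, p.1, p.2) = 1 / ((strees G).card : ℝ) := by
    intro F _
    rw [Finset.sum_product]
    unfold TW
    simp only
    have h2 : ∑ ζ ∈ Fintype.piFinset (fun x => insert none ((N x).map Embedding.some)),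
        ∏ x, ow d y (ζ x) = 1 := by
      rw [← Finset.prod_univ_sum]
      apply Finset.prod_eq_one
      intro x _
      exact sum_ow d hd y (N x) (hN x)
    calc _ = ∑ D ∈ F.edgeFinset.powerset, (1 / ((strees G).card : ℝ)) *
          ((y ^ D.card * (1 - y) ^ (F.edgeFinset.card - D.card)) *
          ∑ ζ ∈ Fintype.piFinset (fun x => insert none ((N x).map Embedding.some)),
            ∏ x, ow d y (ζ x)) := by
          apply Finset.sum_congr rfl
          intro D _
          rw [Finset.mul_sum, Finset.mul_sum]
      _ = (1 / ((strees G).card : ℝ)) * ∑ D ∈ F.edgeFinset.powerset,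
          (y ^ D.card * (1 - y) ^ (F.edgeFinset.card - D.card)) := by
          rw [h2, Finset.mul_sum]
          simp only [mul_one]
      _ = _ := by
          rw [Finset.sum_pow_mul_eq_add_pow]
          simp
  have hτr : ((strees G).card : ℝ) ≠ 0 := by positivity
  calc _ = ∑ F ∈ strees G, 1 / ((strees G).card : ℝ) := Finset.sum_congr rfl h1
    _ = 1 := by rw [Finset.sum_const, nsmul_eq_mul]; field_simp

/-- **Lower bound** for the number of spanning trees. -/
theorem log_card_strees_ge (G : SimpleGraph V) (hG : G.Connected) (N : V → Finset V)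
    (hNG : ∀ x y, y ∈ N x ↔ G.Adj x y) (d : ℕ) (hd : 0 < d) (hN : ∀ x, (N x).card = d)
    (k0 : ℕ) (y : ℝ) (hy0 : 0 < y) (hy1 : y < 1) :
    (Fintype.card V : ℝ) * Real.log d ≤ Real.log ((strees G).card : ℝ) +
      (Fintype.card V * ((k0 : ℝ) / d + 1 / (k0 + 1))) * (Real.log d - 2 * Real.log y) -
      2 * Fintype.card V * Real.log (1 - y) := by
  classical
  set n := Fintype.card V with hn
  have hdr : (0 : ℝ) < d := by exact_mod_cast hd
  have hd1 : (1 : ℝ) ≤ d := by exact_mod_cast hd
  -- spanning trees extending the forests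
  have hF : ∀ f : V → V, ∃ F : SimpleGraph V, f ∈ Fintype.piFinset N →
      Hf f ≤ F ∧ F ≤ G ∧ F.IsTree := by
    intro f
    by_cases hf : f ∈ Fintype.piFinset N
    · rw [Fintype.mem_piFinset] at hf
      have hle : Hf f ≤ G := by
        intro a b hab
        rcases hab.2 with h | h
        · have := (hNG _ _).1 (hf a); rwa [h.2] at this
        · have := (hNG _ _).1 (hf b); rw [h.2] at this; exact this.symm
      obtain ⟨F, h1, h2, h3⟩ := hG.exists_isTree_le_of_le_of_isAcyclic hle (Hf_acyclic f)
      exact ⟨F, fun _ => ⟨h1, h2, h3⟩⟩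
    · exact ⟨⊥, fun h => absurd h hf⟩
  choose F hF using hF
  have hff : ∀ f ∈ Fintype.piFinset N, ∀ x, f x ≠ x := by
    intro f hf x
    rw [Fintype.mem_piFinset] at hf
    have := (hNG _ _).1 (hf x)
    exact this.ne.symm
  let D : (V → V) → Finset (Sym2 V) := fun f => (F f).edgeFinset \ (Hf f).edgeFinset
  have hsub : ∀ f ∈ Fintype.piFinset N, (Hf f).edgeFinset ⊆ (F f).edgeFinset := by
    intro f hf
    exact SimpleGraph.edgeFinset_subset_edgeFinset.2 (hF f hf).1
  have hDcard : ∀ f ∈ Fintype.piFinset N, (D f).card ≤ (Zr f).card := by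
    intro f hf
    show ((F f).edgeFinset \ (Hf f).edgeFinset).card ≤ _
    rw [Finset.card_sdiff_of_subset (hsub f hf)]
    have h1 := (hF f hf).2.2.card_edgeFinset
    have h2 := card_edge_Hf f (hff f hf)
    omega
  have hEcard : ∀ f ∈ Fintype.piFinset N, (F f).edgeFinset.card ≤ n := by
    intro f hf
    have h1 := (hF f hf).2.2.card_edgeFinset
    omega
  let code : (V → V) → SimpleGraph V × Finset (Sym2 V) × (V → Option V) :=
    fun f => (F f, D f, zf f)
  have hinj : Set.InjOn code (Fintype.piFinset N : Set (V → V)) := by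
    intro f hf f' hf' h
    rw [Finset.mem_coe] at hf hf'
    simp only [code, Prod.mk.injEq] at h
    obtain ⟨h1, h2, h3⟩ := h
    have hZ : Zr f = Zr f' := by
      ext x
      have := congrFun h3 x
      have e1 := zf_eq_none f x
      have e2 := zf_eq_none f' x
      rw [this] at e1
      tauto
    apply Hf_inj f f' (hff f hf) _ hZ
    · intro x hx
      have := congrFun h3 x
      unfold zf at this
      rw [if_pos hx, if_pos (hZ ▸ hx)] at this
      exact Option.some_injective _ this
    · have e1 : (Hf f).edgeFinset = (F f).edgeFinset \ D f := by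
        show _ = (F f).edgeFinset \ ((F f).edgeFinset \ (Hf f).edgeFinset)
        rw [Finset.sdiff_sdiff_eq_self (hsub f hf)]
      have e2 : (Hf f').edgeFinset = (F f').edgeFinset \ D f' := by
        show _ = (F f').edgeFinset \ ((F f').edgeFinset \ (Hf f').edgeFinset)
        rw [Finset.sdiff_sdiff_eq_self (hsub f' hf')]
      have e3 : (Hf f).edgeFinset = (Hf f').edgeFinset := by
        rw [e1, e2, h2]
        congr 1
        ext e
        rw [SimpleGraph.mem_edgeFinset, SimpleGraph.mem_edgeFinset, h1]
      exact SimpleGraph.edgeFinset_inj.1 e3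
  have hmem : ∀ f ∈ Fintype.piFinset N, code f ∈ codeSet G N := by
    intro f hf
    unfold codeSet
    rw [Finset.mem_image]
    refine ⟨⟨F f, D f, zf f⟩, ?_, rfl⟩
    rw [Finset.mem_sigma]
    refine ⟨(mem_strees G _).2 (hF f hf).2, ?_⟩
    rw [Finset.mem_product, Finset.mem_powerset, Fintype.mem_piFinset]
    refine ⟨Finset.sdiff_subset, ?_⟩
    intro x
    simp only
    unfold zf
    split_ifs with h
    · rw [Finset.mem_insert]; right
      rw [Finset.mem_map]
      exact ⟨f x, (Fintype.mem_piFinset.1 hf) x, rfl⟩
    · exact Finset.mem_insert_self _ _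
  set M := (Fintype.piFinset N).card with hM
  have hMval : M = d ^ n := by
    rw [hM, Fintype.card_piFinset, Finset.prod_congr rfl (fun x _ => hN x), Finset.prod_const,
      Finset.card_univ]
  have hMpos : 0 < M := by rw [hMval]; positivity
  have hMr : (0 : ℝ) < M := by exact_mod_cast hMpos
  have hτ : 0 < (strees G).card := by
    obtain ⟨f, hf⟩ := Finset.card_pos.1 hMpos
    exact Finset.card_pos.2 ⟨F f, (mem_strees G _).2 (hF f hf).2⟩
  have hτr : (0 : ℝ) < ((strees G).card : ℝ) := by exact_mod_cast hτ
  set τ : ℝ := ((strees G).card : ℝ) with hτdef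
  have h1y : 0 < 1 - y := by linarith
  have how : ∀ o : Option V, 0 < ow d y o := by
    intro o; unfold ow; split_ifs
    · exact h1y
    · positivity
  have hTW : ∀ c : SimpleGraph V × Finset (Sym2 V) × (V → Option V), 0 < TW τ d y c := by
    intro c
    unfold TW
    have := Finset.prod_pos (fun x (_ : x ∈ (univ : Finset V)) => how (c.2.2 x))
    positivity
  have hkraft : ∑ f ∈ Fintype.piFinset N, TW τ d y (code f) ≤ 1 := by
    rw [← sum_TW G N d hd hN y hτ]
    rw [← Finset.sum_image (f := fun c => TW τ d y c) hinj]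
    apply Finset.sum_le_sum_of_subset_of_nonneg
    · intro c hc
      rw [Finset.mem_image] at hc
      obtain ⟨f, hf, rfl⟩ := hc
      exact hmem f hf
    · intro c _ _
      exact (hTW c).le
  have hlog : ∀ f ∈ Fintype.piFinset N, - Real.log τ - (Zr f).card * (Real.log d - 2 * Real.log y) +
      2 * n * Real.log (1 - y) ≤ Real.log (TW τ d y (code f)) := by
    intro f hf
    unfold TW
    simp only [code]
    have hp := Finset.prod_pos (fun x (_ : x ∈ (univ : Finset V)) => how (zf f x))
    rw [Real.log_mul (by positivity) (by positivity), Real.log_mul (by positivity) hp.ne',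
      Real.log_mul (by positivity) (by positivity), Real.log_pow, Real.log_pow, one_div,
      Real.log_inv, Real.log_prod (fun x _ => (how _).ne')]
    have hly : Real.log y < 0 := Real.log_neg hy0 hy1
    have hl1y : Real.log (1 - y) < 0 := Real.log_neg h1y (by linarith)
    have hld : 0 ≤ Real.log d := Real.log_nonneg hd1
    have a1 : ((D f).card : ℝ) ≤ (Zr f).card := by exact_mod_cast hDcard f hf
    have a2 : (((F f).edgeFinset.card - (D f).card : ℕ) : ℝ) ≤ n := by
      have := hEcard f hf
      exact_mod_cast (by omega : (F f).edgeFinset.card - (D f).card ≤ n)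
    have a3 : ∑ x : V, Real.log (ow d y (zf f x)) ≥
        (Zr f).card * (Real.log y - Real.log d) + n * Real.log (1 - y) := by
      have : ∀ x : V, Real.log (ow d y (zf f x)) =
          if x ∈ Zr f then (Real.log y - Real.log d) else Real.log (1 - y) := by
        intro x
        unfold ow
        by_cases hx : x ∈ Zr f
        · rw [if_pos hx, if_neg (by rw [zf_eq_none]; exact not_not.2 hx),
            Real.log_div hy0.ne' hdr.ne']
        · rw [if_neg hx, if_pos ((zf_eq_none f x).2 hx)]
      rw [Finset.sum_congr rfl (fun x _ => this x), Finset.sum_ite, Finset.sum_const,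
        Finset.sum_const, nsmul_eq_mul, nsmul_eq_mul]
      have b1 : (univ.filter (fun x => x ∈ Zr f)).card = (Zr f).card := by
        congr 1; ext x; simp
      have b2 : ((univ.filter (fun x => x ∉ Zr f)).card : ℝ) ≤ n := by
        rw [hn, ← Finset.card_univ]
        exact_mod_cast Finset.card_le_card (Finset.filter_subset _ _)
      rw [b1]
      have b3 := mul_le_mul_of_nonpos_right b2 hl1y.le
      linarith
    have a4 := mul_le_mul_of_nonpos_right a1 hly.le
    have a5 := mul_le_mul_of_nonpos_right a2 hl1y.le
    linarith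
  have hsum : M * Real.log M + ∑ f ∈ Fintype.piFinset N, Real.log (TW τ d y (code f)) ≤ 0 := by
    have h1 : ∀ f ∈ Fintype.piFinset N, Real.log M + Real.log (TW τ d y (code f)) ≤
        M * TW τ d y (code f) - 1 := by
      intro f _
      rw [← Real.log_mul hMr.ne' (hTW _).ne']
      exact Real.log_le_sub_one_of_pos (mul_pos hMr (hTW _))
    have h2 := Finset.sum_le_sum h1
    rw [Finset.sum_add_distrib, Finset.sum_const, nsmul_eq_mul, Finset.sum_sub_distrib,
      ← Finset.mul_sum, Finset.sum_const, nsmul_eq_mul, mul_one, ← hM] at h2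
    have h3 := mul_le_mul_of_nonneg_left hkraft hMr.le
    linarith
  have h3 := Finset.sum_le_sum hlog
  rw [Finset.sum_add_distrib, Finset.sum_sub_distrib, Finset.sum_const, Finset.sum_const,
    nsmul_eq_mul, nsmul_eq_mul, ← Finset.sum_mul, ← hM] at h3
  have h4 := sum_card_Zr N d hd hN k0
  rw [← hM, ← hn] at h4
  have hly : Real.log y < 0 := Real.log_neg hy0 hy1
  have hld : 0 ≤ Real.log d := Real.log_nonneg hd1
  have h5 := mul_le_mul_of_nonneg_right h4 (show 0 ≤ Real.log d - 2 * Real.log y by linarith)
  have hlM : Real.log M = n * Real.log d := by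
    rw [hMval]; push_cast; rw [Real.log_pow]
  rw [hlM] at hsum
  have h6 : (M : ℝ) * (n * Real.log d) ≤ M * (Real.log τ +
      (n * ((k0 : ℝ) / d + 1 / (k0 + 1))) * (Real.log d - 2 * Real.log y) -
      2 * n * Real.log (1 - y)) := by
    nlinarith
  exact le_of_mul_le_mul_left h6 hMr

end Pool.Agent.Helper19
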