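import Mathlib
import Pool.Agent.Helper19.Coding

/-!
# Levels of a rooted tree: distance to the set of vertices of large height
-/

set_option linter.unusedSectionVars false

universe u v

namespace Pool.Agent.Helper19

open Finset

/-- A rooted tree, as a parent map with depth. -/
structure RTree (U : Type u) where
  root : U
  par : U → U
  dep : U → ℕ
  dep_root : dep root = 0
  dep_par : ∀ a, a ≠ root → dep a = dep (par a) + 1

namespace RTree

variable {U : Type u} (R : RTree U) (K : ℕ)

lemma eq_root_of_dep {a : U} (h : R.dep a = 0) : a = R.root := by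
  by_contra hne
  have := R.dep_par a hne
  omega

lemma dep_iter (a : U) : ∀ i, i ≤ R.dep a → R.dep (R.par^[i] a) + i = R.dep a := by
  intro i
  induction i with
  | zero => intro _; simp
  | succ i ih =>
    intro hi
    have h1 := ih (by omega)
    rw [Function.iterate_succ_apply']
    have hne : R.par^[i] a ≠ R.root := by
      intro h
      rw [h, R.dep_root] at h1
      omega
    have := R.dep_par _ hne
    omega

/-- core vertices: the root and vertices of height at least `K` -/
def core (a : U) : Prop := a = R.root ∨ ∃ b, R.dep b = R.dep a + K ∧ R.par^[K] b = a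

lemma core_root : R.core K R.root := Or.inl rfl

lemma core_par {a : U} (ha : a ≠ R.root) (h : R.core K a) : R.core K (R.par a) := by
  rcases h with h | ⟨b, hb, hb2⟩
  · exact absurd h ha
  · right
    refine ⟨R.par b, ?_, ?_⟩
    · have h1 := R.dep_par a ha
      have hne : b ≠ R.root := by
        intro h
        rw [h, R.dep_root] at hb
        omega
      have h2 := R.dep_par b hne
      omega
    · rw [← Function.iterate_succ_apply, Function.iterate_succ_apply', hb2]

lemma exists_core (a : U) : ∃ j, R.core K (R.par^[j] a) := by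
  refine ⟨R.dep a, ?_⟩
  have h := R.dep_iter a (R.dep a) le_rfl
  have h2 : R.par^[R.dep a] a = R.root := R.eq_root_of_dep (by omega)
  rw [h2]
  exact R.core_root K

open Classical in
/-- level: distance to the core -/
noncomputable def lev (a : U) : ℕ := Nat.find (R.exists_core K a)

lemma lev_eq_zero {a : U} : R.lev K a = 0 ↔ R.core K a := by
  classical
  unfold lev
  rw [Nat.find_eq_zero]
  simp

lemma lev_le (a : U) : R.lev K a ≤ K := by
  classical
  unfold lev
  by_cases h : K ≤ R.dep a
  · apply Nat.find_le
    right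
    exact ⟨a, by have := R.dep_iter a K h; omega, rfl⟩
  · have h1 := R.dep_iter a (R.dep a) le_rfl
    have h2 : R.par^[R.dep a] a = R.root := R.eq_root_of_dep (by omega)
    refine le_trans (Nat.find_min' _ (m := R.dep a) ?_) (by omega)
    rw [h2]
    exact R.core_root K

lemma lev_succ' {a : U} (h0 : R.lev K a ≠ 0) : R.lev K a = R.lev K (R.par a) + 1 := by
  classical
  have hnc : ¬ R.core K a := fun h => h0 ((R.lev_eq_zero K).2 h)
  unfold lev
  exact Nat.find_comp_succ (R.exists_core K a) (R.exists_core K (R.par a)) (by simpa using hnc)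

/-- the tree with levels -/
noncomputable def toLev : LevTree U where
  root := R.root
  par := R.par
  dep := R.dep
  lev := R.lev K
  dep_par := R.dep_par
  lev_root := (R.lev_eq_zero K).2 (R.core_root K)
  lev_zero := fun a ha h => (R.lev_eq_zero K).2 (R.core_par K ha ((R.lev_eq_zero K).1 h))
  lev_succ := fun a _ h => R.lev_succ' K h

lemma core_iter {a : U} (h : R.core K a) : ∀ j, j ≤ R.dep a → R.core K (R.par^[j] a) := by
  intro j
  induction j with
  | zero => intro _; simpa using h
  | succ j ih =>
    intro hj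
    rw [Function.iterate_succ_apply']
    apply R.core_par K _ (ih (by omega))
    intro hr
    have := R.dep_iter a j (by omega)
    rw [hr, R.dep_root] at this
    omega

variable [Fintype U] [DecidableEq U]

/-- core leaves -/
noncomputable def leaves : Finset U :=
  univ.filter (fun a => (R.toLev K).lev a = 0 ∧ (R.toLev K).c 0 a = 0)

lemma card_leaves : ((R.leaves K).card - 1) * (K + 1) ≤ Fintype.card U := by
  classical
  set S := (R.leaves K).filter (fun a => ∃ b, R.dep b = R.dep a + K ∧ R.par^[K] b = a) with hS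
  have hSc : (R.leaves K).card - 1 ≤ S.card := by
    have hsub : (R.leaves K).erase R.root ⊆ S := by
      intro a ha
      rw [Finset.mem_erase] at ha
      rw [hS, Finset.mem_filter]
      refine ⟨ha.2, ?_⟩
      have h1 : R.core K a := (R.lev_eq_zero K).1 (Finset.mem_filter.1 ha.2).2.1
      rcases h1 with h1 | h1
      · exact absurd h1 ha.1
      · exact h1
    refine le_trans ?_ (Finset.card_le_card hsub)
    exact Finset.pred_card_le_card_erase
  refine le_trans (Nat.mul_le_mul_right _ hSc) ?_
  have hb : ∀ a ∈ S, ∃ b, R.dep b = R.dep a + K ∧ R.par^[K] b = a := fun a ha =>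
    (Finset.mem_filter.1 ha).2
  have hcore : ∀ a ∈ S, R.core K a := fun a ha =>
    (R.lev_eq_zero K).1 (Finset.mem_filter.1 (Finset.mem_filter.1 ha).1).2.1
  have hleaf : ∀ a ∈ S, ∀ z, R.core K z → z ≠ R.root → R.par z ≠ a := by
    intro a ha z hz hzr hza
    have h1 := (Finset.mem_filter.1 (Finset.mem_filter.1 ha).1).2.2
    rw [LevTree.c, Finset.card_eq_zero, Finset.eq_empty_iff_forall_notMem] at h1
    apply h1 z
    rw [LevTree.mem_ch]
    exact ⟨hzr, hza, (R.lev_eq_zero K).2 hz⟩
  choose! w hw1 hw2 using hb
  -- injectivity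
  have key : ∀ a ∈ S, ∀ a' ∈ S, ∀ i i' : ℕ, i ≤ K → i' ≤ K → i' ≤ i →
      R.par^[i] (w a) = R.par^[i'] (w a') → a = a' ∧ i = i' := by
    intro a ha a' ha' i i' hi hi' hii heq
    set x := R.par^[i] (w a) with hx
    have hdx : R.dep x + i = R.dep (w a) := R.dep_iter _ i (by rw [hw1 a ha]; omega)
    have hdx' : R.dep x + i' = R.dep (w a') := by
      rw [heq]; exact R.dep_iter _ i' (by rw [hw1 a' ha']; omega)
    have ha1 : R.par^[K - i] x = a := by
      rw [hx, ← Function.iterate_add_apply, Nat.sub_add_cancel hi]; exact hw2 a ha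
    have ha1' : R.par^[K - i'] x = a' := by
      rw [heq, ← Function.iterate_add_apply, Nat.sub_add_cancel hi']; exact hw2 a' ha'
    have hda := hw1 a ha
    have hda' := hw1 a' ha'
    by_cases hne : i = i'
    · subst hne
      exact ⟨by rw [← ha1, ← ha1'], rfl⟩
    · exfalso
      -- a' is a proper ancestor of a
      have hlt : i' < i := by omega
      have h1 : R.par^[i - i'] a = a' := by
        rw [← ha1, ← ha1', ← Function.iterate_add_apply]
        congr 2
        omega
      have hda2 : i - i' ≤ R.dep a := by omega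
      have hz := R.core_iter K (hcore a ha) (i - i' - 1) (by omega)
      have hzd := R.dep_iter a (i - i' - 1) (by omega)
      have hzr : R.par^[i - i' - 1] a ≠ R.root := by
        intro h
        rw [h, R.dep_root] at hzd
        omega
      apply hleaf a' ha' _ hz hzr
      rw [← Function.iterate_succ_apply' (f := R.par), ← h1]
      congr 2
      omega
  have hcard : (S ×ˢ (Finset.univ : Finset (Fin (K + 1)))).card ≤ (Finset.univ : Finset U).card := by
    apply Finset.card_le_card_of_injOn (fun p => R.par^[p.2.val] (w p.1))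
    · intro p _; exact Finset.mem_univ _
    · intro p hp p' hp' h
      rw [Finset.mem_coe, Finset.mem_product] at hp hp'
      have hi := p.2.isLt
      have hi' := p'.2.isLt
      rcases le_total p'.2.val p.2.val with hle | hle
      · have := key p.1 hp.1 p'.1 hp'.1 p.2.val p'.2.val (by omega) (by omega) hle h
        exact Prod.ext this.1 (Fin.ext this.2)
      · have := key p'.1 hp'.1 p.1 hp.1 p'.2.val p.2.val (by omega) (by omega) hle h.symm
        exact (Prod.ext this.1 (Fin.ext this.2)).symm
  rw [Finset.card_product, Finset.card_univ, Fintype.card_fin, Finset.card_univ] at hcard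
  exact hcard

lemma card_branch_le :
    (univ.filter (fun a => (R.toLev K).lev a = 0 ∧ 2 ≤ (R.toLev K).c 0 a)).card ≤
      (R.leaves K).card := by
  classical
  set L := R.toLev K with hL
  set C := univ.filter (fun a => L.lev a = 0) with hC
  have h1 : ∑ a ∈ C, L.c 0 a + 1 = C.card := by
    have h2 : ((C.erase L.root).card) = ∑ a ∈ C, ((C.erase L.root).filter
        (fun b => L.par b = a)).card := by
      apply Finset.card_eq_sum_card_fiberwise
      intro b hb
      rw [Finset.mem_coe, Finset.mem_erase, hC, Finset.mem_filter] at hb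
      rw [Finset.mem_coe, hC, Finset.mem_filter]
      exact ⟨Finset.mem_univ _, L.lev_zero b hb.1 hb.2.2⟩
    have h3 : ∀ a ∈ C, ((C.erase L.root).filter (fun b => L.par b = a)).card = L.c 0 a := by
      intro a _
      unfold LevTree.c
      congr 1
      ext b
      simp only [hC, Finset.mem_filter, Finset.mem_erase, Finset.mem_univ, true_and,
        LevTree.mem_ch]
      tauto
    rw [Finset.sum_congr rfl h3] at h2
    have hroot : L.root ∈ C := by rw [hC, Finset.mem_filter]; exact ⟨Finset.mem_univ _, L.lev_root⟩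
    rw [Finset.card_erase_of_mem hroot] at h2
    have h20 : 0 < C.card := Finset.card_pos.2 ⟨_, hroot⟩
    rw [← h2]
    omega
  have h4 : ∑ a ∈ C, L.c 0 a ≥ ∑ a ∈ C, ((1 + (if 2 ≤ L.c 0 a then 1 else 0)) -
      (if L.c 0 a = 0 then 1 else 0)) := by
    apply Finset.sum_le_sum
    intro a _
    split_ifs <;> omega
  have h5 : ∑ a ∈ C, ((1 + (if 2 ≤ L.c 0 a then 1 else 0)) -
      (if L.c 0 a = 0 then 1 else 0)) + ∑ a ∈ C, (if L.c 0 a = 0 then 1 else 0) =
      ∑ a ∈ C, (1 + (if 2 ≤ L.c 0 a then 1 else 0)) := by
    rw [← Finset.sum_add_distrib]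
    apply Finset.sum_congr rfl
    intro a _
    split_ifs <;> omega
  have h6 : ∑ a ∈ C, (1 + (if 2 ≤ L.c 0 a then 1 else 0)) = C.card +
      (C.filter (fun a => 2 ≤ L.c 0 a)).card := by
    rw [Finset.sum_add_distrib, Finset.sum_const, smul_eq_mul, mul_one, ← Finset.card_filter]
  have h7 : ∑ a ∈ C, (if L.c 0 a = 0 then 1 else 0) = (C.filter (fun a => L.c 0 a = 0)).card := by
    rw [← Finset.card_filter]
  have h8 : C.filter (fun a => 2 ≤ L.c 0 a) =
      univ.filter (fun a => L.lev a = 0 ∧ 2 ≤ L.c 0 a) := by
    rw [hC, Finset.filter_filter]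
  have h9 : C.filter (fun a => L.c 0 a = 0) = R.leaves K := by
    rw [hC, Finset.filter_filter]; rfl
  rw [← h8, ← h9]
  omega

lemma card_big_le (Δ : ℕ) :
    (univ.filter (fun a => Δ < (R.toLev K).b a)).card * (Δ + 1) ≤ Fintype.card U := by
  classical
  set L := R.toLev K with hL
  have h1 : (univ.filter (fun a => Δ < L.b a)).card * (Δ + 1) ≤
      ∑ a ∈ univ.filter (fun a => Δ < L.b a), L.b a := by
    rw [← smul_eq_mul]
    apply Finset.card_nsmul_le_sum
    intro a ha
    exact (Finset.mem_filter.1 ha).2
  have h2 : ∑ a ∈ univ.filter (fun a => Δ < L.b a), L.b a ≤ ∑ a : U, L.b a :=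
    Finset.sum_le_sum_of_subset (Finset.filter_subset _ _)
  have h3 : ∑ a : U, L.b a ≤ ∑ a : U, ((Finset.univ : Finset U).filter
      (fun b => L.par b = a)).card := by
    apply Finset.sum_le_sum
    intro a _
    unfold LevTree.b LevTree.c
    apply Finset.card_le_card
    intro b hb
    rw [LevTree.mem_ch] at hb
    exact Finset.mem_filter.2 ⟨Finset.mem_univ _, hb.2.1⟩
  have h4 : ∑ a : U, ((Finset.univ : Finset U).filter (fun b => L.par b = a)).card =
      Fintype.card U := by
    rw [← Finset.card_univ (α := U)]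
    exact (Finset.card_eq_sum_card_fiberwise (fun b _ => Finset.mem_univ _)).symm
  omega

/-- few exceptional vertices -/
lemma card_exc_le (Δ : ℕ) :
    (((univ.filter (fun a => (R.toLev K).exc Δ a)).card : ℕ) : ℝ) ≤
      2 * ((Fintype.card U : ℝ) / (K + 1) + 1) + (Fintype.card U : ℝ) / (Δ + 1) := by
  classical
  set L := R.toLev K with hL
  have h1 : (univ.filter (fun a => L.exc Δ a)).card ≤
      (R.leaves K).card + (univ.filter (fun a => L.lev a = 0 ∧ 2 ≤ L.c 0 a)).card +
      (univ.filter (fun a => Δ < L.b a)).card := by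
    refine le_trans (Finset.card_le_card (t := (R.leaves K ∪
      univ.filter (fun a => L.lev a = 0 ∧ 2 ≤ L.c 0 a)) ∪ univ.filter (fun a => Δ < L.b a)) ?_) ?_
    · intro a ha
      have ha := (Finset.mem_filter.1 ha).2
      unfold LevTree.exc at ha
      simp only [leaves, Finset.mem_union, Finset.mem_filter, Finset.mem_univ, true_and]
      rcases ha with ⟨ha, hb⟩ | ha
      · left
        by_cases hc : L.c 0 a = 0
        · left; exact ⟨ha, hc⟩
        · right; exact ⟨ha, by omega⟩
      · right; exact ha
    · refine le_trans (Finset.card_union_le _ _) ?_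
      exact Nat.add_le_add_right (Finset.card_union_le _ _) _
  have h2 := R.card_leaves K
  have h3 := R.card_branch_le K
  have h4 := R.card_big_le K Δ
  rw [← hL] at h3 h4
  have h2' : ((R.leaves K).card : ℝ) ≤ (Fintype.card U : ℝ) / (K + 1) + 1 := by
    have h5 : (((R.leaves K).card - 1 : ℕ) : ℝ) * (K + 1) ≤ Fintype.card U := by exact_mod_cast h2
    have h6 : ((R.leaves K).card : ℝ) - 1 ≤ (((R.leaves K).card - 1 : ℕ) : ℝ) := by
      have : (R.leaves K).card ≤ (R.leaves K).card - 1 + 1 := by omega
      have : ((R.leaves K).card : ℝ) ≤ (((R.leaves K).card - 1 : ℕ) : ℝ) + 1 := by exact_mod_cast this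
      linarith
    have h7 : (0 : ℝ) < K + 1 := by positivity
    have h8 : (((R.leaves K).card - 1 : ℕ) : ℝ) ≤ (Fintype.card U : ℝ) / (K + 1) := by
      rw [le_div_iff₀ h7]; exact h5
    linarith
  have h4' : ((univ.filter (fun a => Δ < L.b a)).card : ℝ) ≤ (Fintype.card U : ℝ) / (Δ + 1) := by
    have h7 : (0 : ℝ) < Δ + 1 := by positivity
    rw [le_div_iff₀ h7]; exact_mod_cast h4
  have h1' : ((univ.filter (fun a => L.exc Δ a)).card : ℝ) ≤
      (R.leaves K).card + (univ.filter (fun a => L.lev a = 0 ∧ 2 ≤ L.c 0 a)).card +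
      (univ.filter (fun a => Δ < L.b a)).card := by exact_mod_cast h1
  have h3' : ((univ.filter (fun a => L.lev a = 0 ∧ 2 ≤ L.c 0 a)).card : ℝ) ≤
      (R.leaves K).card := by exact_mod_cast h3
  linarith

end RTree

/-- every connected graph on a finite vertex set has a rooted spanning tree structure -/
lemma exists_rtree {U : Type u} (T : SimpleGraph U) (hT : T.Connected) :
    ∃ R : RTree U, ∀ a, a ≠ R.root → T.Adj (R.par a) a := by
  classical
  obtain ⟨ρ⟩ := hT.nonempty
  have h : ∀ a, a ≠ ρ → ∃ b, T.Adj b a ∧ T.dist ρ a = T.dist ρ b + 1 := by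
    intro a ha
    obtain ⟨p, hp⟩ := hT.exists_walk_length_eq_dist a ρ
    cases p with
    | nil => exact absurd rfl ha
    | cons hadj q =>
      rename_i b
      refine ⟨b, hadj.symm, ?_⟩
      have h1 : T.dist b ρ ≤ q.length := SimpleGraph.dist_le q
      rw [SimpleGraph.Walk.length_cons] at hp
      have h2 : T.dist a ρ ≤ T.dist a b + T.dist b ρ := hT.dist_triangle
      have h3 : T.dist a b = 1 := SimpleGraph.dist_eq_one_iff_adj.2 hadj
      rw [SimpleGraph.dist_comm (u := ρ) (v := a), SimpleGraph.dist_comm (u := ρ) (v := b)]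
      omega
  choose! par hpar using h
  refine ⟨⟨ρ, par, fun a => T.dist ρ a, by simp, fun a ha => (hpar a ha).2⟩, ?_⟩
  intro a ha
  exact (hpar a ha).1

end Pool.Agent.Helper19
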