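import Mathlib
import Pool.Agent.Helper19.BlBound
import Pool.Agent.Helper19.EmbBound
import Pool.Agent.Helper19.TreeLevels
import Pool.Agent.Helper19.TreeCount

/-!
# Numerical estimates and the final statement
-/

namespace Pool.Agent.Helper19

lemma exists_t (d : ℕ) : ∃ t : ℕ, t ^ 8 ≤ d ∧ d < (t + 1) ^ 8 := by
  induction d with
  | zero => exact ⟨0, by norm_num, by norm_num⟩
  | succ d ih =>
    obtain ⟨t, h1, h2⟩ := ih
    by_cases h : d + 1 < (t + 1) ^ 8
    · exact ⟨t, by omega, h⟩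
    · refine ⟨t + 1, by omega, ?_⟩
      have : (t + 1) ^ 8 < (t + 1 + 1) ^ 8 := Nat.pow_lt_pow_left (by omega) (by norm_num)
      omega

lemma hbl_of_t (t d : ℕ) (ht : 3 ≤ t) (h1 : t ^ 8 ≤ d) (h2 : d < (t + 1) ^ 8) :
    3 + 4 * Real.log d ≤ (1 / (t : ℝ) ^ 2) * d := by
  have ht0 : (3 : ℝ) ≤ t := by exact_mod_cast ht
  have hd0 : 0 < d := lt_of_lt_of_le (by positivity) h1
  have hd : (0 : ℝ) < d := by exact_mod_cast hd0
  have h1' : (t : ℝ) ^ 8 ≤ d := by exact_mod_cast h1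
  have h2' : (d : ℝ) ≤ ((t : ℝ) + 1) ^ 8 := by exact_mod_cast h2.le
  have hl : Real.log d ≤ 8 * t := by
    calc Real.log d ≤ Real.log (((t : ℝ) + 1) ^ 8) := Real.log_le_log hd h2'
      _ = 8 * Real.log ((t : ℝ) + 1) := by rw [Real.log_pow]; norm_num
      _ ≤ 8 * t := by
        have := Real.log_le_sub_one_of_pos (show (0 : ℝ) < (t : ℝ) + 1 by positivity)
        linarith
  have h3 : (t : ℝ) ^ 6 ≤ (1 / (t : ℝ) ^ 2) * d := by
    rw [one_div, inv_mul_eq_div, le_div_iff₀ (by positivity)]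
    calc (t : ℝ) ^ 6 * t ^ 2 = (t : ℝ) ^ 8 := by ring
      _ ≤ (d : ℝ) := h1'
  have h4 : 3 + 32 * (t : ℝ) ≤ t ^ 6 := by
    have e1 : (243 : ℝ) ≤ t ^ 5 := by
      calc (243 : ℝ) = 3 ^ 5 := by norm_num
        _ ≤ t ^ 5 := by gcongr
    have e2 : (t : ℝ) ^ 6 = t ^ 5 * t := by ring
    nlinarith
  linarith

lemma BB_le (t d n E : ℕ) (ht : 3 ≤ t) (h1 : t ^ 8 ≤ d) (h2 : d < (t + 1) ^ 8) (hn : d ≤ n)
    (hE : (E : ℝ) ≤ 2 * ((n : ℝ) / (t + 1) + 1) + (n : ℝ) / ((t ^ 4 : ℕ) + 1)) :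
    LevTree.BB t (t ^ 4) t d (1 / (t : ℝ) ^ 2) (1 / (t : ℝ)) n E ≤
      n * (Real.log d - 1) + n * ((95 * Real.log ((t : ℝ) + 1) + 7) / t) := by
  have ht0 : (3 : ℝ) ≤ t := by exact_mod_cast ht
  have htp : (0 : ℝ) < t := by linarith
  have hd0 : 0 < d := lt_of_lt_of_le (by positivity) h1
  have hd : (0 : ℝ) < d := by exact_mod_cast hd0
  have hnr : (d : ℝ) ≤ n := by exact_mod_cast hn
  have hn0 : (0 : ℝ) < n := lt_of_lt_of_le hd hnr
  have h1' : (t : ℝ) ^ 8 ≤ d := by exact_mod_cast h1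
  have h2' : (d : ℝ) + 1 ≤ ((t : ℝ) + 1) ^ 8 := by exact_mod_cast h2
  set l := Real.log ((t : ℝ) + 1) with hl
  have hlpos : 0 < l := Real.log_pos (by linarith)
  have hlt : Real.log t ≤ l := Real.log_le_log htp (by linarith)
  have hlt0 : 0 ≤ Real.log t := Real.log_nonneg (by linarith)
  have hntn : (t : ℝ) ≤ n := by
    have : (t : ℝ) ≤ t ^ 8 := by
      have : (1 : ℝ) ≤ t ^ 7 := one_le_pow₀ (by linarith)
      nlinarith
    linarith
  -- term 1
  have T1 : Real.log n ≤ n * (2 / t) := by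
    have e1 : Real.log n = 2 * Real.log (Real.sqrt n) := by
      rw [Real.log_sqrt hn0.le]; ring
    have e2 : Real.log (Real.sqrt n) ≤ Real.sqrt n := by
      have := Real.log_le_sub_one_of_pos (Real.sqrt_pos.2 hn0)
      linarith
    have e3 : (t : ℝ) ≤ Real.sqrt n := by
      apply Real.le_sqrt_of_sq_le
      have : (t : ℝ) ^ 2 ≤ t ^ 8 := pow_le_pow_right₀ (by linarith) (by norm_num)
      linarith
    have e4 : Real.sqrt n ≤ n / t := by
      rw [le_div_iff₀ htp]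
      calc Real.sqrt n * t ≤ Real.sqrt n * Real.sqrt n :=
            mul_le_mul_of_nonneg_left e3 (Real.sqrt_nonneg _)
        _ = n := Real.mul_self_sqrt hn0.le
    calc Real.log n ≤ 2 * (n / t) := by rw [e1]; linarith
      _ = n * (2 / t) := by ring
  -- term 2
  have hE' : (E : ℝ) ≤ 5 * (n / t) := by
    have e1 : (n : ℝ) / (t + 1) ≤ n / t := by gcongr; linarith
    have e2 : (n : ℝ) / ((t ^ 4 : ℕ) + 1) ≤ n / t := by
      gcongr
      push_cast
      have : (1 : ℝ) ≤ t ^ 3 := one_le_pow₀ (by linarith)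
      nlinarith
    have e3 : (1 : ℝ) ≤ n / t := by rw [le_div_iff₀ htp]; linarith
    linarith
  have T2 : (E : ℝ) * (Real.log (Fintype.card (LevTree.X3 t d) : ℝ) - Real.log (1 / (t : ℝ))) ≤
      n * (90 * l / t) := by
    have e1 : Real.log (Fintype.card (LevTree.X3 t d) : ℝ) ≤ 17 * l := by
      simp only [Fintype.card_prod, Fintype.card_fin]
      push_cast
      calc Real.log (((t : ℝ) + 1) * (((d : ℝ) + 1) * ((d : ℝ) + 1)))
          ≤ Real.log (((t : ℝ) + 1) * ((((t : ℝ) + 1) ^ 8) * (((t : ℝ) + 1) ^ 8))) := by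
            apply Real.log_le_log (by positivity)
            gcongr
        _ = Real.log (((t : ℝ) + 1) ^ 17) := by congr 1; ring
        _ = 17 * l := by rw [Real.log_pow, ← hl]; norm_num
    have e2 : - Real.log (1 / (t : ℝ)) ≤ l := by
      rw [one_div, Real.log_inv]; linarith
    calc (E : ℝ) * (Real.log (Fintype.card (LevTree.X3 t d) : ℝ) - Real.log (1 / (t : ℝ)))
        ≤ E * (18 * l) := by
          apply mul_le_mul_of_nonneg_left _ (Nat.cast_nonneg _)
          linarith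
      _ ≤ 5 * (n / t) * (18 * l) := mul_le_mul_of_nonneg_right hE' (by positivity)
      _ = n * (90 * l / t) := by ring
  -- term 3
  have T3 : - (n : ℝ) * Real.log (1 - 1 / t) ≤ n * (2 / t) := by
    have hp : (0 : ℝ) < 1 - 1 / t := by
      rw [sub_pos, div_lt_one htp]; linarith
    have e1 : - Real.log (1 - 1 / (t : ℝ)) ≤ 2 / t := by
      rw [← Real.log_inv]
      refine le_trans (Real.log_le_sub_one_of_pos (by positivity)) ?_
      rw [sub_le_iff_le_add, inv_le_iff_one_le_mul₀ hp]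
      have : (1 - 1 / (t : ℝ)) * (2 / t + 1) = 1 + (1 / t) * (1 - 2 / t) := by field_simp; ring
      rw [mul_comm] at this
      rw [this]
      have h5 : (2 : ℝ) / t ≤ 1 := by rw [div_le_one htp]; linarith
      have : 0 ≤ (1 / (t : ℝ)) * (1 - 2 / t) := by
        apply mul_nonneg (by positivity); linarith
      linarith
    calc - (n : ℝ) * Real.log (1 - 1 / t) = n * (- Real.log (1 - 1 / (t : ℝ))) := by ring
      _ ≤ n * (2 / t) := mul_le_mul_of_nonneg_left e1 hn0.le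
  -- term 4
  have T4 : (n : ℝ) / t * Real.log (Fintype.card (LevTree.X2 t (t ^ 4)) : ℝ) ≤ n * (5 * l / t) := by
    have e1 : Real.log (Fintype.card (LevTree.X2 t (t ^ 4)) : ℝ) ≤ 5 * l := by
      simp only [Fintype.card_prod, Fintype.card_fin]
      push_cast
      calc Real.log (((t : ℝ) + 1) * ((t : ℝ) ^ 4 + 1))
          ≤ Real.log (((t : ℝ) + 1) * ((t : ℝ) + 1) ^ 4) := by
            apply Real.log_le_log (by positivity)
            gcongr
            have e : ((t : ℝ) + 1) ^ 4 = t ^ 4 + 1 + (4 * t ^ 3 + 6 * t ^ 2 + 4 * t) := by ring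
            rw [e]
            have : 0 ≤ 4 * (t : ℝ) ^ 3 + 6 * t ^ 2 + 4 * t := by positivity
            linarith
        _ = Real.log (((t : ℝ) + 1) ^ 5) := by congr 1; ring
        _ = 5 * l := by rw [Real.log_pow, ← hl]; norm_num
    calc (n : ℝ) / t * Real.log (Fintype.card (LevTree.X2 t (t ^ 4)) : ℝ) ≤ n / t * (5 * l) :=
          mul_le_mul_of_nonneg_left e1 (by positivity)
      _ = n * (5 * l / t) := by ring
  -- term 5
  have T5 : (n : ℝ) * ((t : ℝ) * ((t ^ 4 : ℕ) : ℝ) / (d * (1 / (t : ℝ) ^ 2))) ≤ n * (1 / t) := by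
    apply mul_le_mul_of_nonneg_left _ hn0.le
    push_cast
    rw [div_le_div_iff₀ (by positivity) htp]
    have e : (d : ℝ) * (1 / (t : ℝ) ^ 2) = d / t ^ 2 := by ring
    rw [e, one_mul, le_div_iff₀ (by positivity)]
    calc (t : ℝ) * t ^ 4 * t * t ^ 2 = (t : ℝ) ^ 8 := by ring
      _ ≤ (d : ℝ) := h1'
  -- term 6
  have T6 : (n : ℝ) * (((t : ℝ) + 1) * (1 / (t : ℝ) ^ 2)) ≤ n * (2 / t) := by
    apply mul_le_mul_of_nonneg_left _ hn0.le
    rw [mul_one_div, div_le_div_iff₀ (by positivity) htp]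
    nlinarith
  -- term 7
  have T7 : ((n : ℝ) - 1) * (Real.log d - 1) - 1 - Real.log (1 / (t : ℝ) ^ 2) ≤
      n * (Real.log d - 1) := by
    have e1 : Real.log (1 / (t : ℝ) ^ 2) = - (2 * Real.log t) := by
      rw [one_div, Real.log_inv, Real.log_pow]; norm_num
    have e2 : 2 * Real.log t ≤ Real.log d := by
      have : Real.log ((t : ℝ) ^ 8) ≤ Real.log d := Real.log_le_log (by positivity) h1'
      rw [Real.log_pow] at this
      push_cast at this
      linarith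
    rw [e1]
    linarith
  have hfin : (n : ℝ) * ((95 * l + 7) / t) = n * (2 / t) + n * (90 * l / t) + n * (2 / t) +
      n * (5 * l / t) + n * (1 / t) + n * (2 / t) := by ring
  rw [hfin]
  unfold LevTree.BB
  linarith

lemma lower_le (t d n : ℕ) (ht : 3 ≤ t) (h1 : t ^ 8 ≤ d) (h2 : d < (t + 1) ^ 8) :
    (n * (((t ^ 4 : ℕ) : ℝ) / d + 1 / ((t ^ 4 : ℕ) + 1))) * (Real.log d - 2 * Real.log (1 / (t : ℝ)))
      - 2 * n * Real.log (1 - 1 / (t : ℝ)) ≤ n * ((20 * Real.log ((t : ℝ) + 1) + 4) / t) := by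
  have ht0 : (3 : ℝ) ≤ t := by exact_mod_cast ht
  have htp : (0 : ℝ) < t := by linarith
  have hd0 : 0 < d := lt_of_lt_of_le (by positivity) h1
  have hd : (0 : ℝ) < d := by exact_mod_cast hd0
  have hn0 : (0 : ℝ) ≤ n := Nat.cast_nonneg _
  have h1' : (t : ℝ) ^ 8 ≤ d := by exact_mod_cast h1
  have h2' : (d : ℝ) + 1 ≤ ((t : ℝ) + 1) ^ 8 := by exact_mod_cast h2
  set l := Real.log ((t : ℝ) + 1) with hl
  have hlpos : 0 < l := Real.log_pos (by linarith)
  have hlt : Real.log t ≤ l := Real.log_le_log htp (by linarith)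
  have hlt0 : 0 ≤ Real.log t := Real.log_nonneg (by linarith)
  have T3 : - Real.log (1 - 1 / (t : ℝ)) ≤ 2 / t := by
    have hp : (0 : ℝ) < 1 - 1 / t := by
      rw [sub_pos, div_lt_one htp]; linarith
    rw [← Real.log_inv]
    refine le_trans (Real.log_le_sub_one_of_pos (by positivity)) ?_
    rw [sub_le_iff_le_add, inv_le_iff_one_le_mul₀ hp]
    have : (1 - 1 / (t : ℝ)) * (2 / t + 1) = 1 + (1 / t) * (1 - 2 / t) := by field_simp; ring
    rw [mul_comm] at this
    rw [this]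
    have h5 : (2 : ℝ) / t ≤ 1 := by rw [div_le_one htp]; linarith
    have : 0 ≤ (1 / (t : ℝ)) * (1 - 2 / t) := by
      apply mul_nonneg (by positivity); linarith
    linarith
  have e1 : ((t ^ 4 : ℕ) : ℝ) / d ≤ 1 / t := by
    push_cast
    rw [div_le_div_iff₀ hd htp]
    have : (t : ℝ) ^ 4 * t ≤ t ^ 8 := by
      have : (t : ℝ) ^ 5 ≤ t ^ 8 := pow_le_pow_right₀ (by linarith) (by norm_num)
      calc (t : ℝ) ^ 4 * t = t ^ 5 := by ring
        _ ≤ _ := this
    linarith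
  have e2 : (1 : ℝ) / ((t ^ 4 : ℕ) + 1) ≤ 1 / t := by
    gcongr
    push_cast
    have : (1 : ℝ) ≤ t ^ 3 := one_le_pow₀ (by linarith)
    nlinarith
  have e3 : Real.log d ≤ 8 * l := by
    calc Real.log d ≤ Real.log (((t : ℝ) + 1) ^ 8) := Real.log_le_log hd (by linarith)
      _ = 8 * l := by rw [Real.log_pow, ← hl]; norm_num
  have e4 : - Real.log (1 / (t : ℝ)) ≤ l := by
    rw [one_div, Real.log_inv]; linarith
  have e5 : 0 ≤ Real.log d - 2 * Real.log (1 / (t : ℝ)) := by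
    have : Real.log (1 / (t : ℝ)) ≤ 0 := by rw [one_div, Real.log_inv]; linarith
    have : 0 ≤ Real.log d := Real.log_nonneg (by exact_mod_cast hd0)
    linarith
  have e6 : (n * (((t ^ 4 : ℕ) : ℝ) / d + 1 / ((t ^ 4 : ℕ) + 1))) *
      (Real.log d - 2 * Real.log (1 / (t : ℝ))) ≤ (n * (1 / t + 1 / t)) * (10 * l) := by
    apply mul_le_mul _ (by linarith) e5 (by positivity)
    apply mul_le_mul_of_nonneg_left _ hn0
    linarith
  have e7 := mul_le_mul_of_nonneg_left T3 hn0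
  calc _ ≤ (n * (1 / t + 1 / t)) * (10 * l) + 2 * (n * (2 / t)) := by linarith
    _ = n * ((20 * l + 4) / t) := by ring

lemma err_small (ε : ℝ) (hε : 0 < ε) (t : ℕ) (ht : 3 ≤ t) (h : (241 / ε) ^ 2 ≤ t) :
    (115 * Real.log ((t : ℝ) + 1) + 11) / t ≤ ε := by
  have ht0 : (3 : ℝ) ≤ t := by exact_mod_cast ht
  have htp : (0 : ℝ) < t := by linarith
  have hs : 0 < Real.sqrt t := Real.sqrt_pos.2 htp
  have h1 : Real.log ((t : ℝ) + 1) ≤ 2 * Real.sqrt t := by
    have e1 : Real.log ((t : ℝ) + 1) = 2 * Real.log (Real.sqrt (t + 1)) := by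
      rw [Real.log_sqrt (by linarith)]; ring
    have e2 : Real.log (Real.sqrt (t + 1)) ≤ Real.sqrt (t + 1) - 1 :=
      Real.log_le_sub_one_of_pos (Real.sqrt_pos.2 (by linarith))
    have e3 : Real.sqrt (t + 1) ≤ Real.sqrt t + 1 := by
      rw [Real.sqrt_le_left (by positivity)]
      have := Real.mul_self_sqrt htp.le
      nlinarith
    rw [e1]; linarith
  have h2 : (11 : ℝ) ≤ 11 * Real.sqrt t := by
    have : (1 : ℝ) ≤ Real.sqrt t := by
      rw [Real.one_le_sqrt]; linarith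
    linarith
  have h3 : 241 / ε ≤ Real.sqrt t := by
    apply Real.le_sqrt_of_sq_le
    exact h
  rw [div_le_iff₀ htp]
  have h4 : 241 ≤ ε * Real.sqrt t := by
    rw [div_le_iff₀ hε] at h3; linarith
  calc 115 * Real.log ((t : ℝ) + 1) + 11 ≤ 241 * Real.sqrt t := by linarith
    _ ≤ (ε * Real.sqrt t) * Real.sqrt t := mul_le_mul_of_nonneg_right h4 hs.le
    _ = ε * t := by rw [mul_assoc, Real.mul_self_sqrt htp.le]

end Pool.Agent.Helper19
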