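import Mathlib
import Pool.Agent.Helper19.PercFinal

/-!
# The order of magnitude of the maximum percolation time for thresholds 3 ≤ r ≤ 2d - 1
-/

namespace Pool.Agent.Helper19.PercRes

open Filter Asymptotics Pool.Agent.Helper19.Perco

/-- The grid graph on `Fin d → Fin n`: two points are adjacent when they differ by one in
exactly one coordinate and agree in all others. -/
def grid (d n : ℕ) : SimpleGraph (Fin d → Fin n) where
  Adj x y := ∃ i, ((x i : ℕ) + 1 = y i ∨ (y i : ℕ) + 1 = x i) ∧ ∀ j, j ≠ i → x j = y j
  symm := ⟨by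
    rintro x y ⟨i, h1, h2⟩
    exact ⟨i, h1.symm, fun j hj => (h2 j hj).symm⟩⟩
  loopless := ⟨by
    rintro x ⟨i, h1, h2⟩
    omega⟩

/-- The `r`-neighbour bootstrap process on the grid started from `A`. -/
def infected (d r n : ℕ) (A : Set (Fin d → Fin n)) : ℕ → Set (Fin d → Fin n)
  | 0 => A
  | t + 1 => infected d r n A t ∪
      {v | r ≤ ((grid d n).neighborSet v ∩ infected d r n A t).ncard}

/-- `A` percolates: every vertex is infected at some time. -/
def Percolates (d r n : ℕ) (A : Set (Fin d → Fin n)) : Prop :=
  ⋃ t, infected d r n A t = Set.univ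

/-- The percolation time of `A`. -/
noncomputable def percTime (d r n : ℕ) (A : Set (Fin d → Fin n)) : ℕ :=
  sInf {t | infected d r n A t = Set.univ}

/-- The maximum percolation time. -/
noncomputable def maxTime (d r n : ℕ) : ℕ :=
  sSup {T | ∃ A, Percolates d r n A ∧ percTime d r n A = T}

lemma infected_eq (d r n : ℕ) (A : Set (Fin d → Fin n)) (t : ℕ) :
    infected d r n A t = proc (Gd d n) r A t := by
  induction t with
  | zero => rfl
  | succ t ih =>
    have h : infected d r n A (t + 1) = infected d r n A t ∪
      {v | r ≤ ((grid d n).neighborSet v ∩ infected d r n A t).ncard} := rfl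
    rw [h, ih]
    rfl

lemma exists_univ {d r n : ℕ} {A : Set (Fin d → Fin n)} (h : Percolates d r n A) :
    ∃ t, infected d r n A t = Set.univ := by
  obtain ⟨t, ht⟩ := exists_proc_closed (Gd d n) r A
  refine ⟨t, Set.eq_univ_of_forall fun v => ?_⟩
  have hv : v ∈ ⋃ t, infected d r n A t := by rw [h]; exact Set.mem_univ v
  obtain ⟨s, hs⟩ := Set.mem_iUnion.1 hv
  rw [infected_eq] at hs ⊢
  have hall : ∀ s, proc (Gd d n) r (proc (Gd d n) r A t) s ⊆ proc (Gd d n) r A t := fun s =>
    proc_subset_closed (Gd d n) r _ _ subset_rfl ht s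
  have : proc (Gd d n) r A s ⊆ proc (Gd d n) r A t := by
    rcases le_total s t with hst | hst
    · exact proc_mono_time _ _ _ hst
    · obtain ⟨u, rfl⟩ := Nat.exists_eq_add_of_le hst
      rw [proc_add]
      exact hall u
  exact this hs

lemma percTime_le {d r n : ℕ} {A : Set (Fin d → Fin n)} (h : Percolates d r n A) :
    percTime d r n A ≤ n ^ d := by
  have hex := exists_univ h
  have hT : infected d r n A (percTime d r n A) = Set.univ := Nat.sInf_mem hex
  have hlt : ∀ t < percTime d r n A,
      (infected d r n A t).ncard < (infected d r n A (t + 1)).ncard := by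
    intro t ht
    apply Set.ncard_lt_ncard _ (Set.toFinite _)
    refine ⟨fun v hv => Or.inl hv, fun hsub => ?_⟩
    -- the process is stationary from time `t`
    have hst : Closed (Gd d n) r (infected d r n A t) := by
      intro v hv
      exact hsub (Or.inr hv)
    have hall : infected d r n A (percTime d r n A) ⊆ infected d r n A t := by
      obtain ⟨u, hu⟩ := Nat.exists_eq_add_of_le ht.le
      rw [hu, infected_eq, infected_eq, proc_add]
      exact proc_subset_closed (Gd d n) r _ _ subset_rfl (by rw [← infected_eq]; exact hst) u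
    have h2 : infected d r n A t = Set.univ := by
      apply Set.eq_univ_of_univ_subset
      rw [← hT]; exact hall
    have h3 : percTime d r n A ≤ t := Nat.sInf_le h2
    omega
  have hge : ∀ t ≤ percTime d r n A, t ≤ (infected d r n A t).ncard := by
    intro t
    induction t with
    | zero => intro _; exact Nat.zero_le _
    | succ t ih => intro ht; have := hlt t (by omega); have := ih (by omega); omega
  have h1 := hge _ le_rfl
  rw [hT, Set.ncard_univ, Nat.card_eq_fintype_card, Fintype.card_fun, Fintype.card_fin,
    Fintype.card_fin] at h1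
  exact h1

lemma bddAbove (d r n : ℕ) :
    BddAbove {T | ∃ A, Percolates d r n A ∧ percTime d r n A = T} := by
  refine ⟨n ^ d, ?_⟩
  rintro T ⟨A, hA, rfl⟩
  exact percTime_le hA

lemma maxTime_le (d r n : ℕ) : maxTime d r n ≤ n ^ d := by
  unfold maxTime
  rcases Set.eq_empty_or_nonempty {T | ∃ A, Percolates d r n A ∧ percTime d r n A = T} with h | h
  · rw [h]; simp
  · refine csSup_le h ?_
    rintro T ⟨A, hA, rfl⟩
    exact percTime_le hA

lemma le_maxTime {d r n T : ℕ} (h : Slow (Gd d n) r T) : T ≤ maxTime d r n := by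
  obtain ⟨A, hA, v, hv⟩ := h
  obtain ⟨t, ht⟩ := (perc_iff (Gd d n) r A).1 hA
  have hperc : Percolates d r n A := by
    apply Set.eq_univ_of_forall
    intro w
    refine Set.mem_iUnion.2 ⟨t, ?_⟩
    rw [infected_eq, ht]; exact Set.mem_univ w
  have h1 : T ≤ percTime d r n A := by
    by_contra hlt
    push Not at hlt
    have hT : infected d r n A (percTime d r n A) = Set.univ := Nat.sInf_mem (exists_univ hperc)
    apply hv
    apply proc_mono_time (Gd d n) r A hlt.le
    rw [← infected_eq, hT]; exact Set.mem_univ v
  exact h1.trans (le_csSup (bddAbove d r n) ⟨A, hperc, rfl⟩)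

/-- For all integers `d ≥ 2` and `3 ≤ r ≤ 2d - 1`, the maximum percolation time of `r`-neighbour
bootstrap percolation on the grid `[n]^d` has order of magnitude `n^d`. -/
theorem main : ∀ d r : ℕ, 2 ≤ d → 3 ≤ r → r ≤ 2 * d - 1 →
    (fun n : ℕ => (maxTime d r n : ℝ)) =Θ[atTop] (fun n : ℕ => (n : ℝ) ^ d) := by
  intro d r hd h3 hr
  constructor
  · refine IsBigO.of_bound 1 (Eventually.of_forall fun n => ?_)
    rw [one_mul, Real.norm_of_nonneg (by positivity), Real.norm_of_nonneg (by positivity)]
    exact_mod_cast maxTime_le d r n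
  · obtain ⟨C, hC⟩ := slow_all d r h3 (by omega)
    refine IsBigO.of_bound C ?_
    filter_upwards [eventually_ge_atTop 24] with n hn
    rw [Real.norm_of_nonneg (by positivity), Real.norm_of_nonneg (by positivity)]
    obtain ⟨T, hT, hs⟩ := hC n hn
    have h1 : n ^ d ≤ C * maxTime d r n := hT.trans (Nat.mul_le_mul_left _ (le_maxTime hs))
    exact_mod_cast h1

end Pool.Agent.Helper19.PercRes
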