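import Mathlib
import Pool.Agent.Helper19.PercFinal
import Pool.Agent.Helper50.PercB
import Pool.Agent.Helper50.PercC

/-!
# The maximum percolation time of three-neighbour bootstrap percolation on the square grid
-/

namespace Pool.Agent.Helper19.PlaneRes

open Pool.Agent.Helper19.Perco Pool.Agent.Helper50.PercC

/-- The grid graph on `Fin d → Fin n`: two points are adjacent when they differ by one in
exactly one coordinate and agree in all others. -/
def grid (d n : ℕ) : SimpleGraph (Fin d → Fin n) where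
  Adj x y := ∃ i, ((x i : ℕ) + 1 = y i ∨ (y i : ℕ) + 1 = x i) ∧ ∀ j, j ≠ i → x j = y j
  symm := ⟨by
    rintro x y ⟨i, h1, h2⟩
    exact ⟨i, h1.symm, fun j hj => (h2 j hj).symm⟩⟩
  loopless := ⟨by
    rintro x ⟨i, h1, h2⟩
    omega⟩

/-- The `r`-neighbour bootstrap process on the grid started from `A`. -/
def infected (d r n : ℕ) (A : Set (Fin d → Fin n)) : ℕ → Set (Fin d → Fin n)
  | 0 => A
  | t + 1 => infected d r n A t ∪
      {v | r ≤ ((grid d n).neighborSet v ∩ infected d r n A t).ncard}

/-- `A` percolates: every vertex is infected at some time. -/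
def Percolates (d r n : ℕ) (A : Set (Fin d → Fin n)) : Prop :=
  ⋃ t, infected d r n A t = Set.univ

/-- The percolation time of `A`. -/
noncomputable def percTime (d r n : ℕ) (A : Set (Fin d → Fin n)) : ℕ :=
  sInf {t | infected d r n A t = Set.univ}

/-- The maximum percolation time. -/
noncomputable def maxTime (d r n : ℕ) : ℕ :=
  sSup {T | ∃ A, Percolates d r n A ∧ percTime d r n A = T}

theorem infected_eq (d r n : ℕ) (A : Set (Fin d → Fin n)) (t : ℕ) :
    infected d r n A t = proc (Gd d n) r A t := by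
  induction t with
  | zero => rfl
  | succ t ih =>
    have h : infected d r n A (t + 1) = infected d r n A t ∪
      {v | r ≤ ((grid d n).neighborSet v ∩ infected d r n A t).ncard} := rfl
    rw [h, ih]
    rfl

theorem exists_univ {d r n : ℕ} {A : Set (Fin d → Fin n)} (h : Percolates d r n A) :
    ∃ t, infected d r n A t = Set.univ := by
  obtain ⟨t, ht⟩ := exists_proc_closed (Gd d n) r A
  refine ⟨t, Set.eq_univ_of_forall fun v => ?_⟩
  have hv : v ∈ ⋃ t, infected d r n A t := by rw [h]; exact Set.mem_univ v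
  obtain ⟨s, hs⟩ := Set.mem_iUnion.1 hv
  rw [infected_eq] at hs ⊢
  have hall : ∀ s, proc (Gd d n) r (proc (Gd d n) r A t) s ⊆ proc (Gd d n) r A t := fun s =>
    proc_subset_closed (Gd d n) r _ _ subset_rfl ht s
  have : proc (Gd d n) r A s ⊆ proc (Gd d n) r A t := by
    rcases le_total s t with hst | hst
    · exact proc_mono_time _ _ _ hst
    · obtain ⟨u, rfl⟩ := Nat.exists_eq_add_of_le hst
      rw [proc_add]
      exact hall u
  exact this hs

/-- each infection uses `r` edges -/
theorem percTime_mul_le {d r n : ℕ} {A : Set (Fin d → Fin n)} (h : Percolates d r n A) :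
    r * percTime d r n A ≤ d * n ^ d := by
  have hex := exists_univ h
  have hT : infected d r n A (percTime d r n A) = Set.univ := Nat.sInf_mem hex
  have hne : ∀ t < percTime d r n A, proc (Gd d n) r A (t + 1) ≠ proc (Gd d n) r A t := by
    intro t ht heq
    -- the process is stationary from time `t`
    have hst : Closed (Gd d n) r (proc (Gd d n) r A t) := by
      intro v hv
      rw [← heq]
      exact Or.inr hv
    have hall : proc (Gd d n) r A (percTime d r n A) ⊆ proc (Gd d n) r A t := by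
      obtain ⟨u, hu⟩ := Nat.exists_eq_add_of_le ht.le
      rw [hu, proc_add]
      exact proc_subset_closed (Gd d n) r _ _ subset_rfl hst u
    have h2 : infected d r n A t = Set.univ := by
      apply Set.eq_univ_of_univ_subset
      rw [← hT, infected_eq, infected_eq]
      exact hall
    have h3 : percTime d r n A ≤ t := Nat.sInf_le h2
    omega
  have h1 := inE_proc (Gd d n) r A hne _ le_rfl
  rw [← infected_eq, hT] at h1
  have h2 := inE_grid d n
  have h3 : 2 * (r * percTime d r n A) ≤ 2 * (d * n ^ d) := by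
    calc 2 * (r * percTime d r n A) = 2 * r * percTime d r n A := by ring
      _ ≤ 2 * d * n ^ d := h1.trans h2
      _ = 2 * (d * n ^ d) := by ring
  omega

theorem percTime_bdd {d r n : ℕ} (hr : 0 < r) :
    BddAbove {T | ∃ A, Percolates d r n A ∧ percTime d r n A = T} := by
  refine ⟨d * n ^ d, ?_⟩
  rintro T ⟨A, hA, rfl⟩
  exact (Nat.le_mul_of_pos_left _ hr).trans (percTime_mul_le hA)

/-- the upper bound for all `d` and `r` -/
theorem maxTime_mul_le (d r n : ℕ) : r * maxTime d r n ≤ d * n ^ d := by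
  rcases Nat.eq_zero_or_pos r with rfl | hr
  · simp
  unfold maxTime
  rcases Set.eq_empty_or_nonempty {T | ∃ A, Percolates d r n A ∧ percTime d r n A = T} with h | h
  · rw [h]; simp
  · obtain ⟨A, hA, hT⟩ := Nat.sSup_mem h (percTime_bdd hr)
    rw [← hT]
    exact percTime_mul_le hA

theorem le_maxTime {d r n T : ℕ} (hr : 0 < r) (h : Slow (Gd d n) r T) :
    T < maxTime d r n := by
  obtain ⟨A, hA, v, hv⟩ := h
  obtain ⟨t, ht⟩ := (perc_iff (Gd d n) r A).1 hA
  have hperc : Percolates d r n A := by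
    apply Set.eq_univ_of_forall
    intro w
    refine Set.mem_iUnion.2 ⟨t, ?_⟩
    rw [infected_eq, ht]; exact Set.mem_univ w
  have h1 : T < percTime d r n A := by
    by_contra hlt
    push Not at hlt
    have hT : infected d r n A (percTime d r n A) = Set.univ := Nat.sInf_mem (exists_univ hperc)
    apply hv
    apply proc_mono_time (Gd d n) r A hlt
    rw [← infected_eq, hT]; exact Set.mem_univ v
  exact lt_of_lt_of_le h1 (le_csSup (percTime_bdd hr) ⟨A, hperc, rfl⟩)

/-- the square grid is the grid of dimension two -/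
def sqIso (n : ℕ) : Sq n ≃g Gd 2 n :=
  (boxCongr SimpleGraph.Iso.refl (oneIso n)).trans (consIso 1 n).symm

/-- `M_3^2(n) = (2/3) n² + O(n)`. -/
theorem main : ∀ n : ℕ, 2 / 3 * (n : ℝ) ^ 2 - 16 * n ≤ maxTime 2 3 n ∧
    (maxTime 2 3 n : ℝ) ≤ 2 / 3 * (n : ℝ) ^ 2 := by
  intro n
  have hup := maxTime_mul_le 2 3 n
  have hup' : (3 : ℝ) * maxTime 2 3 n ≤ 2 * (n : ℝ) ^ 2 := by exact_mod_cast hup
  refine ⟨?_, by linarith⟩
  have hn0 : (0 : ℝ) ≤ n := Nat.cast_nonneg n
  have hM0 : (0 : ℝ) ≤ maxTime 2 3 n := Nat.cast_nonneg _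
  rcases Nat.lt_or_ge n 5 with h5 | h5
  · have h5' : (n : ℝ) ≤ 5 := by exact_mod_cast h5.le
    nlinarith
  · obtain ⟨j, hj⟩ : ∃ j, j = (n - 5) / 6 := ⟨_, rfl⟩
    have h1 : 6 * j + 5 ≤ n := by omega
    have h2 : n ≤ 6 * j + 10 := by omega
    have htc : 0 < 2 * tc (2 * j + 1) := by
      have := tc_ge (m := 2 * j + 1) (by omega)
      omega
    obtain ⟨T, hT⟩ : ∃ T : ℕ, (T : ℤ) = 2 * tc (2 * j + 1) - 1 :=
      ⟨(2 * tc (2 * j + 1) - 1).toNat, by omega⟩
    have hs := slow_sq (n := n) h1 T (by omega)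
    have hlt := le_maxTime (by norm_num) (hs.iso (sqIso n))
    have h3 : 2 * tc (2 * j + 1) ≤ (maxTime 2 3 n : ℤ) := by omega
    have h4 : 2 * tc (2 * j + 1) = 24 * (j : ℤ) ^ 2 + 16 * j + 6 := by
      unfold tc g
      ring
    rw [h4] at h3
    have h5 : (24 * (j : ℝ) ^ 2 + 16 * j + 6 : ℝ) ≤ maxTime 2 3 n := by exact_mod_cast h3
    have h1' : (6 * j + 5 : ℝ) ≤ n := by exact_mod_cast h1
    have h2' : (n : ℝ) ≤ 6 * j + 10 := by exact_mod_cast h2
    have hj0 : (0 : ℝ) ≤ j := Nat.cast_nonneg j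
    nlinarith

end Pool.Agent.Helper19.PlaneRes
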